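import Pool.Agent.H612.OslpMain
import Pool.Agent.H612.CollectPoly

/-!
# The program of a system is well-formed and computable in polynomial time
-/

namespace Pool.Agent.NPC.ER.Oslp

open Pool.Agent.NPC Pool.Agent.NPC.ER

/-! ### Well-formedness -/

/-- Usable pairs of indices. -/
def Okq (n : ℕ) (d : ℕ × ℕ) : Prop := 0 < d.1 ∧ d.1 < d.2 ∧ d.2 ≤ n

theorem Okq.mono {n m : ℕ} {d : ℕ × ℕ} (h : Okq n d) (hm : n ≤ m) : Okq m d :=
  ⟨h.1, h.2.1, h.2.2.trans hm⟩

theorem wf_chain : ∀ {L : List (ℕ × ℕ)} {n : ℕ}, (∀ d ∈ L, Okq n d) → WF (n + 1) (chain L n)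
  | [], _, _ => trivial
  | d :: L, n, h => by
    obtain ⟨h1, h2, h3⟩ := h d List.mem_cons_self
    exact ⟨⟨h1, h2, by omega, by omega, by omega⟩,
      wf_chain fun d hd => (h d (List.mem_cons_of_mem _ hd)).mono (by omega)⟩

theorem wf_ineq {L R : List (ℕ × ℕ)} {n : ℕ} (hn : 0 < n) (hL0 : 0 < L.length)
    (hR0 : 0 < R.length) (hL : ∀ d ∈ L, Okq n d) (hR : ∀ d ∈ R, Okq n d) :
    WF (n + 1) (ineq L R n) := by
  unfold ineq
  rw [wf_append, wf_append, chain_length, chain_length]
  refine ⟨wf_chain hL, ?_, ?_, ?_, trivial⟩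
  · rw [show n + 1 + L.length = n + L.length + 1 by omega]
    exact wf_chain fun d hd => (hR d hd).mono (by omega)
  · exact ⟨hn, by omega, by omega, by omega, by omega⟩
  · exact ⟨by omega, by omega, by omega, by omega, by omega⟩

theorem wf_prod {a b : ℕ × ℕ} {n : ℕ} (hn : 2 ≤ n) (ha : Okq n a) (hb : Okq n b) :
    WF (n + 1) (prod a b n) := by
  obtain ⟨a0, a1, a2⟩ := ha
  obtain ⟨b0, b1, b2⟩ := hb
  refine ⟨?_, ?_, ?_, ?_, ?_, trivial⟩
  all_goals exact ⟨by omega, by omega, by omega, by omega, by omega⟩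

theorem wf_cblk {X : ℕ → ℕ × ℕ} {c : Con} {n : ℕ} (hn : 6 ≤ n) (hX : ∀ i ∈ c.vars, Okq n (X i)) :
    WF (n + 1) (cblk X c n) := by
  have hf1 : (fac c).1 ∈ c.vars := by cases c <;> simp [fac, Con.vars]
  have hf2 : (fac c).2 ∈ c.vars := by cases c <;> simp [fac, Con.vars]
  have hcok : ∀ k ∈ [2, 3, 4, 5, 6], Okq (n + 5) (1, k) := by
    intro k hk
    simp only [List.mem_cons, List.not_mem_nil, or_false] at hk
    exact ⟨by norm_num, by simp only; omega, by simp only; omega⟩
  have hδok : Okq (n + 5) (2, 3) := ⟨by norm_num, by norm_num, by simp only; omega⟩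
  have hXok : ∀ i ∈ c.vars, Okq (n + 5) (X i) := fun i hi => (hX i hi).mono (by omega)
  have hPok : Okq (n + 5) (n + 4, n + 5) := ⟨by simp only; omega, by simp only; omega, le_rfl⟩
  have hL : ∀ d ∈ (LR X (n + 4, n + 5) c).1, Okq (n + 5) d := by
    intro d hd
    cases c with
    | one i =>
      simp only [LR, List.mem_cons, List.not_mem_nil, or_false] at hd
      rcases hd with rfl | rfl | rfl | rfl | rfl | rfl <;> exact hcok _ (by simp)
    | add i j k =>
      simp only [LR, List.mem_cons, List.not_mem_nil, or_false] at hd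
      rcases hd with rfl | rfl | rfl | rfl | rfl | rfl
      · exact hXok _ (by simp [Con.vars])
      · exact hXok _ (by simp [Con.vars])
      all_goals exact hcok _ (by simp)
    | mul i j k =>
      simp only [LR, List.mem_cons, List.not_mem_nil, or_false] at hd
      rcases hd with rfl | rfl | rfl | rfl | rfl | rfl
      · exact hPok
      all_goals exact hcok _ (by simp)
  have hR : ∀ d ∈ (LR X (n + 4, n + 5) c).2, Okq (n + 5) d := by
    intro d hd
    cases c with
    | one i =>
      simp only [LR, List.mem_cons, List.not_mem_nil, or_false] at hd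
      rcases hd with rfl | rfl | rfl | rfl | rfl | rfl | rfl | rfl | rfl | rfl | rfl
      all_goals first
        | exact hXok _ (by simp [Con.vars])
        | exact hcok _ (by simp)
    | add i j k =>
      simp only [LR, List.mem_cons, List.not_mem_nil, or_false] at hd
      rcases hd with rfl | rfl | rfl | rfl | rfl | rfl | rfl | rfl | rfl | rfl | rfl
      all_goals first
        | exact hXok _ (by simp [Con.vars])
        | exact hcok _ (by simp)
    | mul i j k =>
      simp only [LR, List.mem_cons, List.not_mem_nil, or_false] at hd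
      rcases hd with rfl | rfl | rfl | rfl | rfl | rfl | rfl | rfl | rfl | rfl | rfl
      all_goals exact hXok _ (by simp [Con.vars])
  unfold cblk
  rw [wf_append, wf_append]
  refine ⟨wf_prod (by omega) (hX _ hf1) (hX _ hf2), ?_, ?_⟩
  · exact wf_ineq (n := n + 5) (by omega) (by rw [LR_length1]; norm_num) (by simp) hL (by
      intro d hd
      rcases List.mem_append.1 hd with hd | hd
      · exact hR d hd
      · simp only [List.mem_cons, List.not_mem_nil, or_false] at hd
        rw [hd]; exact hδok)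
  · have := wf_ineq (n := n + 25) (L := (LR X (n + 4, n + 5) c).2)
      (R := (LR X (n + 4, n + 5) c).1 ++ [(2, 3)]) (by omega) (by rw [LR_length2]; norm_num)
      (by simp) (fun d hd => (hR d hd).mono (by omega)) (by
      intro d hd
      rcases List.mem_append.1 hd with hd | hd
      · exact (hL d hd).mono (by omega)
      · simp only [List.mem_cons, List.not_mem_nil, or_false] at hd
        rw [hd]; exact hδok.mono (by omega))
    convert this using 1
    rw [ineq_length, List.length_append, LR_length1, LR_length2]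
    rfl

theorem wf_cblks {X : ℕ → ℕ × ℕ} : ∀ {S : List Con} {n : ℕ}, 6 ≤ n →
    (∀ c ∈ S, ∀ i ∈ c.vars, Okq n (X i)) → WF (n + 1) (cblks X S n)
  | [], n, _, _ => trivial
  | c :: S, n, hn, h => by
    rw [List.forall_mem_cons] at h
    rw [cblks, wf_append, cblk_length]
    refine ⟨wf_cblk hn h.1, ?_⟩
    rw [show n + 1 + 45 = n + 45 + 1 by omega]
    exact wf_cblks (by omega) fun c hc i hi => (h.2 c hc i hi).mono (by omega)

theorem wf_vblks : ∀ {m s : ℕ}, 6 ≤ s → WF (s + 1) (vblks m s)
  | 0, _, _ => trivial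
  | m + 1, s, hs => by
    rw [vblks, wf_append]
    refine ⟨⟨⟨by omega, by omega, by omega, by omega, by omega⟩, trivial,
      ⟨by omega, by omega, by omega, by omega, by omega⟩, trivial⟩, ?_⟩
    have : (vblk s).length = 3 := rfl
    rw [this, show s + 1 + 3 = s + 3 + 1 by omega]
    exact wf_vblks (by omega)

theorem wf_sqs : ∀ {k n : ℕ}, 3 ≤ n → WF (n + 1) (sqs k n)
  | 0, _, _ => trivial
  | k + 1, n, hn => ⟨⟨by omega, by omega, by omega, by omega, by omega⟩, wf_sqs (by omega)⟩

theorem wf_prog (S : List Con) : WF 2 (prog S) := by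
  unfold prog prog0
  set S' := bsys S
  set κ := gapK S'.length with hκ
  have hκ2 : 2 ≤ κ := by rw [hκ]; unfold gapK; omega
  rw [wf_append, wf_append, pre_length, vblks_length]
  refine ⟨?_, ?_, ?_⟩
  · unfold pre
    rw [wf_append, wf_append, sqs_length]
    refine ⟨⟨trivial, trivial, ⟨by omega, by omega, by omega, by omega, by omega⟩, trivial⟩,
      wf_sqs (by norm_num), ?_⟩
    rw [show 2 + [none, none, some (0, 1, 2, 2)].length + κ = 5 + κ by rfl]
    exact ⟨⟨by omega, by omega, by omega, by omega, by omega⟩,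
      ⟨by omega, by omega, by omega, by omega, by omega⟩, trivial⟩
  · rw [show 2 + (κ + 5) = 6 + κ + 1 by omega]
    exact wf_vblks (by omega)
  · rw [show 2 + (κ + 5) + 3 * (svars S').length = 6 + κ + 3 * (svars S').length + 1 by omega]
    refine wf_cblks (by omega) fun c hc i hi => ?_
    have hi' : (svars S').idxOf i < (svars S').length :=
      List.idxOf_lt_length_of_mem (mem_svars hc hi)
    exact ⟨by simp only [xvar]; omega, by simp only [xvar]; omega, by simp only [xvar]; omega⟩

/-! ### Polynomial time -/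

section

variable {α : Type} [TEnc α]

theorem poly_ins {o l i j : α → ℕ} (ho : Poly o) (hl : Poly l) (hi : Poly i) (hj : Poly j) :
    Poly (fun a => (some (o a, l a, i a, j a) : Ins)) :=
  Poly.some (ho.pair (hl.pair (hi.pair hj)))

theorem poly_addk {n : α → ℕ} (hn : Poly n) (k : ℕ) : Poly (fun a => n a + k) :=
  Poly.add hn (Poly.const k)

theorem poly_prod {A B : α → ℕ × ℕ} {n : α → ℕ} (hA : Poly A) (hB : Poly B) (hn : Poly n) :
    Poly (fun a => prod (A a) (B a) (n a)) := by
  have c0 : Poly (fun _ : α => 0) := Poly.const 0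
  have c1 : Poly (fun _ : α => 1) := Poly.const 1
  have c2 : Poly (fun _ : α => 2) := Poly.const 2
  exact Poly.cons (poly_ins c0 c1 c2 hn) (Poly.cons (poly_ins c0 (Poly.fst hA) (Poly.snd hA) hn)
    (Poly.cons (poly_ins c0 (Poly.fst hB) (Poly.snd hB) (poly_addk hn 2))
    (Poly.cons (poly_ins hn (poly_addk hn 1) (poly_addk hn 2) (poly_addk hn 2))
    (Poly.cons (poly_ins hn (poly_addk hn 1) (poly_addk hn 2) (poly_addk hn 3))
      (Poly.const [])))))

theorem chain_eq : ∀ (L : List (ℕ × ℕ)) (n k : ℕ), chain L (n + k) =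
    (L.zipIdx k).map (fun p => (some (0, p.1.1, p.1.2, n + p.2) : Ins))
  | [], n, k => rfl
  | d :: L, n, k => by
    rw [chain, List.zipIdx_cons, List.map_cons, show n + k + 1 = n + (k + 1) by omega, chain_eq]

theorem poly_chain {L : α → List (ℕ × ℕ)} {n : α → ℕ} (hL : Poly L) (hn : Poly n) :
    Poly (fun a => chain (L a) (n a)) := by
  refine (Poly.map (F := fun a (p : (ℕ × ℕ) × ℕ) => (some (0, p.1.1, p.1.2, n a + p.2) : Ins))
    (Poly.zipIdx hL) ?_).congr fun a => (chain_eq (L a) (n a) 0).symm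
  exact poly_ins (Poly.const 0) (Poly.fst (Poly.fst (Poly.snd Poly.id)))
    (Poly.snd (Poly.fst (Poly.snd Poly.id)))
    (Poly.add (hn.comp (Poly.fst Poly.id)) (Poly.snd (Poly.snd Poly.id)))

theorem poly_ineq {L R : α → List (ℕ × ℕ)} {n : α → ℕ} (hL : Poly L) (hR : Poly R)
    (hn : Poly n) : Poly (fun a => ineq (L a) (R a) (n a)) := by
  have h1 : Poly (fun a => n a + (L a).length) := Poly.add hn (Poly.length hL)
  have h2 : Poly (fun a => n a + (L a).length + (R a).length) := Poly.add h1 (Poly.length hR)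
  exact Poly.append (poly_chain hL hn) (Poly.append (poly_chain hR h1)
    (Poly.cons (poly_ins (Poly.const 0) hn h1 h2) (Poly.cons (poly_ins (Poly.const 0) h1 h2 h2)
      (Poly.const []))))

theorem poly_xvar {s : α → ℕ} {vs : α → List ℕ} {i : α → ℕ} (hs : Poly s) (hvs : Poly vs)
    (hi : Poly i) : Poly (fun a => xvar (s a) (vs a) (i a)) := by
  have h := Poly.add hs (Poly.mul (Poly.const 3) (H612.poly_idxOf hvs hi))
  exact h.pair (poly_addk h 2)

theorem LR_eq (X : ℕ → ℕ × ℕ) (P : ℕ × ℕ) (c : Con) : LR X P c =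
    if c.code.1 = 0 then ([(1, 6), (1, 6), (1, 5), (1, 5), (1, 2), (1, 5)],
      [X c.code.2.1, X c.code.2.1, X c.code.2.1, X c.code.2.1, X c.code.2.1, X c.code.2.1,
        X c.code.2.1, X c.code.2.1, (1, 4), (1, 2), (1, 2)])
    else if c.code.1 = 1 then
      ([X c.code.2.1, X c.code.2.2.1, (1, 2), (1, 2), (1, 4), (1, 5)],
      [X c.code.2.2.2, (1, 5), (1, 2), (1, 2), (1, 2), (1, 2), (1, 2), (1, 2), (1, 2), (1, 2),
        (1, 2)])
    else ([P, (1, 6), (1, 5), (1, 5), (1, 5), (1, 4)],
      [X c.code.2.1, X c.code.2.1, X c.code.2.1, X c.code.2.1, X c.code.2.1, X c.code.2.2.1,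
        X c.code.2.2.1, X c.code.2.2.1, X c.code.2.2.1, X c.code.2.2.1, X c.code.2.2.2]) := by
  cases c <;> rfl

theorem fac_eq (c : Con) : fac c =
    if c.code.1 = 0 then (c.code.2.1, c.code.2.1) else (c.code.2.1, c.code.2.2.1) := by
  cases c <;> rfl

theorem poly_fac {c : α → Con} (hc : Poly c) : Poly (fun a => fac (c a)) := by
  have h0 : Poly (fun a => (c a).code) := poly_con_code hc
  have h1 : Poly (fun a => (c a).code.1) := Poly.fst h0
  have h2 : Poly (fun a => (c a).code.2.1) := Poly.fst (Poly.snd h0)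
  have h3 : Poly (fun a => (c a).code.2.2.1) := Poly.fst (Poly.snd (Poly.snd h0))
  exact (Poly.ite (Poly.decide_eq h1 (Poly.const 0)) (h2.pair h2) (h2.pair h3)).congr
    fun a => (fac_eq (c a)).symm

theorem poly_LR {s : α → ℕ} {vs : α → List ℕ} {P : α → ℕ × ℕ} {c : α → Con} (hs : Poly s)
    (hvs : Poly vs) (hP : Poly P) (hc : Poly c) :
    Poly (fun a => LR (xvar (s a) (vs a)) (P a) (c a)) := by
  have h0 : Poly (fun a => (c a).code) := poly_con_code hc
  have h1 : Poly (fun a => (c a).code.1) := Poly.fst h0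
  have xi := poly_xvar hs hvs (Poly.fst (Poly.snd h0))
  have xj := poly_xvar hs hvs (Poly.fst (Poly.snd (Poly.snd h0)))
  have xk := poly_xvar hs hvs (Poly.snd (Poly.snd (Poly.snd h0)))
  have nl : Poly (fun _ : α => ([] : List (ℕ × ℕ))) := Poly.const []
  have c2 : Poly (fun _ : α => ((1, 2) : ℕ × ℕ)) := Poly.const _
  have c4 : Poly (fun _ : α => ((1, 4) : ℕ × ℕ)) := Poly.const _
  have c5 : Poly (fun _ : α => ((1, 5) : ℕ × ℕ)) := Poly.const _
  have c6 : Poly (fun _ : α => ((1, 6) : ℕ × ℕ)) := Poly.const _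
  refine (Poly.ite (Poly.decide_eq h1 (Poly.const 0)) (Poly.pair ?_ ?_)
    (Poly.ite (Poly.decide_eq h1 (Poly.const 1)) (Poly.pair ?_ ?_) (Poly.pair ?_ ?_))).congr
      fun a => (LR_eq _ _ (c a)).symm
  · exact Poly.const _
  · exact Poly.cons xi (Poly.cons xi (Poly.cons xi (Poly.cons xi (Poly.cons xi (Poly.cons xi
      (Poly.cons xi (Poly.cons xi (Poly.cons c4 (Poly.cons c2 (Poly.cons c2 nl))))))))))
  · exact Poly.cons xi (Poly.cons xj (Poly.cons c2 (Poly.cons c2 (Poly.cons c4 (Poly.cons c5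
      nl)))))
  · exact Poly.cons xk (Poly.cons c5 (Poly.cons c2 (Poly.cons c2 (Poly.cons c2 (Poly.cons c2
      (Poly.cons c2 (Poly.cons c2 (Poly.cons c2 (Poly.cons c2 (Poly.cons c2 nl))))))))))
  · exact Poly.cons hP (Poly.cons c6 (Poly.cons c5 (Poly.cons c5 (Poly.cons c5 (Poly.cons c4
      nl)))))
  · exact Poly.cons xi (Poly.cons xi (Poly.cons xi (Poly.cons xi (Poly.cons xi (Poly.cons xj
      (Poly.cons xj (Poly.cons xj (Poly.cons xj (Poly.cons xj (Poly.cons xk nl))))))))))

theorem poly_cblk {s : α → ℕ} {vs : α → List ℕ} {c : α → Con} {n : α → ℕ} (hs : Poly s)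
    (hvs : Poly vs) (hc : Poly c) (hn : Poly n) :
    Poly (fun a => cblk (xvar (s a) (vs a)) (c a) (n a)) := by
  have hf := poly_fac hc
  have hLR := poly_LR hs hvs ((poly_addk hn 4).pair (poly_addk hn 5)) hc
  have hd : Poly (fun _ : α => [((2, 3) : ℕ × ℕ)]) := Poly.const _
  exact Poly.append (poly_prod (poly_xvar hs hvs (Poly.fst hf)) (poly_xvar hs hvs (Poly.snd hf)) hn)
    (Poly.append (poly_ineq (Poly.fst hLR) (Poly.append (Poly.snd hLR) hd) (poly_addk hn 5))
      (poly_ineq (Poly.snd hLR) (Poly.append (Poly.fst hLR) hd) (poly_addk hn 25)))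

theorem cblks_eq (X : ℕ → ℕ × ℕ) : ∀ (S : List Con) (n k : ℕ), cblks X S (n + 45 * k) =
    (S.zipIdx k).flatMap (fun p => cblk X p.1 (n + 45 * p.2))
  | [], _, _ => rfl
  | c :: S, n, k => by
    rw [cblks, List.zipIdx_cons, List.flatMap_cons,
      show n + 45 * k + 45 = n + 45 * (k + 1) by omega, cblks_eq]

theorem vblks_eq : ∀ (m s k : ℕ), vblks m (s + 3 * k) =
    (List.range' k m).flatMap (fun t => vblk (s + 3 * t))
  | 0, _, _ => rfl
  | m + 1, s, k => by
    rw [vblks, List.range'_succ, List.flatMap_cons,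
      show s + 3 * k + 3 = s + 3 * (k + 1) by omega, vblks_eq]

theorem sqs_eq : ∀ (k n t : ℕ), sqs k (n + t) =
    (List.range' t k).map (fun j => (some (1, 2, n + j, n + j) : Ins))
  | 0, _, _ => rfl
  | k + 1, n, t => by
    rw [sqs, List.range'_succ, List.map_cons, show n + t + 1 = n + (t + 1) by omega, sqs_eq]

theorem poly_vblk {s : α → ℕ} (hs : Poly s) : Poly (fun a => vblk (s a)) :=
  Poly.cons (poly_ins (Poly.const 0) (Poly.const 1) (Poly.const 5) hs)
    (Poly.cons (Poly.const none)
      (Poly.cons (poly_ins (Poly.const 0) (Poly.const 1) (Poly.const 4) (poly_addk hs 1))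
        (Poly.const [])))

theorem poly_svars {S : α → List Con} (hS : Poly S) : Poly (fun a => svars (S a)) := by
  refine Poly.flatMap (F := fun _ c => Con.vars c) hS ?_
  have h0 : Poly (fun p : α × Con => p.2.code) := poly_con_code (Poly.snd Poly.id)
  have h1 := Poly.fst (Poly.snd h0)
  refine (Poly.ite (Poly.decide_eq (Poly.fst h0) (Poly.const 0)) (Poly.cons h1 (Poly.const []))
    (Poly.cons h1 (Poly.cons (Poly.fst (Poly.snd (Poly.snd h0)))
      (Poly.cons (Poly.snd (Poly.snd (Poly.snd h0))) (Poly.const []))))).congr fun a => ?_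
  cases a.2 <;> rfl

/-- **Polynomial time.** -/
theorem poly_prog {S : α → List Con} (hS : Poly S) : Poly (fun a => prog (S a)) := by
  have hS' : Poly (fun a => bsys (S a)) := poly_bsys hS
  have hκ : UPoly (fun a => gapK (bsys (S a)).length) :=
    UPoly.add (UPoly.mul (UPoly.const 11) (UPoly.length hS')) (UPoly.const 7)
  have hκ' := hκ.toPoly
  have hvs : Poly (fun a => svars (bsys (S a))) := poly_svars hS'
  have h6 : Poly (fun a => 6 + gapK (bsys (S a)).length) := Poly.add (Poly.const 6) hκ'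
  refine Poly.append ?_ (Poly.append ?_ ?_)
  · refine Poly.append (Poly.const _) (Poly.append ?_ ?_)
    · refine (Poly.map (F := fun _ j => (some (1, 2, 4 + j, 4 + j) : Ins)) hκ.range ?_).congr
        fun a => ?_
      · have h4 : Poly (fun p : α × ℕ => 4 + p.2) := Poly.add (Poly.const 4) (Poly.snd Poly.id)
        exact poly_ins (Poly.const 1) (Poly.const 2) h4 h4
      · rw [List.range_eq_range']
        exact (sqs_eq _ 4 0).symm
    · have h4 : Poly (fun a => 4 + gapK (bsys (S a)).length) := Poly.add (Poly.const 4) hκ'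
      exact Poly.cons (poly_ins (Poly.const 1) (Poly.const 2) (Poly.const 3) h4)
        (Poly.cons (poly_ins (Poly.const 0) (Poly.const 1) (Poly.const 2) h4) (Poly.const []))
  · refine (Poly.flatMap (F := fun a t => vblk (6 + gapK (bsys (S a)).length + 3 * t))
      (UPoly.range (UPoly.length hvs)) ?_).congr fun a => ?_
    · exact poly_vblk (Poly.add (h6.comp (Poly.fst Poly.id))
        (Poly.mul (Poly.const 3) (Poly.snd Poly.id)))
    · rw [List.range_eq_range']
      exact (vblks_eq _ _ 0).symm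
  · refine (Poly.flatMap (F := fun a (p : Con × ℕ) =>
      cblk (xvar (6 + gapK (bsys (S a)).length) (svars (bsys (S a)))) p.1
        (6 + gapK (bsys (S a)).length + 3 * (svars (bsys (S a))).length + 45 * p.2))
      (Poly.zipIdx hS') ?_).congr fun a => ?_
    · have g : Poly (fun p : α × (Con × ℕ) => p.1) := Poly.fst Poly.id
      exact poly_cblk (h6.comp g) (hvs.comp g) (Poly.fst (Poly.snd Poly.id))
        (Poly.add (Poly.add (h6.comp g) (Poly.mul (Poly.const 3) (Poly.length (hvs.comp g))))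
          (Poly.mul (Poly.const 45) (Poly.snd (Poly.snd Poly.id))))
    · exact (cblks_eq _ _ _ 0).symm

end

end Pool.Agent.NPC.ER.Oslp
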