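import Pool.Agent.ER.Dec
import Pool.Agent.H612.CollectPoly

/-!
# Polynomial-time construction of terms and formulas
-/

namespace Pool.Agent.NPC.H612

open Pool.Agent.NPC.ER

theorem tm_toks_injective : Function.Injective Tm.toks := by
  intro φ ψ h
  have h1 := φ.parse []
  rw [h, ψ.parse] at h1
  simpa using h1.symm

/-- Terms are encoded by their reverse Polish notation. -/
instance : TEnc Tm := ⟨fun φ => toT φ.toks, fun _ _ h => tm_toks_injective (TEnc.inj h)⟩

/-- The true formula `0 = 0`. -/
def tt : Fm := Fm.eq Tm.zero Tm.zero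

theorem holds_tt (x : ℕ → ℝ) : tt.Holds x := by simp [tt, Fm.Holds]

/-- Conjunction of a list of formulas. -/
def conj (l : List Fm) : Fm := l.foldr Fm.and tt

theorem holds_conj (x : ℕ → ℝ) (l : List Fm) : (conj l).Holds x ↔ ∀ φ ∈ l, φ.Holds x := by
  induction l with
  | nil => simp [conj, holds_tt]
  | cons a l ih =>
      change (a.Holds x ∧ (conj l).Holds x) ↔ _
      rw [ih]
      simp

theorem toks_conj (l : List Fm) : (conj l).toks =
    l.flatMap Fm.toks ++ tt.toks ++ List.replicate l.length Tok.and := by
  induction l with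
  | nil => simp [conj]
  | cons a l ih =>
      change a.toks ++ (conj l).toks ++ [Tok.and] = _
      rw [ih]
      simp [List.replicate_succ']

/-- Sum of a list of terms. -/
def sumT (l : List Tm) : Tm := l.foldr Tm.add Tm.zero

theorem eval_sumT (x : ℕ → ℝ) (l : List Tm) : (sumT l).eval x = (l.map (Tm.eval x)).sum := by
  induction l with
  | nil => simp [sumT, Tm.eval]
  | cons a l ih =>
      change a.eval x + (sumT l).eval x = _
      rw [ih]
      simp

theorem toks_sumT (l : List Tm) : (sumT l).toks =
    l.flatMap Tm.toks ++ Tm.zero.toks ++ List.replicate l.length Tok.add := by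
  induction l with
  | nil => simp [sumT]
  | cons a l ih =>
      change a.toks ++ (sumT l).toks ++ [Tok.add] = _
      rw [ih]
      simp [List.replicate_succ']

/-- Product of a list of terms. -/
def prodT (l : List Tm) : Tm := l.foldr Tm.mul Tm.one

theorem eval_prodT (x : ℕ → ℝ) (l : List Tm) : (prodT l).eval x = (l.map (Tm.eval x)).prod := by
  induction l with
  | nil => simp [prodT, Tm.eval]
  | cons a l ih =>
      change a.eval x * (prodT l).eval x = _
      rw [ih]
      simp

theorem toks_prodT (l : List Tm) : (prodT l).toks =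
    l.flatMap Tm.toks ++ Tm.one.toks ++ List.replicate l.length Tok.mul := by
  induction l with
  | nil => simp [prodT]
  | cons a l ih =>
      change a.toks ++ (prodT l).toks ++ [Tok.mul] = _
      rw [ih]
      simp [List.replicate_succ']

section Closure

variable {α : Type} [TEnc α]

theorem tm_of_toks {t : α → Tm} (h : Poly (fun a => (t a).toks)) : Poly t := h

theorem fm_of_toks {t : α → Fm} (h : Poly (fun a => (t a).toks)) : Poly t := h

theorem tm_toks {t : α → Tm} (h : Poly t) : Poly (fun a => (t a).toks) := h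

theorem fm_toks {t : α → Fm} (h : Poly t) : Poly (fun a => (t a).toks) := h

theorem poly_tvar {i : α → ℕ} (hi : Poly i) : Poly (fun a => Tm.var (i a)) :=
  tm_of_toks (Poly.cons (poly_tok_var' hi) (Poly.const []))

theorem poly_tadd {s t : α → Tm} (hs : Poly s) (ht : Poly t) :
    Poly (fun a => Tm.add (s a) (t a)) :=
  tm_of_toks (Poly.append (Poly.append (tm_toks hs) (tm_toks ht)) (Poly.const [Tok.add]))

theorem poly_tmul {s t : α → Tm} (hs : Poly s) (ht : Poly t) :
    Poly (fun a => Tm.mul (s a) (t a)) :=
  tm_of_toks (Poly.append (Poly.append (tm_toks hs) (tm_toks ht)) (Poly.const [Tok.mul]))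

theorem poly_tneg {s : α → Tm} (hs : Poly s) : Poly (fun a => Tm.neg (s a)) :=
  tm_of_toks (Poly.append (tm_toks hs) (Poly.const [Tok.neg]))

theorem poly_feq {s t : α → Tm} (hs : Poly s) (ht : Poly t) :
    Poly (fun a => Fm.eq (s a) (t a)) :=
  fm_of_toks (Poly.append (Poly.append (tm_toks hs) (tm_toks ht)) (Poly.const [Tok.eq]))

theorem poly_flt {s t : α → Tm} (hs : Poly s) (ht : Poly t) :
    Poly (fun a => Fm.lt (s a) (t a)) :=
  fm_of_toks (Poly.append (Poly.append (tm_toks hs) (tm_toks ht)) (Poly.const [Tok.lt]))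

theorem poly_fle {s t : α → Tm} (hs : Poly s) (ht : Poly t) :
    Poly (fun a => Fm.le (s a) (t a)) :=
  fm_of_toks (Poly.append (Poly.append (tm_toks hs) (tm_toks ht)) (Poly.const [Tok.le]))

theorem poly_fnot {s : α → Fm} (hs : Poly s) : Poly (fun a => Fm.not (s a)) :=
  fm_of_toks (Poly.append (fm_toks hs) (Poly.const [Tok.not]))

theorem poly_fand {s t : α → Fm} (hs : Poly s) (ht : Poly t) :
    Poly (fun a => Fm.and (s a) (t a)) :=
  fm_of_toks (Poly.append (Poly.append (fm_toks hs) (fm_toks ht)) (Poly.const [Tok.and]))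

theorem poly_for {s t : α → Fm} (hs : Poly s) (ht : Poly t) :
    Poly (fun a => Fm.or (s a) (t a)) :=
  fm_of_toks (Poly.append (Poly.append (fm_toks hs) (fm_toks ht)) (Poly.const [Tok.or]))

theorem poly_replicate {β γ : Type} [TEnc β] [TEnc γ] {l : α → List β} (hl : Poly l) (c : γ) :
    Poly (fun a => List.replicate (l a).length c) := by
  refine (Poly.map (F := fun _ _ => c) hl (Poly.const _)).congr fun a => ?_
  simp

theorem poly_conj {l : α → List Fm} (hl : Poly l) : Poly (fun a => conj (l a)) := by
  refine fm_of_toks (Poly.congr (f := fun a => (l a).flatMap Fm.toks ++ tt.toks ++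
    List.replicate (l a).length Tok.and) ?_ fun a => (toks_conj _).symm)
  exact Poly.append (Poly.append (Poly.flatMap (F := fun _ φ => Fm.toks φ) hl
    (fm_toks (Poly.snd Poly.id))) (Poly.const _)) (poly_replicate hl _)

theorem poly_sumT {l : α → List Tm} (hl : Poly l) : Poly (fun a => sumT (l a)) := by
  refine tm_of_toks (Poly.congr (f := fun a => (l a).flatMap Tm.toks ++ Tm.zero.toks ++
    List.replicate (l a).length Tok.add) ?_ fun a => (toks_sumT _).symm)
  exact Poly.append (Poly.append (Poly.flatMap (F := fun _ φ => Tm.toks φ) hl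
    (tm_toks (Poly.snd Poly.id))) (Poly.const _)) (poly_replicate hl _)

theorem poly_prodT {l : α → List Tm} (hl : Poly l) : Poly (fun a => prodT (l a)) := by
  refine tm_of_toks (Poly.congr (f := fun a => (l a).flatMap Tm.toks ++ Tm.one.toks ++
    List.replicate (l a).length Tok.mul) ?_ fun a => (toks_prodT _).symm)
  exact Poly.append (Poly.append (Poly.flatMap (F := fun _ φ => Tm.toks φ) hl
    (tm_toks (Poly.snd Poly.id))) (Poly.const _)) (poly_replicate hl _)

end Closure

/-! ### Integer constants -/

/-- The constant `2`. -/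
def twoT : Tm := Tm.add Tm.one Tm.one

/-- Natural number with given binary digits, as a term. -/
def natT (l : List Bool) : Tm :=
  l.foldr (fun b t => Tm.add (Tm.mul t twoT) (if b then Tm.one else Tm.zero)) Tm.zero

theorem eval_natT (x : ℕ → ℝ) (l : List Bool) : (natT l).eval x = (valB l : ℝ) := by
  induction l with
  | nil => simp [natT, Tm.eval, valB]
  | cons b l ih =>
    change (natT l).eval x * (1 + 1) + Tm.eval x (if b then Tm.one else Tm.zero) = _
    rw [ih]
    cases b <;> simp [valB, Tm.eval] <;> ring

theorem toks_natT (l : List Bool) : (natT l).toks =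
    Tok.zero :: l.reverse.flatMap fun b =>
      [Tok.one, Tok.one, Tok.add, Tok.mul, if b then Tok.one else Tok.zero, Tok.add] := by
  induction l with
  | nil => simp [natT, Tm.toks]
  | cons b l ih =>
    change ((natT l).toks ++ twoT.toks ++ [Tok.mul]) ++
      Tm.toks (if b then Tm.one else Tm.zero) ++ [Tok.add] = _
    rw [ih]
    cases b <;> simp [twoT, Tm.toks]

/-- Integer constants. -/
def intT (c : ℤ) : Tm := if c < 0 then Tm.neg (natT c.natAbs.bits) else natT c.natAbs.bits

theorem eval_intT (x : ℕ → ℝ) (c : ℤ) : (intT c).eval x = (c : ℝ) := by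
  unfold intT
  by_cases h : c < 0
  · rw [if_pos h, Tm.eval, eval_natT, valB_bits]
    have : (c.natAbs : ℤ) = -c := by omega
    have h2 : ((c.natAbs : ℤ) : ℝ) = ((-c : ℤ) : ℝ) := by rw [this]
    push_cast at h2
    rw [Nat.cast_natAbs] at *
    push_cast
    rw [abs_of_neg (by exact_mod_cast h)]
    ring
  · rw [if_neg h, eval_natT, valB_bits, Nat.cast_natAbs]
    push_cast
    rw [abs_of_nonneg (by exact_mod_cast not_lt.1 h)]

section

variable {α : Type} [TEnc α]

theorem poly_natT {l : α → List Bool} (hl : Poly l) : Poly (fun a => natT (l a)) := by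
  refine tm_of_toks (Poly.congr (f := fun a => Tok.zero :: (l a).reverse.flatMap fun b =>
      [Tok.one, Tok.one, Tok.add, Tok.mul, if b then Tok.one else Tok.zero, Tok.add]) ?_
    fun a => (toks_natT _).symm)
  refine Poly.cons (Poly.const _) (Poly.flatMap (F := fun _ b =>
      [Tok.one, Tok.one, Tok.add, Tok.mul, if b then Tok.one else Tok.zero, Tok.add])
      (Poly.reverse hl) ?_)
  refine Poly.cons (Poly.const _) (Poly.cons (Poly.const _) (Poly.cons (Poly.const _)
    (Poly.cons (Poly.const _) (Poly.cons ?_ (Poly.const _)))))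
  exact Poly.ite (Poly.decide_bool (Poly.snd Poly.id)) (Poly.const _) (Poly.const _)

theorem poly_int_sign {c : α → ℤ} (hc : Poly c) :
    Poly (fun a => (decide (c a < 0), (c a).natAbs)) := hc

theorem poly_intT {c : α → ℤ} (hc : Poly c) : Poly (fun a => intT (c a)) := by
  unfold intT
  have h1 : Poly (fun a => natT (c a).natAbs.bits) :=
    poly_natT (Poly.natBits (Poly.snd (poly_int_sign hc)))
  exact Poly.ite (Poly.fst (poly_int_sign hc)) (poly_tneg h1) h1

end

end Pool.Agent.NPC.H612
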