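import Pool.Agent.ER.Dec
import Pool.Agent.H612.TmPoly

/-!
# The complexity class `∀ℝ`
-/

namespace Pool.Agent.NPC.ER

/-- The class `∀ℝ`: the languages whose complement belongs to `∃ℝ`. -/
def InAR (L : Set (List Bool)) : Prop := InER Lᶜ

/-- `∀ℝ`-hardness under polynomial-time many-one reductions. -/
def ARHard (L : Set (List Bool)) : Prop := ∀ L', InAR L' → Reduces L' L

/-- `∀ℝ`-completeness under polynomial-time many-one reductions. -/
def ARComplete (L : Set (List Bool)) : Prop := InAR L ∧ ARHard L

theorem reduces_compl {L L' : Set (List Bool)} (h : Reduces L L') : Reduces Lᶜ L'ᶜ := by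
  obtain ⟨f, hf, h1⟩ := h
  exact ⟨f, hf, fun w => not_congr (h1 w)⟩

/-- `L` is `∀ℝ`-hard if and only if its complement is `∃ℝ`-hard. -/
theorem arHard_iff {L : Set (List Bool)} : ARHard L ↔ ERHard Lᶜ := by
  constructor
  · intro h L' hL'
    have := reduces_compl (h L'ᶜ (by rwa [InAR, compl_compl]))
    rwa [compl_compl] at this
  · intro h L' hL'
    have := reduces_compl (h L'ᶜ hL')
    rwa [compl_compl, compl_compl] at this

/-- `L` is `∀ℝ`-complete if and only if its complement is `∃ℝ`-complete. -/
theorem arComplete_iff {L : Set (List Bool)} : ARComplete L ↔ ERComplete Lᶜ :=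
  and_congr Iff.rfl arHard_iff

open H612 in
/-- Membership in `∀ℝ` by a polynomial-time translation into existential sentences expressing the
failure of the property. -/
theorem InAR.of_poly {α : Type} [TEnc α] [TDec α] {P : α → Prop} {φ : α → Fm} (h : Poly φ)
    (hP : ∀ a, ¬ P a ↔ ETR (φ a)) : InAR (lang P) := by
  refine ⟨fun w => match unbits α w with | none => tt | some a => φ a, ?_, fun w => ?_⟩
  · refine polyTime_bits (g := fun w => match unbits α w with | none => tt | some a => φ a) ?_
    exact Poly.optCases (g := fun _ => tt) (h := fun _ a => φ a) poly_unbits (Poly.const _)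
      (h.comp (Poly.snd Poly.id))
  · rw [Set.mem_compl_iff, mem_lang_iff]
    cases hx : unbits α w with
    | none =>
      simp only [hx, reduceCtorEq, false_and, exists_false, not_false_eq_true, true_iff]
      exact ⟨fun _ => 0, holds_tt _⟩
    | some a => simp only [hx]; simp [hP a]

/-- Hardness for `∀ℝ` by a reduction from satisfiability of systems of constraints. -/
theorem ARHard.of_sys {α : Type} [TEnc α] {P : α → Prop} {f : List Con → α} (hf : Poly f)
    (h : ∀ S, Sat S ↔ ¬ P (f S)) : ARHard (lang P) := by
  rw [arHard_iff]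
  rintro L' ⟨g, hg, hL⟩
  have h1 : PC (id : List Bool → List Bool) (bits : Fm → List Bool) g :=
    H642R2.TMSim.polyTime_toPC hg
  have h2 : Poly (fun φ : Fm => f (sysOf φ)) := Poly.comp hf (poly_sysOf Poly.id)
  have h3 : PC (id : List Bool → List Bool) (bits : α → List Bool) (fun x => f (sysOf (g x))) :=
    PC.comp (g := fun φ : Fm => f (sysOf φ)) (eb := (bits : Fm → List Bool)) h2 h1
  have h4 : PC (id : List Bool → List Bool) (id : List Bool → List Bool)
    (fun x => bits (f (sysOf (g x)))) := h3
  refine ⟨fun x => bits (f (sysOf (g x))), PC.toPolyTime h4, fun x => ?_⟩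
  rw [hL, ← sat_sysOf, h, Set.mem_compl_iff, bits_mem_lang]

end Pool.Agent.NPC.ER
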