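import Pool.Agent.H612.CollectPoly

/-! The affine polynomial projection problem and the reduction. -/

namespace Pool.Agent.NPC.H612

open ER

/-- Instances of the affine polynomial projection problem: the number `n` of variables and two
integer polynomials given by their coefficients. -/
abbrev AffInst : Type := ℕ × PolyData × PolyData

/-- The affine polynomial projection problem: `f` and `g` are correctly described polynomials in
`n` variables with integer coefficients and there are a real `n × n` matrix `A` and a vector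
`b ∈ ℝⁿ` with `f(x) = g(A x + b)` for all `x ∈ ℝⁿ`. -/
def AffineProjection (I : AffInst) : Prop :=
  I.2.1.Valid I.1 ∧ I.2.2.Valid I.1 ∧
    ∃ (A : Matrix (Fin I.1) (Fin I.1) ℝ) (b : Fin I.1 → ℝ), ∀ x : Fin I.1 → ℝ,
      MvPolynomial.aeval x (I.2.1.toPoly I.1) =
        MvPolynomial.aeval (A.mulVec x + b) (I.2.2.toPoly I.1)

/-- All variables of a system. -/
def varsOf (S : List Con) : List ℕ := S.flatMap Con.vars

/-- Renaming of variables. -/
def rn (V : List ℕ) (i : ℕ) : ℕ := V.idxOf i + 2

/-- Homogenised quadratic form of a constraint. -/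
def qraw (V : List ℕ) : Con → List (Bool × List ℕ)
  | .one i => [(false, [rn V i, 0]), (true, [0, 0])]
  | .add i j k => [(false, [rn V i, 0]), (false, [rn V j, 0]), (true, [rn V k, 0])]
  | .mul i j k => [(false, [rn V i, rn V j]), (true, [rn V k, 0])]

/-- Minus the square of a raw quadratic form. -/
def negSq (q : List (Bool × List ℕ)) : List (Bool × List ℕ) :=
  q.flatMap fun p => q.map fun p' => (!(xor p.1 p'.1), p.2 ++ p'.2)

/-- Raw terms of `X₀² X₁² - ∑ q²`. -/
def affRaw (S : List Con) : List (Bool × List ℕ) :=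
  (false, [0, 0, 1, 1]) :: S.flatMap fun c => negSq (qraw (varsOf S) c)

/-- The number of variables. -/
def affN (S : List Con) : ℕ := (varsOf S).length + 2

/-- The instance of a system: `f = X₀² X₁²`, `g = X₀² X₁² - ∑ q²`. -/
def affInst (S : List Con) : AffInst :=
  (affN S, [(1, expv (affN S) [0, 0, 1, 1])], collect (affN S) (affRaw S))

theorem affRaw_lt (S : List Con) : ∀ p ∈ affRaw S, ∀ i ∈ p.2, i < affN S := by
  intro p hp i hi
  unfold affRaw at hp
  rcases List.mem_cons.1 hp with h | h
  · subst h
    simp at hi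
    unfold affN
    omega
  · rw [List.mem_flatMap] at h
    obtain ⟨c, hc, hp⟩ := h
    unfold negSq at hp
    rw [List.mem_flatMap] at hp
    obtain ⟨q, hq, hp⟩ := hp
    rw [List.mem_map] at hp
    obtain ⟨q', hq', rfl⟩ := hp
    simp only [List.mem_append] at hi
    have hv : ∀ j ∈ c.vars, rn (varsOf S) j < affN S := by
      intro j hj
      have : j ∈ varsOf S := List.mem_flatMap.2 ⟨c, hc, hj⟩
      have := List.idxOf_lt_length_iff.2 this
      unfold rn affN
      omega
    have h0 : 0 < affN S := by unfold affN; omega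
    have key : ∀ q ∈ qraw (varsOf S) c, ∀ i ∈ q.2, i < affN S := by
      intro q hq i hi
      cases c with
      | one a =>
        simp [qraw] at hq
        simp [Con.vars] at hv
        rcases hq with rfl | rfl <;> simp at hi <;> [skip; exact hi ▸ h0]
        rcases hi with rfl | rfl
        · exact hv
        · exact h0
      | add a b d =>
        simp [qraw] at hq
        simp [Con.vars] at hv
        rcases hq with rfl | rfl | rfl <;> simp at hi <;> rcases hi with rfl | rfl <;>
          first | exact h0 | exact hv.1 | exact hv.2.1 | exact hv.2.2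
      | mul a b d =>
        simp [qraw] at hq
        simp [Con.vars] at hv
        rcases hq with rfl | rfl <;> simp at hi <;> rcases hi with rfl | rfl <;>
          first | exact h0 | exact hv.1 | exact hv.2.1 | exact hv.2.2
    rcases hi with hi | hi
    · exact key q hq i hi
    · exact key q' hq' i hi

theorem affRaw_deg (S : List Con) : ∀ p ∈ affRaw S, p.2.length = 4 := by
  intro p hp
  unfold affRaw at hp
  rcases List.mem_cons.1 hp with h | h
  · subst h; rfl
  · rw [List.mem_flatMap] at h
    obtain ⟨c, hc, hp⟩ := h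
    unfold negSq at hp
    rw [List.mem_flatMap] at hp
    obtain ⟨q, hq, hp⟩ := hp
    rw [List.mem_map] at hp
    obtain ⟨q', hq', rfl⟩ := hp
    have key : ∀ q ∈ qraw (varsOf S) c, q.2.length = 2 := by
      intro q hq
      cases c <;> simp [qraw] at hq
      · rcases hq with rfl | rfl <;> rfl
      · rcases hq with rfl | rfl | rfl <;> rfl
      · rcases hq with rfl | rfl <;> rfl
    simp [key q hq, key q' hq']

/-- Value of the homogenised constraint. -/
noncomputable def qval (V : List ℕ) (y : ℕ → ℝ) (c : Con) : ℝ := rawEval y (qraw V c)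

theorem rawEval_append (y : ℕ → ℝ) (a b : List (Bool × List ℕ)) :
    rawEval y (a ++ b) = rawEval y a + rawEval y b := by
  simp [rawEval]

theorem rawEval_negSq (y : ℕ → ℝ) (q : List (Bool × List ℕ)) :
    rawEval y (negSq q) = - (rawEval y q) ^ 2 := by
  have h1 : ∀ (p : Bool × List ℕ) (q : List (Bool × List ℕ)),
      rawEval y (q.map fun p' => (!(xor p.1 p'.1), p.2 ++ p'.2)) =
        -((sgn p.1 : ℝ) * (p.2.map y).prod) * rawEval y q := by
    intro p q
    induction q with
    | nil => simp [rawEval]
    | cons p' q ih =>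
      have e : rawEval y (p' :: q) = (sgn p'.1 : ℝ) * (p'.2.map y).prod + rawEval y q := by
        simp [rawEval]
      have e' : rawEval y ((p' :: q).map fun p' => (!(xor p.1 p'.1), p.2 ++ p'.2)) =
          (sgn (!(xor p.1 p'.1)) : ℝ) * ((p.2 ++ p'.2).map y).prod +
          rawEval y (q.map fun p' => (!(xor p.1 p'.1), p.2 ++ p'.2)) := by
        simp [rawEval]
      rw [e, e', ih, List.map_append, List.prod_append]
      have hs : (sgn (!(xor p.1 p'.1)) : ℝ) = -((sgn p.1 : ℝ) * (sgn p'.1 : ℝ)) := by
        cases p.1 <;> cases p'.1 <;> simp [sgn]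
      rw [hs]
      ring
  have h2 : ∀ q' : List (Bool × List ℕ),
      rawEval y (q'.flatMap fun p => q.map fun p' => (!(xor p.1 p'.1), p.2 ++ p'.2)) =
        -(rawEval y q' * rawEval y q) := by
    intro q'
    induction q' with
    | nil => simp [rawEval]
    | cons p q' ih =>
      have e : rawEval y (p :: q') = (sgn p.1 : ℝ) * (p.2.map y).prod + rawEval y q' := by
        simp [rawEval]
      rw [List.flatMap_cons, rawEval_append, ih, h1, e]
      ring
  unfold negSq
  rw [h2]
  ring

theorem rawEval_affRaw (y : ℕ → ℝ) (S : List Con) :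
    rawEval y (affRaw S) = y 0 ^ 2 * y 1 ^ 2 -
      (S.map fun c => (qval (varsOf S) y c) ^ 2).sum := by
  have key : ∀ (V : List ℕ) (S : List Con),
      rawEval y (S.flatMap fun c => negSq (qraw V c)) = -(S.map fun c => (qval V y c) ^ 2).sum := by
    intro V S
    induction S with
    | nil => simp [rawEval]
    | cons c S ih =>
      rw [List.flatMap_cons, rawEval_append, ih, rawEval_negSq, List.map_cons, List.sum_cons]
      unfold qval
      ring
  have e : rawEval y (affRaw S) = y 0 ^ 2 * y 1 ^ 2 +
      rawEval y (S.flatMap fun c => negSq (qraw (varsOf S) c)) := by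
    unfold affRaw
    have : rawEval y ((false, [0, 0, 1, 1]) :: S.flatMap fun c => negSq (qraw (varsOf S) c)) =
      (sgn false : ℝ) * (([0, 0, 1, 1] : List ℕ).map y).prod +
        rawEval y (S.flatMap fun c => negSq (qraw (varsOf S) c)) := by
      simp [rawEval]
    rw [this]
    simp [sgn]
    ring
  rw [e, key]
  ring

theorem qval_one (V : List ℕ) (y : ℕ → ℝ) (i : ℕ) :
    qval V y (.one i) = y (rn V i) * y 0 - y 0 * y 0 := by
  simp [qval, rawEval, qraw, sgn]; ring

theorem qval_add (V : List ℕ) (y : ℕ → ℝ) (i j k : ℕ) :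
    qval V y (.add i j k) = (y (rn V i) + y (rn V j) - y (rn V k)) * y 0 := by
  simp [qval, rawEval, qraw, sgn]; ring

theorem qval_mul (V : List ℕ) (y : ℕ → ℝ) (i j k : ℕ) :
    qval V y (.mul i j k) = y (rn V i) * y (rn V j) - y (rn V k) * y 0 := by
  simp [qval, rawEval, qraw, sgn]; ring

/-- A common zero of the homogenised constraints with nonzero homogenising coordinate gives a
solution. -/
theorem sat_of_qval {S : List Con} {y : ℕ → ℝ} (h0 : y 0 ≠ 0)
    (h : ∀ c ∈ S, qval (varsOf S) y c = 0) : Sat S := by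
  refine ⟨fun i => y (rn (varsOf S) i) / y 0, ?_⟩
  intro c hc
  have h1 := h c hc
  cases c with
  | one i =>
    rw [qval_one] at h1
    simp only [Con.Holds]
    field_simp
    have : y 0 * (y (rn (varsOf S) i) - y 0) = 0 := by linarith
    rcases mul_eq_zero.1 this with h2 | h2
    · exact absurd h2 h0
    · linarith
  | add i j k =>
    rw [qval_add] at h1
    simp only [Con.Holds]
    rcases mul_eq_zero.1 h1 with h2 | h2
    · field_simp
      linarith
    · exact absurd h2 h0
  | mul i j k =>
    rw [qval_mul] at h1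
    simp only [Con.Holds]
    field_simp
    linarith

/-- A solution gives zeros. -/
theorem qval_of_sat {S : List Con} {v : ℕ → ℝ} (hv : SysHolds v S) (t : ℝ) (y : ℕ → ℝ)
    (h0 : y 0 = t) (hy : ∀ i ∈ varsOf S, y (rn (varsOf S) i) = t * v i) :
    ∀ c ∈ S, qval (varsOf S) y c = 0 := by
  intro c hc
  have h1 := hv c hc
  have h2 : ∀ i ∈ c.vars, y (rn (varsOf S) i) = t * v i := fun i hi =>
    hy i (List.mem_flatMap.2 ⟨c, hc, hi⟩)
  cases c with
  | one i =>
    simp only [Con.Holds] at h1
    rw [qval_one, h2 i (by simp [Con.vars]), h0, h1]; ring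
  | add i j k =>
    simp only [Con.Holds] at h1
    rw [qval_add, h2 i (by simp [Con.vars]), h2 j (by simp [Con.vars]),
      h2 k (by simp [Con.vars]), h0, ← h1]; ring
  | mul i j k =>
    simp only [Con.Holds] at h1
    rw [qval_mul, h2 i (by simp [Con.vars]), h2 j (by simp [Con.vars]),
      h2 k (by simp [Con.vars]), h0, ← h1]; ring

theorem sum_sq_eq_zero {l : List Con} {q : Con → ℝ} (h : (l.map fun c => (q c) ^ 2).sum = 0) :
    ∀ c ∈ l, q c = 0 := by
  induction l with
  | nil => simp
  | cons a l ih =>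
    rw [List.map_cons, List.sum_cons] at h
    have h1 : 0 ≤ (l.map fun c => (q c) ^ 2).sum :=
      List.sum_nonneg (by
        intro x hx
        rw [List.mem_map] at hx
        obtain ⟨c, _, rfl⟩ := hx
        positivity)
    have h2 : 0 ≤ (q a) ^ 2 := by positivity
    have h3 : (q a) ^ 2 = 0 := by linarith
    have h4 : (l.map fun c => (q c) ^ 2).sum = 0 := by linarith
    intro c hc
    rcases List.mem_cons.1 hc with rfl | hc
    · exact pow_eq_zero_iff (two_ne_zero) |>.1 h3
    · exact ih h4 c hc

theorem sum_sq_nonneg (l : List Con) (q : Con → ℝ) : 0 ≤ (l.map fun c => (q c) ^ 2).sum :=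
  List.sum_nonneg (by
    intro x hx
    rw [List.mem_map] at hx
    obtain ⟨c, _, rfl⟩ := hx
    positivity)

/-- Value of `f`. -/
theorem aeval_f {n : ℕ} (hn : 2 ≤ n) (x : Fin n → ℝ) :
    MvPolynomial.aeval x (PolyData.toPoly n [(1, expv n [0, 0, 1, 1])]) =
      xt x 0 ^ 2 * xt x 1 ^ 2 := by
  rw [aeval_toPoly]
  simp only [List.map_cons, List.map_nil, List.sum_cons, List.sum_nil]
  rw [vval_expv x [0, 0, 1, 1] (by intro i hi; simp at hi; omega)]
  simp
  ring

theorem valid_f {n : ℕ} : PolyData.Valid n [(1, expv n [0, 0, 1, 1])] := by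
  constructor
  · intro t ht
    simp at ht
    subst ht
    exact ⟨one_ne_zero, expv_length _ _⟩
  · simp

/-- Homogeneity of the values. -/
theorem qval_smul (V : List ℕ) (s : ℝ) (y : ℕ → ℝ) (c : Con) :
    qval V (fun i => s * y i) c = s ^ 2 * qval V y c := by
  cases c with
  | one i => rw [qval_one, qval_one]; ring
  | add i j k => rw [qval_add, qval_add]; ring
  | mul i j k => rw [qval_mul, qval_mul]; ring

theorem rawEval_smul (S : List Con) (s : ℝ) (y : ℕ → ℝ) :
    rawEval (fun i => s * y i) (affRaw S) = s ^ 4 * rawEval y (affRaw S) := by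
  rw [rawEval_affRaw, rawEval_affRaw]
  simp only [qval_smul]
  have : (S.map fun c => (s ^ 2 * qval (varsOf S) y c) ^ 2).sum =
      s ^ 4 * (S.map fun c => (qval (varsOf S) y c) ^ 2).sum := by
    rw [← List.sum_map_mul_left]
    congr 1
    apply List.map_congr_left
    intro c _
    ring
  rw [this]
  ring

/-- The planar argument: `s² t² + ∑ Q² = ζ² υ²` with linear `ζ, υ`. -/
theorem planar {α β γ δ : ℝ} {Q : ℝ → ℝ → ℝ} (hQ : ∀ s t, 0 ≤ Q s t)
    (h : ∀ s t : ℝ, s ^ 2 * t ^ 2 + Q s t = (α * s + β * t) ^ 2 * (γ * s + δ * t) ^ 2) :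
    (α ≠ 0 ∧ Q 1 0 = 0) ∨ (β ≠ 0 ∧ Q 0 1 = 0) := by
  have h1 := h δ (-γ)
  have e1 : γ * δ + δ * -γ = 0 := by ring
  rw [e1] at h1
  have h2 : δ ^ 2 * (-γ) ^ 2 = 0 := by
    have := hQ δ (-γ)
    have h3 : 0 ≤ δ ^ 2 * (-γ) ^ 2 := by positivity
    have h4 : (α * δ + β * -γ) ^ 2 * (0:ℝ) ^ 2 = 0 := by ring
    linarith
  have h3 : δ = 0 ∨ γ = 0 := by
    rcases mul_eq_zero.1 h2 with h | h
    · left; exact pow_eq_zero_iff (two_ne_zero) |>.1 h
    · right
      have := pow_eq_zero_iff (two_ne_zero) |>.1 h
      linarith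
  rcases h3 with h3 | h3
  · right
    have h01 := h 0 1
    rw [h3] at h01
    constructor
    · intro hβ
      have h5 := h 1 (|α * γ| + 1)
      rw [h3, hβ] at h5
      have h6 := hQ 1 (|α * γ| + 1)
      have h7 : (|α * γ|) ^ 2 = (α * γ) ^ 2 := sq_abs _
      nlinarith [abs_nonneg (α * γ)]
    · nlinarith
  · left
    have h10 := h 1 0
    rw [h3] at h10
    constructor
    · intro hα
      have h5 := h (|β * δ| + 1) 1
      rw [h3, hα] at h5
      have h6 := hQ (|β * δ| + 1) 1
      have h7 : (|β * δ|) ^ 2 = (β * δ) ^ 2 := sq_abs _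
      nlinarith [abs_nonneg (β * δ)]
    · nlinarith

end Pool.Agent.NPC.H612
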