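import Pool.Agent.H612.Aff

/-! Correctness and polynomial-time computability of the reduction to affine projection. -/

namespace Pool.Agent.NPC.H612

open ER

theorem aeval_g (S : List Con) (x : Fin (affN S) → ℝ) :
    MvPolynomial.aeval x ((collect (affN S) (affRaw S)).toPoly (affN S)) =
      xt x 0 ^ 2 * xt x 1 ^ 2 - (S.map fun c => (qval (varsOf S) (xt x) c) ^ 2).sum := by
  rw [aeval_collect _ (affRaw_lt S), rawEval_affRaw]

theorem affN_ge (S : List Con) : 2 ≤ affN S := by unfold affN; omega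

theorem xt_of_lt {n : ℕ} (x : Fin n → ℝ) {i : ℕ} (h : i < n) : xt x i = x ⟨i, h⟩ := by
  simp [xt, h]

/-- Forward direction. -/
theorem aff_of_sat {S : List Con} (h : Sat S) : AffineProjection (affInst S) := by
  obtain ⟨v, hv⟩ := h
  suffices key : ∃ (A : Matrix (Fin (affN S)) (Fin (affN S)) ℝ) (b : Fin (affN S) → ℝ),
      ∀ x : Fin (affN S) → ℝ,
      MvPolynomial.aeval x (PolyData.toPoly (affN S) [(1, expv (affN S) [0, 0, 1, 1])]) =
      MvPolynomial.aeval (A.mulVec x + b) ((collect (affN S) (affRaw S)).toPoly (affN S)) from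
    ⟨valid_f, collect_valid _ _, key⟩
  set n := affN S with hn
  have hn2 : 2 ≤ n := affN_ge S
  set w : ℕ → ℝ := fun k => if k = 0 then 1 else if k = 1 then 0 else
    v ((varsOf S).getD (k - 2) 0) with hw
  refine ⟨fun i j => if (j : ℕ) = 0 then w i else if (j : ℕ) = 1 ∧ (i : ℕ) = 1 then 1 else 0,
    0, ?_⟩
  intro x
  rw [aeval_f hn2, aeval_g]
  set A : Matrix (Fin n) (Fin n) ℝ :=
    fun i j => if (j : ℕ) = 0 then w i else if (j : ℕ) = 1 ∧ (i : ℕ) = 1 then 1 else 0 with hA
  have hAx : ∀ i : Fin n, (A.mulVec x + 0) i = w i * xt x 0 +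
      (if (i : ℕ) = 1 then xt x 1 else 0) := by
    intro i
    rw [add_zero]
    simp only [Matrix.mulVec, dotProduct, hA]
    have e0 : xt x 0 = x ⟨0, by omega⟩ := xt_of_lt x _
    have e1 : xt x 1 = x ⟨1, by omega⟩ := xt_of_lt x _
    have hsplit : ∀ j : Fin n, (if (j : ℕ) = 0 then w i else
        if (j : ℕ) = 1 ∧ (i : ℕ) = 1 then (1:ℝ) else 0) * x j =
        (if j = ⟨0, by omega⟩ then w i * x j else 0) +
        (if j = ⟨1, by omega⟩ then (if (i : ℕ) = 1 then x j else 0) else 0) := by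
      intro j
      by_cases h0 : (j : ℕ) = 0
      · have hj : j = ⟨0, by omega⟩ := Fin.ext h0
        have hj1 : ¬ j = ⟨1, by omega⟩ := by
          intro h; rw [h] at h0; simp at h0
        rw [if_pos h0, if_pos hj, if_neg hj1, add_zero]
      · have hj : ¬ j = ⟨0, by omega⟩ := fun h => h0 (by rw [h])
        rw [if_neg h0, if_neg hj, zero_add]
        by_cases h1 : (j : ℕ) = 1
        · have hj1 : j = ⟨1, by omega⟩ := Fin.ext h1
          rw [if_pos hj1]
          by_cases hi : (i : ℕ) = 1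
          · rw [if_pos ⟨h1, hi⟩, if_pos hi, one_mul]
          · rw [if_neg (fun h => hi h.2), if_neg hi, zero_mul]
        · have hj1 : ¬ j = ⟨1, by omega⟩ := fun h => h1 (by rw [h])
          rw [if_neg hj1, if_neg (fun h => h1 h.1), zero_mul]
    rw [Finset.sum_congr rfl (fun j _ => hsplit j), Finset.sum_add_distrib,
      Finset.sum_ite_eq', Finset.sum_ite_eq']
    simp only [Finset.mem_univ, if_true]
    rw [e0, e1]
  have hxt : ∀ k, k < n → xt (A.mulVec x + 0) k = w k * xt x 0 + (if k = 1 then xt x 1 else 0) := by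
    intro k hk
    have := hAx ⟨k, hk⟩
    have e : xt (A.mulVec x + 0) k = (A.mulVec x + 0) ⟨k, hk⟩ := by simp [xt, hk]
    rw [e, this]
  have h0 : xt (A.mulVec x + 0) 0 = xt x 0 := by
    rw [hxt 0 (by omega)]; simp [hw]
  have h1 : xt (A.mulVec x + 0) 1 = xt x 1 := by
    rw [hxt 1 (by omega)]; simp [hw]
  rw [h0, h1]
  have hz : ∀ c ∈ S, qval (varsOf S) (xt (A.mulVec x + 0)) c = 0 := by
    apply qval_of_sat hv (xt x 0) _ h0
    intro i hi
    have hlt := List.idxOf_lt_length_iff.2 hi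
    have h2 : rn (varsOf S) i < n := by unfold rn; rw [hn]; unfold affN; omega
    rw [hxt _ h2]
    have h3 : w (rn (varsOf S) i) = v i := by
      simp only [hw, rn]
      rw [if_neg (by omega), if_neg (by omega), Nat.add_sub_cancel]
      congr 1
      rw [List.getD_eq_getElem?_getD, List.getElem?_eq_getElem hlt]
      simp
    rw [h3, if_neg (by unfold rn; omega)]
    ring
  have hs : (S.map fun c => (qval (varsOf S) (xt (A.mulVec x + 0)) c) ^ 2).sum = 0 := by
    apply List.sum_eq_zero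
    intro r hr
    rw [List.mem_map] at hr
    obtain ⟨c, hc, rfl⟩ := hr
    rw [hz c hc]; norm_num
  rw [hs, sub_zero]

theorem xt_add {n : ℕ} (x y : Fin n → ℝ) (i : ℕ) : xt (x + y) i = xt x i + xt y i := by
  unfold xt; split_ifs <;> simp

theorem xt_smul {n : ℕ} (s : ℝ) (x : Fin n → ℝ) (i : ℕ) : xt (s • x) i = s * xt x i := by
  unfold xt; split_ifs <;> simp

/-- From affine to linear, by homogeneity. -/
theorem linear_of_affine {S : List Con} {A : Matrix (Fin (affN S)) (Fin (affN S)) ℝ}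
    {b : Fin (affN S) → ℝ}
    (h : ∀ x : Fin (affN S) → ℝ, xt x 0 ^ 2 * xt x 1 ^ 2 =
      rawEval (xt (A.mulVec x + b)) (affRaw S)) (x : Fin (affN S) → ℝ) :
    xt x 0 ^ 2 * xt x 1 ^ 2 = rawEval (xt (A.mulVec x)) (affRaw S) := by
  have h1 : ∀ s : ℝ, s ≠ 0 →
      rawEval (xt (A.mulVec x + s⁻¹ • b)) (affRaw S) = xt x 0 ^ 2 * xt x 1 ^ 2 := by
    intro s hs
    have h2 := h (s • x)
    rw [xt_smul, xt_smul] at h2
    have h3 : A.mulVec (s • x) + b = s • (A.mulVec x + s⁻¹ • b) := by
      rw [Matrix.mulVec_smul, smul_add, smul_smul, mul_inv_cancel₀ hs, one_smul]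
    rw [h3] at h2
    have h4 : xt (s • (A.mulVec x + s⁻¹ • b)) = fun i => s * xt (A.mulVec x + s⁻¹ • b) i := by
      funext i; exact xt_smul _ _ _
    rw [h4, rawEval_smul] at h2
    have h5 : s ^ 4 ≠ 0 := pow_ne_zero _ hs
    have h6 : s ^ 4 * rawEval (xt (A.mulVec x + s⁻¹ • b)) (affRaw S) =
        s ^ 4 * (xt x 0 ^ 2 * xt x 1 ^ 2) := by rw [← h2]; ring
    exact mul_left_cancel₀ h5 h6
  have hcont : Continuous (fun y : Fin (affN S) → ℝ => rawEval (xt y) (affRaw S)) := by
    have : (fun y : Fin (affN S) → ℝ => rawEval (xt y) (affRaw S)) =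
        fun y => MvPolynomial.aeval y ((collect (affN S) (affRaw S)).toPoly (affN S)) := by
      funext y
      rw [aeval_collect _ (affRaw_lt S)]
    rw [this]
    simp only [MvPolynomial.aeval_def, MvPolynomial.eval₂_eq_eval_map]
    exact MvPolynomial.continuous_eval _
  have hlim : Filter.Tendsto (fun s : ℝ => rawEval (xt (A.mulVec x + s⁻¹ • b)) (affRaw S))
      Filter.atTop (nhds (rawEval (xt (A.mulVec x)) (affRaw S))) := by
    have h7 : Filter.Tendsto (fun s : ℝ => A.mulVec x + s⁻¹ • b) Filter.atTop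
        (nhds (A.mulVec x + (0:ℝ) • b)) :=
      tendsto_const_nhds.add (tendsto_inv_atTop_zero.smul_const b)
    rw [zero_smul, add_zero] at h7
    exact (hcont.tendsto _).comp h7
  have hlim2 : Filter.Tendsto (fun s : ℝ => rawEval (xt (A.mulVec x + s⁻¹ • b)) (affRaw S))
      Filter.atTop (nhds (xt x 0 ^ 2 * xt x 1 ^ 2)) := by
    refine (tendsto_const_nhds).congr' ?_
    filter_upwards [Filter.eventually_gt_atTop (0:ℝ)] with s hs
    exact (h1 s hs.ne').symm
  exact tendsto_nhds_unique hlim2 hlim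

/-- Backward direction. -/
theorem sat_of_aff' {S : List Con} (A : Matrix (Fin (affN S)) (Fin (affN S)) ℝ)
    (b : Fin (affN S) → ℝ)
    (hAb : ∀ x : Fin (affN S) → ℝ,
      MvPolynomial.aeval x (PolyData.toPoly (affN S) [(1, expv (affN S) [0, 0, 1, 1])]) =
      MvPolynomial.aeval (A.mulVec x + b) ((collect (affN S) (affRaw S)).toPoly (affN S))) :
    Sat S := by
  have hn2 : 2 ≤ affN S := affN_ge S
  have hAb' : ∀ x : Fin (affN S) → ℝ, xt x 0 ^ 2 * xt x 1 ^ 2 =
      rawEval (xt (A.mulVec x + b)) (affRaw S) := by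
    intro x
    have h2 := hAb x
    rw [aeval_f hn2, aeval_collect _ (affRaw_lt S)] at h2
    exact h2
  have hlin := linear_of_affine hAb'
  set e0 : Fin (affN S) → ℝ := Pi.single ⟨0, by omega⟩ 1 with he0
  set e1 : Fin (affN S) → ℝ := Pi.single ⟨1, by omega⟩ 1 with he1
  set y0 := xt (A.mulVec e0) with hy0
  set y1 := xt (A.mulVec e1) with hy1
  have hval : ∀ s t : ℝ, xt (A.mulVec (s • e0 + t • e1)) = fun i => s * y0 i + t * y1 i := by
    intro s t
    funext i
    rw [Matrix.mulVec_add, Matrix.mulVec_smul, Matrix.mulVec_smul, xt_add, xt_smul, xt_smul]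
  have hx0 : ∀ s t : ℝ, xt (s • e0 + t • e1) 0 = s := by
    intro s t
    rw [xt_add, xt_smul, xt_smul]
    have h1 : xt e0 0 = 1 := by
      have : xt e0 0 = e0 ⟨0, by omega⟩ := xt_of_lt e0 _
      rw [this, he0]; simp
    have h2 : xt e1 0 = 0 := by
      have : xt e1 0 = e1 ⟨0, by omega⟩ := xt_of_lt e1 _
      rw [this, he1]
      rw [Pi.single_eq_of_ne]
      intro h; simp at h
    rw [h1, h2]; ring
  have hx1 : ∀ s t : ℝ, xt (s • e0 + t • e1) 1 = t := by
    intro s t
    rw [xt_add, xt_smul, xt_smul]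
    have h1 : xt e0 1 = 0 := by
      have : xt e0 1 = e0 ⟨1, by omega⟩ := xt_of_lt e0 _
      rw [this, he0]
      rw [Pi.single_eq_of_ne]
      intro h; simp at h
    have h2 : xt e1 1 = 1 := by
      have : xt e1 1 = e1 ⟨1, by omega⟩ := xt_of_lt e1 _
      rw [this, he1]; simp
    rw [h1, h2]; ring
  have key := planar (α := y0 0) (β := y1 0) (γ := y0 1) (δ := y1 1)
    (Q := fun s t => (S.map fun c => (qval (varsOf S) (fun i => s * y0 i + t * y1 i) c) ^ 2).sum)
    (fun s t => sum_sq_nonneg _ _) (by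
      intro s t
      have h1 := hlin (s • e0 + t • e1)
      rw [hx0, hx1, hval, rawEval_affRaw] at h1
      rw [h1]
      ring)
  rcases key with ⟨h1, h2⟩ | ⟨h1, h2⟩
  · apply sat_of_qval (y := y0) h1
    have h3 : (fun i => (1:ℝ) * y0 i + 0 * y1 i) = y0 := by funext i; ring
    simp only [h3] at h2
    exact sum_sq_eq_zero h2
  · apply sat_of_qval (y := y1) h1
    have h3 : (fun i => (0:ℝ) * y0 i + 1 * y1 i) = y1 := by funext i; ring
    simp only [h3] at h2
    exact sum_sq_eq_zero h2

theorem sat_of_aff {S : List Con} (h : AffineProjection (affInst S)) : Sat S := by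
  obtain ⟨_, _, A, b, hAb⟩ := h
  exact sat_of_aff' A b hAb

theorem sat_iff_aff (S : List Con) : Sat S ↔ AffineProjection (affInst S) :=
  ⟨aff_of_sat, sat_of_aff⟩

/-! ### Polynomial time -/

section

variable {α : Type} [TEnc α]

theorem con_vars_eq (c : Con) : c.vars =
    if c.code.1 = 0 then [c.code.2.1] else [c.code.2.1, c.code.2.2.1, c.code.2.2.2] := by
  cases c <;> rfl

theorem poly_con_vars {f : α → Con} (hf : Poly f) : Poly (fun a => (f a).vars) := by
  have hc := poly_con_code hf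
  have h1 := Poly.fst (Poly.snd hc)
  refine (Poly.ite (Poly.decide_eq (Poly.fst hc) (Poly.const 0)) (Poly.cons h1 (Poly.const []))
    (Poly.cons h1 (Poly.cons (Poly.fst (Poly.snd (Poly.snd hc)))
      (Poly.cons (Poly.snd (Poly.snd (Poly.snd hc))) (Poly.const []))))).congr fun a => ?_
  exact (con_vars_eq (f a)).symm

theorem poly_varsOf {f : α → List Con} (hf : Poly f) : Poly (fun a => varsOf (f a)) :=
  Poly.flatMap (F := fun _ c => Con.vars c) hf (poly_con_vars (Poly.snd Poly.id))

theorem poly_rn {V : α → List ℕ} {i : α → ℕ} (hV : Poly V) (hi : Poly i) :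
    Poly (fun a => rn (V a) (i a)) := Poly.add (poly_idxOf hV hi) (Poly.const 2)

theorem qraw_eq (V : List ℕ) (c : Con) : qraw V c =
    if c.code.1 = 0 then [(false, [rn V c.code.2.1, 0]), (true, [0, 0])]
    else if c.code.1 = 1 then [(false, [rn V c.code.2.1, 0]), (false, [rn V c.code.2.2.1, 0]),
      (true, [rn V c.code.2.2.2, 0])]
    else [(false, [rn V c.code.2.1, rn V c.code.2.2.1]), (true, [rn V c.code.2.2.2, 0])] := by
  cases c <;> rfl

theorem poly_qraw {V : α → List ℕ} {c : α → Con} (hV : Poly V) (hc : Poly c) :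
    Poly (fun a => qraw (V a) (c a)) := by
  have h := poly_con_code hc
  have h1 := poly_rn hV (Poly.fst (Poly.snd h))
  have h2 := poly_rn hV (Poly.fst (Poly.snd (Poly.snd h)))
  have h3 := poly_rn hV (Poly.snd (Poly.snd (Poly.snd h)))
  have l2 : ∀ {x y : α → ℕ}, Poly x → Poly y → Poly (fun a => [x a, y a]) := fun hx hy =>
    Poly.cons hx (Poly.cons hy (Poly.const []))
  refine (Poly.ite (Poly.decide_eq (Poly.fst h) (Poly.const 0))
    (Poly.cons (Poly.pair (Poly.const false) (l2 h1 (Poly.const 0))) (Poly.const [(true, [0, 0])]))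
    (Poly.ite (Poly.decide_eq (Poly.fst h) (Poly.const 1))
      (Poly.cons (Poly.pair (Poly.const false) (l2 h1 (Poly.const 0)))
        (Poly.cons (Poly.pair (Poly.const false) (l2 h2 (Poly.const 0)))
          (Poly.cons (Poly.pair (Poly.const true) (l2 h3 (Poly.const 0))) (Poly.const []))))
      (Poly.cons (Poly.pair (Poly.const false) (l2 h1 h2))
        (Poly.cons (Poly.pair (Poly.const true) (l2 h3 (Poly.const 0)))
          (Poly.const []))))).congr fun a => ?_
  exact (qraw_eq (V a) (c a)).symm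

theorem poly_negSq {q : α → List (Bool × List ℕ)} (hq : Poly q) :
    Poly (fun a => negSq (q a)) := by
  unfold negSq
  refine Poly.flatMap
    (F := fun a p => (q a).map fun p' => (!(xor p.1 p'.1), p.2 ++ p'.2)) hq ?_
  refine Poly.map
    (F := fun (x : α × Bool × List ℕ) p' => (!(xor x.2.1 p'.1), x.2.2 ++ p'.2))
    (hq.comp (Poly.fst Poly.id)) ?_
  exact Poly.pair (Poly.not (Poly.xor (Poly.fst (Poly.snd (Poly.fst Poly.id)))
    (Poly.fst (Poly.snd Poly.id))))
    (Poly.append (Poly.snd (Poly.snd (Poly.fst Poly.id))) (Poly.snd (Poly.snd Poly.id)))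

theorem poly_affRaw {S : α → List Con} (hS : Poly S) : Poly (fun a => affRaw (S a)) := by
  unfold affRaw
  refine Poly.cons (Poly.const _) (Poly.flatMap
    (F := fun a c => negSq (qraw (varsOf (S a)) c)) hS ?_)
  exact poly_negSq (poly_qraw ((poly_varsOf hS).comp (Poly.fst Poly.id)) (Poly.snd Poly.id))

theorem upoly_affN {S : α → List Con} (hS : Poly S) : UPoly (fun a => affN (S a)) :=
  UPoly.add (UPoly.length (poly_varsOf hS)) (UPoly.const 2)

theorem poly_affInst {S : α → List Con} (hS : Poly S) : Poly (fun a => affInst (S a)) := by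
  unfold affInst
  refine Poly.pair (UPoly.toPoly (upoly_affN hS)) (Poly.pair ?_ ?_)
  · exact Poly.cons (Poly.pair (Poly.const 1) (poly_expv (upoly_affN hS) (Poly.const _)))
      (Poly.const [])
  · exact poly_collect (upoly_affN hS) (poly_affRaw hS)

end

/-- `∃ℝ`-hardness of a decision problem `P` about encodable data, even for instances that satisfy
`Pr`: every language in `∃ℝ` reduces to `P` by a polynomial-time computable function all of whose
values satisfy `Pr`. -/
def ERHardWithin {α : Type} [TEnc α] (Pr P : α → Prop) : Prop :=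
  ∀ L : Set (List Bool), InER L → ∃ h : List Bool → α, PolyTime (fun w => bits (h w)) ∧
    (∀ w, Pr (h w)) ∧ ∀ w, w ∈ L ↔ P (h w)

theorem ERHardWithin.of_sys {α : Type} [TEnc α] {Pr P : α → Prop} {f : List Con → α} (hf : Poly f)
    (hPr : ∀ S, Pr (f S)) (h : ∀ S, Sat S ↔ P (f S)) : ERHardWithin Pr P := by
  rintro L' ⟨g, hg, hL⟩
  have h1 : PC (id : List Bool → List Bool) (bits : Fm → List Bool) g :=
    H642R2.TMSim.polyTime_toPC hg
  have h2 : Poly (fun φ : Fm => f (sysOf φ)) := Poly.comp hf (poly_sysOf Poly.id)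
  have h3 : PC (id : List Bool → List Bool) (bits : α → List Bool) (fun x => f (sysOf (g x))) :=
    PC.comp (g := fun φ : Fm => f (sysOf φ)) (eb := (bits : Fm → List Bool)) h2 h1
  have h4 : PC (id : List Bool → List Bool) (id : List Bool → List Bool)
    (fun x => bits (f (sysOf (g x)))) := h3
  refine ⟨fun x => f (sysOf (g x)), PC.toPolyTime h4, fun w => hPr _, fun x => ?_⟩
  rw [hL, ← sat_sysOf, h]

theorem ERHardWithin.toERHard {α : Type} [TEnc α] {Pr P : α → Prop} (h : ERHardWithin Pr P) :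
    ERHard (lang P) := by
  intro L hL
  obtain ⟨f, hf, _, h1⟩ := h L hL
  refine ⟨fun w => bits (f w), hf, fun w => ?_⟩
  rw [h1]
  constructor
  · intro hP
    exact ⟨_, rfl, hP⟩
  · rintro ⟨a, ha, hP⟩
    rwa [bits_injective ha] at hP

/-- The instances with `f = x₀² x₁²` and all terms of `g` of degree 4. -/
def QuarticInstance (I : AffInst) : Prop :=
  2 ≤ I.1 ∧ I.2.1 = [(1, 2 :: 2 :: List.replicate (I.1 - 2) 0)] ∧ ∀ t ∈ I.2.2, t.2.sum = 4

theorem expv_f {n : ℕ} (hn : 2 ≤ n) : expv n [0, 0, 1, 1] = 2 :: 2 :: List.replicate (n - 2) 0 := by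
  obtain ⟨m, rfl⟩ := Nat.exists_eq_add_of_le hn
  apply List.ext_getElem
  · simp [expv]; omega
  · intro i h1 h2
    simp only [expv, List.getElem_map, List.getElem_range]
    rcases i with _ | _ | i
    · rfl
    · rfl
    · simp

theorem affInst_quartic (S : List Con) : QuarticInstance (affInst S) := by
  refine ⟨affN_ge S, ?_, ?_⟩
  · show [((1:ℤ), expv (affN S) [0, 0, 1, 1])] = _
    rw [expv_f (affN_ge S)]
    rfl
  · exact collect_deg _ (affRaw_lt S) (affRaw_deg S)

theorem affine_hard : ERHardWithin QuarticInstance AffineProjection :=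
  ERHardWithin.of_sys (poly_affInst Poly.id) affInst_quartic sat_iff_aff

end Pool.Agent.NPC.H612
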