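import Mathlib

/-!
# Reciprocal polynomials with interlacing roots on the unit circle
-/

namespace Pool.Agent.NPC.ER.CH

open Polynomial Finset

/-- `A = ∑ aᵢ Xⁱ`. -/
noncomputable def A (a : ℕ → ℝ) (r : ℕ) : ℝ[X] := ∑ i ∈ range (r + 1), C (a i) * X ^ i

/-- `A# = ∑ aᵢ X^(r+s-i)`. -/
noncomputable def Ash (a : ℕ → ℝ) (r s : ℕ) : ℝ[X] :=
  ∑ i ∈ range (r + 1), C (a i) * X ^ (r + s - i)

/-- `1 - 2 c X + X²`. -/
noncomputable def q (c : ℝ) : ℝ[X] := 1 - C (2 * c) * X + X ^ 2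

theorem cos_bound (a : ℕ → ℝ) (r : ℕ) (θ : ℕ → ℝ) (h0 : a 0 = 1)
    (ha : ∑ i ∈ Finset.Icc 1 r, |a i| ≤ 1 / 2) :
    |(∑ i ∈ range (r + 1), a i * Real.cos (θ i)) - Real.cos (θ 0)| ≤ 1 / 2 := by
  have e : (∑ i ∈ range (r + 1), a i * Real.cos (θ i)) - Real.cos (θ 0) =
      ∑ i ∈ Finset.Icc 1 r, a i * Real.cos (θ i) := by
    rw [Finset.sum_range_succ', h0, one_mul, add_sub_cancel_right]
    rw [show Finset.Icc 1 r = Finset.Ico (0 + 1) (r + 1) from rfl,
      ← Finset.sum_Ico_add' (fun i => a i * Real.cos (θ i)) 0 r 1]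
    rw [Finset.range_eq_Ico]
  rw [e]
  calc |∑ i ∈ Finset.Icc 1 r, a i * Real.cos (θ i)| ≤
      ∑ i ∈ Finset.Icc 1 r, |a i * Real.cos (θ i)| := Finset.abs_sum_le_sum_abs _ _
    _ ≤ ∑ i ∈ Finset.Icc 1 r, |a i| := by
        refine Finset.sum_le_sum fun i _ => ?_
        rw [abs_mul]
        have := Real.abs_cos_le_one (θ i)
        have := abs_nonneg (a i)
        nlinarith
    _ ≤ 1 / 2 := ha

theorem exists_angle {r s : ℕ} (hN : 0 < r + s) (a : ℕ → ℝ) (h0 : a 0 = 1)
    (ha : ∑ i ∈ Finset.Icc 1 r, |a i| ≤ 1 / 2) (j : ℕ) :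
    ∃ φ : ℝ, (j + 1 / 2 : ℝ) * Real.pi / (r + s : ℕ) < φ ∧
      φ < (j + 3 / 2 : ℝ) * Real.pi / (r + s : ℕ) ∧
      ∑ i ∈ range (r + 1), a i *
        Real.cos ((((r + s : ℕ) : ℝ) / 2 - i) * φ - j * (Real.pi / 2)) = 0 := by
  have hNr : (0 : ℝ) < (r + s : ℕ) := by exact_mod_cast hN
  have hpi := Real.pi_pos
  set N : ℝ := ((r + s : ℕ) : ℝ) with hNdef
  let f : ℝ → ℝ := fun φ => ∑ i ∈ range (r + 1), a i *
    Real.cos ((N / 2 - i) * φ - j * (Real.pi / 2))
  have hf : Continuous f := by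
    refine continuous_finsetSum _ fun i _ => ?_
    fun_prop
  have hs : (1 : ℝ) / 2 < Real.sqrt 2 / 2 := by
    have : (1 : ℝ) < Real.sqrt 2 := by
      rw [show (1 : ℝ) = Real.sqrt 1 from Real.sqrt_one.symm]
      exact Real.sqrt_lt_sqrt (by norm_num) (by norm_num)
    linarith
  have hb := fun φ : ℝ => cos_bound a r (fun i => (N / 2 - i) * φ - j * (Real.pi / 2)) h0 ha
  have h1 : 0 < f ((j + 1 / 2 : ℝ) * Real.pi / N) := by
    have h2 := hb ((j + 1 / 2 : ℝ) * Real.pi / N)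
    have h3 : Real.cos ((N / 2 - (0 : ℕ)) * ((j + 1 / 2 : ℝ) * Real.pi / N) -
        j * (Real.pi / 2)) = Real.sqrt 2 / 2 := by
      rw [← Real.cos_pi_div_four]
      congr 1
      push_cast
      field_simp
      ring
    rw [abs_le] at h2
    rw [h3] at h2
    have h4 := h2.1
    change 0 < ∑ i ∈ range (r + 1), a i * Real.cos ((N / 2 - i) *
      ((j + 1 / 2 : ℝ) * Real.pi / N) - j * (Real.pi / 2))
    linarith
  have h1' : f ((j + 3 / 2 : ℝ) * Real.pi / N) < 0 := by
    have h2 := hb ((j + 3 / 2 : ℝ) * Real.pi / N)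
    have h3 : Real.cos ((N / 2 - (0 : ℕ)) * ((j + 3 / 2 : ℝ) * Real.pi / N) -
        j * (Real.pi / 2)) = -(Real.sqrt 2 / 2) := by
      rw [← Real.cos_pi_div_four, ← Real.cos_pi_sub]
      congr 1
      push_cast
      field_simp
      ring
    rw [abs_le] at h2
    rw [h3] at h2
    have h4 := h2.2
    change ∑ i ∈ range (r + 1), a i * Real.cos ((N / 2 - i) *
      ((j + 3 / 2 : ℝ) * Real.pi / N) - j * (Real.pi / 2)) < 0
    linarith
  have hab : (j + 1 / 2 : ℝ) * Real.pi / N ≤ (j + 3 / 2 : ℝ) * Real.pi / N := by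
    apply div_le_div_of_nonneg_right _ hNr.le
    nlinarith
  obtain ⟨φ, ⟨h5, h6⟩, h7⟩ := intermediate_value_Ioo' hab hf.continuousOn ⟨h1', h1⟩
  exact ⟨φ, h5, h6, h7⟩

theorem pow_add_pow (N i : ℕ) (hi : i ≤ N) (φ : ℝ) :
    Complex.exp (φ * Complex.I) ^ i + Complex.exp (φ * Complex.I) ^ (N - i) =
      Complex.exp ((N : ℝ) / 2 * φ * Complex.I) *
        ((2 * Real.cos (((N : ℝ) / 2 - i) * φ) : ℝ) : ℂ) := by
  rw [← Complex.exp_nat_mul, ← Complex.exp_nat_mul]
  push_cast [Nat.cast_sub hi]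
  rw [Complex.cos]
  rw [show (2 : ℂ) * ((Complex.exp ((↑N / 2 - ↑i) * ↑φ * Complex.I) +
    Complex.exp (-((↑N / 2 - ↑i) * ↑φ) * Complex.I)) / 2) =
    Complex.exp ((↑N / 2 - ↑i) * ↑φ * Complex.I) +
    Complex.exp (-((↑N / 2 - ↑i) * ↑φ) * Complex.I) by ring]
  rw [mul_add, ← Complex.exp_add, ← Complex.exp_add, add_comm]
  congr 2 <;> ring

theorem pow_sub_pow (N i : ℕ) (hi : i ≤ N) (φ : ℝ) :
    Complex.exp (φ * Complex.I) ^ i - Complex.exp (φ * Complex.I) ^ (N - i) =
      -(2 * Complex.I) * Complex.exp ((N : ℝ) / 2 * φ * Complex.I) *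
        ((Real.sin (((N : ℝ) / 2 - i) * φ) : ℝ) : ℂ) := by
  rw [← Complex.exp_nat_mul, ← Complex.exp_nat_mul]
  push_cast [Nat.cast_sub hi]
  rw [Complex.sin]
  have e : -(2 * Complex.I) * Complex.exp (↑N / 2 * ↑φ * Complex.I) *
      ((Complex.exp (-((↑N / 2 - ↑i) * ↑φ) * Complex.I) -
        Complex.exp ((↑N / 2 - ↑i) * ↑φ * Complex.I)) * Complex.I / 2) =
      Complex.exp (↑N / 2 * ↑φ * Complex.I) *
      (Complex.exp (-((↑N / 2 - ↑i) * ↑φ) * Complex.I) -
        Complex.exp ((↑N / 2 - ↑i) * ↑φ * Complex.I)) := by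
    linear_combination (-(Complex.exp (↑N / 2 * ↑φ * Complex.I)) *
      (Complex.exp (-((↑N / 2 - ↑i) * ↑φ) * Complex.I) -
        Complex.exp ((↑N / 2 - ↑i) * ↑φ * Complex.I))) * Complex.I_mul_I
  rw [e, mul_sub, ← Complex.exp_add, ← Complex.exp_add]
  congr 2 <;> ring

theorem aeval_add (a : ℕ → ℝ) (r s : ℕ) (φ : ℝ) :
    aeval (Complex.exp (φ * Complex.I)) (A a r + Ash a r s) =
      Complex.exp (((r + s : ℕ) : ℝ) / 2 * φ * Complex.I) * ((2 * ∑ i ∈ range (r + 1), a i *
        Real.cos ((((r + s : ℕ) : ℝ) / 2 - i) * φ) : ℝ) : ℂ) := by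
  simp only [A, Ash, map_add, map_sum, map_mul, map_pow, aeval_C, aeval_X]
  rw [← Finset.sum_add_distrib, Complex.ofReal_mul, Complex.ofReal_sum, Finset.mul_sum,
    Finset.mul_sum]
  refine Finset.sum_congr rfl fun i hi => ?_
  rw [Finset.mem_range] at hi
  rw [← mul_add, pow_add_pow (r + s) i (by omega) φ]
  simp only [Complex.coe_algebraMap]
  push_cast
  ring

theorem aeval_sub (a : ℕ → ℝ) (r s : ℕ) (φ : ℝ) :
    aeval (Complex.exp (φ * Complex.I)) (A a r - Ash a r s) =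
      -(2 * Complex.I) * Complex.exp (((r + s : ℕ) : ℝ) / 2 * φ * Complex.I) *
      ((∑ i ∈ range (r + 1), a i * Real.sin ((((r + s : ℕ) : ℝ) / 2 - i) * φ) : ℝ) : ℂ) := by
  simp only [A, Ash, map_sub, map_sum, map_mul, map_pow, aeval_C, aeval_X]
  rw [← Finset.sum_sub_distrib, Complex.ofReal_sum, Finset.mul_sum]
  refine Finset.sum_congr rfl fun i hi => ?_
  rw [Finset.mem_range] at hi
  rw [← mul_sub, pow_sub_pow (r + s) i (by omega) φ]
  simp only [Complex.coe_algebraMap]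
  push_cast
  ring

theorem natDegree_A_le (a : ℕ → ℝ) (r : ℕ) : (A a r).degree < (r + 1 : ℕ) := by
  unfold A
  refine (degree_sum_le _ _).trans_lt ?_
  rw [Finset.sup_lt_iff (WithBot.bot_lt_coe _)]
  intro i hi
  rw [Finset.mem_range] at hi
  exact (degree_C_mul_X_pow_le _ _).trans_lt (by exact_mod_cast hi)

theorem monic_Ash (a : ℕ → ℝ) (r s : ℕ) (h0 : a 0 = 1) (hN : 0 < r + s) :
    (Ash a r s).Monic ∧ (Ash a r s).natDegree = r + s := by
  have e : Ash a r s = X ^ (r + s) + ∑ i ∈ range r, C (a (i + 1)) * X ^ (r + s - (i + 1)) := by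
    unfold Ash
    rw [Finset.sum_range_succ', h0, C_1, one_mul, Nat.sub_zero, add_comm]
  have hd : (∑ i ∈ range r, C (a (i + 1)) * X ^ (r + s - (i + 1)) : ℝ[X]).degree <
      ((r + s : ℕ) : WithBot ℕ) := by
    refine (degree_sum_le _ _).trans_lt ?_
    rw [Finset.sup_lt_iff (WithBot.bot_lt_coe _)]
    intro i hi
    rw [Finset.mem_range] at hi
    exact (degree_C_mul_X_pow_le _ _).trans_lt (by exact_mod_cast (by omega))
  rw [e]
  refine ⟨monic_X_pow_add hd, natDegree_eq_of_degree_eq_some ?_⟩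
  rw [degree_add_eq_left_of_degree_lt (by rw [degree_X_pow]; exact hd), degree_X_pow]

theorem q_monic (c : ℝ) : (q c).Monic ∧ (q c).natDegree = 2 := by
  have e : q c = X ^ 2 + (-(C (2 * c) * X) + 1) := by
    unfold q
    ring
  have hd : (-(C (2 * c) * X) + 1 : ℝ[X]).degree < ((2 : ℕ) : WithBot ℕ) := by
    refine (degree_add_le _ _).trans_lt ?_
    rw [max_lt_iff, degree_neg]
    exact ⟨(degree_C_mul_X_le _).trans_lt (by norm_num), degree_one_le.trans_lt (by norm_num)⟩
  rw [e]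
  refine ⟨monic_X_pow_add hd, natDegree_eq_of_degree_eq_some ?_⟩
  rw [degree_add_eq_left_of_degree_lt (by rw [degree_X_pow]; exact hd), degree_X_pow]

theorem cop_unit {x y : ℝ[X]} (h : IsUnit y) : IsCoprime x y := by
  obtain ⟨u, rfl⟩ := h
  exact ⟨0, ↑u⁻¹, by simp⟩

theorem q_coprime_X (c : ℝ) : IsCoprime (q c) X := by
  refine ⟨1, C (2 * c) - X, ?_⟩
  unfold q
  ring

theorem q_coprime {c c' : ℝ} (h : c ≠ c') : IsCoprime (q c) (q c') := by
  have h1 : IsCoprime (q c) (q c' - q c) := by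
    have e : q c' - q c = C (2 * (c - c')) * X := by
      unfold q
      simp only [C_mul, C_sub, map_ofNat]
      ring
    rw [e]
    refine IsCoprime.mul_right ?_ (q_coprime_X c)
    have hu : IsUnit (C (2 * (c - c')) : ℝ[X]) := by
      rw [isUnit_C]
      exact isUnit_iff_ne_zero.2 (mul_ne_zero two_ne_zero (sub_ne_zero.2 h))
    exact cop_unit hu
  have h2 := h1.add_mul_left_right 1
  rwa [mul_one, sub_add_cancel] at h2

theorem q_dvd {P : ℝ[X]} {φ : ℝ} (h1 : 0 < φ) (h2 : φ < Real.pi)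
    (h : aeval (Complex.exp (φ * Complex.I)) P = 0) : q (Real.cos φ) ∣ P := by
  have him : (Complex.exp (φ * Complex.I)).im = Real.sin φ := Complex.exp_ofReal_mul_I_im φ
  have hre : (Complex.exp (φ * Complex.I)).re = Real.cos φ := Complex.exp_ofReal_mul_I_re φ
  have hne : (Complex.exp (φ * Complex.I)).im ≠ 0 := by
    rw [him]
    exact (Real.sin_pos_of_pos_of_lt_pi h1 h2).ne'
  have := Polynomial.quadratic_dvd_of_aeval_eq_zero_im_ne_zero P h hne
  rw [hre, Complex.norm_exp_ofReal_mul_I] at this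
  convert this using 1
  unfold q
  rw [one_pow, C_1]
  ring

theorem prod_eq {P L : ℝ[X]} {m : ℕ} {c : ℕ → ℝ} (hP : P.Monic) (hPd : P.natDegree = 2 * m + 1)
    (hL : L.Monic) (hLd : L.natDegree = 1) (hLP : L ∣ P) (hc : ∀ i < m, q (c i) ∣ P)
    (hLc : ∀ i < m, IsCoprime L (q (c i)))
    (hcc : ∀ i < m, ∀ j < m, i ≠ j → c i ≠ c j) : P = L * ∏ i ∈ range m, q (c i) := by
  have h1 : (∏ i ∈ range m, q (c i)) ∣ P := by
    refine Finset.prod_dvd_of_coprime ?_ fun i hi => hc i (Finset.mem_range.1 hi)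
    intro i hi j hj hij
    exact q_coprime (hcc i (by simpa using hi) j (by simpa using hj) hij)
  have h2 : L * ∏ i ∈ range m, q (c i) ∣ P := by
    refine IsCoprime.mul_dvd ?_ hLP h1
    exact IsCoprime.prod_right fun i hi => hLc i (Finset.mem_range.1 hi)
  have hm : (∏ i ∈ range m, q (c i)).Monic := monic_prod_of_monic _ _ fun i _ => (q_monic _).1
  have hd : (∏ i ∈ range m, q (c i)).natDegree = 2 * m := by
    rw [natDegree_prod_of_monic _ _ fun i _ => (q_monic _).1]
    simp only [(q_monic _).2, Finset.sum_const, Finset.card_range, smul_eq_mul]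
    ring
  refine eq_of_monic_of_dvd_of_natDegree_le (hL.mul hm) hP h2 ?_
  rw [hPd, hL.natDegree_mul hm, hLd, hd]
  omega

theorem cos_shift_even (x : ℝ) (i : ℕ) :
    Real.cos (x - (2 * i : ℕ) * (Real.pi / 2)) = (-1) ^ i * Real.cos x := by
  have : x - (2 * i : ℕ) * (Real.pi / 2) = x - i * Real.pi := by
    push_cast
    ring
  rw [this, Real.cos_sub_nat_mul_pi]

theorem cos_shift_odd (x : ℝ) (i : ℕ) :
    Real.cos (x - (2 * i + 1 : ℕ) * (Real.pi / 2)) = (-1) ^ i * Real.sin x := by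
  have : x - (2 * i + 1 : ℕ) * (Real.pi / 2) = (x - Real.pi / 2) - i * Real.pi := by
    push_cast
    ring
  rw [this, Real.cos_sub_nat_mul_pi, Real.cos_sub_pi_div_two]

theorem exists_cuts {r s m : ℕ} (hN : r + s = 2 * m + 1) (hs : 1 ≤ s) (a : ℕ → ℝ) (h0 : a 0 = 1)
    (_hr : ∀ i, r < i → a i = 0) (ha : ∑ i ∈ Finset.Icc 1 r, |a i| ≤ 1 / 2) :
    ∃ c : ℕ → ℝ, (∀ j < 2 * m, -1 < c j ∧ c j < 1) ∧ (∀ j, j + 1 < 2 * m → c (j + 1) < c j) ∧
      A a r + Ash a r s = (1 + X) * ∏ i ∈ range m, q (c (2 * i)) ∧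
      A a r - Ash a r s = (1 - X) * ∏ i ∈ range m, q (c (2 * i + 1)) := by
  have hNpos : 0 < r + s := by omega
  have hpi := Real.pi_pos
  choose φ h1 h2 h3 using exists_angle hNpos a h0 ha
  have hNr : (0 : ℝ) < (r + s : ℕ) := by exact_mod_cast hNpos
  have p1 : ∀ j, 0 < φ j := fun j => lt_trans (by positivity) (h1 j)
  have p2 : ∀ j < 2 * m, φ j < Real.pi := by
    intro j hj
    refine (h2 j).trans_le ?_
    rw [div_le_iff₀ hNr, mul_comm]
    apply mul_le_mul_of_nonneg_left _ hpi.le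
    have : ((j + 1 : ℕ) : ℝ) ≤ (2 * m : ℕ) := by exact_mod_cast hj
    rw [hN]
    push_cast at this ⊢
    linarith
  have p3 : ∀ j, φ j < φ (j + 1) := by
    intro j
    refine (h2 j).trans_le (le_trans (le_of_eq ?_) (h1 (j + 1)).le)
    push_cast
    ring
  have p4 : StrictMono φ := strictMono_nat_of_lt_succ p3
  have hinj : ∀ i < 2 * m, ∀ j < 2 * m, i ≠ j → Real.cos (φ i) ≠ Real.cos (φ j) := by
    intro i hi j hj hij h
    have := Real.injOn_cos ⟨(p1 i).le, (p2 i hi).le⟩ ⟨(p1 j).le, (p2 j hj).le⟩ h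
    exact hij (p4.injective this)
  have hb : ∀ j < 2 * m, -1 < Real.cos (φ j) ∧ Real.cos (φ j) < 1 := by
    intro j hj
    constructor
    · rw [← Real.cos_pi]
      exact Real.cos_lt_cos_of_nonneg_of_le_pi (p1 j).le le_rfl (p2 j hj)
    · rw [← Real.cos_zero]
      exact Real.cos_lt_cos_of_nonneg_of_le_pi le_rfl (p2 j hj).le (p1 j)
  refine ⟨fun j => Real.cos (φ j), hb, fun j hj =>
    Real.cos_lt_cos_of_nonneg_of_le_pi (p1 j).le (p2 _ hj).le (p3 j), ?_, ?_⟩
  · have e : (1 : ℝ[X]) + X = X + C 1 := by rw [C_1, add_comm]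
    rw [e]
    obtain ⟨m1, m2⟩ := monic_Ash a r s h0 hNpos
    have hlt : (A a r).degree < (Ash a r s).degree := by
      rw [degree_eq_natDegree m1.ne_zero, m2]
      exact (natDegree_A_le a r).trans_le (by exact_mod_cast (by omega))
    refine prod_eq (m1.add_of_right hlt) ?_ (monic_X_add_C 1) (natDegree_X_add_C 1) ?_ ?_ ?_ ?_
    · rw [natDegree_add_eq_right_of_degree_lt hlt, m2, hN]
    · rw [show (X + C 1 : ℝ[X]) = X - C (-1) by simp, dvd_iff_isRoot, IsRoot.def]
      simp only [A, Ash, eval_add, eval_finsetSum, eval_mul, eval_C, eval_pow, eval_X]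
      rw [← Finset.sum_add_distrib]
      refine Finset.sum_eq_zero fun i hi => ?_
      rw [Finset.mem_range] at hi
      have : (-1 : ℝ) ^ (r + s - i) = -(-1) ^ i := by
        rcases Nat.even_or_odd i with h | h
        · have h' : Odd (r + s - i) := by
            rw [hN]
            obtain ⟨k, rfl⟩ := h
            exact ⟨m - k, by omega⟩
          rw [h'.neg_one_pow, h.neg_one_pow]
        · have h' : Even (r + s - i) := by
            rw [hN]
            obtain ⟨k, rfl⟩ := h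
            exact ⟨m - k, by omega⟩
          rw [h'.neg_one_pow, h.neg_one_pow, neg_neg]
      rw [this]
      ring
    · intro i hi
      refine q_dvd (p1 _) (p2 _ (by omega)) ?_
      rw [aeval_add]
      have h4 := h3 (2 * i)
      simp only [cos_shift_even] at h4
      have h5 : (-1 : ℝ) ^ i * ∑ k ∈ range (r + 1), a k *
          Real.cos ((((r + s : ℕ) : ℝ) / 2 - k) * φ (2 * i)) = 0 := by
        rw [Finset.mul_sum, ← h4]
        exact Finset.sum_congr rfl fun k _ => by ring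
      rw [(mul_eq_zero.1 h5).resolve_left (pow_ne_zero _ (by norm_num))]
      simp
    · intro i hi
      have : IsCoprime (X + C 1) (q (Real.cos (φ (2 * i)))) := by
        have h5 := (hb (2 * i) (by omega)).1
        have h6 : (2 + 2 * Real.cos (φ (2 * i))) ≠ 0 := by linarith
        have h7 : IsCoprime (X + C 1 : ℝ[X]) (C (2 + 2 * Real.cos (φ (2 * i)))) := by
          apply cop_unit
          rw [isUnit_C]
          exact isUnit_iff_ne_zero.2 h6
        have h8 := h7.add_mul_left_right (X - C (2 * Real.cos (φ (2 * i))) - 1)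
        have e : q (Real.cos (φ (2 * i))) = C (2 + 2 * Real.cos (φ (2 * i))) +
            (X + C 1) * (X - C (2 * Real.cos (φ (2 * i))) - 1) := by
          unfold q
          simp only [C_mul, C_add, map_ofNat, C_1]
          ring
        rw [e]
        exact h8
      exact this
    · intro i hi j hj hij
      exact hinj _ (by omega) _ (by omega) (by omega)
  · obtain ⟨m1, m2⟩ := monic_Ash a r s h0 hNpos
    have hlt : (-A a r).degree < (Ash a r s).degree := by
      rw [degree_neg, degree_eq_natDegree m1.ne_zero, m2]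
      exact (natDegree_A_le a r).trans_le (by exact_mod_cast (by omega))
    have key : -A a r + Ash a r s = (X - C 1) * ∏ i ∈ range m, q (Real.cos (φ (2 * i + 1))) := by
      refine prod_eq (m1.add_of_right hlt) ?_ (monic_X_sub_C 1) (natDegree_X_sub_C 1) ?_ ?_ ?_ ?_
      · rw [natDegree_add_eq_right_of_degree_lt hlt, m2, hN]
      · rw [dvd_iff_isRoot, IsRoot.def]
        simp [A, Ash, eval_finsetSum]
      · intro i hi
        refine q_dvd (p1 _) (p2 _ (by omega)) ?_
        rw [show -A a r + Ash a r s = -(A a r - Ash a r s) by ring, map_neg, aeval_sub]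
        have h4 := h3 (2 * i + 1)
        simp only [cos_shift_odd] at h4
        have h5 : (-1 : ℝ) ^ i * ∑ k ∈ range (r + 1), a k *
            Real.sin ((((r + s : ℕ) : ℝ) / 2 - k) * φ (2 * i + 1)) = 0 := by
          rw [Finset.mul_sum, ← h4]
          exact Finset.sum_congr rfl fun k _ => by ring
        rw [(mul_eq_zero.1 h5).resolve_left (pow_ne_zero _ (by norm_num))]
        simp
      · intro i hi
        have h5 := (hb (2 * i + 1) (by omega)).2
        have h6 : (2 - 2 * Real.cos (φ (2 * i + 1))) ≠ 0 := by linarith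
        have h7 : IsCoprime (X - C 1 : ℝ[X]) (C (2 - 2 * Real.cos (φ (2 * i + 1)))) := by
          apply cop_unit
          rw [isUnit_C]
          exact isUnit_iff_ne_zero.2 h6
        have h8 := h7.add_mul_left_right (X - C (2 * Real.cos (φ (2 * i + 1))) + 1)
        have e : q (Real.cos (φ (2 * i + 1))) = C (2 - 2 * Real.cos (φ (2 * i + 1))) +
            (X - C 1) * (X - C (2 * Real.cos (φ (2 * i + 1))) + 1) := by
          unfold q
          simp only [C_mul, C_sub, map_ofNat, C_1]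
          ring
        rw [e]
        exact h8
      · intro i hi j hj hij
        exact hinj _ (by omega) _ (by omega) (by omega)
    have e : A a r - Ash a r s = -(-A a r + Ash a r s) := by ring
    rw [e, key, C_1]
    ring

end Pool.Agent.NPC.ER.CH
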