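import Pool.Agent.H612.Gap
import Pool.Agent.ER.ToSys

/-!
# Effective bounds for existential formulas over the reals

Let `φ` be a quantifier-free formula, `s` the number of elementary constraints of its translation
`sysOf φ`, and `B = 2 ^ (2 ^ (9 * s + 17))`.

* `gap_small` : if a coordinate is positive on all solutions of `φ` and at most `1 / B` on some
  solution, then it takes arbitrarily small values on the solutions.
* `gap_bounded` : if there are solutions with arbitrarily small `d`-th coordinate and bounded `r`-th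
  coordinate, then there are such solutions with `r`-th coordinate at most `B`.
-/

namespace Pool.Agent.NPC.H612

open ER Pool.Agent.H612 Filter Topology


/-- The translation of a formula into a system, with its solutions. -/
theorem sysOf_spec (φ : Fm) :
    (∀ v, SysHolds v (sysOf φ) → φ.Holds (fun i => v (2 * i))) ∧
    (∀ x : ℕ → ℝ, φ.Holds x → ∃ v : ℕ → ℝ, (∀ i, v (2 * i) = x i) ∧ SysHolds v (sysOf φ)) := by
  obtain ⟨n', p, q, o', e, hn, hp, hq, A, hsound, hcomp⟩ := fspec φ 0 [] []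
  have e' : sysOf φ = ER.Con.add p p p :: o' := by
    simp only [sysOf, e, top_cons, List.append_nil]
  rw [e']
  constructor
  · intro v hv
    rw [sysHolds_cons] at hv
    exact (hsound v hv.2).1 (by have : v p + v p = v p := hv.1; linarith)
  · intro x hx
    obtain ⟨v', h1, h2, h3, _⟩ := hcomp (fun i => x (i / 2))
    have h4 : ∀ i, v' (2 * i) = x i := by
      intro i
      rw [h1 _ (av_even _ _)]
      simp
    refine ⟨v', h4, sysHolds_cons.2 ⟨?_, h2⟩⟩
    have : (fun i => v' (2 * i)) = x := by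
      funext i
      exact h4 i
    rw [this] at h3
    simp [ER.Con.Holds, h3 hx]

theorem one_le_two' : 1 ≤ 2 := by norm_num

theorem one_le_four' : 1 ≤ 4 := by norm_num

section Sys

variable {N : ℕ} (r : ℕ → Fin N)

/-- The polynomial of a constraint. -/
noncomputable def conP : ER.Con → MvPolynomial (Fin N) ℤ
  | ER.Con.one i => MvPolynomial.X (r i) - 1
  | ER.Con.add i j k => MvPolynomial.X (r i) + MvPolynomial.X (r j) - MvPolynomial.X (r k)
  | ER.Con.mul i j k => MvPolynomial.X (r i) * MvPolynomial.X (r j) - MvPolynomial.X (r k)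

theorem ev_conP (c : ER.Con) (z : Fin N → ℝ) : Pool.Agent.H612.ev (conP r c) z = 0 ↔ c.Holds (fun i => z (r i)) := by
  cases c <;> simp [conP, Pool.Agent.H612.ev, ER.Con.Holds, sub_eq_zero]

theorem deg_conP (c : ER.Con) : DegLE (conP r c) 2 := by
  cases c with
  | one i =>
    refine ((degLE_X _).mono one_le_two').sub ?_
    rw [← map_one MvPolynomial.C]
    exact degLE_C _ _
  | add i j k =>
    exact (((degLE_X _).mono one_le_two').add ((degLE_X _).mono one_le_two')).sub
      ((degLE_X _).mono one_le_two')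
  | mul i j k =>
    exact ((degLE_X _).mul (degLE_X _)).sub ((degLE_X _).mono one_le_two')

theorem mν_conP (c : ER.Con) : RNorm.int.mν (conP r c) ≤ 3 := by
  have hX : ∀ i, RNorm.int.mν (MvPolynomial.X i : MvPolynomial (Fin N) ℤ) ≤ 1 :=
    fun i => RNorm.int.mν_X i
  cases c with
  | one i =>
    refine (RNorm.int.mν_sub _ _).trans ?_
    have h1 := hX (r i)
    have h2 : RNorm.int.mν (1 : MvPolynomial (Fin N) ℤ) ≤ 1 := RNorm.int.mν_one
    omega
  | add i j k =>
    refine (RNorm.int.mν_sub _ _).trans ?_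
    have h0 := RNorm.int.mν_add (MvPolynomial.X (r i) : MvPolynomial (Fin N) ℤ)
      (MvPolynomial.X (r j))
    have h1 := hX (r i)
    have h2 := hX (r j)
    have h3 := hX (r k)
    omega
  | mul i j k =>
    refine (RNorm.int.mν_sub _ _).trans ?_
    have h0 := RNorm.int.mν_mul (MvPolynomial.X (r i) : MvPolynomial (Fin N) ℤ)
      (MvPolynomial.X (r j))
    have h1 := hX (r i)
    have h2 := hX (r j)
    have h3 := hX (r k)
    have h4 := Nat.mul_le_mul h1 h2
    omega

/-- The sum of squares of the polynomials of a system. -/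
noncomputable def sysP (S : List ER.Con) : MvPolynomial (Fin N) ℤ :=
  (S.map fun c => conP r c * conP r c).sum

theorem ev_sysP (S : List ER.Con) (z : Fin N → ℝ) :
    Pool.Agent.H612.ev (sysP r S) z = (S.map fun c => Pool.Agent.H612.ev (conP r c) z * Pool.Agent.H612.ev (conP r c) z).sum := by
  unfold sysP
  induction S with
  | nil => simp [Pool.Agent.H612.ev]
  | cons c S ih =>
    rw [List.map_cons, List.sum_cons, List.map_cons, List.sum_cons, ← ih]
    simp [Pool.Agent.H612.ev]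

theorem ev_sysP_nonneg (S : List ER.Con) (z : Fin N → ℝ) : 0 ≤ Pool.Agent.H612.ev (sysP r S) z := by
  rw [ev_sysP]
  apply List.sum_nonneg
  intro x hx
  rw [List.mem_map] at hx
  obtain ⟨c, _, rfl⟩ := hx
  exact mul_self_nonneg _

theorem ev_sysP_eq_zero (S : List ER.Con) (z : Fin N → ℝ) :
    Pool.Agent.H612.ev (sysP r S) z = 0 ↔ SysHolds (fun i => z (r i)) S := by
  induction S with
  | nil => simp [ev_sysP, SysHolds]
  | cons c S ih =>
    rw [sysHolds_cons, ← ih, ← ev_conP]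
    have h1 := ev_sysP_nonneg r S z
    have h2 : Pool.Agent.H612.ev (sysP r (c :: S)) z = Pool.Agent.H612.ev (conP r c) z * Pool.Agent.H612.ev (conP r c) z + Pool.Agent.H612.ev (sysP r S) z := by
      rw [ev_sysP, ev_sysP, List.map_cons, List.sum_cons]
    rw [h2]
    have h3 := mul_self_nonneg (Pool.Agent.H612.ev (conP r c) z)
    constructor
    · intro h
      have h4 : Pool.Agent.H612.ev (conP r c) z * Pool.Agent.H612.ev (conP r c) z = 0 := by linarith
      exact ⟨mul_self_eq_zero.1 h4, by linarith⟩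
    · rintro ⟨h4, h5⟩
      rw [h4, h5]; ring

theorem deg_sysP (S : List ER.Con) : DegLE (sysP r S) 4 := by
  unfold sysP
  induction S with
  | nil => simpa using degLE_zero 4
  | cons c S ih =>
    rw [List.map_cons, List.sum_cons]
    exact ((deg_conP r c).mul (deg_conP r c)).add ih

theorem mν_sysP (S : List ER.Con) : RNorm.int.mν (sysP r S) ≤ 9 * S.length := by
  unfold sysP
  induction S with
  | nil => simp [RNorm.mν_zero]
  | cons c S ih =>
    rw [List.map_cons, List.sum_cons, List.length_cons]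
    refine (RNorm.int.mν_add _ _).trans ?_
    have h1 := RNorm.int.mν_mul (conP r c) (conP r c)
    have h2 := mν_conP r c
    have h3 := Nat.mul_le_mul h2 h2
    omega

end Sys

/-! ### The numerical bound -/

/-- The exponent of the bound. -/
def kap (s : ℕ) : ℕ := 9 * s + 17

theorem boundH_le (s N C : ℕ) (hN : N ≤ 3 * s + 3) (hC : C ≤ 9 * s + 2) :
    8 * boundH N C ≤ 2 ^ (2 ^ kap s) := by
  set t := s + 1 with ht
  have ht1 : 1 ≤ t := by omega
  have hN' : N ≤ 3 * t := by omega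
  have hC' : C ≤ 9 * t := by omega
  have e1 : 36 * t ≤ 2 ^ (t + 5) := by
    have h1 : t ≤ 2 ^ (t - 1) := by
      have := Nat.lt_two_pow_self (n := t - 1)
      omega
    have h2 : 2 ^ (t + 5) = 64 * 2 ^ (t - 1) := by
      have : t + 5 = 6 + (t - 1) := by omega
      rw [this, pow_add]; norm_num
    omega
  have e2 : 1 + (6 + 4 * N) * C * (4 * C) ^ (4 + 4 * N) ≤ (36 * t) ^ (12 * t + 6) := by
    have h1 : (4 * C) ^ (4 + 4 * N) ≤ (36 * t) ^ (12 * t + 4) :=
      (Nat.pow_le_pow_left (by omega) _).trans (Nat.pow_le_pow_right (by omega) (by omega))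
    have h2 : (6 + 4 * N) * C ≤ (12 * t + 6) * (9 * t) := Nat.mul_le_mul (by omega) hC'
    have h3 : 1 ≤ (36 * t) ^ (12 * t + 4) := Nat.one_le_pow _ _ (by omega)
    calc 1 + (6 + 4 * N) * C * (4 * C) ^ (4 + 4 * N)
        ≤ (36 * t) ^ (12 * t + 4) + (12 * t + 6) * (9 * t) * (36 * t) ^ (12 * t + 4) :=
          Nat.add_le_add h3 (Nat.mul_le_mul h2 h1)
      _ = (36 * t) ^ (12 * t + 4) * (1 + (12 * t + 6) * (9 * t)) := by ring
      _ ≤ (36 * t) ^ (12 * t + 4) * (36 * t) ^ 2 := by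
          apply Nat.mul_le_mul_left
          nlinarith
      _ = (36 * t) ^ (12 * t + 6) := by rw [← pow_add]
  have e3 : 1 + (6 + 4 * N) * C * (4 * C) ^ (4 + 4 * N) ≤ 2 ^ ((t + 5) * (12 * t + 6)) := by
    refine e2.trans ?_
    rw [pow_mul]
    exact Nat.pow_le_pow_left e1 _
  have e4 : 5 ^ N ≤ 2 ^ (7 * t) := by
    calc 5 ^ N ≤ 5 ^ (3 * t) := Nat.pow_le_pow_right (by norm_num) hN'
      _ = 125 ^ t := by rw [pow_mul]; norm_num
      _ ≤ 128 ^ t := Nat.pow_le_pow_left (by norm_num) _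
      _ = 2 ^ (7 * t) := by rw [pow_mul]; norm_num
  have e5 : (t + 5) * (12 * t + 6) ≤ 2 ^ (2 * t + 7) := by
    have h1 : t ≤ 2 ^ t := Nat.lt_two_pow_self.le
    have h2 : t * t ≤ 2 ^ t * 2 ^ t := Nat.mul_le_mul h1 h1
    have h3 : 2 ^ (2 * t + 7) = 128 * (2 ^ t * 2 ^ t) := by
      rw [pow_add, two_mul, pow_add]; ring
    have h4 : (t + 5) * (12 * t + 6) ≤ 128 * (t * t) := by nlinarith
    omega
  have e6 : boundH N C ≤ 2 ^ (2 ^ (9 * t + 7)) := by
    unfold boundH
    calc (1 + (6 + 4 * N) * C * (4 * C) ^ (4 + 4 * N)) ^ 5 ^ N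
        ≤ (2 ^ ((t + 5) * (12 * t + 6))) ^ 5 ^ N := Nat.pow_le_pow_left e3 _
      _ = 2 ^ ((t + 5) * (12 * t + 6) * 5 ^ N) := (pow_mul _ _ _).symm
      _ ≤ 2 ^ (2 ^ (2 * t + 7) * 2 ^ (7 * t)) :=
          Nat.pow_le_pow_right (by norm_num) (Nat.mul_le_mul e5 e4)
      _ = 2 ^ (2 ^ (9 * t + 7)) := by rw [← pow_add]; congr 2; ring
  have e7 : kap s = 9 * t + 7 + 1 := by unfold kap; omega
  rw [e7, pow_succ 2 (9 * t + 7), mul_two, pow_add]
  have e8 : 8 ≤ 2 ^ (2 ^ (9 * t + 7)) := by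
    have h1 : 3 ≤ 2 ^ (9 * t + 7) := by
      calc 3 ≤ 2 ^ 7 := by norm_num
        _ ≤ 2 ^ (9 * t + 7) := Nat.pow_le_pow_right (by norm_num) (by omega)
    calc 8 = 2 ^ 3 := by norm_num
      _ ≤ _ := Nat.pow_le_pow_right (by norm_num) h1
  exact Nat.mul_le_mul e8 e6

/-! ### The variables of a system -/

/-- Variables occurring in a system, with two more. -/
def svars (S : List ER.Con) (a b : ℕ) : List ℕ := a :: b :: S.flatMap ER.Con.vars

theorem svars_length (S : List ER.Con) (a b : ℕ) : (svars S a b).length ≤ 3 * S.length + 2 := by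
  have : (S.flatMap ER.Con.vars).length ≤ 3 * S.length := by
    induction S with
    | nil => simp
    | cons c S ih =>
      rw [List.flatMap_cons, List.length_append, List.length_cons]
      have : c.vars.length ≤ 3 := by cases c <;> simp [ER.Con.vars]
      omega
  simp only [svars, List.length_cons]
  omega

/-- Numbering of variables. -/
def rv (vs : List ℕ) (i : ℕ) : Fin (vs.length + 1) :=
  ⟨vs.idxOf i, Nat.lt_succ_of_le List.idxOf_le_length⟩

theorem rv_inv (vs : List ℕ) (v : ℕ → ℝ) {i : ℕ} (hi : i ∈ vs) :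
    (fun k : Fin (vs.length + 1) => v (vs.getD k 0)) (rv vs i) = v i := by
  have h : vs.idxOf i < vs.length := List.idxOf_lt_length_iff.2 hi
  simp only [rv]
  rw [List.getD_eq_getElem?_getD, List.getElem?_eq_getElem h]
  simp

/-- The two descriptions of the solution set. -/
theorem image_eq (φ : Fm) (a b : ℕ) (F : ℝ → ℝ → ℝ) :
    (fun z : Fin ((svars (sysOf φ) (2 * a) (2 * b)).length + 1) → ℝ =>
      F (z (rv (svars (sysOf φ) (2 * a) (2 * b)) (2 * a)))
        (z (rv (svars (sysOf φ) (2 * a) (2 * b)) (2 * b)))) ''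
      {z | Pool.Agent.H612.ev (sysP (rv (svars (sysOf φ) (2 * a) (2 * b))) (sysOf φ)) z = 0} =
    (fun x : ℕ → ℝ => F (x a) (x b)) '' {x | φ.Holds x} := by
  obtain ⟨h1, h2⟩ := sysOf_spec φ
  ext y
  simp only [Set.mem_image, Set.mem_ofPred_eq, ev_sysP_eq_zero]
  constructor
  · rintro ⟨z, hz, rfl⟩
    exact ⟨_, h1 _ hz, rfl⟩
  · rintro ⟨x, hx, rfl⟩
    obtain ⟨v, hv, hS⟩ := h2 x hx
    refine ⟨fun k => v ((svars (sysOf φ) (2 * a) (2 * b)).getD k 0), ?_, ?_⟩
    · intro c hc
      refine (ER.Con.holds_congr fun i hi => ?_).2 (hS c hc)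
      exact rv_inv _ v (by
        unfold svars
        exact List.mem_cons_of_mem _ (List.mem_cons_of_mem _ (List.mem_flatMap.2 ⟨c, hc, hi⟩)))
    · rw [rv_inv _ v (by simp [svars]), rv_inv _ v (by simp [svars]), hv, hv]

theorem ev_X {N : ℕ} (i : Fin N) (z : Fin N → ℝ) : Pool.Agent.H612.ev (MvPolynomial.X i) z = z i := by
  simp [Pool.Agent.H612.ev]

/-- The relation satisfied by limits of infima of `x a + M * (κ * x b)`, with `κ ∈ {0, 1}`. -/
theorem effective_fm (φ : Fm) (a b κ : ℕ) (hκ : κ ≤ 1) :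
    ∃ H : ℕ, 8 * H ≤ 2 ^ (2 ^ kap (sysOf φ).length) ∧
    ∃ P : Polynomial ℤ, P ≠ 0 ∧ RNorm.int.poly.ν P ≤ H ∧ ∀ (g : ℝ → ℝ) (L : ℝ),
      (∀ᶠ M in atTop, IsGLB ((fun x : ℕ → ℝ => x a + M * (κ * x b)) '' {x | φ.Holds x}) (g M)) →
        Tendsto g atTop (𝓝 L) → P.eval₂ (Int.castRingHom ℝ) (6 * L) = 0 := by
  set vs := svars (sysOf φ) (2 * a) (2 * b) with hvs
  have hN : vs.length + 1 ≤ 3 * (sysOf φ).length + 3 := by
    have := svars_length (sysOf φ) (2 * a) (2 * b)
    rw [← hvs] at this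
    omega
  obtain ⟨P, hP, hν, h⟩ := effective (N := vs.length + 1) (MvPolynomial.X (rv vs (2 * a)))
    (MvPolynomial.C (κ : ℤ) * MvPolynomial.X (rv vs (2 * b))) (sysP (rv vs) (sysOf φ))
    ((degLE_X _).mono one_le_four')
    (((degLE_X _).mono one_le_four').C_mul _) (deg_sysP _ _) (ev_sysP_nonneg _ _)
    (9 * (sysOf φ).length + 2) (by omega) (by
      have h1 : RNorm.int.mν (MvPolynomial.X (rv vs (2 * a)) : MvPolynomial _ ℤ) ≤ 1 :=
        RNorm.int.mν_X _
      have h2 : RNorm.int.mν (MvPolynomial.X (rv vs (2 * b)) : MvPolynomial _ ℤ) ≤ 1 :=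
        RNorm.int.mν_X _
      have h3 := mν_sysP (rv vs) (sysOf φ)
      have h4 := RNorm.int.mν_mul (MvPolynomial.C (κ : ℤ) : MvPolynomial _ ℤ)
        (MvPolynomial.X (rv vs (2 * b)))
      have h5 : RNorm.int.mν (MvPolynomial.C (κ : ℤ) : MvPolynomial (Fin (vs.length + 1)) ℤ)
        ≤ 1 := by
        rw [RNorm.mν_C]
        exact (RNorm.int.natCast κ).trans hκ
      have h6 := Nat.mul_le_mul h5 h2
      omega)
  refine ⟨_, boundH_le _ _ _ hN le_rfl, P, hP, hν, fun g L hg hL => h g L ?_ hL⟩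
  filter_upwards [hg] with M hM
  have := image_eq φ a b (fun s t => s + M * (κ * t))
  have e : ∀ z : Fin (vs.length + 1) → ℝ,
      Pool.Agent.H612.ev (MvPolynomial.C (κ : ℤ) * MvPolynomial.X (rv vs (2 * b))) z =
        κ * z (rv vs (2 * b)) := by
    intro z
    simp [Pool.Agent.H612.ev]
  simp only [ev_X, e]
  rw [this]
  exact hM

/-- If the coordinate `d` is positive on all solutions, and very small on one of them, then it is
arbitrarily small. -/
theorem gap_small (φ : Fm) (d : ℕ) (hd : ∀ x, φ.Holds x → 0 < x d) {x₀ : ℕ → ℝ}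
    (h₀ : φ.Holds x₀) (hx₀ : x₀ d * 2 ^ (2 ^ kap (sysOf φ).length) ≤ 1) :
    ∀ ε > 0, ∃ x, φ.Holds x ∧ x d < ε := by
  obtain ⟨H, hH, P, hP, hν, h⟩ := effective_fm φ d d 0 (by norm_num)
  have h4 : (8 * H : ℝ) ≤ 2 ^ (2 ^ kap (sysOf φ).length) := by exact_mod_cast hH
  clear hH
  revert h4 hx₀
  generalize (2 : ℝ) ^ (2 ^ kap (sysOf φ).length) = B
  intro hx₀ h4
  have hne : ((fun x : ℕ → ℝ => x d) '' {x | φ.Holds x}).Nonempty := ⟨_, x₀, h₀, rfl⟩
  have hbd : BddBelow ((fun x : ℕ → ℝ => x d) '' {x | φ.Holds x}) := by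
    refine ⟨0, ?_⟩
    rintro _ ⟨x, hx, rfl⟩
    exact (hd x hx).le
  obtain ⟨m, hm⟩ := Real.exists_isGLB hne hbd
  have hroot := h (fun _ => m) m (Eventually.of_forall fun M => by
    simpa using hm) tendsto_const_nhds
  have hm0 : 0 ≤ m := by
    refine (le_isGLB_iff hm).2 ?_
    rintro _ ⟨x, hx, rfl⟩
    exact (hd x hx).le
  have hm1 : m ≤ x₀ d := hm.1 ⟨x₀, h₀, rfl⟩
  have hmz : m = 0 := by
    by_contra hmne
    have h1 := root_lower P hP (6 * m) (by positivity) hroot
    have h2 : |6 * m| = 6 * m := abs_of_nonneg (by positivity)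
    rw [h2] at h1
    have hmpos : 0 < m := lt_of_le_of_ne hm0 (Ne.symm hmne)
    have h3 : (RNorm.int.poly.ν P : ℝ) ≤ H := by exact_mod_cast hν
    have h5 : 1 ≤ 6 * m * H := h1.trans (mul_le_mul_of_nonneg_left h3 (by positivity))
    have h6 : 8 * (m * H) ≤ 1 := by
      calc 8 * (m * H) = m * (8 * H) := by ring
        _ ≤ m * B := mul_le_mul_of_nonneg_left h4 hm0
        _ ≤ x₀ d * B :=
            mul_le_mul_of_nonneg_right hm1 (le_trans (by positivity) h4)
        _ ≤ 1 := hx₀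
    linarith
  intro ε hε
  by_contra hcon
  push Not at hcon
  have : ε ≤ m := by
    refine (le_isGLB_iff hm).2 ?_
    rintro _ ⟨x, hx, rfl⟩
    exact hcon x hx
  linarith

/-- If the solutions have arbitrarily small `d`-th coordinate with bounded `r`-th coordinate, then
the bound can be taken explicit. -/
theorem gap_bounded (φ : Fm) (r d : ℕ) (hr : ∀ x, φ.Holds x → 0 ≤ x r)
    (hd : ∀ x, φ.Holds x → 0 < x d) (R₁ : ℝ)
    (h₁ : ∀ ε > 0, ∃ x, φ.Holds x ∧ x r ≤ R₁ ∧ x d < ε) :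
    ∀ ε > 0, ∃ x, φ.Holds x ∧ x r ≤ 2 ^ (2 ^ kap (sysOf φ).length) ∧ x d < ε := by
  obtain ⟨H, hH, P, hP, hν, h⟩ := effective_fm φ r d 1 le_rfl
  have h4 : (8 * H : ℝ) ≤ 2 ^ (2 ^ kap (sysOf φ).length) := by exact_mod_cast hH
  have h8 : (8 : ℝ) ≤ 2 ^ (2 ^ kap (sysOf φ).length) := by
    have h9 : 3 ≤ 2 ^ kap (sysOf φ).length := by
      calc 3 ≤ 2 ^ 17 := by norm_num
        _ ≤ 2 ^ kap (sysOf φ).length := Nat.pow_le_pow_right (by norm_num) (by unfold kap; omega)
    calc (8 : ℝ) = 2 ^ 3 := by norm_num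
      _ ≤ _ := pow_le_pow_right₀ (by norm_num) h9
  clear hH
  revert h4 h8
  generalize (2 : ℝ) ^ (2 ^ kap (sysOf φ).length) = B
  intro h4 h8
  have hex : ∀ M : ℝ, ∃ m : ℝ, 0 ≤ M →
      IsGLB ((fun x : ℕ → ℝ => x r + M * ((1 : ℕ) * x d)) '' {x | φ.Holds x}) m := by
    intro M
    by_cases hM : 0 ≤ M
    · obtain ⟨x₀, h₀, _⟩ := h₁ 1 one_pos
      obtain ⟨m, hm⟩ := Real.exists_isGLB (s := (fun x : ℕ → ℝ => x r + M * ((1 : ℕ) * x d)) ''
        {x | φ.Holds x}) ⟨_, x₀, h₀, rfl⟩ ⟨0, by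
          rintro _ ⟨x, hx, rfl⟩
          have := mul_nonneg hM (hd x hx).le
          have := hr x hx
          simp only [Nat.cast_one, one_mul]
          linarith⟩
      exact ⟨m, fun _ => hm⟩
    · exact ⟨0, fun h => absurd h hM⟩
  choose g hg using hex
  -- monotone and bounded
  have hmono : ∀ M M', 0 ≤ M → M ≤ M' → g M ≤ g M' := by
    intro M M' h0 hMM
    refine (le_isGLB_iff (hg M' (h0.trans hMM))).2 ?_
    rintro _ ⟨x, hx, rfl⟩
    refine ((hg M h0).1 ⟨x, hx, rfl⟩).trans ?_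
    have := mul_le_mul_of_nonneg_right hMM (hd x hx).le
    simp only [Nat.cast_one, one_mul]
    linarith
  have hbdd : ∀ M, 0 ≤ M → g M ≤ R₁ := by
    intro M hM
    refine le_of_forall_pos_le_add fun ε hε => ?_
    obtain ⟨x, hx, hx1, hx2⟩ := h₁ (ε / (M + 1)) (by positivity)
    refine ((hg M hM).1 ⟨x, hx, rfl⟩).trans ?_
    have h3 : M * x d ≤ ε := by
      calc M * x d ≤ (M + 1) * x d := mul_le_mul_of_nonneg_right (by linarith) (hd x hx).le
        _ ≤ (M + 1) * (ε / (M + 1)) := mul_le_mul_of_nonneg_left hx2.le (by positivity)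
        _ = ε := by field_simp
    simp only [Nat.cast_one, one_mul]
    linarith
  -- the limit
  have hlim : ∃ L, Tendsto g atTop (𝓝 L) ∧ ∀ M, 0 ≤ M → g M ≤ L := by
    have hm' : Monotone (fun M => g (max M 0)) := fun M M' hMM =>
      hmono _ _ (le_max_right _ _) (max_le_max hMM le_rfl)
    have hb' : BddAbove (Set.range fun M => g (max M 0)) :=
      ⟨R₁, by rintro _ ⟨M, rfl⟩; exact hbdd _ (le_max_right _ _)⟩
    refine ⟨_, (tendsto_atTop_ciSup hm' hb').congr' ?_, ?_⟩
    · filter_upwards [eventually_ge_atTop 0] with M hM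
      rw [max_eq_left hM]
    · intro M hM
      have := le_ciSup hb' M
      simpa [max_eq_left hM] using this
  obtain ⟨L, hL, hgL⟩ := hlim
  have hroot := h g L (by
    filter_upwards [eventually_ge_atTop 0] with M hM
    exact hg M hM) hL
  have hL0 : 0 ≤ L := by
    refine le_trans ?_ (hgL 0 le_rfl)
    refine (le_isGLB_iff (hg 0 le_rfl)).2 ?_
    rintro _ ⟨x, hx, rfl⟩
    simpa using hr x hx
  have h1 := root_upper P hP (6 * L) hroot
  have h3 : (RNorm.int.poly.ν P : ℝ) ≤ H := by exact_mod_cast hν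
  rw [abs_of_nonneg (by positivity)] at h1
  have hLB : L + 1 ≤ B := by
    linarith
  intro ε hε
  have hM0 : 0 ≤ (L + 1) / ε := by positivity
  have hlt : g ((L + 1) / ε) < L + 1 := lt_of_le_of_lt (hgL _ hM0) (by linarith)
  have hex2 : ∃ x, φ.Holds x ∧ x r + (L + 1) / ε * x d < L + 1 := by
    by_contra hcon
    push Not at hcon
    have : L + 1 ≤ g ((L + 1) / ε) := by
      refine (le_isGLB_iff (hg _ hM0)).2 ?_
      rintro _ ⟨x, hx, rfl⟩
      simpa using hcon x hx
    linarith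
  obtain ⟨x, hx, hlt2⟩ := hex2
  have h5 := hr x hx
  have h6 := hd x hx
  have h7 : 0 ≤ (L + 1) / ε * x d := by positivity
  refine ⟨x, hx, by linarith, ?_⟩
  have h10 : (L + 1) / ε * x d < L + 1 := by linarith
  have h11 : (L + 1) / ε * x d = (L + 1) * (x d / ε) := by ring
  rw [h11] at h10
  have h12 : x d / ε < 1 := by
    by_contra hc
    push Not at hc
    have := mul_le_mul_of_nonneg_left hc (show 0 ≤ L + 1 by linarith)
    linarith
  rwa [div_lt_one hε] at h12

end Pool.Agent.NPC.H612
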