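import Pool.Agent.H612.QFEnc
import Pool.Agent.H612.FmGap

/-!
# The existential formula for non-closedness
-/

namespace Pool.Agent.NPC.H612

open Pool.Agent.NPC.ER

/-! ### Variables -/

/-- The variable for `xᵢ ^ (2 ^ k)`. -/
def vP (i k : ℕ) : ℕ := 4 * Nat.pair i k + 3

/-- The variables of the first chain of squares. -/
def vC (j : ℕ) : ℕ := 4 * j + 1

/-- The variables of the second chain of squares. -/
def vE (j : ℕ) : ℕ := 4 * j + 2

/-- The variable for the bound of the coordinates. -/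
def tR : Tm := Tm.var 0

/-- The variable for the small scale. -/
def tD : Tm := Tm.var 4

/-! ### Terms -/

/-- The term for `xᵢ ^ m`. -/
def powT (i m : ℕ) : Tm :=
  prodT (m.bits.zipIdx.map fun q => if q.1 then Tm.var (vP i q.2) else Tm.one)

/-- The term for a monomial in the variables of index less than `n`. -/
def monT (n : ℕ) (t : ℤ × List ℕ) : Tm :=
  Tm.mul (intT t.1) (prodT ((List.range n).map fun i => powT i (t.2.getD i 0)))

/-- The term for a polynomial. -/
def polT (n : ℕ) (p : PolyData) : Tm := sumT (p.map fun t => monT n t)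

theorem prod_bits (x : ℕ → ℝ) (i : ℕ) (y : ℝ) (l : List Bool) : ∀ s : ℕ,
    (∀ k < l.length, x (vP i (s + k)) = y ^ 2 ^ (s + k)) →
    (((l.zipIdx s).map fun q => if q.1 then Tm.var (vP i q.2) else Tm.one).map
      (Tm.eval x)).prod = y ^ (2 ^ s * valB l) := by
  induction l with
  | nil => intro s _; simp [valB]
  | cons b l ih =>
    intro s h
    have h1 := ih (s + 1) fun k hk => by
      have := h (k + 1) (by simpa using hk)
      have e : s + (k + 1) = s + 1 + k := by omega
      rwa [e] at this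
    have h0 := h 0 (by simp)
    rw [List.zipIdx_cons, List.map_cons, List.map_cons, List.prod_cons, h1]
    cases b with
    | false =>
      simp only [Bool.false_eq_true, if_false, Tm.eval, one_mul, valB]
      congr 1
      simp
      ring
    | true =>
      simp only [if_true, Tm.eval]
      rw [Nat.add_zero] at h0
      rw [h0, ← pow_add]
      congr 1
      simp [valB]
      ring

theorem eval_powT (x : ℕ → ℝ) (i m : ℕ) (y : ℝ)
    (h : ∀ k < m.bits.length, x (vP i k) = y ^ 2 ^ k) : (powT i m).eval x = y ^ m := by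
  unfold powT
  rw [eval_prodT]
  have := prod_bits x i y m.bits 0 (fun k hk => by simpa using h k hk)
  rw [this, valB_bits, pow_zero, one_mul]

theorem prod_range_list (f : ℕ → ℝ) (n : ℕ) :
    ((List.range n).map f).prod = ∏ i ∈ Finset.range n, f i := by
  induction n with
  | zero => simp
  | succ n ih => rw [List.range_succ, List.map_append, List.prod_append, ih,
      Finset.prod_range_succ]; simp

theorem eval_monT {n : ℕ} (x : ℕ → ℝ) (n' : ℕ) (z : Fin n → ℝ) (t : ℤ × List ℕ) (hn : n' ≤ n)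
    (h0 : ∀ i, n' ≤ i → i < n → t.2.getD i 0 = 0)
    (h : ∀ i < n', ∀ k < (t.2.getD i 0).bits.length, x (vP i k) = xt z i ^ 2 ^ k) :
    (monT n' t).eval x = (t.1 : ℝ) * vval z t.2 := by
  unfold monT vval
  rw [Tm.eval, eval_intT, eval_prodT, List.map_map]
  congr 1
  have e1 : (List.range n').map (Tm.eval x ∘ fun i => powT i (t.2.getD i 0)) =
      (List.range n').map fun i => xt z i ^ (t.2.getD i 0) := by
    apply List.map_congr_left
    intro i hi
    rw [List.mem_range] at hi
    exact eval_powT x i _ _ (h i hi)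
  rw [e1, prod_range_list]
  have e2 : ∏ i : Fin n, z i ^ (t.2.getD (i : ℕ) 0) =
      ∏ i ∈ Finset.range n, xt z i ^ (t.2.getD i 0) := by
    rw [Finset.prod_range]
    apply Finset.prod_congr rfl
    intro i _
    rw [xt_fin]
  rw [e2]
  apply Finset.prod_subset
  · intro i hi
    rw [Finset.mem_range] at hi ⊢
    omega
  · intro i hi hi'
    rw [Finset.mem_range] at hi hi'
    rw [h0 i (by omega) hi, pow_zero]

theorem eval_polT {n : ℕ} (x : ℕ → ℝ) (n' : ℕ) (z : Fin n → ℝ) (p : PolyData) (hn : n' ≤ n)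
    (h0 : ∀ t ∈ p, ∀ i, n' ≤ i → i < n → t.2.getD i 0 = 0)
    (h : ∀ t ∈ p, ∀ i < n', ∀ k < (t.2.getD i 0).bits.length, x (vP i k) = xt z i ^ 2 ^ k) :
    (polT n' p).eval x = pval z p := by
  unfold polT pval
  rw [eval_sumT, aeval_toPoly, List.map_map]
  congr 1
  apply List.map_congr_left
  intro t ht
  exact eval_monT x n' z t hn (h0 t ht) (h t ht)

/-! ### Sizes -/

/-- A list whose length bounds the lengths of the exponent vectors and of the exponents. -/
def szList (φ : QF) : List Bool :=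
  φ.polys.flatMap fun p => p.flatMap fun t => t.2.flatMap fun e => true :: e.bits

theorem length_le_flatMap {β γ : Type} {l : List β} {f : β → List γ} {b : β} (hb : b ∈ l) :
    (f b).length ≤ (l.flatMap f).length := by
  induction l with
  | nil => simp at hb
  | cons c l ih =>
    rw [List.flatMap_cons, List.length_append]
    rcases List.mem_cons.1 hb with rfl | hb
    · omega
    · have := ih hb
      omega

theorem length_le_flatMap' (l : List ℕ) :
    l.length ≤ (l.flatMap fun e => true :: e.bits).length := by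
  induction l with
  | nil => simp
  | cons c l ih =>
    rw [List.flatMap_cons, List.length_append, List.length_cons, List.length_cons]
    omega

theorem expo_length {φ : QF} {p : PolyData} (hp : p ∈ φ.polys) {t : ℤ × List ℕ} (ht : t ∈ p) :
    t.2.length ≤ (szList φ).length :=
  (length_le_flatMap' t.2).trans ((length_le_flatMap (f := fun t : ℤ × List ℕ =>
    t.2.flatMap fun e => true :: e.bits) ht).trans (length_le_flatMap (f := fun p : PolyData =>
    p.flatMap fun t => t.2.flatMap fun e => true :: e.bits) hp))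

theorem bits_length_le {φ : QF} {p : PolyData} (hp : p ∈ φ.polys) {t : ℤ × List ℕ} (ht : t ∈ p)
    (i : ℕ) : (t.2.getD i 0).bits.length ≤ (szList φ).length := by
  by_cases hi : i < t.2.length
  · have h1 : t.2.getD i 0 ∈ t.2 := by
      rw [List.getD_eq_getElem _ _ hi]
      exact List.getElem_mem _
    have h2 : (t.2.getD i 0).bits.length ≤ (true :: (t.2.getD i 0).bits).length := by simp
    exact h2.trans ((length_le_flatMap (f := fun e : ℕ => true :: e.bits) h1).trans
      ((length_le_flatMap (f := fun t : ℤ × List ℕ =>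
      t.2.flatMap fun e => true :: e.bits) ht).trans (length_le_flatMap (f := fun p : PolyData =>
      p.flatMap fun t => t.2.flatMap fun e => true :: e.bits) hp)))
  · rw [List.getD_eq_default _ _ (by omega)]
    simp

/-- The number of relevant coordinates. -/
def nv (n : ℕ) (φ : QF) : ℕ := min n (szList φ).length

/-! ### The formulas -/

/-- Square of a polynomial. -/
def sqT (n : ℕ) (p : PolyData) : Tm := Tm.mul (polT n p) (polT n p)

/-- Equations of the powers. -/
def powEqs (m L : ℕ) : List Fm :=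
  (List.range m).flatMap fun i => (List.range L).map fun k =>
    Fm.eq (Tm.var (vP i (k + 1))) (Tm.mul (Tm.var (vP i k)) (Tm.var (vP i k)))

/-- The core formula. -/
def core (n : ℕ) (φ : QF) : Fm :=
  let m := nv n φ
  conj ([Fm.lt Tm.zero tD, Fm.le Tm.zero tR] ++
    ((List.range m).map fun i => Fm.le (Tm.mul (Tm.var (vP i 0)) (Tm.var (vP i 0))) tR) ++
    powEqs m (szList φ).length ++
    [φ.tr (fun p => Fm.eq (polT m p) Tm.zero) (fun p => Fm.lt Tm.zero (polT m p))
      (fun p => Fm.le Tm.zero (polT m p))] ++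
    (φ.polys.map fun p => Fm.or (Fm.le (sqT m p) tD) (Fm.le Tm.one (Tm.mul (sqT m p) tR))) ++
    [Fm.not (φ.tr (fun p => Fm.le (sqT m p) tD)
      (fun p => Fm.and (Fm.lt Tm.zero (polT m p)) (Fm.lt tD (sqT m p)))
      (fun p => Fm.or (Fm.le Tm.zero (polT m p)) (Fm.le (sqT m p) tD)))])

/-- Meaning of the core formula when the power variables have the right values. -/
theorem holds_core_iff {n : ℕ} (φ : QF) (x : ℕ → ℝ) (z : Fin n → ℝ)
    (hz : ∀ i < nv n φ, ∀ k ≤ (szList φ).length, x (vP i k) = xt z i ^ 2 ^ k) :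
    (core n φ).Holds x ↔ 0 < x 4 ∧ 0 ≤ x 0 ∧ (∀ i < nv n φ, xt z i * xt z i ≤ x 0) ∧
      φ.Holds z ∧ (∀ p ∈ φ.polys, pval z p * pval z p ≤ x 4 ∨ 1 ≤ pval z p * pval z p * x 0) ∧
      ¬ φ.Rel (x 4) (pval z) := by
  have hp : ∀ p ∈ φ.polys, (polT (nv n φ) p).eval x = pval z p := by
    intro p hp
    refine eval_polT x (nv n φ) z p (min_le_left _ _) ?_ ?_
    · intro t ht i hi hin
      apply List.getD_eq_default
      have h1 := expo_length hp ht
      have h2 : nv n φ = min n (szList φ).length := rfl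
      omega
    · intro t ht i hi k hk
      exact hz i hi k (hk.le.trans (bits_length_le hp ht i))
  have h1 : (φ.tr (fun p => Fm.eq (polT (nv n φ) p) Tm.zero)
      (fun p => Fm.lt Tm.zero (polT (nv n φ) p))
      (fun p => Fm.le Tm.zero (polT (nv n φ) p))).Holds x ↔ φ.Holds z := by
    rw [QF.holds_iff_val]
    refine φ.holds_tr (fun p h => ?_) (fun p h => ?_) (fun p h => ?_) <;>
      simp [Fm.Holds, Tm.eval, hp p h]
  have h2 : (φ.tr (fun p => Fm.le (sqT (nv n φ) p) tD)
      (fun p => Fm.and (Fm.lt Tm.zero (polT (nv n φ) p)) (Fm.lt tD (sqT (nv n φ) p)))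
      (fun p => Fm.or (Fm.le Tm.zero (polT (nv n φ) p)) (Fm.le (sqT (nv n φ) p) tD))).Holds x ↔
      φ.Rel (x 4) (pval z) := by
    refine φ.holds_tr_rel (fun p h => ?_) (fun p h => ?_) (fun p h => ?_) <;>
      simp [Fm.Holds, Tm.eval, hp p h, sqT, tD]
  have h3 : (∀ ψ ∈ powEqs (nv n φ) (szList φ).length, ψ.Holds x) := by
    intro ψ hψ
    simp only [powEqs, List.mem_flatMap, List.mem_range, List.mem_map] at hψ
    obtain ⟨i, hi, k, hk, rfl⟩ := hψ
    simp only [Fm.Holds, Tm.eval]
    rw [hz i hi (k + 1) hk, hz i hi k hk.le, pow_succ, pow_mul]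
    ring
  have h4 : (∀ ψ ∈ φ.polys.map fun p => Fm.or (Fm.le (sqT (nv n φ) p) tD)
      (Fm.le Tm.one (Tm.mul (sqT (nv n φ) p) tR)), ψ.Holds x) ↔
      (∀ p ∈ φ.polys, pval z p * pval z p ≤ x 4 ∨ 1 ≤ pval z p * pval z p * x 0) := by
    rw [List.forall_mem_map]
    refine forall₂_congr fun p h => ?_
    simp [Fm.Holds, Tm.eval, hp p h, sqT, tD, tR]
  have h5 : (∀ ψ ∈ (List.range (nv n φ)).map fun i =>
      Fm.le (Tm.mul (Tm.var (vP i 0)) (Tm.var (vP i 0))) tR, ψ.Holds x) ↔
      ∀ i < nv n φ, xt z i * xt z i ≤ x 0 := by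
    rw [List.forall_mem_map]
    simp only [List.mem_range]
    refine forall₂_congr fun i hi => ?_
    have := hz i hi 0 (Nat.zero_le _)
    rw [pow_zero, pow_one] at this
    simp [Fm.Holds, Tm.eval, tR, this]
  unfold core
  simp only [holds_conj, List.forall_mem_append, List.forall_mem_cons, List.not_mem_nil,
    false_implies, implies_true, and_true, h1, h4, h5]
  rw [show (Fm.Holds x (Fm.not _)) = ¬ _ from rfl, h2]
  simp only [Fm.Holds, Tm.eval, tD, tR]
  constructor
  · rintro ⟨⟨⟨⟨⟨⟨a1, a2⟩, a3⟩, a4⟩, a5⟩, a6⟩, a7⟩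
    exact ⟨a1, a2, a3, a5, a6, a7⟩
  · rintro ⟨a1, a2, a3, a5, a6, a7⟩
    exact ⟨⟨⟨⟨⟨⟨a1, a2⟩, a3⟩, h3⟩, a5⟩, a6⟩, a7⟩

theorem core_sound {n : ℕ} {φ : QF} {x : ℕ → ℝ} (h : (core n φ).Holds x) :
    0 < x 4 ∧ 0 ≤ x 0 ∧ φ.Bad n (x 0) (x 4) := by
  have hpow : ∀ ψ ∈ powEqs (nv n φ) (szList φ).length, ψ.Holds x := by
    unfold core at h
    simp only [holds_conj, List.forall_mem_append] at h
    exact h.1.1.1.2
  set z : Fin n → ℝ := fun i => if (i : ℕ) < nv n φ then x (vP i 0) else 0 with hz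
  have hnv : nv n φ ≤ n := min_le_left _ _
  have hxt : ∀ i < nv n φ, xt z i = x (vP i 0) := by
    intro i hi
    have : i < n := hi.trans_le hnv
    simp [xt, this, hz, hi]
  have hk : ∀ i < nv n φ, ∀ k ≤ (szList φ).length, x (vP i k) = xt z i ^ 2 ^ k := by
    intro i hi k
    induction k with
    | zero => intro _; rw [hxt i hi, pow_zero, pow_one]
    | succ k ih =>
      intro hk
      have h1 := hpow (Fm.eq (Tm.var (vP i (k + 1)))
        (Tm.mul (Tm.var (vP i k)) (Tm.var (vP i k)))) (by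
        simp only [powEqs, List.mem_flatMap, List.mem_range, List.mem_map]
        exact ⟨i, hi, k, hk, rfl⟩)
      simp only [Fm.Holds, Tm.eval] at h1
      rw [h1, ih (by omega), pow_succ, pow_mul]
      ring
  obtain ⟨a1, a2, a3, a4, a5, a6⟩ := (holds_core_iff φ x z hk).1 h
  refine ⟨a1, a2, z, fun i => ?_, a4, a5, a6⟩
  by_cases hi : (i : ℕ) < nv n φ
  · have := a3 i hi
    rwa [xt_fin] at this
  · have : z i = 0 := by simp [hz, hi]
    rw [this, zero_mul]
    exact a2

/-- The standard assignment. -/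
noncomputable def stdA {n : ℕ} (R δ : ℝ) (z : Fin n → ℝ) (v : ℕ) : ℝ :=
  if v = 0 then R else if v = 4 then δ
  else if v % 4 = 3 then xt z (Nat.unpair (v / 4)).1 ^ 2 ^ (Nat.unpair (v / 4)).2
  else 2 ^ 2 ^ (v / 4)

theorem core_complete {n : ℕ} {φ : QF} {R δ : ℝ} (hδ : 0 < δ) (hR : 0 ≤ R) (h : φ.Bad n R δ) :
    ∃ x : ℕ → ℝ, (core n φ).Holds x ∧ x 0 = R ∧ x 4 = δ ∧ (∀ j, x (vC j) = 2 ^ 2 ^ j) ∧
      (∀ j, x (vE j) = 2 ^ 2 ^ j) := by
  obtain ⟨z, h1, h2, h3, h4⟩ := h
  have e0 : stdA R δ z 0 = R := by simp [stdA]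
  have e4 : stdA R δ z 4 = δ := by simp [stdA]
  have eC : ∀ j, stdA R δ z (vC j) = 2 ^ 2 ^ j := by
    intro j
    unfold stdA vC
    rw [if_neg (by omega), if_neg (by omega), if_neg (by omega)]
    congr 2
    omega
  have eE : ∀ j, stdA R δ z (vE j) = 2 ^ 2 ^ j := by
    intro j
    unfold stdA vE
    rw [if_neg (by omega), if_neg (by omega), if_neg (by omega)]
    congr 2
    omega
  have eP : ∀ i k, stdA R δ z (vP i k) = xt z i ^ 2 ^ k := by
    intro i k
    unfold stdA vP
    rw [if_neg (by omega), if_neg (by omega), if_pos (by omega)]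
    have : (4 * Nat.pair i k + 3) / 4 = Nat.pair i k := by omega
    rw [this, Nat.unpair_pair]
  refine ⟨stdA R δ z, ?_, e0, e4, eC, eE⟩
  rw [holds_core_iff φ _ z fun i _ k _ => eP i k, e0, e4]
  refine ⟨hδ, hR, fun i hi => ?_, h2, h3, h4⟩
  have hin : i < n := hi.trans_le (min_le_left _ _)
  have := h1 ⟨i, hin⟩
  simpa [xt, hin] using this

/-! ### Chains of squares -/

/-- Equations `v₀ = 2`, `vⱼ₊₁ = vⱼ²` for `j < K`. -/
def chain (v : ℕ → ℕ) (K : ℕ) : List Fm :=
  Fm.eq (Tm.var (v 0)) twoT :: (List.range K).map fun j =>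
    Fm.eq (Tm.var (v (j + 1))) (Tm.mul (Tm.var (v j)) (Tm.var (v j)))

theorem chain_sound {v : ℕ → ℕ} {K : ℕ} {x : ℕ → ℝ} (h : ∀ ψ ∈ chain v K, ψ.Holds x) :
    x (v K) = 2 ^ 2 ^ K := by
  have h0 := h (Fm.eq (Tm.var (v 0)) twoT) (by simp [chain])
  have hs : ∀ j < K, x (v (j + 1)) = x (v j) * x (v j) := by
    intro j hj
    exact h (Fm.eq (Tm.var (v (j + 1))) (Tm.mul (Tm.var (v j)) (Tm.var (v j)))) (by
      simp only [chain, List.mem_cons, List.mem_map, List.mem_range]
      exact Or.inr ⟨j, hj, rfl⟩)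
  have key : ∀ j ≤ K, x (v j) = 2 ^ 2 ^ j := by
    intro j
    induction j with
    | zero =>
      intro _
      simp only [Fm.Holds, Tm.eval, twoT] at h0
      rw [h0]; norm_num
    | succ j ih =>
      intro hj
      rw [hs j hj, ih (by omega), pow_succ 2 j, pow_mul]
      ring
  exact key K le_rfl

theorem chain_complete {v : ℕ → ℕ} {x : ℕ → ℝ} (h : ∀ j, x (v j) = 2 ^ 2 ^ j) (K : ℕ) :
    ∀ ψ ∈ chain v K, ψ.Holds x := by
  intro ψ hψ
  simp only [chain, List.mem_cons, List.mem_map, List.mem_range] at hψ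
  rcases hψ with rfl | ⟨j, hj, rfl⟩
  · simp only [Fm.Holds, Tm.eval, twoT, h]; norm_num
  · simp only [Fm.Holds, Tm.eval, h]
    rw [pow_succ 2 j, pow_mul]
    ring

/-- The core formula with the explicit bound on `R`. -/
def coreR (n : ℕ) (φ : QF) : Fm :=
  let K := kap (sysOf (core n φ)).length
  conj (core n φ :: (chain vC K ++ [Fm.le tR (Tm.var (vC K))]))

/-- The existential formula expressing that the set is not closed. -/
def final (n : ℕ) (φ : QF) : Fm :=
  let K := kap (sysOf (coreR n φ)).length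
  conj (coreR n φ :: (chain vE K ++ [Fm.le (Tm.mul tD (Tm.var (vE K))) Tm.one]))

theorem coreR_holds {n : ℕ} {φ : QF} {x : ℕ → ℝ} : (coreR n φ).Holds x ↔
    (core n φ).Holds x ∧ (∀ ψ ∈ chain vC (kap (sysOf (core n φ)).length), ψ.Holds x) ∧
      x 0 ≤ x (vC (kap (sysOf (core n φ)).length)) := by
  unfold coreR
  simp only [holds_conj, List.forall_mem_cons, List.forall_mem_append, List.not_mem_nil,
    false_implies, implies_true, and_true]
  simp only [Fm.Holds, Tm.eval, tR]

theorem final_holds {n : ℕ} {φ : QF} {x : ℕ → ℝ} : (final n φ).Holds x ↔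
    (coreR n φ).Holds x ∧ (∀ ψ ∈ chain vE (kap (sysOf (coreR n φ)).length), ψ.Holds x) ∧
      x 4 * x (vE (kap (sysOf (coreR n φ)).length)) ≤ 1 := by
  unfold final
  simp only [holds_conj, List.forall_mem_cons, List.forall_mem_append, List.not_mem_nil,
    false_implies, implies_true, and_true]
  simp only [Fm.Holds, Tm.eval, tD]

/-- The set defined by `φ` is not closed if and only if the existential sentence is true. -/
theorem not_closed_iff (n : ℕ) (φ : QF) :
    ¬ IsClosed {x : Fin n → ℝ | φ.Holds x} ↔ ETR (final n φ) := by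
  constructor
  · intro h
    obtain ⟨R, hR, hbad⟩ := bad_of_not_closed φ h
    have hgap := gap_bounded (core n φ) 0 4 (fun x hx => (core_sound hx).2.1)
      (fun x hx => (core_sound hx).1) R (fun ε hε => by
        obtain ⟨δ, h1, h2, h3⟩ := hbad ε hε
        obtain ⟨x, hx, e0, e4, -, -⟩ := core_complete h1 hR h3
        exact ⟨x, hx, e0.le, by rw [e4]; exact h2⟩)
    obtain ⟨x, hx, hx0, hx4⟩ := hgap (1 / 2 ^ 2 ^ (kap (sysOf (coreR n φ)).length))
      (by positivity)
    obtain ⟨a1, a2, a3⟩ := core_sound hx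
    obtain ⟨y, hy, e0, e4, eC, eE⟩ := core_complete a1 a2 a3
    refine ⟨y, final_holds.2 ⟨coreR_holds.2 ⟨hy, chain_complete eC _, ?_⟩,
      chain_complete eE _, ?_⟩⟩
    · rw [e0, eC]
      exact hx0
    · rw [e4, eE]
      rw [lt_div_iff₀ (by positivity)] at hx4
      exact hx4.le
  · rintro ⟨x₀, h₀⟩
    obtain ⟨h1, h2, h3⟩ := final_holds.1 h₀
    rw [chain_sound h2] at h3
    have hgap := gap_small (coreR n φ) 4 (fun x hx => (core_sound (coreR_holds.1 hx).1).1) h1 h3
    refine not_closed_of_bad φ (2 ^ 2 ^ (kap (sysOf (core n φ)).length)) fun ε hε => ?_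
    obtain ⟨x, hx, hx4⟩ := hgap ε hε
    obtain ⟨b1, b2, b3⟩ := coreR_holds.1 hx
    obtain ⟨c1, c2, c3⟩ := core_sound b1
    refine ⟨x 4, x 0, c1, hx4, ?_, c3⟩
    rw [chain_sound b2] at b3
    exact b3

end Pool.Agent.NPC.H612
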