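import Pool.Agent.H612.ClosedPoly
import Pool.Agent.H612.AffMain
import Pool.Agent.H612.AR

/-!
# The complexity of closedness of semialgebraic sets
-/

namespace Pool.Agent.NPC.H612

open Pool.Agent.NPC.ER

/-- All polynomials of the formula are correctly written polynomials in `n` variables. -/
def QF.Valid (n : ℕ) (φ : QF) : Prop := ∀ p ∈ φ.polys, PolyData.Valid n p

/-- The decision problem: given the number `n` of variables and a quantifier-free formula `φ`, is
the set `{x ∈ ℝⁿ : φ(x)}` closed? -/
def Closedness (a : ℕ × QF) : Prop := a.2.Valid a.1 ∧ IsClosed {x : Fin a.1 → ℝ | a.2.Holds x}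

/-! ### Membership -/

/-- Boolean test of validity. -/
def validB (n : ℕ) (φ : QF) : Bool :=
  φ.polys.all fun p => (p.all fun t => decide (t.1 ≠ 0 ∧ t.2.length = n)) &&
    decide ((p.map Prod.snd).dedup = p.map Prod.snd)

theorem validB_iff (n : ℕ) (φ : QF) : validB n φ = true ↔ φ.Valid n := by
  unfold validB QF.Valid PolyData.Valid
  rw [List.all_eq_true]
  refine forall₂_congr fun p _ => ?_
  rw [Bool.and_eq_true, List.all_eq_true, decide_eq_true_eq, List.dedup_eq_self]
  simp only [decide_eq_true_eq]

theorem poly_validB : Poly (fun a : ℕ × QF => validB a.1 a.2) := by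
  unfold validB
  refine Poly.all (p := fun (a : ℕ × QF) (p : PolyData) =>
    (p.all fun t => decide (t.1 ≠ 0 ∧ t.2.length = a.1)) &&
    decide ((p.map Prod.snd).dedup = p.map Prod.snd)) (poly_polys (Poly.snd Poly.id)) ?_
  have hp : Poly (fun q : (ℕ × QF) × PolyData => q.2) := Poly.snd Poly.id
  have hm : Poly (fun q : (ℕ × QF) × PolyData => q.2.map Prod.snd) :=
    Poly.map (F := fun _ (t : ℤ × List ℕ) => t.2) hp (Poly.snd (Poly.snd Poly.id))
  refine Poly.and ?_ (Poly.decide_eq (poly_dedup hm) hm)
  refine Poly.all (l := fun q : (ℕ × QF) × PolyData => q.2)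
    (p := fun (q : (ℕ × QF) × PolyData) (t : ℤ × List ℕ) =>
    decide (t.1 ≠ 0 ∧ t.2.length = q.1.1)) hp ?_
  refine Poly.decide_and (Poly.decide_not (Poly.decide_eq (Poly.fst (Poly.snd Poly.id))
    (Poly.const 0))) (Poly.decide_eq (Poly.length (Poly.snd (Poly.snd Poly.id)))
    (Poly.fst (Poly.fst (Poly.fst Poly.id))))

theorem closedness_inAR : InAR (lang Closedness) := by
  refine InAR.of_poly (φ := fun a : ℕ × QF => if validB a.1 a.2 = true then final a.1 a.2 else tt)
    (Poly.ite (Poly.decide_bool poly_validB) (poly_final (Poly.fst Poly.id) (Poly.snd Poly.id))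
      (Poly.const _)) ?_
  rintro ⟨n, φ⟩
  simp only [Closedness]
  by_cases h : validB n φ = true
  · rw [if_pos h]
    have h1 := (validB_iff n φ).1 h
    rw [← not_closed_iff]
    simp [h1]
  · rw [if_neg h]
    have h1 : ¬ φ.Valid n := fun h' => h ((validB_iff n φ).2 h')
    simp only [h1, false_and, not_false_eq_true, true_iff]
    exact ⟨fun _ => 0, holds_tt _⟩

/-! ### Hardness -/

/-- The polynomial of a constraint. -/
def craw (V : List ℕ) : ER.Con → List (Bool × List ℕ)
  | .one i => [(false, [V.idxOf i]), (true, [])]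
  | .add i j k => [(false, [V.idxOf i]), (false, [V.idxOf j]), (true, [V.idxOf k])]
  | .mul i j k => [(false, [V.idxOf i, V.idxOf j]), (true, [V.idxOf k])]

/-- Conjunction of a list of formulas with a last formula. -/
def qconj (l : List QF) (b : QF) : QF := l.foldr QF.and b

theorem holds_qconj {n : ℕ} (x : Fin n → ℝ) (l : List QF) (b : QF) :
    (qconj l b).Holds x ↔ (∀ φ ∈ l, φ.Holds x) ∧ b.Holds x := by
  induction l with
  | nil => simp [qconj]
  | cons a l ih =>
    change (a.Holds x ∧ (qconj l b).Holds x) ↔ _
    rw [ih]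
    simp [and_assoc]

theorem polys_qconj (l : List QF) (b : QF) :
    ∀ p ∈ (qconj l b).polys, (∃ φ ∈ l, p ∈ φ.polys) ∨ p ∈ b.polys := by
  induction l with
  | nil => intro p hp; exact Or.inr hp
  | cons a l ih =>
    intro p hp
    rcases List.mem_append.1 (show p ∈ a.polys ++ (qconj l b).polys from hp) with h | h
    · exact Or.inl ⟨a, by simp, h⟩
    · rcases ih p h with ⟨φ, h1, h2⟩ | h
      · exact Or.inl ⟨φ, List.mem_cons_of_mem _ h1, h2⟩
      · exact Or.inr h

theorem toks_qconj (l : List QF) (b : QF) : (qconj l b).toks =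
    l.flatMap QF.toks ++ b.toks ++ List.replicate l.length QTok.and := by
  induction l with
  | nil => simp [qconj]
  | cons a l ih =>
      change a.toks ++ (qconj l b).toks ++ [QTok.and] = _
      rw [ih]
      simp [List.replicate_succ']

/-- The instance of a system: the equations, and the inequality `t > 0` for a new variable `t`. -/
def clInst (S : List ER.Con) : ℕ × QF :=
  ((varsOf S).length + 1,
    qconj (S.map fun c => QF.eqZ (collect ((varsOf S).length + 1) (craw (varsOf S) c)))
      (QF.gtZ (collect ((varsOf S).length + 1) [(false, [(varsOf S).length])])))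

theorem craw_lt (V : List ℕ) (c : ER.Con) : ∀ p ∈ craw V c, ∀ i ∈ p.2, i < V.length + 1 := by
  have h : ∀ i, V.idxOf i ≤ V.length := fun i => List.idxOf_le_length
  cases c <;> simp [craw, h]

theorem pval_craw (V : List ℕ) (c : ER.Con) (x : Fin (V.length + 1) → ℝ) :
    pval x (collect (V.length + 1) (craw V c)) = 0 ↔ c.Holds (fun i => xt x (V.idxOf i)) := by
  unfold pval
  rw [aeval_collect _ (craw_lt V c)]
  cases c with
  | one i =>
    simp only [craw, rawEval, sgn, List.map_cons, List.map_nil, List.sum_cons, List.sum_nil,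
      List.prod_cons, List.prod_nil, ER.Con.Holds]
    constructor
    · intro h; norm_num at h; linarith
    · intro h; norm_num; linarith
  | add i j k =>
    simp only [craw, rawEval, sgn, List.map_cons, List.map_nil, List.sum_cons, List.sum_nil,
      List.prod_cons, List.prod_nil, ER.Con.Holds]
    constructor
    · intro h; norm_num at h; linarith
    · intro h; norm_num; linarith
  | mul i j k =>
    simp only [craw, rawEval, sgn, List.map_cons, List.map_nil, List.sum_cons, List.sum_nil,
      List.prod_cons, List.prod_nil, ER.Con.Holds]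
    constructor
    · intro h; norm_num at h; linarith
    · intro h; norm_num; linarith

theorem pval_last (m : ℕ) (x : Fin (m + 1) → ℝ) :
    pval x (collect (m + 1) [(false, [m])]) = xt x m := by
  unfold pval
  rw [aeval_collect _ (by simp)]
  simp [rawEval, sgn]

theorem clInst_holds (S : List ER.Con) (x : Fin ((varsOf S).length + 1) → ℝ) :
    (clInst S).2.Holds x ↔
      SysHolds (fun i => xt x ((varsOf S).idxOf i)) S ∧ 0 < xt x (varsOf S).length := by
  unfold clInst
  simp only
  rw [holds_qconj, List.forall_mem_map]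
  simp only [QF.Holds, pval_craw, pval_last]
  rfl

theorem clInst_valid (S : List ER.Con) : (clInst S).2.Valid (clInst S).1 := by
  intro p hp
  rcases polys_qconj _ _ p hp with ⟨φ, h1, h2⟩ | h
  · rw [List.mem_map] at h1
    obtain ⟨c, hc, rfl⟩ := h1
    simp only [QF.polys, List.mem_singleton] at h2
    subst h2
    exact collect_valid _ _
  · simp only [QF.polys, List.mem_singleton] at h
    subst h
    exact collect_valid _ _

theorem closed_iff_not_sat (S : List ER.Con) :
    IsClosed {x : Fin (clInst S).1 → ℝ | (clInst S).2.Holds x} ↔ ¬ Sat S := by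
  have e : {x : Fin (clInst S).1 → ℝ | (clInst S).2.Holds x} =
      {x : Fin ((varsOf S).length + 1) → ℝ |
        SysHolds (fun i => xt x ((varsOf S).idxOf i)) S ∧ 0 < xt x (varsOf S).length} := by
    ext x
    exact clInst_holds S x
  rw [e]
  constructor
  · rintro hcl ⟨v, hv⟩
    let γ : ℝ → (Fin ((varsOf S).length + 1) → ℝ) := fun t k =>
      if (k : ℕ) < (varsOf S).length then v ((varsOf S).getD k 0) else t
    have hγ : Continuous γ := by
      refine continuous_pi fun k => ?_
      by_cases hk : (k : ℕ) < (varsOf S).length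
      · simp only [γ, hk, if_true]
        exact continuous_const
      · simp only [γ, hk, if_false]
        exact continuous_id
    have hlast : ∀ t, xt (γ t) (varsOf S).length = t := by
      intro t
      simp [xt, γ]
    have hsys : ∀ t, SysHolds (fun i => xt (γ t) ((varsOf S).idxOf i)) S := by
      intro t c hc
      refine (ER.Con.holds_congr fun i hi => ?_).2 (hv c hc)
      have hm : i ∈ varsOf S := List.mem_flatMap.2 ⟨c, hc, hi⟩
      have hlt : (varsOf S).idxOf i < (varsOf S).length := List.idxOf_lt_length_iff.2 hm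
      have hlt' : (varsOf S).idxOf i < (varsOf S).length + 1 := by omega
      simp only [xt, hlt', dif_pos, γ, hlt, if_true]
      rw [List.getD_eq_getElem?_getD, List.getElem?_eq_getElem hlt]
      simp
    have h1 : IsClosed (γ ⁻¹' {x : Fin ((varsOf S).length + 1) → ℝ |
        SysHolds (fun i => xt x ((varsOf S).idxOf i)) S ∧ 0 < xt x (varsOf S).length}) :=
      hcl.preimage hγ
    have h2 : (γ ⁻¹' {x : Fin ((varsOf S).length + 1) → ℝ |
        SysHolds (fun i => xt x ((varsOf S).idxOf i)) S ∧ 0 < xt x (varsOf S).length}) =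
        Set.Ioi 0 := by
      ext t
      constructor
      · rintro ⟨-, h⟩
        rw [hlast] at h
        exact h
      · intro h
        exact ⟨hsys t, by rw [hlast]; exact h⟩
    rw [h2] at h1
    have h3 : (0 : ℝ) ∈ closure (Set.Ioi (0 : ℝ)) := by
      rw [closure_Ioi]
      exact Set.self_mem_Ici
    rw [h1.closure_eq, Set.mem_Ioi] at h3
    exact lt_irrefl _ h3
  · intro h
    have e2 : {x : Fin ((varsOf S).length + 1) → ℝ |
        SysHolds (fun i => xt x ((varsOf S).idxOf i)) S ∧ 0 < xt x (varsOf S).length} = ∅ := by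
      rw [Set.eq_empty_iff_forall_notMem]
      rintro x ⟨hx, -⟩
      exact h ⟨_, hx⟩
    rw [e2]
    exact isClosed_empty

theorem sat_iff_not_closed (S : List ER.Con) : Sat S ↔ ¬ Closedness (clInst S) := by
  unfold Closedness
  rw [closed_iff_not_sat]
  simp [clInst_valid S]

theorem craw_eq (V : List ℕ) (c : ER.Con) : craw V c =
    if c.code.1 = 0 then [(false, [V.idxOf c.code.2.1]), (true, [])]
    else if c.code.1 = 1 then [(false, [V.idxOf c.code.2.1]), (false, [V.idxOf c.code.2.2.1]),
      (true, [V.idxOf c.code.2.2.2])]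
    else [(false, [V.idxOf c.code.2.1, V.idxOf c.code.2.2.1]),
      (true, [V.idxOf c.code.2.2.2])] := by
  cases c <;> rfl

section

variable {α : Type} [TEnc α]

theorem poly_craw {V : α → List ℕ} {c : α → ER.Con} (hV : Poly V) (hc : Poly c) :
    Poly (fun a => craw (V a) (c a)) := by
  simp only [craw_eq]
  have h0 := poly_con_code hc
  have i1 := poly_idxOf hV (Poly.fst (Poly.snd h0))
  have i2 := poly_idxOf hV (Poly.fst (Poly.snd (Poly.snd h0)))
  have i3 := poly_idxOf hV (Poly.snd (Poly.snd (Poly.snd h0)))
  have l1 := Poly.cons i1 (Poly.const [])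
  have l2 := Poly.cons i2 (Poly.const [])
  have l3 := Poly.cons i3 (Poly.const [])
  refine Poly.ite (Poly.decide_eq (Poly.fst h0) (Poly.const 0))
    (Poly.cons (Poly.pair (Poly.const _) l1) (Poly.const _))
    (Poly.ite (Poly.decide_eq (Poly.fst h0) (Poly.const 1))
      (Poly.cons (Poly.pair (Poly.const _) l1) (Poly.cons (Poly.pair (Poly.const _) l2)
        (Poly.cons (Poly.pair (Poly.const _) l3) (Poly.const []))))
      (Poly.cons (Poly.pair (Poly.const _) (Poly.cons i1 l2))
        (Poly.cons (Poly.pair (Poly.const _) l3) (Poly.const []))))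

theorem poly_qconj {l : α → List QF} {b : α → QF} (hl : Poly l) (hb : Poly b) :
    Poly (fun a => qconj (l a) (b a)) := by
  refine poly_qf_of_toks (Poly.congr (f := fun a => (l a).flatMap QF.toks ++ (b a).toks ++
    List.replicate (l a).length QTok.and) ?_ fun a => (toks_qconj _ _).symm)
  exact Poly.append (Poly.append (Poly.flatMap (F := fun _ φ => QF.toks φ) hl
    (poly_qtoks (Poly.snd Poly.id))) (poly_qtoks hb)) (poly_replicate hl _)

theorem poly_eqZ {p : α → PolyData} (hp : Poly p) : Poly (fun a => QF.eqZ (p a)) :=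
  poly_qf_of_toks (Poly.cons (poly_qtok_of_code (Poly.pair (Poly.const 0) hp)) (Poly.const []))

theorem poly_gtZ {p : α → PolyData} (hp : Poly p) : Poly (fun a => QF.gtZ (p a)) :=
  poly_qf_of_toks (Poly.cons (poly_qtok_of_code (Poly.pair (Poly.const 1) hp)) (Poly.const []))

end

theorem poly_clInst : Poly clInst := by
  have hV : Poly (fun S : List ER.Con => varsOf S) := poly_varsOf Poly.id
  have hn : UPoly (fun S : List ER.Con => (varsOf S).length + 1) :=
    UPoly.add (UPoly.length hV) (UPoly.const 1)
  unfold clInst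
  refine Poly.pair hn.toPoly (poly_qconj ?_ (poly_gtZ (poly_collect hn ?_)))
  · refine Poly.map (F := fun (S : List ER.Con) c =>
      QF.eqZ (collect ((varsOf S).length + 1) (craw (varsOf S) c))) Poly.id ?_
    exact poly_eqZ (poly_collect
      (UPoly.comp (n := fun S : List ER.Con => (varsOf S).length + 1) hn (Poly.fst Poly.id))
      (poly_craw (hV.comp (Poly.fst Poly.id)) (Poly.snd Poly.id)))
  · exact Poly.cons (Poly.pair (Poly.const _) (Poly.cons (Poly.length hV) (Poly.const [])))
      (Poly.const [])

/-- Closedness of semialgebraic sets is `∀ℝ`-complete. -/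
theorem closedness_arComplete : ARComplete (lang Closedness) :=
  ⟨closedness_inAR, ARHard.of_sys poly_clInst sat_iff_not_closed⟩

end Pool.Agent.NPC.H612
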