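import Pool.Agent.H612.ClosedFm

/-!
# The formula for non-closedness is computable in polynomial time
-/

namespace Pool.Agent.NPC.H612

open Pool.Agent.NPC.ER

section

variable {α : Type} [TEnc α]

theorem poly_natPair {a b : α → ℕ} (ha : Poly a) (hb : Poly b) :
    Poly (fun x => Nat.pair (a x) (b x)) := by
  unfold Nat.pair
  exact Poly.ite (Poly.decide_lt ha hb) (Poly.add (Poly.mul hb hb) ha)
    (Poly.add (Poly.add (Poly.mul ha ha) ha) hb)

theorem poly_vP {i k : α → ℕ} (hi : Poly i) (hk : Poly k) : Poly (fun a => vP (i a) (k a)) :=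
  Poly.add (Poly.mul (Poly.const 4) (poly_natPair hi hk)) (Poly.const 3)

theorem poly_vC {j : α → ℕ} (hj : Poly j) : Poly (fun a => vC (j a)) :=
  Poly.add (Poly.mul (Poly.const 4) hj) (Poly.const 1)

theorem poly_vE {j : α → ℕ} (hj : Poly j) : Poly (fun a => vE (j a)) :=
  Poly.add (Poly.mul (Poly.const 4) hj) (Poly.const 2)

theorem poly_powT {i m : α → ℕ} (hi : Poly i) (hm : Poly m) :
    Poly (fun a => powT (i a) (m a)) := by
  unfold powT
  refine poly_prodT (Poly.map (F := fun a (q : Bool × ℕ) =>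
    if q.1 then Tm.var (vP (i a) q.2) else Tm.one) (Poly.zipIdx (Poly.natBits hm)) ?_)
  exact Poly.ite (Poly.decide_bool (Poly.fst (Poly.snd Poly.id)))
    (poly_tvar (poly_vP (hi.comp (Poly.fst Poly.id)) (Poly.snd (Poly.snd Poly.id))))
    (Poly.const _)

theorem poly_monT {n : α → ℕ} {t : α → ℤ × List ℕ} (hn : UPoly n) (ht : Poly t) :
    Poly (fun a => monT (n a) (t a)) := by
  unfold monT
  refine poly_tmul (poly_intT (Poly.fst ht)) (poly_prodT (Poly.map
    (F := fun a i => powT i ((t a).2.getD i 0)) hn.range ?_))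
  exact poly_powT (Poly.snd Poly.id) (Poly.getD (Poly.snd (ht.comp (Poly.fst Poly.id)))
    (Poly.snd Poly.id) (Poly.const 0))

theorem poly_polT {n : α → ℕ} {p : α → PolyData} (hn : UPoly n) (hp : Poly p) :
    Poly (fun a => polT (n a) (p a)) := by
  unfold polT
  exact poly_sumT (Poly.map (F := fun a t => monT (n a) t) hp
    (poly_monT (UPoly.comp hn (Poly.fst Poly.id)) (Poly.snd Poly.id)))

theorem poly_sqT {n : α → ℕ} {p : α → PolyData} (hn : UPoly n) (hp : Poly p) :
    Poly (fun a => sqT (n a) (p a)) :=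
  poly_tmul (poly_polT hn hp) (poly_polT hn hp)

theorem poly_szList {φ : α → QF} (h : Poly φ) : Poly (fun a => szList (φ a)) := by
  unfold szList
  refine Poly.flatMap (F := fun _ (p : PolyData) => p.flatMap fun t => t.2.flatMap fun e =>
    true :: e.bits) (poly_polys h) ?_
  refine Poly.flatMap (l := fun q : α × PolyData => q.2)
    (F := fun _ (t : ℤ × List ℕ) => t.2.flatMap fun e =>
    true :: e.bits) (Poly.snd Poly.id) ?_
  refine Poly.flatMap (l := fun q : (α × PolyData) × (ℤ × List ℕ) => q.2.2)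
    (F := fun _ (e : ℕ) => true :: e.bits) (Poly.snd (Poly.snd Poly.id)) ?_
  exact Poly.cons (Poly.const _) (Poly.natBits (Poly.snd Poly.id))

theorem upoly_nv {n : α → ℕ} {φ : α → QF} (hn : Poly n) (h : Poly φ) :
    UPoly (fun a => nv (n a) (φ a)) := by
  unfold nv
  have h1 : UPoly (fun a => (szList (φ a)).length) := UPoly.length (poly_szList h)
  exact UPoly.of_le (Poly.min hn h1.toPoly) h1 fun a => min_le_right _ _

theorem poly_powEqs {m L : α → ℕ} (hm : UPoly m) (hL : UPoly L) :
    Poly (fun a => powEqs (m a) (L a)) := by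
  unfold powEqs
  refine Poly.flatMap (F := fun a i => (List.range (L a)).map fun k =>
    Fm.eq (Tm.var (vP i (k + 1))) (Tm.mul (Tm.var (vP i k)) (Tm.var (vP i k)))) hm.range ?_
  refine Poly.map (F := fun (q : α × ℕ) k =>
    Fm.eq (Tm.var (vP q.2 (k + 1))) (Tm.mul (Tm.var (vP q.2 k)) (Tm.var (vP q.2 k))))
    (UPoly.comp hL (Poly.fst Poly.id)).range ?_
  have hi : Poly (fun q : (α × ℕ) × ℕ => q.1.2) := Poly.snd (Poly.fst Poly.id)
  have hk : Poly (fun q : (α × ℕ) × ℕ => q.2) := Poly.snd Poly.id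
  have h1 := poly_tvar (poly_vP hi hk)
  exact poly_feq (poly_tvar (poly_vP hi (Poly.succ hk))) (poly_tmul h1 h1)

theorem poly_core {n : α → ℕ} {φ : α → QF} (hn : Poly n) (h : Poly φ) :
    Poly (fun a => core (n a) (φ a)) := by
  have hm := upoly_nv hn h
  have hL : UPoly (fun a => (szList (φ a)).length) := UPoly.length (poly_szList h)
  have hmp : UPoly (fun q : α × PolyData => nv (n q.1) (φ q.1)) :=
    UPoly.comp hm (Poly.fst Poly.id)
  have hpt : Poly (fun q : α × PolyData => polT (nv (n q.1) (φ q.1)) q.2) :=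
    poly_polT hmp (Poly.snd Poly.id)
  have hsq : Poly (fun q : α × PolyData => sqT (nv (n q.1) (φ q.1)) q.2) :=
    poly_sqT hmp (Poly.snd Poly.id)
  unfold core
  refine poly_conj (Poly.append (Poly.append (Poly.append (Poly.append (Poly.append
    (Poly.const _) ?_) ?_) ?_) ?_) ?_)
  · refine Poly.map (F := fun _ i => Fm.le (Tm.mul (Tm.var (vP i 0)) (Tm.var (vP i 0))) tR)
      hm.range ?_
    have h1 : Poly (fun q : α × ℕ => Tm.var (vP q.2 0)) :=
      poly_tvar (poly_vP (Poly.snd Poly.id) (Poly.const 0))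
    exact poly_fle (poly_tmul h1 h1) (Poly.const _)
  · exact poly_powEqs hm hL
  · refine Poly.cons ?_ (Poly.const [])
    exact poly_tr (e := fun a p => Fm.eq (polT (nv (n a) (φ a)) p) Tm.zero)
      (g := fun a p => Fm.lt Tm.zero (polT (nv (n a) (φ a)) p))
      (h := fun a p => Fm.le Tm.zero (polT (nv (n a) (φ a)) p)) h
      (poly_feq hpt (Poly.const _)) (poly_flt (Poly.const _) hpt) (poly_fle (Poly.const _) hpt)
  · refine Poly.map (F := fun a p => Fm.or (Fm.le (sqT (nv (n a) (φ a)) p) tD)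
      (Fm.le Tm.one (Tm.mul (sqT (nv (n a) (φ a)) p) tR))) (poly_polys h) ?_
    exact poly_for (poly_fle hsq (Poly.const _))
      (poly_fle (Poly.const _) (poly_tmul hsq (Poly.const _)))
  · refine Poly.cons (poly_fnot ?_) (Poly.const [])
    exact poly_tr (e := fun a p => Fm.le (sqT (nv (n a) (φ a)) p) tD)
      (g := fun a p => Fm.and (Fm.lt Tm.zero (polT (nv (n a) (φ a)) p))
        (Fm.lt tD (sqT (nv (n a) (φ a)) p)))
      (h := fun a p => Fm.or (Fm.le Tm.zero (polT (nv (n a) (φ a)) p))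
        (Fm.le (sqT (nv (n a) (φ a)) p) tD)) h
      (poly_fle hsq (Poly.const _))
      (poly_fand (poly_flt (Poly.const _) hpt) (poly_flt (Poly.const _) hsq))
      (poly_for (poly_fle (Poly.const _) hpt) (poly_fle hsq (Poly.const _)))

theorem poly_chain {v : ℕ → ℕ} (hv : Poly v) {K : α → ℕ} (hK : UPoly K) :
    Poly (fun a => chain v (K a)) := by
  unfold chain
  refine Poly.cons (Poly.const _) (Poly.map (F := fun _ j =>
    Fm.eq (Tm.var (v (j + 1))) (Tm.mul (Tm.var (v j)) (Tm.var (v j)))) hK.range ?_)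
  have h1 : Poly (fun q : α × ℕ => Tm.var (v q.2)) := poly_tvar (hv.comp (Poly.snd Poly.id))
  have h2 : Poly (fun q : α × ℕ => Tm.var (v (q.2 + 1))) :=
    poly_tvar (hv.comp (Poly.succ (Poly.snd Poly.id)))
  exact poly_feq h2 (poly_tmul h1 h1)

theorem upoly_kap {f : α → Fm} (hf : Poly f) : UPoly (fun a => kap (sysOf (f a)).length) :=
  UPoly.add (UPoly.mul (UPoly.const 9) (UPoly.length (poly_sysOf hf))) (UPoly.const 17)

theorem poly_coreR {n : α → ℕ} {φ : α → QF} (hn : Poly n) (h : Poly φ) :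
    Poly (fun a => coreR (n a) (φ a)) := by
  have hc := poly_core hn h
  have hK := upoly_kap hc
  unfold coreR
  refine poly_conj (Poly.cons hc (Poly.append (poly_chain (poly_vC Poly.id) hK)
    (Poly.cons ?_ (Poly.const []))))
  exact poly_fle (Poly.const _) (poly_tvar (poly_vC hK.toPoly))

theorem poly_final {n : α → ℕ} {φ : α → QF} (hn : Poly n) (h : Poly φ) :
    Poly (fun a => final (n a) (φ a)) := by
  have hc := poly_coreR hn h
  have hK := upoly_kap hc
  unfold final
  refine poly_conj (Poly.cons hc (Poly.append (poly_chain (poly_vE Poly.id) hK)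
    (Poly.cons ?_ (Poly.const []))))
  exact poly_fle (poly_tmul (Poly.const _) (poly_tvar (poly_vE hK.toPoly))) (Poly.const _)

end

end Pool.Agent.NPC.H612
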