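import Mathlib

/-! Natural-number valued ring norms (L1 norms of polynomials) and determinant bounds. -/

namespace Pool.Agent.H612

open Finset

/-- A natural-number valued submultiplicative norm on a commutative ring. -/
structure RNorm (R : Type) [CommRing R] where
  ν : R → ℕ
  zero : ν 0 = 0
  one : ν 1 ≤ 1
  neg : ∀ x, ν (-x) ≤ ν x
  add : ∀ x y, ν (x + y) ≤ ν x + ν y
  mul : ∀ x y, ν (x * y) ≤ ν x * ν y

namespace RNorm

variable {R : Type} [CommRing R] (nr : RNorm R)

theorem sum {ι : Type*} (s : Finset ι) (f : ι → R) :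
    nr.ν (∑ i ∈ s, f i) ≤ ∑ i ∈ s, nr.ν (f i) := by
  classical
  induction s using Finset.induction_on with
  | empty => simp [nr.zero]
  | insert a s ha ih =>
    rw [Finset.sum_insert ha, Finset.sum_insert ha]
    exact (nr.add _ _).trans (Nat.add_le_add_left ih _)

theorem prod {ι : Type*} (s : Finset ι) (f : ι → R) :
    nr.ν (∏ i ∈ s, f i) ≤ ∏ i ∈ s, nr.ν (f i) := by
  classical
  induction s using Finset.induction_on with
  | empty => simpa using nr.one
  | insert a s ha ih =>
    rw [Finset.prod_insert ha, Finset.prod_insert ha]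
    exact (nr.mul _ _).trans (Nat.mul_le_mul_left _ ih)

theorem natCast (n : ℕ) : nr.ν (n : R) ≤ n := by
  induction n with
  | zero => simp [nr.zero]
  | succ n ih =>
    push_cast
    exact (nr.add _ _).trans (Nat.add_le_add ih nr.one)

theorem nsmul (n : ℕ) (x : R) : nr.ν (n • x) ≤ n * nr.ν x := by
  rw [nsmul_eq_mul]
  exact (nr.mul _ _).trans (Nat.mul_le_mul_right _ (nr.natCast n))

theorem sub (x y : R) : nr.ν (x - y) ≤ nr.ν x + nr.ν y := by
  rw [sub_eq_add_neg]
  exact (nr.add _ _).trans (Nat.add_le_add_left (nr.neg y) _)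

/-- The standard norm on the integers. -/
def int : RNorm ℤ where
  ν := Int.natAbs
  zero := rfl
  one := le_refl _
  neg := fun x => by simp
  add := Int.natAbs_add_le
  mul := fun x y => by rw [Int.natAbs_mul]

/-- L1 norm of a polynomial. -/
noncomputable def pν (p : Polynomial R) : ℕ := ∑ i ∈ p.support, nr.ν (p.coeff i)

theorem pν_eq_of_subset {p : Polynomial R} {s : Finset ℕ} (h : p.support ⊆ s) :
    nr.pν p = ∑ i ∈ s, nr.ν (p.coeff i) := by
  unfold pν
  apply Finset.sum_subset h
  intro i _ hi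
  rw [Polynomial.notMem_support_iff.mp hi, nr.zero]

theorem pν_zero : nr.pν (0 : Polynomial R) = 0 := by simp [pν]

theorem pν_monomial (n : ℕ) (a : R) : nr.pν (Polynomial.monomial n a) = nr.ν a := by
  have h : (Polynomial.monomial n a).support ⊆ {n} := Polynomial.support_monomial_subset n a
  rw [nr.pν_eq_of_subset h]
  simp

theorem pν_add (p q : Polynomial R) : nr.pν (p + q) ≤ nr.pν p + nr.pν q := by
  classical
  have h1 : (p + q).support ⊆ p.support ∪ q.support := Polynomial.support_add
  rw [nr.pν_eq_of_subset h1, nr.pν_eq_of_subset (Finset.subset_union_left (s₂ := q.support)),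
    nr.pν_eq_of_subset (Finset.subset_union_right (s₁ := p.support)), ← Finset.sum_add_distrib]
  apply Finset.sum_le_sum
  intro i _
  rw [Polynomial.coeff_add]
  exact nr.add _ _

theorem pν_sum {ι : Type*} (s : Finset ι) (f : ι → Polynomial R) :
    nr.pν (∑ i ∈ s, f i) ≤ ∑ i ∈ s, nr.pν (f i) := by
  classical
  induction s using Finset.induction_on with
  | empty => simp [nr.pν_zero]
  | insert a s ha ih =>
    rw [Finset.sum_insert ha, Finset.sum_insert ha]
    exact (nr.pν_add _ _).trans (Nat.add_le_add_left ih _)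

theorem pν_mul (p q : Polynomial R) : nr.pν (p * q) ≤ nr.pν p * nr.pν q := by
  conv_lhs => rw [Polynomial.as_sum_support p, Polynomial.as_sum_support q]
  rw [Finset.sum_mul_sum]
  refine (nr.pν_sum _ _).trans ?_
  have : nr.pν p * nr.pν q =
      ∑ i ∈ p.support, ∑ j ∈ q.support, nr.ν (p.coeff i) * nr.ν (q.coeff j) := by
    rw [pν, pν, Finset.sum_mul_sum]
  rw [this]
  apply Finset.sum_le_sum
  intro i _
  refine (nr.pν_sum _ _).trans ?_
  apply Finset.sum_le_sum
  intro j _
  rw [Polynomial.monomial_mul_monomial, nr.pν_monomial]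
  exact nr.mul _ _

/-- The L1 norm on polynomials over a normed ring. -/
noncomputable def poly : RNorm (Polynomial R) where
  ν := nr.pν
  zero := nr.pν_zero
  one := by
    have : (1 : Polynomial R) = Polynomial.monomial 0 1 := rfl
    rw [this, nr.pν_monomial]; exact nr.one
  neg := fun p => by
    unfold pν
    rw [Polynomial.support_neg]
    apply Finset.sum_le_sum
    intro i _
    rw [Polynomial.coeff_neg]
    exact nr.neg _
  add := nr.pν_add
  mul := nr.pν_mul

theorem poly_ν (p : Polynomial R) : nr.poly.ν p = nr.pν p := rfl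

theorem poly_C (a : R) : nr.poly.ν (Polynomial.C a) = nr.ν a := nr.pν_monomial 0 a

theorem poly_X : nr.poly.ν (Polynomial.X : Polynomial R) ≤ 1 := by
  have : (Polynomial.X : Polynomial R) = Polynomial.monomial 1 1 := rfl
  rw [this, poly_ν, nr.pν_monomial]; exact nr.one

theorem ν_coeff_le (p : Polynomial R) (n : ℕ) : nr.ν (p.coeff n) ≤ nr.poly.ν p := by
  rw [poly_ν, pν]
  by_cases h : n ∈ p.support
  · exact Finset.single_le_sum (f := fun i => nr.ν (p.coeff i)) (fun _ _ => Nat.zero_le _) h
  · rw [Polynomial.notMem_support_iff.mp h, nr.zero]; exact Nat.zero_le _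

/-- Determinant bound by the product of the row sums. -/
theorem det_le {n : Type} [Fintype n] [DecidableEq n] (A : Matrix n n R) :
    nr.ν A.det ≤ ∏ i, ∑ j, nr.ν (A i j) := by
  have h0 : A.det = A.transpose.det := (Matrix.det_transpose A).symm
  rw [h0, Matrix.det_apply']
  have h1 : (∏ i, ∑ j, nr.ν (A i j)) = ∑ g : n → n, ∏ i, nr.ν (A i (g i)) := by
    rw [Finset.prod_univ_sum]
    simp
  rw [h1]
  refine (nr.sum _ _).trans ?_
  have h2 : ∀ σ : Equiv.Perm n,
      nr.ν ((((Equiv.Perm.sign σ : ℤˣ) : ℤ) : R) * ∏ i, A.transpose (σ i) i)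
        ≤ ∏ i, nr.ν (A i (σ i)) := by
    intro σ
    have h3 : nr.ν ((((Equiv.Perm.sign σ : ℤˣ) : ℤ) : R)) ≤ 1 := by
      rcases Int.units_eq_one_or (Equiv.Perm.sign σ) with h | h
      · rw [h]; simpa using nr.one
      · rw [h]
        have := nr.neg 1
        simpa using this.trans nr.one
    refine (nr.mul _ _).trans ?_
    refine (Nat.mul_le_mul h3 (nr.prod _ _)).trans ?_
    rw [one_mul]
    exact le_of_eq (by simp [Matrix.transpose_apply])
  refine (Finset.sum_le_sum (fun σ _ => h2 σ)).trans ?_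
  have h4 : ∑ σ : Equiv.Perm n, ∏ i, nr.ν (A i (σ i)) =
      ∑ g ∈ (Finset.univ : Finset (Equiv.Perm n)).map ⟨fun σ : Equiv.Perm n => (σ : n → n),
        fun a b h => Equiv.ext (congrFun h)⟩, ∏ i, nr.ν (A i (g i)) := by
    rw [Finset.sum_map]
    rfl
  rw [h4]
  exact Finset.sum_le_sum_of_subset (Finset.subset_univ _)

/-- Charpoly norm bound. -/
theorem charpoly_le {n : Type} [Fintype n] [DecidableEq n] (A : Matrix n n R) (ρ : ℕ)
    (h : ∀ i, ∑ j, nr.ν (A i j) ≤ ρ) :
    nr.poly.ν A.charpoly ≤ (1 + ρ) ^ Fintype.card n := by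
  unfold Matrix.charpoly
  refine (nr.poly.det_le _).trans ?_
  have : ∏ i : n, ∑ j, nr.poly.ν (A.charmatrix i j) ≤ ∏ _i : n, (1 + ρ) := by
    apply Finset.prod_le_prod'
    intro i _
    have h1 : ∀ j, nr.poly.ν (A.charmatrix i j) ≤ (if j = i then 1 else 0) + nr.ν (A i j) := by
      intro j
      rw [Matrix.charmatrix_apply]
      refine (nr.poly.sub _ _).trans ?_
      refine Nat.add_le_add ?_ (le_of_eq (nr.poly_C _))
      by_cases hij : j = i
      · subst hij
        simpa using nr.poly_X
      · have hij' : i ≠ j := fun h => hij h.symm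
        rw [Matrix.diagonal_apply_ne _ hij', nr.poly.zero]; simp
    refine (Finset.sum_le_sum (fun j _ => h1 j)).trans ?_
    rw [Finset.sum_add_distrib]
    refine Nat.add_le_add ?_ (h i)
    simp
  refine this.trans ?_
  simp [Finset.prod_const, Finset.card_univ]

/-- L1 norm of a multivariate polynomial. -/
noncomputable def mν {σ : Type} (p : MvPolynomial σ R) : ℕ := ∑ d ∈ p.support, nr.ν (p.coeff d)

theorem mν_eq_of_subset {σ : Type} {p : MvPolynomial σ R} {s : Finset (σ →₀ ℕ)}
    (h : p.support ⊆ s) : nr.mν p = ∑ i ∈ s, nr.ν (p.coeff i) := by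
  unfold mν
  apply Finset.sum_subset h
  intro i _ hi
  rw [MvPolynomial.notMem_support_iff.mp hi, nr.zero]

theorem mν_zero {σ : Type} : nr.mν (0 : MvPolynomial σ R) = 0 := by simp [mν]

theorem mν_monomial {σ : Type} (n : σ →₀ ℕ) (a : R) :
    nr.mν (MvPolynomial.monomial n a) = nr.ν a := by
  classical
  have h : (MvPolynomial.monomial n a).support ⊆ {n} := MvPolynomial.support_monomial_subset
  rw [nr.mν_eq_of_subset h]
  simp

theorem mν_add {σ : Type} (p q : MvPolynomial σ R) : nr.mν (p + q) ≤ nr.mν p + nr.mν q := by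
  classical
  have h1 : (p + q).support ⊆ p.support ∪ q.support := MvPolynomial.support_add
  rw [nr.mν_eq_of_subset h1, nr.mν_eq_of_subset (Finset.subset_union_left (s₂ := q.support)),
    nr.mν_eq_of_subset (Finset.subset_union_right (s₁ := p.support)), ← Finset.sum_add_distrib]
  apply Finset.sum_le_sum
  intro i _
  rw [MvPolynomial.coeff_add]
  exact nr.add _ _

theorem mν_sum {σ : Type} {ι : Type*} (s : Finset ι) (f : ι → MvPolynomial σ R) :
    nr.mν (∑ i ∈ s, f i) ≤ ∑ i ∈ s, nr.mν (f i) := by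
  classical
  induction s using Finset.induction_on with
  | empty => simp [nr.mν_zero]
  | insert a s ha ih =>
    rw [Finset.sum_insert ha, Finset.sum_insert ha]
    exact (nr.mν_add _ _).trans (Nat.add_le_add_left ih _)

theorem mν_mul {σ : Type} (p q : MvPolynomial σ R) : nr.mν (p * q) ≤ nr.mν p * nr.mν q := by
  conv_lhs => rw [MvPolynomial.as_sum p, MvPolynomial.as_sum q]
  rw [Finset.sum_mul_sum]
  refine (nr.mν_sum _ _).trans ?_
  have : nr.mν p * nr.mν q =
      ∑ i ∈ p.support, ∑ j ∈ q.support, nr.ν (p.coeff i) * nr.ν (q.coeff j) := by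
    rw [mν, mν, Finset.sum_mul_sum]
  rw [this]
  apply Finset.sum_le_sum
  intro i _
  refine (nr.mν_sum _ _).trans ?_
  apply Finset.sum_le_sum
  intro j _
  rw [MvPolynomial.monomial_mul, nr.mν_monomial]
  exact nr.mul _ _

theorem mν_neg {σ : Type} (p : MvPolynomial σ R) : nr.mν (-p) ≤ nr.mν p := by
  unfold mν
  rw [MvPolynomial.support_neg]
  apply Finset.sum_le_sum
  intro i _
  rw [MvPolynomial.coeff_neg]
  exact nr.neg _

theorem mν_sub {σ : Type} (p q : MvPolynomial σ R) : nr.mν (p - q) ≤ nr.mν p + nr.mν q := by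
  rw [sub_eq_add_neg]
  exact (nr.mν_add _ _).trans (Nat.add_le_add_left (nr.mν_neg q) _)

theorem mν_C {σ : Type} (a : R) : nr.mν (MvPolynomial.C a : MvPolynomial σ R) = nr.ν a :=
  nr.mν_monomial 0 a

theorem mν_X {σ : Type} (i : σ) : nr.mν (MvPolynomial.X i : MvPolynomial σ R) ≤ 1 := by
  have : (MvPolynomial.X i : MvPolynomial σ R) = MvPolynomial.monomial (Finsupp.single i 1) 1 := rfl
  rw [this, nr.mν_monomial]; exact nr.one

theorem mν_one {σ : Type} : nr.mν (1 : MvPolynomial σ R) ≤ 1 := by
  have : (1 : MvPolynomial σ R) = MvPolynomial.C 1 := by simp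
  rw [this, nr.mν_C]; exact nr.one

end RNorm

end Pool.Agent.H612
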