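import Mathlib
import Pool.Agent.H612.Norm

/-! Reduction of monomials modulo equations z_i ^ 5 = V_i(z) with deg V_i at most 4, and the
characteristic polynomial relation for the value of a polynomial at such points. -/

namespace Pool.Agent.H612

open Finset

variable {K : Type} [CommRing K] (nr : RNorm K) {N : ℕ}

/-- The points satisfying the critical equations. -/
def IsCrit (V : Fin N → MvPolynomial (Fin N) K) (φ : K →+* ℝ) (z : Fin N → ℝ) : Prop :=
  ∀ i, z i ^ 5 = (V i).eval₂ φ z

theorem nf_exists (V : Fin N → MvPolynomial (Fin N) K) (C : ℕ) (hC1 : 1 ≤ C)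
    (hdeg : ∀ i, ∀ γ ∈ (V i).support, (∑ j, γ j) ≤ 4) (hV : ∀ i, nr.mν (V i) ≤ C) :
    ∀ d : ℕ, ∀ α : Fin N → ℕ, (∑ j, α j) ≤ d →
      ∃ c : (Fin N → Fin 5) → K, (∑ β, nr.ν (c β)) ≤ C ^ d ∧
        ∀ (φ : K →+* ℝ) (z : Fin N → ℝ), IsCrit V φ z →
          ∏ j, z j ^ α j = ∑ β, φ (c β) * ∏ j, z j ^ (β j : ℕ) := by
  classical
  intro d
  induction d with
  | zero =>
    intro α hα
    have hα0 : ∀ j, α j = 0 := by
      intro j
      have : α j ≤ ∑ j, α j := Finset.single_le_sum (f := α) (fun _ _ => Nat.zero_le _) (mem_univ j)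
      omega
    refine ⟨fun β => if β = (fun _ => 0) then 1 else 0, ?_, ?_⟩
    · have : ∀ β : Fin N → Fin 5, nr.ν (if β = (fun _ => 0) then (1:K) else 0) ≤
          if β = (fun _ => 0) then 1 else 0 := by
        intro β
        split_ifs
        · exact nr.one
        · exact le_of_eq nr.zero
      refine (Finset.sum_le_sum (fun β _ => this β)).trans ?_
      simp
    · intro φ z _
      rw [Finset.sum_eq_single (fun _ => (0 : Fin 5))]
      · simp [hα0]
      · intro b _ hb
        simp [hb]
      · simp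
  | succ d ih =>
    intro α hα
    by_cases hbig : ∃ i, 5 ≤ α i
    · obtain ⟨i, hi⟩ := hbig
      set α' : Fin N → ℕ := Function.update α i (α i - 5) with hα'
      have hsum : (∑ j, α' j) + 5 = ∑ j, α j := by
        have h1 : ∑ j, α j = α i + ∑ j ∈ univ.erase i, α j :=
          (Finset.add_sum_erase univ α (mem_univ i)).symm
        have h2 : ∑ j, α' j = α' i + ∑ j ∈ univ.erase i, α' j :=
          (Finset.add_sum_erase univ α' (mem_univ i)).symm
        have h3 : ∑ j ∈ univ.erase i, α' j = ∑ j ∈ univ.erase i, α j := by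
          apply Finset.sum_congr rfl
          intro j hj
          rw [hα', Function.update_of_ne (Finset.ne_of_mem_erase hj)]
        have h4 : α' i = α i - 5 := by rw [hα', Function.update_self]
        omega
      have hγ : ∀ γ ∈ (V i).support, ∑ j, (γ j + α' j) ≤ d := by
        intro γ hγ
        have := hdeg i γ hγ
        rw [Finset.sum_add_distrib]
        omega
      choose! cf hcf using ih
      refine ⟨fun β => ∑ γ ∈ (V i).support, (V i).coeff γ * cf (fun j => γ j + α' j) β, ?_, ?_⟩
      · calc (∑ β, nr.ν (∑ γ ∈ (V i).support, (V i).coeff γ * cf (fun j => γ j + α' j) β))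
            ≤ ∑ β, ∑ γ ∈ (V i).support,
                nr.ν ((V i).coeff γ) * nr.ν (cf (fun j => γ j + α' j) β) := by
              apply Finset.sum_le_sum
              intro β _
              refine (nr.sum _ _).trans ?_
              apply Finset.sum_le_sum
              intro γ _
              exact nr.mul _ _
          _ = ∑ γ ∈ (V i).support, nr.ν ((V i).coeff γ) *
                ∑ β, nr.ν (cf (fun j => γ j + α' j) β) := by
              rw [Finset.sum_comm]
              apply Finset.sum_congr rfl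
              intro γ _
              rw [Finset.mul_sum]
          _ ≤ ∑ γ ∈ (V i).support, nr.ν ((V i).coeff γ) * C ^ d := by
              apply Finset.sum_le_sum
              intro γ h
              exact Nat.mul_le_mul_left _ (hcf _ (hγ γ h)).1
          _ = nr.mν (V i) * C ^ d := by rw [RNorm.mν, Finset.sum_mul]
          _ ≤ C * C ^ d := Nat.mul_le_mul_right _ (hV i)
          _ = C ^ (d + 1) := by rw [pow_succ]; ring
      · intro φ z hz
        have h1 : ∏ j, z j ^ α j = z i ^ 5 * ∏ j, z j ^ α' j := by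
          rw [← Finset.mul_prod_erase univ (fun j => z j ^ α j) (mem_univ i),
            ← Finset.mul_prod_erase univ (fun j => z j ^ α' j) (mem_univ i)]
          have h2 : ∏ x ∈ univ.erase i, z x ^ α' x = ∏ x ∈ univ.erase i, z x ^ α x := by
            apply Finset.prod_congr rfl
            intro j hj
            rw [hα', Function.update_of_ne (Finset.ne_of_mem_erase hj)]
          rw [h2, ← mul_assoc, ← pow_add]
          congr 2
          rw [hα', Function.update_self]
          omega
        rw [h1, hz i, MvPolynomial.eval₂_eq', Finset.sum_mul]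
        have h3 : ∀ β : Fin N → Fin 5,
            φ (∑ γ ∈ (V i).support, (V i).coeff γ * cf (fun j => γ j + α' j) β) *
              ∏ j, z j ^ (β j : ℕ) =
            ∑ γ ∈ (V i).support, φ ((V i).coeff γ) *
              (φ (cf (fun j => γ j + α' j) β) * ∏ j, z j ^ (β j : ℕ)) := by
          intro β
          rw [map_sum, Finset.sum_mul]
          apply Finset.sum_congr rfl
          intro γ _
          rw [map_mul]; ring
        rw [Finset.sum_congr rfl (fun β _ => h3 β), Finset.sum_comm]
        apply Finset.sum_congr rfl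
        intro γ h
        rw [← Finset.mul_sum, ← (hcf _ (hγ γ h)).2 φ z hz, mul_assoc, ← Finset.prod_mul_distrib]
        congr 1
        apply Finset.prod_congr rfl
        intro j _
        rw [pow_add]
    · push Not at hbig
      refine ⟨fun β => if β = (fun j => (⟨α j, hbig j⟩ : Fin 5)) then 1 else 0, ?_, ?_⟩
      · have : ∀ β : Fin N → Fin 5,
            nr.ν (if β = (fun j => (⟨α j, hbig j⟩ : Fin 5)) then (1:K) else 0) ≤
            if β = (fun j => (⟨α j, hbig j⟩ : Fin 5)) then 1 else 0 := by
          intro β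
          split_ifs
          · exact nr.one
          · exact le_of_eq nr.zero
        refine (Finset.sum_le_sum (fun β _ => this β)).trans ?_
        simp only [Finset.sum_ite_eq', Finset.mem_univ, if_true]
        exact Nat.one_le_pow _ _ hC1
      · intro φ z _
        rw [Finset.sum_eq_single (fun j => (⟨α j, hbig j⟩ : Fin 5))]
        · simp
        · intro b _ hb
          simp [hb]
        · simp

/-- Multiplication matrix of `W` on the box monomials. -/
theorem mulMatrix_exists (V : Fin N → MvPolynomial (Fin N) K) (C : ℕ) (hC1 : 1 ≤ C)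
    (hdeg : ∀ i, ∀ γ ∈ (V i).support, (∑ j, γ j) ≤ 4) (hV : ∀ i, nr.mν (V i) ≤ C)
    (W : MvPolynomial (Fin N) K) (m : ℕ) (hW : ∀ γ ∈ W.support, (∑ j, γ j) ≤ m) :
    ∃ Λ : Matrix (Fin N → Fin 5) (Fin N → Fin 5) K,
      (∀ α, ∑ β, nr.ν (Λ α β) ≤ nr.mν W * C ^ (m + 4 * N)) ∧
      ∀ (φ : K →+* ℝ) (z : Fin N → ℝ), IsCrit V φ z → ∀ α : Fin N → Fin 5,
        W.eval₂ φ z * ∏ j, z j ^ (α j : ℕ) = ∑ β, φ (Λ α β) * ∏ j, z j ^ (β j : ℕ) := by
  classical
  have key := nf_exists nr V C hC1 hdeg hV (m + 4 * N)
  choose! cf hcf using key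
  have hb : ∀ γ ∈ W.support, ∀ α : Fin N → Fin 5, ∑ j, (γ j + (α j : ℕ)) ≤ m + 4 * N := by
    intro γ hγ α
    rw [Finset.sum_add_distrib]
    apply Nat.add_le_add (hW γ hγ)
    calc ∑ j, (α j : ℕ) ≤ ∑ _j : Fin N, 4 := by
          apply Finset.sum_le_sum
          intro j _
          have := (α j).isLt
          omega
      _ = 4 * N := by simp [mul_comm]
  refine ⟨fun α β => ∑ γ ∈ W.support, W.coeff γ * cf (fun j => γ j + (α j : ℕ)) β, ?_, ?_⟩
  · intro α
    calc (∑ β, nr.ν (∑ γ ∈ W.support, W.coeff γ * cf (fun j => γ j + (α j : ℕ)) β))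
        ≤ ∑ β, ∑ γ ∈ W.support,
            nr.ν (W.coeff γ) * nr.ν (cf (fun j => γ j + (α j : ℕ)) β) := by
          apply Finset.sum_le_sum
          intro β _
          refine (nr.sum _ _).trans ?_
          apply Finset.sum_le_sum
          intro γ _
          exact nr.mul _ _
      _ = ∑ γ ∈ W.support, nr.ν (W.coeff γ) *
            ∑ β, nr.ν (cf (fun j => γ j + (α j : ℕ)) β) := by
          rw [Finset.sum_comm]
          apply Finset.sum_congr rfl
          intro γ _
          rw [Finset.mul_sum]
      _ ≤ ∑ γ ∈ W.support, nr.ν (W.coeff γ) * C ^ (m + 4 * N) := by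
          apply Finset.sum_le_sum
          intro γ h
          exact Nat.mul_le_mul_left _ (hcf _ (hb γ h α)).1
      _ = nr.mν W * C ^ (m + 4 * N) := by rw [RNorm.mν, Finset.sum_mul]
  · intro φ z hz α
    rw [MvPolynomial.eval₂_eq', Finset.sum_mul]
    have h3 : ∀ β : Fin N → Fin 5,
        φ (∑ γ ∈ W.support, W.coeff γ * cf (fun j => γ j + (α j : ℕ)) β) *
          ∏ j, z j ^ (β j : ℕ) =
        ∑ γ ∈ W.support, φ (W.coeff γ) *
          (φ (cf (fun j => γ j + (α j : ℕ)) β) * ∏ j, z j ^ (β j : ℕ)) := by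
      intro β
      rw [map_sum, Finset.sum_mul]
      apply Finset.sum_congr rfl
      intro γ _
      rw [map_mul]; ring
    rw [Finset.sum_congr rfl (fun β _ => h3 β), Finset.sum_comm]
    apply Finset.sum_congr rfl
    intro γ h
    rw [← Finset.mul_sum, ← (hcf _ (hb γ h α)).2 φ z hz, mul_assoc, ← Finset.prod_mul_distrib]
    congr 1
    apply Finset.prod_congr rfl
    intro j _
    rw [pow_add]

/-- The value of `W` at any critical point is a root of a monic polynomial of bounded norm. -/
theorem value_root (V : Fin N → MvPolynomial (Fin N) K) (C : ℕ) (hC1 : 1 ≤ C)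
    (hdeg : ∀ i, ∀ γ ∈ (V i).support, (∑ j, γ j) ≤ 4) (hV : ∀ i, nr.mν (V i) ≤ C)
    (W : MvPolynomial (Fin N) K) (m : ℕ) (hW : ∀ γ ∈ W.support, (∑ j, γ j) ≤ m) :
    ∃ χ : Polynomial K, χ.Monic ∧
      nr.poly.ν χ ≤ (1 + nr.mν W * C ^ (m + 4 * N)) ^ (5 ^ N) ∧
      ∀ (φ : K →+* ℝ) (z : Fin N → ℝ), IsCrit V φ z → χ.eval₂ φ (W.eval₂ φ z) = 0 := by
  classical
  obtain ⟨Λ, h1, h2⟩ := mulMatrix_exists nr V C hC1 hdeg hV W m hW
  refine ⟨Λ.charpoly, Matrix.charpoly_monic Λ, ?_, ?_⟩
  · have := nr.charpoly_le Λ _ h1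
    simpa using this
  · intro φ z hz
    rw [Polynomial.eval₂_eq_eval_map, ← Matrix.charpoly_map, Matrix.eval_charpoly]
    rw [← Matrix.exists_mulVec_eq_zero_iff]
    refine ⟨fun β => ∏ j, z j ^ (β j : ℕ), ?_, ?_⟩
    · intro h
      have := congrFun h (fun _ => 0)
      simp at this
    · ext α
      rw [Matrix.sub_mulVec]
      simp only [Matrix.scalar_apply, Pi.sub_apply, Pi.zero_apply]
      rw [Matrix.mulVec_diagonal]
      rw [h2 φ z hz α]
      simp [Matrix.mulVec, dotProduct]

end Pool.Agent.H612
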