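import Mathlib
import Pool.Agent.H612.Crit

/-! Degree and norm bounds of partial derivatives; derivative of evaluation. -/

namespace Pool.Agent.H612

open Finset

/-- All exponents in the support have total degree at most `m`. -/
def DegLE {R : Type} [CommSemiring R] {N : ℕ} (p : MvPolynomial (Fin N) R) (m : ℕ) : Prop :=
  ∀ γ ∈ p.support, ∑ j, γ j ≤ m

theorem fin_sum_eq {N : ℕ} (γ : Fin N →₀ ℕ) : (γ.sum fun _ e => e) = ∑ j, γ j := by
  rw [Finsupp.sum_fintype]
  simp

theorem degLE_of_totalDegree {R : Type} [CommSemiring R] {N : ℕ} {p : MvPolynomial (Fin N) R}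
    {m : ℕ} (h : p.totalDegree ≤ m) : DegLE p m := by
  intro γ hγ
  rw [← fin_sum_eq]
  exact (MvPolynomial.le_totalDegree hγ).trans h

theorem totalDegree_of_degLE {R : Type} [CommSemiring R] {N : ℕ} {p : MvPolynomial (Fin N) R}
    {m : ℕ} (h : DegLE p m) : p.totalDegree ≤ m := by
  rw [MvPolynomial.totalDegree]
  apply Finset.sup_le
  intro γ hγ
  have := h γ hγ
  rw [← fin_sum_eq] at this
  exact this

variable {R : Type} [CommRing R] {N : ℕ}

theorem DegLE.mono {p : MvPolynomial (Fin N) R} {m m' : ℕ} (h : DegLE p m) (hm : m ≤ m') :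
    DegLE p m' := fun γ hγ => (h γ hγ).trans hm

theorem DegLE.add {p q : MvPolynomial (Fin N) R} {m : ℕ} (hp : DegLE p m) (hq : DegLE q m) :
    DegLE (p + q) m :=
  degLE_of_totalDegree ((MvPolynomial.totalDegree_add _ _).trans
    (max_le (totalDegree_of_degLE hp) (totalDegree_of_degLE hq)))

theorem DegLE.neg {p : MvPolynomial (Fin N) R} {m : ℕ} (hp : DegLE p m) :
    DegLE (-p) m := by
  intro γ hγ
  rw [MvPolynomial.support_neg] at hγ
  exact hp γ hγ

theorem DegLE.sub {p q : MvPolynomial (Fin N) R} {m : ℕ} (hp : DegLE p m) (hq : DegLE q m) :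
    DegLE (p - q) m := by
  rw [sub_eq_add_neg]; exact hp.add hq.neg

theorem DegLE.mul {p q : MvPolynomial (Fin N) R} {m m' : ℕ} (hp : DegLE p m) (hq : DegLE q m') :
    DegLE (p * q) (m + m') :=
  degLE_of_totalDegree ((MvPolynomial.totalDegree_mul _ _).trans
    (Nat.add_le_add (totalDegree_of_degLE hp) (totalDegree_of_degLE hq)))

theorem degLE_C (a : R) (m : ℕ) : DegLE (MvPolynomial.C a : MvPolynomial (Fin N) R) m :=
  degLE_of_totalDegree (by rw [MvPolynomial.totalDegree_C]; exact Nat.zero_le _)

theorem degLE_zero (m : ℕ) : DegLE (0 : MvPolynomial (Fin N) R) m := by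
  intro γ hγ; simp at hγ

theorem degLE_X (i : Fin N) : DegLE (MvPolynomial.X i : MvPolynomial (Fin N) R) 1 := by
  classical
  intro γ hγ
  have h : (MvPolynomial.X i : MvPolynomial (Fin N) R).support ⊆ {Finsupp.single i 1} :=
    MvPolynomial.support_monomial_subset
  have h2 := h hγ
  rw [Finset.mem_singleton] at h2
  rw [h2, ← fin_sum_eq, Finsupp.sum_single_index] 
  rfl

theorem DegLE.C_mul {p : MvPolynomial (Fin N) R} {m : ℕ} (a : R) (hp : DegLE p m) :
    DegLE (MvPolynomial.C a * p) m := by
  have := (degLE_C (N := N) a 0).mul hp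
  rwa [zero_add] at this

theorem DegLE.sum {ι : Type*} (s : Finset ι) (f : ι → MvPolynomial (Fin N) R) (m : ℕ)
    (h : ∀ i ∈ s, DegLE (f i) m) : DegLE (∑ i ∈ s, f i) m := by
  classical
  induction s using Finset.induction_on with
  | empty => simpa using degLE_zero m
  | insert a s ha ih =>
    rw [Finset.sum_insert ha]
    exact (h a (Finset.mem_insert_self _ _)).add
      (ih (fun i hi => h i (Finset.mem_insert_of_mem hi)))

theorem DegLE.map {S : Type} [CommRing S] (φ : R →+* S) {p : MvPolynomial (Fin N) R} {m : ℕ}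
    (hp : DegLE p m) : DegLE (MvPolynomial.map φ p) m :=
  fun γ hγ => hp γ (MvPolynomial.support_map_subset _ _ hγ)

theorem DegLE.pderiv {p : MvPolynomial (Fin N) R} {m : ℕ} (i : Fin N) (hp : DegLE p m) :
    DegLE (MvPolynomial.pderiv i p) (m - 1) := by
  classical
  intro γ hγ
  rw [MvPolynomial.mem_support_iff, MvPolynomial.coeff_pderiv] at hγ
  have h1 : MvPolynomial.coeff (γ + Finsupp.single i 1) p ≠ 0 := by
    intro h; rw [h, zero_mul] at hγ; exact hγ rfl
  have h2 := hp _ (MvPolynomial.mem_support_iff.mpr h1)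
  have h3 : ∑ j, (γ + Finsupp.single i 1 : Fin N →₀ ℕ) j = (∑ j, γ j) + 1 := by
    simp only [Finsupp.coe_add, Pi.add_apply, Finset.sum_add_distrib]
    congr 1
    rw [← fin_sum_eq, Finsupp.sum_single_index]
    rfl
  omega

theorem RNorm.mν_pderiv (nr : RNorm R) (p : MvPolynomial (Fin N) R) (m : ℕ) (hp : DegLE p m)
    (i : Fin N) : nr.mν (MvPolynomial.pderiv i p) ≤ m * nr.mν p := by
  classical
  unfold RNorm.mν
  rw [Finset.mul_sum]
  have hinj : Set.InjOn (fun γ : Fin N →₀ ℕ => γ + Finsupp.single i 1)
      ((MvPolynomial.pderiv i p).support : Set (Fin N →₀ ℕ)) := by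
    intro a _ b _ h
    exact add_right_cancel h
  have hsub : (MvPolynomial.pderiv i p).support.image (fun γ => γ + Finsupp.single i 1) ⊆
      p.support := by
    intro γ hγ
    rw [Finset.mem_image] at hγ
    obtain ⟨δ, hδ, rfl⟩ := hγ
    rw [MvPolynomial.mem_support_iff, MvPolynomial.coeff_pderiv] at hδ
    rw [MvPolynomial.mem_support_iff]
    intro h; rw [h, zero_mul] at hδ; exact hδ rfl
  calc ∑ d ∈ (MvPolynomial.pderiv i p).support, nr.ν (MvPolynomial.coeff d (MvPolynomial.pderiv i p))
      ≤ ∑ d ∈ (MvPolynomial.pderiv i p).support,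
          m * nr.ν (MvPolynomial.coeff (d + Finsupp.single i 1) p) := by
        apply Finset.sum_le_sum
        intro d hd
        rw [MvPolynomial.mem_support_iff, MvPolynomial.coeff_pderiv] at hd
        have h1 : MvPolynomial.coeff (d + Finsupp.single i 1) p ≠ 0 := by
          intro h; rw [h, zero_mul] at hd; exact hd rfl
        have h2 := hp _ (MvPolynomial.mem_support_iff.mpr h1)
        have h3 : ∑ j, (d + Finsupp.single i 1 : Fin N →₀ ℕ) j = (∑ j, d j) + 1 := by
          simp only [Finsupp.coe_add, Pi.add_apply, Finset.sum_add_distrib]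
          congr 1
          rw [← fin_sum_eq, Finsupp.sum_single_index]
          rfl
        have h4 : d i ≤ ∑ j, d j :=
          Finset.single_le_sum (f := fun j => d j) (fun _ _ => Nat.zero_le _) (mem_univ i)
        rw [MvPolynomial.coeff_pderiv]
        refine (nr.mul _ _).trans ?_
        rw [mul_comm m]
        apply Nat.mul_le_mul_left
        have h5 := nr.natCast (d i + 1)
        push_cast at h5
        omega
    _ = ∑ d ∈ (MvPolynomial.pderiv i p).support.image (fun γ => γ + Finsupp.single i 1),
          m * nr.ν (MvPolynomial.coeff d p) := by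
        rw [Finset.sum_image hinj]
    _ ≤ ∑ d ∈ p.support, m * nr.ν (MvPolynomial.coeff d p) :=
        Finset.sum_le_sum_of_subset hsub

/-- Derivative of evaluation along a coordinate. -/
theorem hasDerivAt_eval₂ (φ : R →+* ℝ) (z : Fin N → ℝ) (i : Fin N)
    (p : MvPolynomial (Fin N) R) :
    HasDerivAt (fun t : ℝ => p.eval₂ φ (Function.update z i t))
      ((MvPolynomial.pderiv i p).eval₂ φ z) (z i) := by
  classical
  induction p using MvPolynomial.induction_on with
  | C a =>
    simp only [MvPolynomial.eval₂_C, MvPolynomial.pderiv_C, MvPolynomial.eval₂_zero]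
    exact hasDerivAt_const _ _
  | add p q hp hq =>
    simp only [MvPolynomial.eval₂_add, map_add]
    exact hp.add hq
  | mul_X p j hp =>
    simp only [MvPolynomial.eval₂_mul, MvPolynomial.eval₂_X, MvPolynomial.pderiv_mul,
      MvPolynomial.eval₂_add]
    have hX : HasDerivAt (fun t : ℝ => Function.update z i t j)
        ((MvPolynomial.pderiv i (MvPolynomial.X j : MvPolynomial (Fin N) R)).eval₂ φ z) (z i) := by
      by_cases hij : j = i
      · subst hij
        simp only [Function.update_self, MvPolynomial.pderiv_X_self, MvPolynomial.eval₂_one]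
        exact hasDerivAt_id' _
      · rw [MvPolynomial.pderiv_X_of_ne hij]
        simp only [Function.update_of_ne hij, MvPolynomial.eval₂_zero]
        exact hasDerivAt_const _ _
    have := hp.mul hX
    rw [Function.update_eq_self] at this
    exact this

end Pool.Agent.H612
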