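import Pool.Agent.ER.Dec
import Pool.Agent.H612.TmPoly
import Pool.Agent.H612.FmGap
import Pool.Agent.H612.AR

/-!
# The complexity class `∃∀ℝ`
-/

namespace Pool.Agent.NPC.ER

open Pool.Agent.NPC.H612

/-- Assignment of the variables: the variables of the list `E` are taken from `x`, the others
from `y`. -/
def mixv (E : List ℕ) (x y : ℕ → ℝ) (i : ℕ) : ℝ := if i ∈ E then x i else y i

/-- The sentence `∃ x ∀ y, φ` is true over the real numbers; here `p = (E, φ)`, where `E` is the
list of the existentially quantified variables, all the other variables are universally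
quantified, and `φ` is quantifier-free. -/
def EAR (p : List ℕ × Fm) : Prop := ∃ x : ℕ → ℝ, ∀ y : ℕ → ℝ, p.2.Holds (mixv p.1 x y)

/-- The class `∃∀ℝ`: a language `L` belongs to it if some polynomial-time function maps every
string `w` to a sentence `∃ x ∀ y, φ` which is true over the reals if and only if `w ∈ L`. -/
def InEAR (L : Set (List Bool)) : Prop :=
  ∃ f : List Bool → List ℕ × Fm, PolyTime (fun w => bits (f w)) ∧ ∀ w, w ∈ L ↔ EAR (f w)

/-- `∃∀ℝ`-hardness under polynomial-time many-one reductions. -/
def EARHard (L : Set (List Bool)) : Prop := ∀ L', InEAR L' → Reduces L' L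

/-- `∃∀ℝ`-completeness under polynomial-time many-one reductions. -/
def EARComplete (L : Set (List Bool)) : Prop := InEAR L ∧ EARHard L

/-- Membership in `∃∀ℝ` by a polynomial-time translation. -/
theorem InEAR.of_poly {α : Type} [TEnc α] [TDec α] {P : α → Prop} {f : α → List ℕ × Fm}
    (h : Poly f) (hP : ∀ a, P a ↔ EAR (f a)) : InEAR (lang P) := by
  refine ⟨fun w => (match unbits α w with | none => (([] : List ℕ), Fm.ff) | some a => f a),
    ?_, fun w => ?_⟩
  · have h1 : Poly (fun w : List Bool =>
        (match unbits α w with | none => (([] : List ℕ), Fm.ff) | some a => f a)) :=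
      Poly.optCases (g := fun _ => (([] : List ℕ), Fm.ff)) (h := fun _ a => f a) poly_unbits
        (Poly.const _) (h.comp (Poly.snd Poly.id))
    exact polyTime_bits h1
  · rw [mem_lang_iff]
    cases hx : unbits α w with
    | none =>
      simp only [hx, reduceCtorEq, false_and, exists_false, false_iff]
      rintro ⟨x, h⟩
      exact lt_irrefl _ (h x)
    | some a => simp only [hx]; simp [hP a]

/-- Hardness for `∃∀ℝ`. -/
theorem EARHard.of_poly {α : Type} [TEnc α] {P : α → Prop} {F : List ℕ × Fm → α} (hF : Poly F)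
    (h : ∀ p, EAR p ↔ P (F p)) : EARHard (lang P) := by
  rintro L' ⟨g, hg, hL⟩
  have h1 : PC (id : List Bool → List Bool) (bits : List ℕ × Fm → List Bool) g :=
    H642R2.TMSim.polyTime_toPC hg
  have h3 : PC (id : List Bool → List Bool) (bits : α → List Bool) (fun x => F (g x)) :=
    PC.comp (g := F) (eb := (bits : List ℕ × Fm → List Bool)) hF h1
  have h4 : PC (id : List Bool → List Bool) (id : List Bool → List Bool)
    (fun x => bits (F (g x))) := h3
  refine ⟨fun x => bits (F (g x)), PC.toPolyTime h4, fun x => ?_⟩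
  rw [hL, h, bits_mem_lang]

/-- `∃∀ℝ` is closed under polynomial-time many-one reductions. -/
theorem InEAR.of_reduces {L L' : Set (List Bool)} (h : InEAR L') (h' : Reduces L L') :
    InEAR L := by
  obtain ⟨f, hf, h1⟩ := h
  obtain ⟨g, hg, h2⟩ := h'
  have h3 : PolyTime (fun w => bits (f (g w))) :=
    H642R2.TMSim.polyTime_comp (f := g) (g := fun w => bits (f w)) hf hg
  exact ⟨fun w => f (g w), h3, fun w => (h2 w).trans (h1 _)⟩

/-- `∀ℝ ⊆ ∃∀ℝ`. -/
theorem InAR.inEAR {L : Set (List Bool)} (h : InAR L) : InEAR L := by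
  obtain ⟨f, hf, h1⟩ := h
  have h2 : PC (id : List Bool → List Bool) (bits : Fm → List Bool) f :=
    H642R2.TMSim.polyTime_toPC hf
  have h3 : PC (id : List Bool → List Bool) (bits : List ℕ × Fm → List Bool)
      (fun w => ([], Fm.not (f w))) :=
    PC.comp (g := fun φ : Fm => (([] : List ℕ), Fm.not φ)) (eb := (bits : Fm → List Bool))
      (Poly.pair (Poly.const []) (poly_fnot Poly.id)) h2
  have h4 : PC (id : List Bool → List Bool) (id : List Bool → List Bool)
    (fun w => bits ((([] : List ℕ), Fm.not (f w)))) := h3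
  refine ⟨fun w => ([], Fm.not (f w)), PC.toPolyTime h4, fun w => ?_⟩
  have h5 := h1 w
  rw [Set.mem_compl_iff] at h5
  rw [← not_iff_not, h5]
  constructor
  · rintro ⟨x, hx⟩ ⟨y, hy⟩
    refine hy x ?_
    have : mixv [] y x = x := by funext i; simp [mixv]
    simp only [this]
    exact hx
  · intro h6
    by_contra h7
    refine h6 ⟨fun _ => 0, fun y => ?_⟩
    have : mixv [] (fun _ => 0) y = y := by funext i; simp [mixv]
    simp only [this]
    exact fun h8 => h7 ⟨y, h8⟩

/-- `∃ℝ ⊆ ∃∀ℝ`. -/
theorem InER.inEAR {L : Set (List Bool)} (h : InER L) : InEAR L := by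
  obtain ⟨f, hf, h1⟩ := h
  have h2 : PC (id : List Bool → List Bool) (bits : Fm → List Bool) f :=
    H642R2.TMSim.polyTime_toPC hf
  have hv : Poly (fun φ : Fm => φ.toks.map fun t => t.code.2) := by
    refine Poly.map (F := fun _ (t : Tok) => t.code.2) (fm_toks Poly.id) ?_
    exact Poly.snd (poly_tok_code (f := fun p : Fm × Tok => p.2) (Poly.snd Poly.id))
  have h3 : PC (id : List Bool → List Bool) (bits : List ℕ × Fm → List Bool)
      (fun w => ((f w).toks.map fun t => t.code.2, f w)) :=
    PC.comp (g := fun φ : Fm => (φ.toks.map fun t => t.code.2, φ))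
      (eb := (bits : Fm → List Bool)) (Poly.pair hv Poly.id) h2
  have h4 : PC (id : List Bool → List Bool) (id : List Bool → List Bool)
    (fun w => bits ((f w).toks.map fun t => t.code.2, f w)) := h3
  refine ⟨fun w => ((f w).toks.map fun t => t.code.2, f w), PC.toPolyTime h4, fun w => ?_⟩
  rw [h1]
  have ht : ∀ (t : Tm) (x y : ℕ → ℝ) (E : List ℕ), (∀ s ∈ t.toks, s.code.2 ∈ E) →
      t.eval (mixv E x y) = t.eval x := by
    intro t x y E
    induction t with
    | var i => intro h; simp [Tm.toks, Tok.code] at h; simp [Tm.eval, mixv, h]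
    | zero => intro _; rfl
    | one => intro _; rfl
    | add s t ih1 ih2 =>
      intro h
      simp only [Tm.toks, List.mem_append] at h
      simp only [Tm.eval, ih1 fun s hs => h s (Or.inl (Or.inl hs)),
        ih2 fun s hs => h s (Or.inl (Or.inr hs))]
    | neg s ih =>
      intro h
      simp only [Tm.toks, List.mem_append] at h
      simp only [Tm.eval, ih fun s hs => h s (Or.inl hs)]
    | mul s t ih1 ih2 =>
      intro h
      simp only [Tm.toks, List.mem_append] at h
      simp only [Tm.eval, ih1 fun s hs => h s (Or.inl (Or.inl hs)),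
        ih2 fun s hs => h s (Or.inl (Or.inr hs))]
  have hφ : ∀ (φ : Fm) (x y : ℕ → ℝ) (E : List ℕ), (∀ s ∈ φ.toks, s.code.2 ∈ E) →
      (φ.Holds (mixv E x y) ↔ φ.Holds x) := by
    intro φ x y E
    induction φ with
    | eq s t =>
      intro h
      simp only [Fm.toks, List.mem_append] at h
      simp only [Fm.Holds, ht s x y E fun s hs => h s (Or.inl (Or.inl hs)),
        ht t x y E fun s hs => h s (Or.inl (Or.inr hs))]
    | lt s t =>
      intro h
      simp only [Fm.toks, List.mem_append] at h
      simp only [Fm.Holds, ht s x y E fun s hs => h s (Or.inl (Or.inl hs)),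
        ht t x y E fun s hs => h s (Or.inl (Or.inr hs))]
    | le s t =>
      intro h
      simp only [Fm.toks, List.mem_append] at h
      simp only [Fm.Holds, ht s x y E fun s hs => h s (Or.inl (Or.inl hs)),
        ht t x y E fun s hs => h s (Or.inl (Or.inr hs))]
    | not φ ih =>
      intro h
      simp only [Fm.toks, List.mem_append] at h
      simp only [Fm.Holds, ih fun s hs => h s (Or.inl hs)]
    | and φ ψ ih1 ih2 =>
      intro h
      simp only [Fm.toks, List.mem_append] at h
      simp only [Fm.Holds, ih1 fun s hs => h s (Or.inl (Or.inl hs)),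
        ih2 fun s hs => h s (Or.inl (Or.inr hs))]
    | or φ ψ ih1 ih2 =>
      intro h
      simp only [Fm.toks, List.mem_append] at h
      simp only [Fm.Holds, ih1 fun s hs => h s (Or.inl (Or.inl hs)),
        ih2 fun s hs => h s (Or.inl (Or.inr hs))]
  have hh := fun x y => hφ (f w) x y ((f w).toks.map fun t => t.code.2)
    fun s hs => List.mem_map.2 ⟨s, hs, rfl⟩
  unfold ETR EAR
  simp only [hh]
  constructor
  · rintro ⟨x, hx⟩
    exact ⟨x, fun _ => hx⟩
  · rintro ⟨x, hx⟩
    exact ⟨x, hx x⟩

/-- The truth of `∃ x ∀ y, φ` in terms of the system of constraints of the negation of `φ`. -/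
theorem ear_iff_sys (p : List ℕ × Fm) : EAR p ↔ ∃ x : ℕ → ℝ, ∀ v : ℕ → ℝ,
    (∀ i ∈ p.1, v (2 * i) = x i) → ¬ SysHolds v (sysOf (Fm.not p.2)) := by
  obtain ⟨E, φ⟩ := p
  constructor
  · rintro ⟨x, h⟩
    refine ⟨x, fun v hv hs => ?_⟩
    have h1 := (sysOf_spec (Fm.not φ)).1 v hs
    have h2 := h fun i => v (2 * i)
    have h3 : mixv E x (fun i => v (2 * i)) = fun i => v (2 * i) := by
      funext i
      unfold mixv
      split_ifs with hi
      · exact (hv i hi).symm
      · rfl
    simp only [h3] at h2
    exact h1 h2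
  · rintro ⟨x, h⟩
    refine ⟨x, fun y => ?_⟩
    by_contra hn
    obtain ⟨v, h1, h2⟩ := (sysOf_spec (Fm.not φ)).2 (mixv E x y) hn
    refine h v (fun i hi => ?_) h2
    rw [h1]
    simp only [mixv]
    rw [if_pos hi]

end Pool.Agent.NPC.ER
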