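import Pool.Agent.H612.Collect

/-!
# Quantifier-free formulas over explicit integer polynomials, and closedness of the sets they define
-/

namespace Pool.Agent.NPC.H612

open Filter Topology

/-- Quantifier-free formulas: Boolean combinations of atoms `p = 0`, `p > 0`, `p ≥ 0`, where `p`
is an integer polynomial written as a sum of monomials. -/
inductive QF : Type
  | eqZ (p : PolyData) : QF
  | gtZ (p : PolyData) : QF
  | geZ (p : PolyData) : QF
  | not (φ : QF) : QF
  | and (φ ψ : QF) : QF
  | or (φ ψ : QF) : QF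
  deriving DecidableEq, Inhabited

/-- The value at `x ∈ ℝⁿ` of an explicit polynomial. -/
noncomputable def pval {n : ℕ} (x : Fin n → ℝ) (p : PolyData) : ℝ :=
  MvPolynomial.aeval x (p.toPoly n)

/-- Truth of a quantifier-free formula at a point of `ℝⁿ`. -/
def QF.Holds {n : ℕ} (x : Fin n → ℝ) : QF → Prop
  | eqZ p => pval x p = 0
  | gtZ p => 0 < pval x p
  | geZ p => 0 ≤ pval x p
  | not φ => ¬ φ.Holds x
  | and φ ψ => φ.Holds x ∧ ψ.Holds x
  | or φ ψ => φ.Holds x ∨ ψ.Holds x

/-- The polynomials of a formula. -/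
def QF.polys : QF → List PolyData
  | eqZ p => [p]
  | gtZ p => [p]
  | geZ p => [p]
  | not φ => φ.polys
  | and φ ψ => φ.polys ++ ψ.polys
  | or φ ψ => φ.polys ++ ψ.polys

/-- Truth of the formula for given values of the polynomials. -/
def QF.Val (e : PolyData → ℝ) : QF → Prop
  | eqZ p => e p = 0
  | gtZ p => 0 < e p
  | geZ p => 0 ≤ e p
  | not φ => ¬ φ.Val e
  | and φ ψ => φ.Val e ∧ ψ.Val e
  | or φ ψ => φ.Val e ∨ ψ.Val e

/-- Truth of the formula when the values `v` with `v ^ 2 ≤ δ` are regarded as zero. -/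
def QF.Rel (δ : ℝ) (e : PolyData → ℝ) : QF → Prop
  | eqZ p => e p * e p ≤ δ
  | gtZ p => 0 < e p ∧ δ < e p * e p
  | geZ p => 0 ≤ e p ∨ e p * e p ≤ δ
  | not φ => ¬ φ.Rel δ e
  | and φ ψ => φ.Rel δ e ∧ ψ.Rel δ e
  | or φ ψ => φ.Rel δ e ∨ ψ.Rel δ e

theorem QF.holds_iff_val {n : ℕ} (x : Fin n → ℝ) (φ : QF) : φ.Holds x ↔ φ.Val (pval x) := by
  induction φ with
  | eqZ p => rfl
  | gtZ p => rfl
  | geZ p => rfl
  | not φ ih => simp only [Holds, Val, ih]
  | and φ ψ ih1 ih2 => simp only [Holds, Val, ih1, ih2]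
  | or φ ψ ih1 ih2 => simp only [Holds, Val, ih1, ih2]

/-- The values `e` are close to the values `e₀`, at scale `δ`. -/
def Near (δ : ℝ) (a a₀ : ℝ) : Prop :=
  (a₀ = 0 → a * a ≤ δ) ∧ (0 < a₀ → 0 < a ∧ δ < a * a) ∧ (a₀ < 0 → a < 0 ∧ δ < a * a)

theorem QF.rel_iff {δ : ℝ} {e e₀ : PolyData → ℝ} (φ : QF)
    (h : ∀ p ∈ φ.polys, Near δ (e p) (e₀ p)) : φ.Rel δ e ↔ φ.Val e₀ := by
  induction φ with
  | eqZ p =>
    obtain ⟨h1, h2, h3⟩ := h p (by simp [polys])
    simp only [Rel, Val]
    rcases lt_trichotomy (e₀ p) 0 with h0 | h0 | h0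
    · have := h3 h0
      constructor
      · intro h; linarith [this.2]
      · intro h; linarith
    · exact ⟨fun _ => h0, fun _ => h1 h0⟩
    · have := h2 h0
      constructor
      · intro h; linarith [this.2]
      · intro h; linarith
  | gtZ p =>
    obtain ⟨h1, h2, h3⟩ := h p (by simp [polys])
    simp only [Rel, Val]
    rcases lt_trichotomy (e₀ p) 0 with h0 | h0 | h0
    · have := h3 h0
      constructor
      · intro h; linarith [this.1, h.1]
      · intro h; linarith
    · have := h1 h0
      constructor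
      · intro h; linarith [h.2]
      · intro h; linarith
    · exact ⟨fun _ => h0, fun _ => h2 h0⟩
  | geZ p =>
    obtain ⟨h1, h2, h3⟩ := h p (by simp [polys])
    simp only [Rel, Val]
    rcases lt_trichotomy (e₀ p) 0 with h0 | h0 | h0
    · have := h3 h0
      constructor
      · rintro (h | h)
        · linarith [this.1]
        · linarith [this.2]
      · intro h; linarith
    · exact ⟨fun _ => h0.ge, fun _ => Or.inr (h1 h0)⟩
    · exact ⟨fun _ => h0.le, fun _ => Or.inl (h2 h0).1.le⟩
  | not φ ih => simp only [Rel, Val, ih h]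
  | and φ ψ ih1 ih2 =>
    simp only [polys, List.mem_append] at h
    simp only [Rel, Val, ih1 fun p hp => h p (Or.inl hp), ih2 fun p hp => h p (Or.inr hp)]
  | or φ ψ ih1 ih2 =>
    simp only [polys, List.mem_append] at h
    simp only [Rel, Val, ih1 fun p hp => h p (Or.inl hp), ih2 fun p hp => h p (Or.inr hp)]

theorem pval_continuous {n : ℕ} (p : PolyData) : Continuous (fun x : Fin n → ℝ => pval x p) := by
  have h : ∀ x : Fin n → ℝ, pval x p =
      MvPolynomial.eval x (MvPolynomial.map (algebraMap ℤ ℝ) (p.toPoly n)) := by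
    intro x
    rw [pval, MvPolynomial.aeval_def, MvPolynomial.eval₂_eq_eval_map]
  simp only [h]
  exact MvPolynomial.continuous_eval _

/-- The existential condition for non-closedness, at scales `R` (large) and `δ` (small). -/
def QF.Bad (n : ℕ) (φ : QF) (R δ : ℝ) : Prop :=
  ∃ z : Fin n → ℝ, (∀ i, z i * z i ≤ R) ∧ φ.Holds z ∧
    (∀ p ∈ φ.polys, pval z p * pval z p ≤ δ ∨ 1 ≤ pval z p * pval z p * R) ∧
    ¬ φ.Rel δ (pval z)

/-- If the set is not closed then the condition holds for a fixed `R` and all small `δ`. -/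
theorem bad_of_not_closed {n : ℕ} (φ : QF) (h : ¬ IsClosed {x : Fin n → ℝ | φ.Holds x}) :
    ∃ R : ℝ, 0 ≤ R ∧ ∀ ε > 0, ∃ δ, 0 < δ ∧ δ < ε ∧ φ.Bad n R δ := by
  -- a point of the closure outside of the set
  have h1 : ∃ x₀ : Fin n → ℝ, x₀ ∈ closure {x : Fin n → ℝ | φ.Holds x} ∧ ¬ φ.Holds x₀ := by
    by_contra hcon
    push Not at hcon
    exact h (isClosed_of_closure_subset hcon)
  obtain ⟨x₀, hx₀, hn₀⟩ := h1
  -- choice of `R`
  have hR : ∃ R : ℝ, 0 < R ∧ (∀ i, x₀ i * x₀ i < R) ∧
      ∀ p ∈ φ.polys, pval x₀ p ≠ 0 → 1 < pval x₀ p * pval x₀ p * R := by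
    have h2 : ∀ l : List PolyData, ∃ R : ℝ, ∀ R' ≥ R, ∀ p ∈ l, pval x₀ p ≠ 0 →
        1 < pval x₀ p * pval x₀ p * R' := by
      intro l
      induction l with
      | nil => exact ⟨0, by simp⟩
      | cons p l ih =>
        obtain ⟨R, hR⟩ := ih
        by_cases hp : pval x₀ p = 0
        · refine ⟨R, fun R' hR' q hq hq0 => ?_⟩
          rcases List.mem_cons.1 hq with rfl | hq
          · exact absurd hp hq0
          · exact hR R' hR' q hq hq0
        · refine ⟨max R (2 / (pval x₀ p * pval x₀ p)), fun R' hR' q hq hq0 => ?_⟩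
          rcases List.mem_cons.1 hq with rfl | hq
          · have h3 : 0 < pval x₀ q * pval x₀ q := mul_self_pos.2 hp
            have h4 := mul_le_mul_of_nonneg_left ((le_max_right _ _).trans hR') h3.le
            have h5 : pval x₀ q * pval x₀ q * (2 / (pval x₀ q * pval x₀ q)) = 2 := by
              field_simp
            linarith
          · exact hR R' ((le_max_left _ _).trans hR') q hq hq0
    obtain ⟨R₁, hR₁⟩ := h2 φ.polys
    refine ⟨max R₁ (1 + ∑ i, x₀ i * x₀ i), ?_, ?_, ?_⟩
    · have : 0 ≤ ∑ i, x₀ i * x₀ i := Finset.sum_nonneg fun i _ => mul_self_nonneg _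
      exact lt_of_lt_of_le (by linarith) (le_max_right _ _)
    · intro i
      have : x₀ i * x₀ i ≤ ∑ i, x₀ i * x₀ i :=
        Finset.single_le_sum (f := fun i => x₀ i * x₀ i) (fun i _ => mul_self_nonneg _)
          (Finset.mem_univ i)
      exact lt_of_lt_of_le (by linarith) (le_max_right _ _)
    · intro p hp hp0
      exact hR₁ _ (le_max_left _ _) p hp hp0
  obtain ⟨R, hR0, hRx, hRp⟩ := hR
  refine ⟨R, hR0.le, fun ε hε => ?_⟩
  set δ := min (ε / 2) (1 / R) with hδ
  have hδ0 : 0 < δ := lt_min (by positivity) (by positivity)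
  have hδε : δ < ε := lt_of_le_of_lt (min_le_left _ _) (by linarith)
  have hδR : δ * R ≤ 1 := by
    calc δ * R ≤ 1 / R * R := mul_le_mul_of_nonneg_right (min_le_right _ _) hR0.le
      _ = 1 := by field_simp
  refine ⟨δ, hδ0, hδε, ?_⟩
  -- a neighbourhood
  have hnb1 : ∀ᶠ z in 𝓝 x₀, ∀ i, z i * z i ≤ R := by
    rw [eventually_all]
    intro i
    have hc : Continuous (fun z : Fin n → ℝ => z i * z i) :=
      (continuous_apply i).mul (continuous_apply i)
    have := hc.continuousAt.eventually_lt continuousAt_const (hRx i)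
    exact this.mono fun z hz => le_of_lt hz
  have hnb2 : ∀ᶠ z in 𝓝 x₀, ∀ p ∈ φ.polys, Near δ (pval z p) (pval x₀ p) ∧
      (pval z p * pval z p ≤ δ ∨ 1 ≤ pval z p * pval z p * R) := by
    have h2 : ∀ l : List PolyData, (∀ p ∈ l, p ∈ φ.polys) →
        ∀ᶠ z in 𝓝 x₀, ∀ p ∈ l, Near δ (pval z p) (pval x₀ p) ∧
      (pval z p * pval z p ≤ δ ∨ 1 ≤ pval z p * pval z p * R) := by
      intro l
      induction l with
      | nil => intro _; simp
      | cons p l ih =>
        intro hl
        have ih' := ih fun q hq => hl q (List.mem_cons_of_mem _ hq)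
        have hc : Continuous (fun z : Fin n → ℝ => pval z p) := pval_continuous p
        have hc2 : Continuous (fun z : Fin n → ℝ => pval z p * pval z p) := hc.mul hc
        have hc3 : Continuous (fun z : Fin n → ℝ => pval z p * pval z p * R) :=
          hc2.mul continuous_const
        have hp : ∀ᶠ z in 𝓝 x₀, Near δ (pval z p) (pval x₀ p) ∧
            (pval z p * pval z p ≤ δ ∨ 1 ≤ pval z p * pval z p * R) := by
          by_cases hp0 : pval x₀ p = 0
          · have h3 := hc2.continuousAt.eventually_lt (x₀ := x₀) continuousAt_const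
              (show pval x₀ p * pval x₀ p < δ by rw [hp0]; simpa using hδ0)
            filter_upwards [h3] with z hz
            exact ⟨⟨fun _ => hz.le, fun h => by linarith, fun h => by linarith⟩, Or.inl hz.le⟩
          · have h3 := hRp p (hl p (by simp)) hp0
            have h4 := (continuousAt_const (y := (1 : ℝ))).eventually_lt (x₀ := x₀)
              hc3.continuousAt h3
            have h5 : δ < pval x₀ p * pval x₀ p := by
              by_contra hcon
              push Not at hcon
              have := mul_le_mul_of_nonneg_right hcon hR0.le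
              linarith
            have h6 := (continuousAt_const (y := δ)).eventually_lt (x₀ := x₀)
              hc2.continuousAt h5
            rcases lt_or_gt_of_ne hp0 with hneg | hpos
            · have h7 := hc.continuousAt.eventually_lt (x₀ := x₀) continuousAt_const hneg
              filter_upwards [h4, h6, h7] with z hz4 hz6 hz7
              exact ⟨⟨fun h => by linarith, fun h => by linarith, fun _ => ⟨hz7, hz6⟩⟩,
                Or.inr hz4.le⟩
            · have h7 := (continuousAt_const (y := (0 : ℝ))).eventually_lt (x₀ := x₀)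
                hc.continuousAt hpos
              filter_upwards [h4, h6, h7] with z hz4 hz6 hz7
              exact ⟨⟨fun h => by linarith, fun _ => ⟨hz7, hz6⟩, fun h => by linarith⟩,
                Or.inr hz4.le⟩
        filter_upwards [ih', hp] with z hz1 hz2 q hq
        rcases List.mem_cons.1 hq with rfl | hq
        · exact hz2
        · exact hz1 q hq
    exact h2 φ.polys fun p hp => hp
  obtain ⟨z, hz, hz1, hz2⟩ := (mem_closure_iff_frequently.1 hx₀).and_eventually
    (hnb1.and hnb2) |>.exists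
  refine ⟨z, hz1, hz, fun p hp => (hz2 p hp).2, ?_⟩
  rw [φ.rel_iff fun p hp => (hz2 p hp).1, ← QF.holds_iff_val]
  exact hn₀

/-- If the condition holds for arbitrarily small `δ` with bounded `R` then the set is not
closed. -/
theorem not_closed_of_bad {n : ℕ} (φ : QF) (R₀ : ℝ)
    (h : ∀ ε > 0, ∃ δ R, 0 < δ ∧ δ < ε ∧ R ≤ R₀ ∧ φ.Bad n R δ) :
    ¬ IsClosed {x : Fin n → ℝ | φ.Holds x} := by
  intro hcl
  have h1 : ∀ k : ℕ, ∃ (δ : ℝ) (z : Fin n → ℝ), 0 < δ ∧ δ < 1 / (k + 1) ∧ (∀ i, z i * z i ≤ R₀) ∧
      φ.Holds z ∧ (∀ p ∈ φ.polys, pval z p * pval z p ≤ δ ∨ 1 ≤ pval z p * pval z p * R₀) ∧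
      ¬ φ.Rel δ (pval z) := by
    intro k
    obtain ⟨δ, R, h1, h2, h3, z, h4, h5, h6, h7⟩ := h (1 / (k + 1)) (by positivity)
    refine ⟨δ, z, h1, h2, fun i => (h4 i).trans h3, h5, fun p hp => ?_, h7⟩
    rcases h6 p hp with h | h
    · exact Or.inl h
    · exact Or.inr (h.trans (mul_le_mul_of_nonneg_left h3 (mul_self_nonneg _)))
  choose δ z hδ0 hδ hz hφ hdich hrel using h1
  have hR0 : n = 0 ∨ 0 ≤ R₀ := by
    rcases Nat.eq_zero_or_pos n with h | h
    · exact Or.inl h
    · exact Or.inr ((mul_self_nonneg _).trans (hz 0 ⟨0, h⟩))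
  have hball : ∀ k, z k ∈ Metric.closedBall (0 : Fin n → ℝ) (|R₀| + 1) := by
    intro k
    have hR1 : 0 ≤ |R₀| + 1 := by have := abs_nonneg R₀; linarith
    rw [mem_closedBall_zero_iff, pi_norm_le_iff_of_nonneg hR1]
    intro i
    have h1 := hz k i
    have h2 := le_abs_self R₀
    rw [Real.norm_eq_abs]
    refine abs_le_of_sq_le_sq (a := z k i) ?_ hR1
    nlinarith [abs_nonneg R₀]
  obtain ⟨x₀, -, σ, hσ, hlim⟩ := (isCompact_closedBall (0 : Fin n → ℝ) (|R₀| + 1)).tendsto_subseq
    hball
  have hx₀ : φ.Holds x₀ := by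
    have := hcl.mem_of_tendsto hlim (Eventually.of_forall fun k => hφ (σ k))
    exact this
  have hδlim : Tendsto (fun k => δ (σ k)) atTop (𝓝 0) := by
    refine squeeze_zero (fun k => (hδ0 _).le) (fun k => (hδ _).le) ?_
    exact (tendsto_one_div_add_atTop_nhds_zero_nat (𝕜 := ℝ)).comp hσ.tendsto_atTop
  have hnear : ∀ᶠ k in atTop, ∀ p ∈ φ.polys, Near (δ (σ k)) (pval (z (σ k)) p) (pval x₀ p) := by
    have h2 : ∀ l : List PolyData, (∀ p ∈ l, p ∈ φ.polys) →
        ∀ᶠ k in atTop, ∀ p ∈ l, Near (δ (σ k)) (pval (z (σ k)) p) (pval x₀ p) := by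
      intro l
      induction l with
      | nil => intro _; simp
      | cons p l ih =>
        intro hl
        have ih' := ih fun q hq => hl q (List.mem_cons_of_mem _ hq)
        have hc : Tendsto (fun k => pval (z (σ k)) p) atTop (𝓝 (pval x₀ p)) :=
          ((pval_continuous p).tendsto x₀).comp hlim
        have hc2 := hc.mul hc
        have hp : ∀ᶠ k in atTop, Near (δ (σ k)) (pval (z (σ k)) p) (pval x₀ p) := by
          by_cases hp0 : pval x₀ p = 0
          · have h3 : Tendsto (fun k => pval (z (σ k)) p * pval (z (σ k)) p * R₀) atTop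
                (𝓝 (pval x₀ p * pval x₀ p * R₀)) := hc2.mul_const R₀
            rw [hp0, zero_mul, zero_mul] at h3
            have h4 := h3.eventually_lt_const (show (0 : ℝ) < 1 by norm_num)
            filter_upwards [h4] with k hk
            refine ⟨fun _ => ?_, fun h => by linarith, fun h => by linarith⟩
            rcases hdich (σ k) p (hl p (by simp)) with h | h
            · exact h
            · linarith
          · have h3 : 0 < pval x₀ p * pval x₀ p := mul_self_pos.2 hp0
            have h4 := hδlim.eventually_lt hc2 h3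
            rcases lt_or_gt_of_ne hp0 with hneg | hpos
            · have h7 := hc.eventually_lt_const hneg
              filter_upwards [h4, h7] with k hk hk2
              exact ⟨fun h => by linarith, fun h => by linarith, fun _ => ⟨hk2, hk⟩⟩
            · have h7 := hc.eventually_const_lt hpos
              filter_upwards [h4, h7] with k hk hk2
              exact ⟨fun h => by linarith, fun _ => ⟨hk2, hk⟩, fun h => by linarith⟩
        filter_upwards [ih', hp] with k hk1 hk2 q hq
        rcases List.mem_cons.1 hq with rfl | hq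
        · exact hk2
        · exact hk1 q hq
    exact h2 φ.polys fun p hp => hp
  obtain ⟨k, hk⟩ := hnear.exists
  refine hrel (σ k) ?_
  rw [φ.rel_iff hk, ← QF.holds_iff_val]
  exact hx₀

end Pool.Agent.NPC.H612
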