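import Pool.Agent.H612.TmPoly
import Pool.Agent.H612.QF

/-!
# Encoding, decoding and translation of quantifier-free formulas over explicit polynomials
-/

namespace Pool.Agent.NPC.H612

open Pool.Agent.NPC.ER

open TDec (dec dec_toT toT_dec poly_dec)

/-- The symbols of reverse Polish notation. -/
inductive QTok : Type
  | eqZ (p : PolyData) : QTok
  | gtZ (p : PolyData) : QTok
  | geZ (p : PolyData) : QTok
  | not : QTok
  | and : QTok
  | or : QTok
  deriving DecidableEq, Inhabited

/-- The code of a symbol. -/
def QTok.code : QTok → ℕ × PolyData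
  | eqZ p => (0, p)
  | gtZ p => (1, p)
  | geZ p => (2, p)
  | not => (3, [])
  | and => (4, [])
  | or => (5, [])

theorem QTok.code_injective : Function.Injective QTok.code := by
  intro a b h
  cases a <;> cases b <;> simp [QTok.code] at h ⊢
  all_goals exact h

instance : TEnc QTok := ⟨fun t => toT t.code, fun _ _ h => QTok.code_injective (TEnc.inj h)⟩

/-- Reverse Polish notation of a formula. -/
def QF.toks : QF → List QTok
  | eqZ p => [QTok.eqZ p]
  | gtZ p => [QTok.gtZ p]
  | geZ p => [QTok.geZ p]
  | not φ => φ.toks ++ [QTok.not]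
  | and φ ψ => φ.toks ++ ψ.toks ++ [QTok.and]
  | or φ ψ => φ.toks ++ ψ.toks ++ [QTok.or]

/-- The parser for reverse Polish notation (with junk values on words that are not well
formed). -/
def qstep (st : List QF) (t : QTok) : List QF :=
  match t, st with
  | QTok.eqZ p, st => QF.eqZ p :: st
  | QTok.gtZ p, st => QF.gtZ p :: st
  | QTok.geZ p, st => QF.geZ p :: st
  | QTok.not, a :: st => QF.not a :: st
  | QTok.and, b :: a :: st => QF.and a b :: st
  | QTok.or, b :: a :: st => QF.or a b :: st
  | _, _ => []

theorem QF.parse (φ : QF) : ∀ st, φ.toks.foldl qstep st = φ :: st := by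
  induction φ with
  | eqZ p => intro st; rfl
  | gtZ p => intro st; rfl
  | geZ p => intro st; rfl
  | not φ ih => intro st; simp [QF.toks, ih, qstep]
  | and φ ψ ih1 ih2 => intro st; simp [QF.toks, ih1, ih2, qstep]
  | or φ ψ ih1 ih2 => intro st; simp [QF.toks, ih1, ih2, qstep]

theorem QF.toks_injective : Function.Injective QF.toks := by
  intro φ ψ h
  have h1 := φ.parse []
  rw [h, ψ.parse] at h1
  simpa using h1.symm

/-- Formulas are encoded by their reverse Polish notation. -/
instance : TEnc QF := ⟨fun φ => toT φ.toks, fun _ _ h => QF.toks_injective (TEnc.inj h)⟩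

/-! ### Decoding -/

/-- the inverse of `QTok.code` -/
def QTok.ofCode (p : ℕ × PolyData) : Option QTok :=
  if p.1 = 0 then some (QTok.eqZ p.2)
  else if p.1 = 1 then some (QTok.gtZ p.2)
  else if p.1 = 2 then some (QTok.geZ p.2)
  else if p.1 = 3 then (if p.2 = [] then some QTok.not else none)
  else if p.1 = 4 then (if p.2 = [] then some QTok.and else none)
  else if p.1 = 5 then (if p.2 = [] then some QTok.or else none)
  else none

theorem QTok.ofCode_code (t : QTok) : QTok.ofCode t.code = some t := by
  cases t <;> rfl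

theorem QTok.code_of_ofCode {p : ℕ × PolyData} {t : QTok} (h : QTok.ofCode p = some t) :
    t.code = p := by
  obtain ⟨a, b⟩ := p
  unfold QTok.ofCode at h
  simp only at h
  split_ifs at h <;> (cases h; simp_all [QTok.code])

theorem poly_qtok_of_code {α : Type} [TEnc α] {f : α → QTok} (hf : Poly (fun a => (f a).code)) :
    Poly f := Poly.of_toT (hf.toT'.congr fun _ => rfl)

theorem poly_qtok_code {α : Type} [TEnc α] {f : α → QTok} (hf : Poly f) :
    Poly (fun a => (f a).code) := hf

theorem QTok.poly_ofCode : Poly QTok.ofCode := by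
  unfold QTok.ofCode
  have e : ∀ n : ℕ, Poly (fun p : ℕ × PolyData => decide (p.1 = n)) := fun n =>
    Poly.decide_eq (Poly.fst Poly.id) (Poly.const _)
  have e2 : Poly (fun p : ℕ × PolyData => decide (p.2 = [])) :=
    Poly.decide_eq (Poly.snd Poly.id) (Poly.const _)
  have h2 : Poly (fun p : ℕ × PolyData => p.2) := Poly.snd Poly.id
  refine Poly.ite (e 0) (Poly.some (poly_qtok_of_code (Poly.pair (Poly.const 0) h2))) ?_
  refine Poly.ite (e 1) (Poly.some (poly_qtok_of_code (Poly.pair (Poly.const 1) h2))) ?_
  refine Poly.ite (e 2) (Poly.some (poly_qtok_of_code (Poly.pair (Poly.const 2) h2))) ?_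
  refine Poly.ite (e 3) (Poly.ite e2 (Poly.const _) (Poly.const _)) ?_
  refine Poly.ite (e 4) (Poly.ite e2 (Poly.const _) (Poly.const _)) ?_
  exact Poly.ite (e 5) (Poly.ite e2 (Poly.const _) (Poly.const _)) (Poly.const _)

instance : TDec QTok := TDec.of QTok.code QTok.ofCode (fun _ => rfl) QTok.ofCode_code
  (fun _ _ h => QTok.code_of_ofCode h) QTok.poly_ofCode

/-- The height of the stack of the parser. -/
def hstep (st : Option ℕ) (t : QTok) : Option ℕ :=
  st.bind fun h =>
    if t.code.1 ≤ 2 then some (h + 1)
    else if t.code.1 = 3 then (if 1 ≤ h then some h else none)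
    else (if 2 ≤ h then some (h - 1) else none)

/-- the tokens of a stack -/
def qstoks (st : List QF) : List QTok := (st.reverse.map QF.toks).flatten

theorem qstoks_cons (a : QF) (st : List QF) : qstoks (a :: st) = qstoks st ++ a.toks := by
  simp [qstoks]

theorem hstep_map (st : List QF) (t : QTok) (l : ℕ) (h : hstep (some st.length) t = some l) :
    (qstep st t).length = l ∧ qstoks (qstep st t) = qstoks st ++ [t] := by
  cases t with
  | eqZ i => simp [hstep, QTok.code] at h; subst h; simp [qstep, qstoks_cons, QF.toks]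
  | gtZ i => simp [hstep, QTok.code] at h; subst h; simp [qstep, qstoks_cons, QF.toks]
  | geZ i => simp [hstep, QTok.code] at h; subst h; simp [qstep, qstoks_cons, QF.toks]
  | not =>
    match st with
    | [] => simp [hstep, QTok.code] at h
    | a :: st =>
      simp [hstep, QTok.code] at h
      subst h; simp [qstep, qstoks_cons, QF.toks]
  | and =>
    match st with
    | [] => simp [hstep, QTok.code] at h
    | [_] => simp [hstep, QTok.code] at h
    | a :: b :: st =>
      simp [hstep, QTok.code] at h
      subst h; simp [qstep, qstoks_cons, QF.toks]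
  | or =>
    match st with
    | [] => simp [hstep, QTok.code] at h
    | [_] => simp [hstep, QTok.code] at h
    | a :: b :: st =>
      simp [hstep, QTok.code] at h
      subst h; simp [qstep, qstoks_cons, QF.toks]

theorem hstep_none (l : List QTok) : l.foldl hstep none = none := by
  induction l with
  | nil => rfl
  | cons t l ih => simpa [hstep] using ih

theorem foldl_hstep (w : List QTok) : ∀ (st : List QF) (l : ℕ),
    w.foldl hstep (some st.length) = some l →
    (w.foldl qstep st).length = l ∧ qstoks (w.foldl qstep st) = qstoks st ++ w := by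
  induction w with
  | nil => intro st l h; simp at h; simp [h]
  | cons t w ih =>
    intro st l h
    rw [List.foldl_cons] at h
    cases hk : hstep (some st.length) t with
    | none => rw [hk, hstep_none] at h; exact absurd h (by simp)
    | some l1 =>
      obtain ⟨h1, h2⟩ := hstep_map st t l1 hk
      rw [hk, ← h1] at h
      obtain ⟨h3, h4⟩ := ih _ _ h
      refine ⟨h3, ?_⟩
      rw [List.foldl_cons, h4, h2]
      simp

theorem QF.foldl_hstep (φ : QF) : ∀ l, φ.toks.foldl hstep (some l) = some (l + 1) := by
  induction φ with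
  | eqZ p => intro st; simp [QF.toks, hstep, QTok.code]
  | gtZ p => intro st; simp [QF.toks, hstep, QTok.code]
  | geZ p => intro st; simp [QF.toks, hstep, QTok.code]
  | not φ ih => intro st; simp [QF.toks, ih, hstep, QTok.code]
  | and φ ψ ih1 ih2 => intro st; simp [QF.toks, ih1, ih2, hstep, QTok.code]
  | or φ ψ ih1 ih2 => intro st; simp [QF.toks, ih1, ih2, hstep, QTok.code]

/-- The formula with given tokens. -/
def QF.ofToks (w : List QTok) : Option QF :=
  if w.foldl hstep (some 0) = some 1 then (w.foldl qstep []).head? else none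

theorem QF.ofToks_toks (φ : QF) : QF.ofToks φ.toks = some φ := by
  simp [ofToks, QF.foldl_hstep, QF.parse]

theorem QF.ofToks_map (w : List QTok) :
    (QF.ofToks w).map QF.toks = if w.foldl hstep (some 0) = some 1 then some w else none := by
  unfold ofToks
  by_cases hw : w.foldl hstep (some 0) = some 1
  · rw [if_pos hw, if_pos hw]
    obtain ⟨h1, h2⟩ := Pool.Agent.NPC.H612.foldl_hstep w [] _ hw
    revert h1 h2
    generalize w.foldl qstep [] = st
    intro h1 h2
    match st with
    | [] => simp at h1
    | [a] => simpa [qstoks] using h2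
    | _ :: _ :: _ => simp at h1
  · rw [if_neg hw, if_neg hw]
    rfl

theorem QF.toks_of_ofToks {w : List QTok} {φ : QF} (h : QF.ofToks w = some φ) : φ.toks = w := by
  have h1 := QF.ofToks_map w
  rw [h] at h1
  split_ifs at h1 with h2
  · simpa using h1
  · exact absurd h1 (by simp)

theorem poly_hstep : Poly (fun p : Option ℕ × QTok => hstep p.1 p.2) := by
  unfold hstep
  refine Poly.optBind (f := fun (p : Option ℕ × QTok) (h : ℕ) =>
    if p.2.code.1 ≤ 2 then some (h + 1)
    else if p.2.code.1 = 3 then (if 1 ≤ h then some h else none)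
    else (if 2 ≤ h then some (h - 1) else none)) (Poly.fst Poly.id) ?_
  have t1 : Poly (fun q : (Option ℕ × QTok) × ℕ => q.1.2.code.1) :=
    Poly.fst (poly_qtok_code (Poly.snd (Poly.fst Poly.id)))
  have t2 : Poly (fun q : (Option ℕ × QTok) × ℕ => q.2) := Poly.snd Poly.id
  refine Poly.ite (Poly.decide_le t1 (Poly.const _)) (Poly.some (Poly.succ t2)) ?_
  refine Poly.ite (Poly.decide_eq t1 (Poly.const _)) (Poly.ite (Poly.decide_le (Poly.const _) t2)
    (Poly.some t2) (Poly.const _)) ?_
  exact Poly.ite (Poly.decide_le (Poly.const _) t2) (Poly.some (Poly.sub t2 (Poly.const _)))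
    (Poly.const _)

theorem hstep_le (st : Option ℕ) (t : QTok) : (hstep st t).getD 0 ≤ st.getD 0 + 1 := by
  cases st with
  | none => simp [hstep]
  | some l =>
    unfold hstep
    simp only [Option.bind_some]
    split_ifs <;> simp
    omega

theorem foldl_hstep_le (w : List QTok) : ∀ st, (w.foldl hstep st).getD 0 ≤
    st.getD 0 + w.length := by
  induction w with
  | nil => intro st; simp
  | cons t w ih =>
    intro st
    have h1 := ih (hstep st t)
    have h2 := hstep_le st t
    simp only [List.foldl_cons, List.length_cons]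
    omega

theorem sz_optNat (st : Option ℕ) : sz st ≤ 4 * st.getD 0 + 3 := by
  cases st with
  | none => simp
  | some l =>
    have := sz_nat_le l
    have := Poly.size_le_self l
    simp only [sz_some, Option.getD_some]
    omega

theorem poly_foldl_hstep : Poly (fun w : List QTok => w.foldl hstep (some 0)) := by
  refine Poly.foldl (F := fun _ => hstep) Poly.id (Poly.const _)
    (poly_hstep.comp (Poly.snd Poly.id)) (4 * Polynomial.X + 3) ?_
  intro w k hk
  have h1 := foldl_hstep_le (w.take k) (some 0)
  have h2 := sz_optNat ((w.take k).foldl hstep (some 0))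
  have h3 : (w.take k).length ≤ sz w := by
    rw [List.length_take]
    exact (min_le_right _ _).trans (length_lt_sz w).le
  simp only [Polynomial.eval_add, Polynomial.eval_mul, Polynomial.eval_X, Polynomial.eval_ofNat]
  simp only [Option.getD_some] at h1
  omega

theorem QF.poly_ofToks : Poly QF.ofToks := by
  have h1 : Poly (fun w : List QTok =>
      if w.foldl hstep (some 0) = some 1 then some w else none) :=
    Poly.ite (Poly.decide_eq poly_foldl_hstep (Poly.const _)) (Poly.some Poly.id) (Poly.const _)
  refine Poly.of_toT (h1.toT'.congr fun w => ?_)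
  rw [← QF.ofToks_map]
  cases QF.ofToks w <;> rfl

instance : TDec QF := TDec.of QF.toks QF.ofToks (fun _ => rfl) QF.ofToks_toks
  (fun _ _ h => QF.toks_of_ofToks h) QF.poly_ofToks

/-! ### Translation -/

/-- Translation of the atoms by given formulas. -/
def QF.tr (e g h : PolyData → Fm) : QF → Fm
  | eqZ p => e p
  | gtZ p => g p
  | geZ p => h p
  | not φ => Fm.not (φ.tr e g h)
  | and φ ψ => Fm.and (φ.tr e g h) (ψ.tr e g h)
  | or φ ψ => Fm.or (φ.tr e g h) (ψ.tr e g h)

/-- The tokens of the translation of a token. -/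
def trTok (e g h : PolyData → Fm) (t : QTok) : List Tok :=
  if t.code.1 = 0 then (e t.code.2).toks
  else if t.code.1 = 1 then (g t.code.2).toks
  else if t.code.1 = 2 then (h t.code.2).toks
  else if t.code.1 = 3 then [Tok.not]
  else if t.code.1 = 4 then [Tok.and]
  else [Tok.or]

theorem QF.toks_tr (e g h : PolyData → Fm) (φ : QF) :
    (φ.tr e g h).toks = φ.toks.flatMap (trTok e g h) := by
  induction φ with
  | eqZ p => simp [tr, toks, trTok, QTok.code]
  | gtZ p => simp [tr, toks, trTok, QTok.code]
  | geZ p => simp [tr, toks, trTok, QTok.code]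
  | not φ ih => simp [tr, toks, Fm.toks, ih, trTok, QTok.code]
  | and φ ψ ih1 ih2 => simp [tr, toks, Fm.toks, ih1, ih2, trTok, QTok.code]
  | or φ ψ ih1 ih2 => simp [tr, toks, Fm.toks, ih1, ih2, trTok, QTok.code]

theorem QF.polys_eq (φ : QF) :
    φ.polys = φ.toks.flatMap fun t => if t.code.1 ≤ 2 then [t.code.2] else [] := by
  induction φ with
  | eqZ p => simp [polys, toks, QTok.code]
  | gtZ p => simp [polys, toks, QTok.code]
  | geZ p => simp [polys, toks, QTok.code]
  | not φ ih => simp [polys, toks, ih, QTok.code]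
  | and φ ψ ih1 ih2 => simp [polys, toks, ih1, ih2, QTok.code]
  | or φ ψ ih1 ih2 => simp [polys, toks, ih1, ih2, QTok.code]

section

variable {α : Type} [TEnc α]

theorem poly_qtoks {φ : α → QF} (h : Poly φ) : Poly (fun a => (φ a).toks) := h

theorem poly_qf_of_toks {φ : α → QF} (h : Poly (fun a => (φ a).toks)) : Poly φ := h

theorem poly_polys {φ : α → QF} (h : Poly φ) : Poly (fun a => (φ a).polys) := by
  refine Poly.congr (f := fun a => (φ a).toks.flatMap
    fun t => if t.code.1 ≤ 2 then [t.code.2] else []) ?_ fun a => ((φ a).polys_eq).symm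
  have hc : Poly (fun q : α × QTok => q.2.code) := poly_qtok_code (Poly.snd Poly.id)
  refine Poly.flatMap (F := fun _ (t : QTok) => if t.code.1 ≤ 2 then [t.code.2] else [])
    (poly_qtoks h) (Poly.ite (Poly.decide_le (Poly.fst hc) (Poly.const _))
      (Poly.cons (Poly.snd hc) (Poly.const [])) (Poly.const _))

theorem poly_tr {φ : α → QF} {e g h : α → PolyData → Fm} (hφ : Poly φ)
    (he : Poly (fun p : α × PolyData => e p.1 p.2)) (hg : Poly (fun p : α × PolyData => g p.1 p.2))
    (hh : Poly (fun p : α × PolyData => h p.1 p.2)) :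
    Poly (fun a => (φ a).tr (e a) (g a) (h a)) := by
  refine fm_of_toks (Poly.congr (f := fun a => (φ a).toks.flatMap (trTok (e a) (g a) (h a))) ?_
    fun a => (QF.toks_tr _ _ _ _).symm)
  refine Poly.flatMap (F := fun a t => trTok (e a) (g a) (h a) t) (poly_qtoks hφ) ?_
  unfold trTok
  have hc : Poly (fun q : α × QTok => q.2.code) := poly_qtok_code (Poly.snd Poly.id)
  have h1 : ∀ n : ℕ, Poly (fun q : α × QTok => decide (q.2.code.1 = n)) := fun n =>
    Poly.decide_eq (Poly.fst hc) (Poly.const _)
  have h2 : Poly (fun q : α × QTok => (q.1, q.2.code.2)) :=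
    Poly.pair (Poly.fst Poly.id) (Poly.snd hc)
  exact Poly.ite (h1 0) (fm_toks (he.comp h2)) (Poly.ite (h1 1) (fm_toks (hg.comp h2))
    (Poly.ite (h1 2) (fm_toks (hh.comp h2)) (Poly.ite (h1 3) (Poly.const _)
      (Poly.ite (h1 4) (Poly.const _) (Poly.const _)))))

end

theorem QF.holds_tr {e g h : PolyData → Fm} {x : ℕ → ℝ} {v : PolyData → ℝ} (φ : QF)
    (he : ∀ p ∈ φ.polys, (e p).Holds x ↔ v p = 0) (hg : ∀ p ∈ φ.polys, (g p).Holds x ↔ 0 < v p)
    (hh : ∀ p ∈ φ.polys, (h p).Holds x ↔ 0 ≤ v p) : (φ.tr e g h).Holds x ↔ φ.Val v := by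
  induction φ with
  | eqZ p => exact he p (by simp [polys])
  | gtZ p => exact hg p (by simp [polys])
  | geZ p => exact hh p (by simp [polys])
  | not φ ih => simp only [tr, Fm.Holds, Val, ih he hg hh]
  | and φ ψ ih1 ih2 =>
    simp only [polys, List.mem_append] at he hg hh
    simp only [tr, Fm.Holds, Val, ih1 (fun p hp => he p (Or.inl hp)) (fun p hp => hg p (Or.inl hp))
      (fun p hp => hh p (Or.inl hp)), ih2 (fun p hp => he p (Or.inr hp))
      (fun p hp => hg p (Or.inr hp)) (fun p hp => hh p (Or.inr hp))]
  | or φ ψ ih1 ih2 =>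
    simp only [polys, List.mem_append] at he hg hh
    simp only [tr, Fm.Holds, Val, ih1 (fun p hp => he p (Or.inl hp)) (fun p hp => hg p (Or.inl hp))
      (fun p hp => hh p (Or.inl hp)), ih2 (fun p hp => he p (Or.inr hp))
      (fun p hp => hg p (Or.inr hp)) (fun p hp => hh p (Or.inr hp))]

theorem QF.holds_tr_rel {e g h : PolyData → Fm} {x : ℕ → ℝ} {v : PolyData → ℝ} {δ : ℝ} (φ : QF)
    (he : ∀ p ∈ φ.polys, (e p).Holds x ↔ v p * v p ≤ δ)
    (hg : ∀ p ∈ φ.polys, (g p).Holds x ↔ 0 < v p ∧ δ < v p * v p)
    (hh : ∀ p ∈ φ.polys, (h p).Holds x ↔ 0 ≤ v p ∨ v p * v p ≤ δ) :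
    (φ.tr e g h).Holds x ↔ φ.Rel δ v := by
  induction φ with
  | eqZ p => exact he p (by simp [polys])
  | gtZ p => exact hg p (by simp [polys])
  | geZ p => exact hh p (by simp [polys])
  | not φ ih => simp only [tr, Fm.Holds, Rel, ih he hg hh]
  | and φ ψ ih1 ih2 =>
    simp only [polys, List.mem_append] at he hg hh
    simp only [tr, Fm.Holds, Rel, ih1 (fun p hp => he p (Or.inl hp)) (fun p hp => hg p (Or.inl hp))
      (fun p hp => hh p (Or.inl hp)), ih2 (fun p hp => he p (Or.inr hp))
      (fun p hp => hg p (Or.inr hp)) (fun p hp => hh p (Or.inr hp))]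
  | or φ ψ ih1 ih2 =>
    simp only [polys, List.mem_append] at he hg hh
    simp only [tr, Fm.Holds, Rel, ih1 (fun p hp => he p (Or.inl hp)) (fun p hp => hg p (Or.inl hp))
      (fun p hp => hh p (Or.inl hp)), ih2 (fun p hp => he p (Or.inr hp))
      (fun p hp => hg p (Or.inr hp)) (fun p hp => hh p (Or.inr hp))]

end Pool.Agent.NPC.H612
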