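import Pool.Agent.H612.EAR
import Pool.Agent.H612.QFEnc

/-!
# The art gallery problem for semialgebraic galleries: definitions and membership in `∃∀ℝ`
-/

namespace Pool.Agent.NPC.H612

open Pool.Agent.NPC.ER

/-- The value at `x` of an integer polynomial, written as a list of terms: the pair
`(c, [i₁, …, iᵣ])` stands for the term `c * x_{i₁} * ⋯ * x_{iᵣ}`. -/
noncomputable def wval (x : ℕ → ℝ) (p : List (ℤ × List ℕ)) : ℝ :=
  (p.map fun t => (t.1 : ℝ) * (t.2.map x).prod).sum

/-- The semialgebraic gallery in `ℝ^d` given by a quantifier-free formula. -/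
def gallery (d : ℕ) (φ : QF) : Set (Fin d → ℝ) := {x | φ.Val (wval (xt x))}

/-- The set `S` can be guarded by `k` points: there is a set `G ⊆ S` of `k` points such that every
point of `S` sees some point of `G`, that is, the segment between them is contained in `S`. -/
def Guardable {E : Type} [AddCommMonoid E] [Module ℝ E] (S : Set E) (k : ℕ) : Prop :=
  ∃ G : Finset E, G.card = k ∧ (G : Set E) ⊆ S ∧ ∀ p ∈ S, ∃ g ∈ G, segment ℝ g p ⊆ S

/-- The art gallery problem for semialgebraic galleries; the dimension and the number of guards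
are written in unary. -/
def ArtGallery (a : List Unit × List Unit × QF) : Prop :=
  Guardable (gallery a.1.length a.2.2) a.2.1.length

/-- The art gallery problem for semialgebraic galleries and two guards. -/
def TwoGuards (a : List Unit × QF) : Prop := Guardable (gallery a.1.length a.2) 2

/-- Disjunction of a list of formulas. -/
def disj (l : List Fm) : Fm := Fm.not (conj (l.map Fm.not))

theorem holds_disj (x : ℕ → ℝ) (l : List Fm) : (disj l).Holds x ↔ ∃ φ ∈ l, φ.Holds x := by
  unfold disj
  rw [Fm.Holds, holds_conj]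
  simp only [List.mem_map, forall_exists_index, and_imp, forall_apply_eq_imp_iff₂, Fm.Holds]
  push Not
  rfl

theorem poly_disj {α : Type} [TEnc α] {l : α → List Fm} (hl : Poly l) :
    Poly (fun a => disj (l a)) :=
  poly_fnot (poly_conj (Poly.map (F := fun _ φ => Fm.not φ) hl (poly_fnot (Poly.snd Poly.id))))

/-- A polynomial as a term, the coordinates being given by terms. -/
def pT (d : ℕ) (σ : ℕ → Tm) (p : List (ℤ × List ℕ)) : Tm :=
  sumT (p.map fun t => Tm.mul (intT t.1) (prodT (t.2.map fun i =>
    if i < d then σ i else Tm.zero)))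

theorem eval_pT (d : ℕ) (σ : ℕ → Tm) (v : ℕ → ℝ) (p : List (ℤ × List ℕ)) :
    (pT d σ p).eval v = wval (xt fun c : Fin d => (σ c).eval v) p := by
  unfold pT wval
  rw [eval_sumT, List.map_map]
  congr 1
  refine List.map_congr_left fun t _ => ?_
  simp only [Function.comp]
  rw [Tm.eval, eval_intT, eval_prodT, List.map_map]
  congr 2
  refine List.map_congr_left fun i _ => ?_
  simp only [Function.comp, xt]
  split_ifs
  · rfl
  · rfl

/-- The formula `φ` at the point whose coordinates are given by terms. -/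
def subF (d : ℕ) (σ : ℕ → Tm) (φ : QF) : Fm :=
  φ.tr (fun p => Fm.eq (pT d σ p) Tm.zero) (fun p => Fm.lt Tm.zero (pT d σ p))
    (fun p => Fm.le Tm.zero (pT d σ p))

theorem holds_subF (d : ℕ) (σ : ℕ → Tm) (φ : QF) (v : ℕ → ℝ) :
    (subF d σ φ).Holds v ↔ (fun c : Fin d => (σ c).eval v) ∈ gallery d φ := by
  unfold subF gallery
  rw [Set.mem_setOf_eq]
  refine QF.holds_tr φ (fun p _ => ?_) (fun p _ => ?_) (fun p _ => ?_)
  · rw [Fm.Holds, eval_pT, Tm.eval]
  · rw [Fm.Holds, eval_pT, Tm.eval]
  · rw [Fm.Holds, eval_pT, Tm.eval]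

section

variable {α : Type} [TEnc α]

theorem poly_pT {d : α → ℕ} {σ : α → ℕ → Tm} {p : α → List (ℤ × List ℕ)} (hd : Poly d)
    (hσ : Poly (fun q : α × ℕ => σ q.1 q.2)) (hp : Poly p) :
    Poly (fun a => pT (d a) (σ a) (p a)) := by
  unfold pT
  refine poly_sumT (Poly.map (F := fun a (t : ℤ × List ℕ) => Tm.mul (intT t.1)
    (prodT (t.2.map fun i => if i < d a then σ a i else Tm.zero))) hp ?_)
  refine poly_tmul (poly_intT (Poly.fst (Poly.snd Poly.id))) (poly_prodT (Poly.map
    (F := fun (q : α × (ℤ × List ℕ)) i => if i < d q.1 then σ q.1 i else Tm.zero)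
    (Poly.snd (Poly.snd Poly.id)) ?_))
  exact Poly.ite (Poly.decide_lt (Poly.snd Poly.id) (hd.comp (Poly.fst (Poly.fst Poly.id))))
    (hσ.comp (Poly.pair (Poly.fst (Poly.fst Poly.id)) (Poly.snd Poly.id))) (Poly.const _)

theorem poly_subF {d : α → ℕ} {σ : α → ℕ → Tm} {φ : α → QF} (hd : Poly d)
    (hσ : Poly (fun q : α × ℕ => σ q.1 q.2)) (hφ : Poly φ) :
    Poly (fun a => subF (d a) (σ a) (φ a)) := by
  have hp : Poly (fun q : α × PolyData => pT (d q.1) (σ q.1) q.2) := by
    refine poly_pT (σ := fun q : α × PolyData => σ q.1) (hd.comp (Poly.fst Poly.id)) ?_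
      (Poly.snd Poly.id)
    exact hσ.comp (Poly.pair (Poly.fst (Poly.fst Poly.id)) (Poly.snd Poly.id))
  unfold subF
  exact poly_tr (e := fun a p => Fm.eq (pT (d a) (σ a) p) Tm.zero)
      (g := fun a p => Fm.lt Tm.zero (pT (d a) (σ a) p))
      (h := fun a p => Fm.le Tm.zero (pT (d a) (σ a) p)) hφ
      (poly_feq hp (Poly.const _)) (poly_flt (Poly.const _) hp) (poly_fle (Poly.const _) hp)

end

/-! ### Membership in `∃∀ℝ` -/

/-- The names of the coordinates of the guards. -/
def gN (d i c : ℕ) : ℕ := 3 * (i * d + c)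

/-- The names of the coordinates of the point. -/
def pN (c : ℕ) : ℕ := 3 * c + 1

/-- The names of the parameters on the segments. -/
def tN (i : ℕ) : ℕ := 3 * i + 2

/-- The point on the segment. -/
def segT (d i c : ℕ) : Tm := Tm.add (Tm.var (gN d i c)) (Tm.mul (Tm.var (tN i))
  (Tm.add (Tm.var (pN c)) (Tm.neg (Tm.var (gN d i c)))))

/-- The formula of the art gallery problem. -/
def agFm (d k : ℕ) (φ : QF) : Fm :=
  conj [conj ((List.range k).map fun i => subF d (fun c => Tm.var (gN d i c)) φ),
    conj ((List.range k).flatMap fun i => (List.range k).map fun j =>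
      if i = j then tt else
        disj ((List.range d).map fun c => Fm.not (Fm.eq (Tm.var (gN d i c))
          (Tm.var (gN d j c))))),
    Fm.or (Fm.not (subF d (fun c => Tm.var (pN c)) φ))
      (disj ((List.range k).map fun i => Fm.or (Fm.not (Fm.and (Fm.le Tm.zero (Tm.var (tN i)))
        (Fm.le (Tm.var (tN i)) Tm.one))) (subF d (segT d i) φ)))]

/-- The sentence of the art gallery problem. -/
def agSent (a : List Unit × List Unit × QF) : List ℕ × Fm :=
  ((List.range (a.2.1.length * a.1.length)).map fun n => 3 * n,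
    agFm a.1.length a.2.1.length a.2.2)

theorem holds_agFm (d k : ℕ) (φ : QF) (v : ℕ → ℝ) : (agFm d k φ).Holds v ↔
    (∀ i < k, (fun c : Fin d => v (gN d i c)) ∈ gallery d φ) ∧
    (∀ i < k, ∀ j < k, i ≠ j → (fun c : Fin d => v (gN d i c)) ≠
      fun c : Fin d => v (gN d j c)) ∧
    ((fun c : Fin d => v (pN c)) ∈ gallery d φ → ∃ i < k, 0 ≤ v (tN i) ∧ v (tN i) ≤ 1 →
      (fun c : Fin d => v (gN d i c) + v (tN i) * (v (pN c) - v (gN d i c))) ∈ gallery d φ) := by
  unfold agFm
  rw [holds_conj]
  simp only [List.mem_cons, List.not_mem_nil, or_false, forall_eq_or_imp, forall_eq]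
  refine and_congr ?_ (and_congr ?_ ?_)
  · rw [holds_conj]
    simp only [List.mem_map, List.mem_range, forall_exists_index, and_imp,
      forall_apply_eq_imp_iff₂, holds_subF, Tm.eval]
  · rw [holds_conj]
    simp only [List.mem_flatMap, List.mem_map, List.mem_range, forall_exists_index, and_imp]
    constructor
    · intro h i hi j hj hij he
      have h1 := h _ i hi j hj rfl
      rw [if_neg hij, holds_disj] at h1
      obtain ⟨ψ, h2, h3⟩ := h1
      rw [List.mem_map] at h2
      obtain ⟨c, hc, rfl⟩ := h2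
      rw [List.mem_range] at hc
      exact h3 (congrFun he ⟨c, hc⟩)
    · rintro h ψ i hi j hj rfl
      by_cases hij : i = j
      · rw [if_pos hij]
        exact holds_tt _
      · rw [if_neg hij, holds_disj]
        have h1 := h i hi j hj hij
        rw [Ne, funext_iff] at h1
        push Not at h1
        obtain ⟨c, hc⟩ := h1
        exact ⟨_, List.mem_map.2 ⟨c, List.mem_range.2 c.2, rfl⟩, hc⟩
  · rw [Fm.Holds, Fm.Holds, holds_subF, holds_disj, ← imp_iff_not_or]
    simp only [Tm.eval]
    refine imp_congr Iff.rfl ?_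
    constructor
    · rintro ⟨ψ, h1, h2⟩
      rw [List.mem_map] at h1
      obtain ⟨i, hi, rfl⟩ := h1
      refine ⟨i, List.mem_range.1 hi, fun h3 => ?_⟩
      rw [Fm.Holds, Fm.Holds, ← imp_iff_not_or, holds_subF] at h2
      have := h2 h3
      simp only [segT, Tm.eval] at this
      convert this using 2
      ring
    · rintro ⟨i, hi, h1⟩
      refine ⟨_, List.mem_map.2 ⟨i, List.mem_range.2 hi, rfl⟩, ?_⟩
      rw [Fm.Holds, Fm.Holds, ← imp_iff_not_or, holds_subF]
      intro h3
      have := h1 h3
      simp only [segT, Tm.eval]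
      convert this using 2
      ring

theorem gN_inj {d i j c c' : ℕ} (hc : c < d) (hc' : c' < d) (h : i * d + c = j * d + c') :
    i = j ∧ c = c' := by
  have h1 : (i * d + c) / d = i := by
    rw [mul_comm, Nat.mul_add_div (by omega), Nat.div_eq_of_lt hc, add_zero]
  have h2 : (j * d + c') / d = j := by
    rw [mul_comm, Nat.mul_add_div (by omega), Nat.div_eq_of_lt hc', add_zero]
  have h3 : i = j := by rw [← h1, ← h2, h]
  subst h3
  exact ⟨rfl, by omega⟩

theorem artGallery_iff (a : List Unit × List Unit × QF) : ArtGallery a ↔ EAR (agSent a) := by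
  obtain ⟨du, ku, φ⟩ := a
  unfold ArtGallery agSent EAR
  simp only
  generalize du.length = d
  generalize ku.length = k
  set E := (List.range (k * d)).map fun n => 3 * n with hE
  have mE : ∀ n, 3 * n ∈ E ↔ n < k * d := by
    intro n
    simp only [hE, List.mem_map, List.mem_range]
    constructor
    · rintro ⟨m, hm, h⟩
      have : m = n := by omega
      omega
    · intro h
      exact ⟨n, h, rfl⟩
  have m1 : ∀ n, 3 * n + 1 ∉ E := by
    intro n
    simp only [hE, List.mem_map, List.mem_range, not_exists, not_and]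
    intro m _
    omega
  have m2 : ∀ n, 3 * n + 2 ∉ E := by
    intro n
    simp only [hE, List.mem_map, List.mem_range, not_exists, not_and]
    intro m _
    omega
  have vg : ∀ (x y : ℕ → ℝ) i (_ : i < k) c (_ : c < d), mixv E x y (gN d i c) = x (gN d i c) := by
    intro x y i hi c hc
    unfold mixv gN
    rw [if_pos]
    rw [mE]
    calc i * d + c < i * d + d := by omega
      _ = (i + 1) * d := by ring
      _ ≤ k * d := Nat.mul_le_mul_right d hi
  have vp : ∀ (x y : ℕ → ℝ) c, mixv E x y (pN c) = y (pN c) := by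
    intro x y c
    unfold mixv pN
    rw [if_neg (m1 c)]
  have vt : ∀ (x y : ℕ → ℝ) i, mixv E x y (tN i) = y (tN i) := by
    intro x y i
    unfold mixv tN
    rw [if_neg (m2 i)]
  have eg : ∀ (x y : ℕ → ℝ) i (_ : i < k),
      (fun c : Fin d => mixv E x y (gN d i c)) = fun c : Fin d => x (gN d i c) :=
    fun x y i hi => funext fun c => vg x y i hi c c.2
  constructor
  · rintro ⟨G, hk, hG, hs⟩
    let gl := G.toList
    have hlen : gl.length = k := by rw [Finset.length_toList, hk]
    obtain ⟨X, hX⟩ : ∃ X : ℕ → ℝ, X = fun n =>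
      if h : n / 3 / d < gl.length then xt (gl[n / 3 / d]) (n / 3 % d) else 0 := ⟨_, rfl⟩
    refine ⟨X, fun y => ?_⟩
    have gx : ∀ i (hi : i < k) c (hc : c < d),
        X (gN d i c) = (gl[i]'(by omega)) ⟨c, hc⟩ := by
      intro i hi c hc
      rw [hX]
      unfold gN
      have e1 : 3 * (i * d + c) / 3 = i * d + c := by omega
      have e2 : (i * d + c) / d = i := by
        rw [mul_comm, Nat.mul_add_div (by omega), Nat.div_eq_of_lt hc, add_zero]
      have e3 : (i * d + c) % d = c := by
        rw [mul_comm, Nat.mul_add_mod, Nat.mod_eq_of_lt hc]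
      simp only [e1, e2, e3]
      rw [dif_pos (by omega)]
      exact xt_fin _ ⟨c, hc⟩
    have gfx : ∀ i (hi : i < k), (fun c : Fin d => X (gN d i c)) = gl[i]'(by omega) :=
      fun i hi => funext fun c => gx i hi c c.2
    rw [holds_agFm]
    refine ⟨fun i hi => ?_, fun i hi j hj hij => ?_, fun hp => ?_⟩
    · rw [eg _ _ i hi, gfx i hi]
      apply hG
      rw [Finset.mem_coe, ← Finset.mem_toList]
      exact List.getElem_mem _
    · rw [eg _ _ i hi, gfx i hi, eg _ _ j hj, gfx j hj]
      intro h
      exact hij ((G.nodup_toList.getElem_inj_iff).1 h)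
    · simp only [vp] at hp
      obtain ⟨g, hg, hseg⟩ := hs _ hp
      rw [← Finset.mem_toList] at hg
      obtain ⟨i, hi, rfl⟩ := List.getElem_of_mem hg
      have hi' : i < k := by
        rw [← hlen]
        exact hi
      refine ⟨i, hi', fun ht => ?_⟩
      simp only [vp, vt] at ht ⊢
      have : (fun c : Fin d => mixv E X y (gN d i c) + y (tN i) *
          (y (pN c) - mixv E X y (gN d i c))) = gl[i] + y (tN i) •
            ((fun c : Fin d => y (pN c)) - gl[i]) := by
        funext c
        rw [vg _ _ i hi' c c.2, gx i hi' c c.2]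
        rfl
      rw [this]
      apply hseg
      rw [segment_eq_image']
      exact ⟨_, ht, rfl⟩
  · rintro ⟨x, h⟩
    have h0 := (holds_agFm d k φ _).1 (h fun _ => 0)
    obtain ⟨h1, h2, -⟩ := h0
    classical
    refine ⟨(Finset.range k).image fun i => fun c : Fin d => x (gN d i c), ?_, ?_, ?_⟩
    · rw [Finset.card_image_of_injOn, Finset.card_range]
      intro i hi j hj hij
      rw [Finset.mem_coe, Finset.mem_range] at hi hj
      by_contra hne
      refine h2 i hi j hj hne ?_
      rw [eg _ _ i hi, eg _ _ j hj]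
      exact hij
    · intro g hg
      rw [Finset.mem_coe, Finset.mem_image] at hg
      obtain ⟨i, hi, rfl⟩ := hg
      rw [Finset.mem_range] at hi
      have := h1 i hi
      rwa [eg _ _ i hi] at this
    · intro p hp
      by_contra hcon
      have h3 : ∀ i, ∃ t : ℝ, i < k → (0 ≤ t ∧ t ≤ 1) ∧
          (fun c : Fin d => x (gN d i c) + t * (p c - x (gN d i c))) ∉ gallery d φ := by
        intro i
        by_cases hi : i < k
        · have h4 : ¬ segment ℝ (fun c : Fin d => x (gN d i c)) p ⊆ gallery d φ := by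
            intro h5
            exact hcon ⟨_, Finset.mem_image.2 ⟨i, Finset.mem_range.2 hi, rfl⟩, h5⟩
          rw [Set.not_subset] at h4
          obtain ⟨q, hq1, hq2⟩ := h4
          rw [segment_eq_image'] at hq1
          obtain ⟨t, ht, rfl⟩ := hq1
          exact ⟨t, fun _ => ⟨ht, hq2⟩⟩
        · exact ⟨0, fun h => absurd h hi⟩
      choose t ht using h3
      let y : ℕ → ℝ := fun n => if n % 3 = 1 then xt p (n / 3) else t (n / 3)
      have yp : ∀ c : Fin d, y (pN c) = p c := by
        intro c
        simp only [y, pN]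
        rw [if_pos (by omega), show (3 * (c : ℕ) + 1) / 3 = c by omega]
        exact xt_fin _ c
      have yt : ∀ i, y (tN i) = t i := by
        intro i
        simp only [y, tN]
        rw [if_neg (by omega), show (3 * i + 2) / 3 = i by omega]
      have h5 := ((holds_agFm d k φ _).1 (h y)).2.2
      simp only [vp, vt, yt] at h5
      have h6 : (fun c : Fin d => y (pN c)) = p := funext yp
      rw [h6] at h5
      obtain ⟨i, hi, h7⟩ := h5 hp
      obtain ⟨h8, h9⟩ := ht i hi
      refine h9 ?_
      have h10 := h7 h8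
      convert h10 using 2
      rw [vg _ _ i hi _ (Fin.is_lt _), yp]

section

variable {α : Type} [TEnc α]

theorem poly_gN {d i c : α → ℕ} (hd : Poly d) (hi : Poly i) (hc : Poly c) :
    Poly (fun a => gN (d a) (i a) (c a)) :=
  Poly.mul (Poly.const 3) (Poly.add (Poly.mul hi hd) hc)

theorem poly_pN {c : α → ℕ} (hc : Poly c) : Poly (fun a => pN (c a)) :=
  Poly.succ (Poly.mul (Poly.const 3) hc)

theorem poly_tN {c : α → ℕ} (hc : Poly c) : Poly (fun a => tN (c a)) :=
  Poly.add (Poly.mul (Poly.const 3) hc) (Poly.const 2)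

theorem poly_segT {d i c : α → ℕ} (hd : Poly d) (hi : Poly i) (hc : Poly c) :
    Poly (fun a => segT (d a) (i a) (c a)) := by
  have h1 := poly_tvar (poly_gN hd hi hc)
  exact poly_tadd h1 (poly_tmul (poly_tvar (poly_tN hi)) (poly_tadd (poly_tvar (poly_pN hc))
    (poly_tneg h1)))

theorem poly_agFm {d k : α → ℕ} {φ : α → QF} (hd : UPoly d) (hk : UPoly k) (hφ : Poly φ) :
    Poly (fun a => agFm (d a) (k a) (φ a)) := by
  have hi : Poly (fun q : α × ℕ => q.2) := Poly.snd Poly.id
  have hd' := hd.toPoly
  unfold agFm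
  refine poly_conj (Poly.cons (poly_conj (Poly.map (F := fun a i =>
    subF (d a) (fun c => Tm.var (gN (d a) i c)) (φ a)) hk.range ?_)) (Poly.cons (poly_conj ?_)
    (Poly.cons (poly_for (poly_fnot ?_) (poly_disj ?_)) (Poly.const []))))
  · refine poly_subF (σ := fun (q : α × ℕ) c => Tm.var (gN (d q.1) q.2 c))
      (hd'.comp (Poly.fst Poly.id)) ?_ (hφ.comp (Poly.fst Poly.id))
    exact poly_tvar (poly_gN (hd'.comp (Poly.fst (Poly.fst Poly.id)))
      (Poly.snd (Poly.fst Poly.id)) (Poly.snd Poly.id))
  · refine Poly.flatMap (F := fun a i => (List.range (k a)).map fun j =>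
      if i = j then tt else disj ((List.range (d a)).map fun c =>
        Fm.not (Fm.eq (Tm.var (gN (d a) i c)) (Tm.var (gN (d a) j c))))) hk.range ?_
    refine Poly.map (F := fun (q : α × ℕ) j => if q.2 = j then tt else
      disj ((List.range (d q.1)).map fun c => Fm.not (Fm.eq (Tm.var (gN (d q.1) q.2 c))
        (Tm.var (gN (d q.1) j c))))) (UPoly.comp hk (Poly.fst Poly.id)).range ?_
    refine Poly.ite (Poly.decide_eq (Poly.snd (Poly.fst Poly.id)) (Poly.snd Poly.id))
      (Poly.const _) (poly_disj (Poly.map (F := fun (q : (α × ℕ) × ℕ) c =>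
        Fm.not (Fm.eq (Tm.var (gN (d q.1.1) q.1.2 c)) (Tm.var (gN (d q.1.1) q.2 c))))
        (UPoly.comp hd (Poly.fst (Poly.fst Poly.id))).range ?_))
    have e1 : Poly (fun q : ((α × ℕ) × ℕ) × ℕ => d q.1.1.1) :=
      hd'.comp (Poly.fst (Poly.fst (Poly.fst Poly.id)))
    have e2 : Poly (fun q : ((α × ℕ) × ℕ) × ℕ => q.1.1.2) :=
      Poly.snd (Poly.fst (Poly.fst Poly.id))
    have e3 : Poly (fun q : ((α × ℕ) × ℕ) × ℕ => q.1.2) := Poly.snd (Poly.fst Poly.id)
    have e4 : Poly (fun q : ((α × ℕ) × ℕ) × ℕ => q.2) := Poly.snd Poly.id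
    exact poly_fnot (poly_feq (poly_tvar (poly_gN e1 e2 e4)) (poly_tvar (poly_gN e1 e3 e4)))
  · exact poly_subF (σ := fun (_ : α) c => Tm.var (pN c)) hd'
      (poly_tvar (poly_pN (Poly.snd Poly.id))) hφ
  · refine Poly.map (F := fun a i => Fm.or (Fm.not (Fm.and (Fm.le Tm.zero (Tm.var (tN i)))
        (Fm.le (Tm.var (tN i)) Tm.one))) (subF (d a) (segT (d a) i) (φ a))) hk.range ?_
    have h1 : Poly (fun q : α × ℕ => Tm.var (tN q.2)) := poly_tvar (poly_tN hi)
    refine poly_for (poly_fnot (poly_fand (poly_fle (Poly.const _) h1)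
      (poly_fle h1 (Poly.const _)))) ?_
    refine poly_subF (σ := fun (q : α × ℕ) c => segT (d q.1) q.2 c)
      (hd'.comp (Poly.fst Poly.id)) ?_ (hφ.comp (Poly.fst Poly.id))
    exact poly_segT (hd'.comp (Poly.fst (Poly.fst Poly.id))) (Poly.snd (Poly.fst Poly.id))
      (Poly.snd Poly.id)

end

theorem poly_agSent : Poly agSent := by
  have hd : UPoly (fun a : List Unit × List Unit × QF => a.1.length) :=
    UPoly.length (Poly.fst Poly.id)
  have hk : UPoly (fun a : List Unit × List Unit × QF => a.2.1.length) :=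
    UPoly.length (Poly.fst (Poly.snd Poly.id))
  unfold agSent
  refine Poly.pair (Poly.map (F := fun _ n => 3 * n) (UPoly.mul hk hd).range
    (Poly.mul (Poly.const 3) (Poly.snd Poly.id))) ?_
  exact poly_agFm hd hk (Poly.snd (Poly.snd Poly.id))

theorem artGallery_inEAR : InEAR (lang ArtGallery) :=
  InEAR.of_poly (f := agSent) poly_agSent artGallery_iff

theorem twoGuards_inEAR : InEAR (lang TwoGuards) := by
  refine InEAR.of_poly (f := fun a : List Unit × QF => agSent (a.1, [(), ()], a.2)) ?_ ?_
  · exact poly_agSent.comp (Poly.pair (Poly.fst Poly.id) (Poly.pair (Poly.const _)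
      (Poly.snd Poly.id)))
  · intro a
    exact artGallery_iff (a.1, [(), ()], a.2)

end Pool.Agent.NPC.H612
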