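import Pool.Agent.H612.Gal

/-!
# A gallery for a sentence `∃ u ∀ w, ψ(u + w)`: the geometry
-/

namespace Pool.Agent.NPC.H612

section

variable {n : ℕ} (ex : Fin n → Prop) (ψ : (Fin n → ℝ) → Prop)

/-- The existential coordinates vanish. -/
def U0 (q : Fin n → ℝ) : Prop := ∀ j, ex j → q j = 0

/-- The universal coordinates vanish. -/
def W0 (q : Fin n → ℝ) : Prop := ∀ j, ¬ ex j → q j = 0

/-- The points `(q, s, z)` of the gallery. -/
def InG (q : Fin n → ℝ) (s z : ℝ) : Prop :=
  (z = 0 ∧ 0 ≤ s ∧ s ≤ 1 ∧ (s = 0 → W0 ex q) ∧ (s = 1 → U0 ex q) ∧ (2 * s = 1 → ψ q)) ∨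
  (0 < s ∧ s ≤ 1 ∧ 0 < z ∧ z ≤ 1 ∧ (s = 1 → U0 ex q) ∧ ¬ (U0 ex q ∧ s + z = 1 ∧ 2 * z ≤ 1)) ∨
  (U0 ex q ∧ W0 ex q ∧ z = 1 + s ∧ -1 ≤ 2 * s ∧ s ≤ 0) ∨
  (W0 ex q ∧ s = 0 ∧ -1 ≤ z ∧ z < 0 ∧ (z = -1 → U0 ex q))

/-- The gallery. -/
def galSet : Set (Fin (n + 2) → ℝ) :=
  {p | InG ex ψ (fun j => p j.succ.succ) (p 0) (p 1)}

/-- The point with given coordinates. -/
def gpt (q : Fin n → ℝ) (s z : ℝ) : Fin (n + 2) → ℝ := Fin.cons s (Fin.cons z q)

variable {ex ψ}

@[simp] theorem gpt_zero (q : Fin n → ℝ) (s z : ℝ) : gpt q s z 0 = s := rfl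

@[simp] theorem gpt_one (q : Fin n → ℝ) (s z : ℝ) : gpt q s z 1 = z := rfl

@[simp] theorem gpt_succ (q : Fin n → ℝ) (s z : ℝ) (j : Fin n) :
    gpt q s z j.succ.succ = q j := rfl

theorem mem_gal (p : Fin (n + 2) → ℝ) :
    p ∈ galSet ex ψ ↔ InG ex ψ (fun j => p j.succ.succ) (p 0) (p 1) := Iff.rfl

theorem seg_iff {n : ℕ} {ex : Fin n → Prop} {ψ : (Fin n → ℝ) → Prop} (g p : Fin (n + 2) → ℝ) :
    segment ℝ g p ⊆ galSet ex ψ ↔ ∀ t : ℝ, 0 ≤ t → t ≤ 1 →
      InG ex ψ (fun j => g j.succ.succ + t * (p j.succ.succ - g j.succ.succ))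
        (g 0 + t * (p 0 - g 0)) (g 1 + t * (p 1 - g 1)) := by
  rw [segment_eq_image']
  constructor
  · intro h t h0 h1
    exact h ⟨t, ⟨h0, h1⟩, rfl⟩
  · rintro h _ ⟨t, ⟨h0, h1⟩, rfl⟩
    exact h t h0 h1

theorem inG_neg {q : Fin n → ℝ} {s z : ℝ} (h : InG ex ψ q s z) (hz : z < 0) :
    W0 ex q ∧ s = 0 ∧ -1 ≤ z ∧ (z = -1 → U0 ex q) := by
  rcases h with h | h | h | h
  · linarith [h.1]
  · linarith [h.2.2.1]
  · linarith [h.2.2.1, h.2.2.2.1]
  · exact ⟨h.1, h.2.1, h.2.2.1, h.2.2.2.2⟩

theorem inG_left {q : Fin n → ℝ} {s z : ℝ} (h : InG ex ψ q s z) (hs : s < 0) :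
    U0 ex q ∧ W0 ex q ∧ z = 1 + s ∧ -1 ≤ 2 * s := by
  rcases h with h | h | h | h
  · linarith [h.2.1]
  · linarith [h.1]
  · exact ⟨h.1, h.2.1, h.2.2.1, h.2.2.2.1⟩
  · linarith [h.2.1]

theorem guard_sound (h : Guardable (galSet ex ψ) 2) :
    ∃ u : Fin n → ℝ, W0 ex u ∧ ∀ w, U0 ex w → ψ fun j => (u j + w j) / 2 := by
  obtain ⟨G, hG2, hGS, hG⟩ := h
  -- the first room
  have ha1 : gpt (fun _ : Fin n => (0 : ℝ)) 0 (-1) ∈ galSet ex ψ := by
    rw [mem_gal]
    right; right; right
    simp only [gpt_zero, gpt_one, gpt_succ]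
    exact ⟨fun _ _ => rfl, trivial, le_rfl, by norm_num, fun _ _ _ => rfl⟩
  obtain ⟨g₁, hg₁, hv₁⟩ := hG _ ha1
  rw [seg_iff] at hv₁
  simp only [gpt_zero, gpt_one, gpt_succ] at hv₁
  have hg₁S := (mem_gal _).1 (hGS hg₁)
  -- a point of the segment close to the end
  have k1 : ∀ r : ℝ, 0 ≤ r → r ≤ 1 → InG ex ψ (fun j => r * g₁ j.succ.succ) (r * g₁ 0)
      (-1 + r * (1 + g₁ 1)) := by
    intro r h0 h1
    have := hv₁ (1 - r) (by linarith) (by linarith)
    convert this using 1
    · funext j; ring
    · ring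
    · ring
  have k2 : W0 ex (fun j => g₁ j.succ.succ) ∧ g₁ 0 = 0 := by
    have hb : ∃ r : ℝ, 0 < r ∧ r ≤ 1 ∧ -1 + r * (1 + g₁ 1) < 0 := by
      refine ⟨1 / (2 + |1 + g₁ 1|), by positivity, ?_, ?_⟩
      · rw [div_le_one (by positivity)]
        have := abs_nonneg (1 + g₁ 1)
        linarith
      · have h1 := le_abs_self (1 + g₁ 1)
        have h2 : 1 / (2 + |1 + g₁ 1|) * (1 + g₁ 1) < 1 := by
          rw [one_div_mul_eq_div, div_lt_one (by positivity)]
          linarith
        linarith
    obtain ⟨r, hr0, hr1, hr⟩ := hb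
    obtain ⟨h1, h2, -, -⟩ := inG_neg (k1 r hr0.le hr1) hr
    refine ⟨fun j hj => ?_, ?_⟩
    · have := h1 j hj
      exact (mul_eq_zero.1 this).resolve_left hr0.ne'
    · exact (mul_eq_zero.1 h2).resolve_left hr0.ne'
  have k3 : g₁ 1 ≤ 0 := by
    by_contra hc
    push Not at hc
    have h1 := k1 ((1 + g₁ 1 / 2) / (1 + g₁ 1)) (by positivity) (by
      rw [div_le_one (by positivity)]; linarith)
    have h2 : (1 + g₁ 1 / 2) / (1 + g₁ 1) * (1 + g₁ 1) = 1 + g₁ 1 / 2 := by
      field_simp
    rw [k2.2, mul_zero, h2] at h1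
    rcases h1 with h | h | h | h
    · linarith [h.1]
    · exact lt_irrefl _ h.1
    · have h3 := h.2.2.1
      have h4 : g₁ 1 = 2 := by linarith
      rw [k2.2, h4] at hg₁S
      rcases hg₁S with h | h | h | h
      · norm_num at h
      · norm_num at h
      · norm_num at h
      · norm_num at h
    · linarith [h.2.2.2.1]
  -- the antenna
  have ha2 : gpt (fun _ : Fin n => (0 : ℝ)) (-1 / 2) (1 / 2) ∈ galSet ex ψ := by
    rw [mem_gal]
    right; right; left
    simp only [gpt_zero, gpt_one, gpt_succ]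
    exact ⟨fun _ _ => rfl, fun _ _ => rfl, by norm_num, by norm_num, by norm_num⟩
  obtain ⟨g₂, hg₂, hv₂⟩ := hG _ ha2
  rw [seg_iff] at hv₂
  simp only [gpt_zero, gpt_one, gpt_succ] at hv₂
  have hg₂S := (mem_gal _).1 (hGS hg₂)
  have k4 : ∀ r : ℝ, 0 ≤ r → r ≤ 1 → InG ex ψ (fun j => r * g₂ j.succ.succ)
      (-1 / 2 + r * (1 / 2 + g₂ 0)) (1 / 2 + r * (g₂ 1 - 1 / 2)) := by
    intro r h0 h1
    have := hv₂ (1 - r) (by linarith) (by linarith)
    convert this using 1
    · funext j; ring
    · ring
    · ring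
  have k5 : U0 ex (fun j => g₂ j.succ.succ) ∧ W0 ex (fun j => g₂ j.succ.succ) ∧
      g₂ 1 = 1 + g₂ 0 := by
    have hb : ∃ r : ℝ, 0 < r ∧ r ≤ 1 ∧ -1 / 2 + r * (1 / 2 + g₂ 0) < 0 := by
      refine ⟨1 / (4 + 2 * |1 / 2 + g₂ 0|), by positivity, ?_, ?_⟩
      · rw [div_le_one (by positivity)]
        have := abs_nonneg (1 / 2 + g₂ 0)
        linarith
      · have h1 := le_abs_self (1 / 2 + g₂ 0)
        have h2 : 1 / (4 + 2 * |1 / 2 + g₂ 0|) * (1 / 2 + g₂ 0) < 1 / 2 := by
          rw [one_div_mul_eq_div, div_lt_iff₀ (by positivity)]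
          linarith
        linarith
    obtain ⟨r, hr0, hr1, hr⟩ := hb
    obtain ⟨h1, h2, h3, -⟩ := inG_left (k4 r hr0.le hr1) hr
    refine ⟨fun j hj => ?_, fun j hj => ?_, ?_⟩
    · exact (mul_eq_zero.1 (h1 j hj)).resolve_left hr0.ne'
    · exact (mul_eq_zero.1 (h2 j hj)).resolve_left hr0.ne'
    · have h4 : r * (g₂ 1 - 1 - g₂ 0) = 0 := by linear_combination h3
      have h5 := (mul_eq_zero.1 h4).resolve_left hr0.ne'
      linarith
  obtain ⟨k5, k6, k7⟩ := k5
  have k8 : g₂ 0 ≤ 0 := by
    rcases hg₂S with h | h | h | h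
    · linarith [h.1, h.2.1]
    · linarith [h.1, h.2.2.2.1]
    · exact h.2.2.2.2
    · linarith [h.2.1]
  have k9 : -1 ≤ 2 * g₂ 0 := by
    rcases hg₂S with h | h | h | h
    · linarith [h.1, h.2.1]
    · linarith [h.1, h.2.2.2.1]
    · exact h.2.2.2.1
    · linarith [h.2.1]
  have hne : g₁ ≠ g₂ := by
    rintro rfl
    linarith
  have hGe : G = {g₁, g₂} := by
    classical
    refine (Finset.eq_of_subset_of_card_le ?_ ?_).symm
    · intro x hx
      rcases Finset.mem_insert.1 hx with rfl | hx
      · exact hg₁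
      · rw [Finset.mem_singleton] at hx
        rw [hx]
        exact hg₂
    · rw [hG2, Finset.card_pair hne]
  refine ⟨fun j => g₁ j.succ.succ, k2.1, fun w hw => ?_⟩
  have hT : gpt w 1 0 ∈ galSet ex ψ := by
    rw [mem_gal]
    left
    simp only [gpt_zero, gpt_one, gpt_succ]
    exact ⟨trivial, by norm_num, le_rfl, fun h => by norm_num at h, fun _ => hw,
      fun h => by norm_num at h⟩
  obtain ⟨g, hg, hv⟩ := hG _ hT
  rw [seg_iff] at hv
  simp only [gpt_zero, gpt_one, gpt_succ] at hv
  rw [hGe, Finset.mem_insert, Finset.mem_singleton] at hg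
  rcases hg with rfl | rfl
  · -- the first guard
    have h1 := hv (1 / 2) (by norm_num) (by norm_num)
    rw [k2.2] at h1
    have hz : g 1 = 0 := by
      by_contra hc
      have hlt : g 1 < 0 := lt_of_le_of_ne k3 hc
      have := (inG_neg h1 (by linarith)).2.1
      norm_num at this
    rw [hz] at h1
    have h2 : ψ fun j => g j.succ.succ + 1 / 2 * (w j - g j.succ.succ) := by
      rcases h1 with h | h | h | h
      · exact h.2.2.2.2.2 (by norm_num)
      · have := h.2.2.1
        norm_num at this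
      · have := h.2.2.2.2
        norm_num at this
      · have := h.2.1
        norm_num at this
    convert h2 using 2
    ring
  · -- the second guard does not see the point
    exfalso
    rcases lt_or_eq_of_le k8 with hlt | heq
    · have h1 := hv (-(g 0) / 2) (by linarith) (by linarith)
      have h2 := (inG_left h1 (by nlinarith)).2.2.1
      rw [k7] at h2
      nlinarith
    · have h1 := hv (1 / 2) (by norm_num) (by norm_num)
      rw [k7, heq] at h1
      rcases h1 with h | h | h | h
      · have := h.1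
        norm_num at this
      · refine h.2.2.2.2.2 ⟨fun j hj => ?_, by norm_num, by norm_num⟩
        have e1 : w j = 0 := hw j hj
        have e2 : g j.succ.succ = 0 := k5 j hj
        simp only
        rw [e1, e2]
        norm_num
      · have := h.2.2.2.2
        norm_num at this
      · have := h.2.1
        norm_num at this

theorem guard_complete {u : Fin n → ℝ} (hu : W0 ex u)
    (hw : ∀ w, U0 ex w → ψ fun j => (u j + w j) / 2) : Guardable (galSet ex ψ) 2 := by
  classical
  refine ⟨{gpt u 0 0, gpt (fun _ => 0) 0 1}, ?_, ?_, ?_⟩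
  · rw [Finset.card_pair]
    intro h
    have := congrFun h 1
    simp at this
  · intro p hp
    simp only [Finset.coe_insert, Finset.coe_singleton, Set.mem_insert_iff,
      Set.mem_singleton_iff] at hp
    rcases hp with rfl | rfl
    · rw [mem_gal]
      left
      simp only [gpt_zero, gpt_one, gpt_succ]
      exact ⟨trivial, le_rfl, by norm_num, fun _ => hu, fun h => by norm_num at h,
        fun h => by norm_num at h⟩
    · rw [mem_gal]
      right; right; left
      simp only [gpt_zero, gpt_one, gpt_succ]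
      exact ⟨fun _ _ => rfl, fun _ _ => rfl, by norm_num, by norm_num, le_rfl⟩
  · intro p hp
    rw [mem_gal] at hp
    -- the guard `q₂`
    have hq2 : ∀ (_ : ∀ t : ℝ, 0 < t → t ≤ 1 → InG ex ψ (fun j => t * p j.succ.succ)
        (t * p 0) (1 + t * (p 1 - 1))),
        ∃ g ∈ ({gpt u 0 0, gpt (fun _ => 0) 0 1} : Finset (Fin (n + 2) → ℝ)),
          segment ℝ g p ⊆ galSet ex ψ := by
      intro h
      refine ⟨gpt (fun _ => 0) 0 1, by simp, ?_⟩
      rw [seg_iff]
      intro t h0 h1
      simp only [gpt_zero, gpt_one, gpt_succ, sub_zero, zero_add]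
      rcases lt_or_eq_of_le h0 with h0 | h0
      · exact h t h0 h1
      · rw [← h0]
        right; right; left
        exact ⟨fun _ _ => by ring, fun _ _ => by ring, by ring, by norm_num, by norm_num⟩
    have hg1 : ∀ (_ : ∀ t : ℝ, 0 < t → t ≤ 1 → InG ex ψ
        (fun j => u j + t * (p j.succ.succ - u j)) (t * p 0) (t * p 1)),
        ∃ g ∈ ({gpt u 0 0, gpt (fun _ => 0) 0 1} : Finset (Fin (n + 2) → ℝ)),
          segment ℝ g p ⊆ galSet ex ψ := by
      intro h
      refine ⟨gpt u 0 0, by simp, ?_⟩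
      rw [seg_iff]
      intro t h0 h1
      simp only [gpt_zero, gpt_one, gpt_succ, sub_zero, zero_add]
      rcases lt_or_eq_of_le h0 with h0 | h0
      · exact h t h0 h1
      · rw [← h0]
        left
        refine ⟨by ring, by norm_num, by norm_num, fun _ j hj => ?_, fun h => by norm_num at h,
          fun h => by norm_num at h⟩
        simp only
        rw [hu j hj]
        ring
    rcases hp with ⟨hz, hs0, hs1, hW, hU, hψ⟩ | ⟨hs0, hs1, hz0, hz1, hU, hR⟩ |
      ⟨hU, hW, hz, hs1, hs0⟩ | ⟨hW, hs, hz1, hz0, hU⟩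
    · rcases lt_or_eq_of_le hs0 with hs0 | hs0
      · rcases lt_or_eq_of_le hs1 with hs1 | hs1
        · -- seen from `q₂`
          refine hq2 fun t h0 h1 => ?_
          rw [hz]
          rcases lt_or_eq_of_le h1 with h1 | h1
          · right; left
            have : 0 < t * p 0 := mul_pos h0 hs0
            have h2 : t * p 0 < t * 1 := mul_lt_mul_of_pos_left hs1 h0
            exact ⟨this, by linarith, by linarith, by linarith, fun h => by linarith,
              fun h => by linarith [h.2.1]⟩
          · rw [h1]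
            left
            refine ⟨by ring, by linarith, by linarith, fun h => by linarith,
              fun h => by linarith, fun h => ?_⟩
            simp only [one_mul] at h ⊢
            exact hψ h
        · -- the points of `T`
          refine hg1 fun t h0 h1 => ?_
          rw [hz, hs1]
          left
          have hU' := hU hs1
          refine ⟨by ring, by linarith, by linarith, fun h => by linarith, fun h j hj => ?_,
            fun h => ?_⟩
          · have e1 : p j.succ.succ = 0 := hU' j hj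
            simp only
            rw [e1]
            have : t = 1 := by linarith
            rw [this]
            ring
          · have ht : t = 1 / 2 := by linarith
            have := hw _ hU'
            convert this using 2
            rw [ht]
            ring
      · -- the points of `G₀`
        refine hg1 fun t h0 h1 => ?_
        rw [hz, ← hs0]
        left
        have hW' := hW hs0.symm
        refine ⟨by ring, by linarith, by linarith, fun h j hj => ?_, fun h => by linarith,
          fun h => by linarith⟩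
        have e1 : p j.succ.succ = 0 := hW' j hj
        simp only
        rw [e1, hu j hj]
        ring
    · refine hq2 fun t h0 h1 => ?_
      right; left
      have h2 : 0 < t * p 0 := mul_pos h0 hs0
      have h3 : t * p 0 ≤ 1 * 1 := mul_le_mul h1 hs1 hs0.le (by norm_num)
      have h4 : t * (1 - p 1) ≤ 1 * (1 - p 1) := mul_le_mul_of_nonneg_right h1 (by linarith)
      have h5 : 0 ≤ t * (1 - p 1) := mul_nonneg h0.le (by linarith)
      refine ⟨h2, by linarith, by linarith, by linarith, fun h j hj => ?_, fun h => ?_⟩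
      · have h6 : p 0 = 1 := by
          by_contra hc
          have h7 : p 0 < 1 := lt_of_le_of_ne hs1 hc
          have h8 : t * p 0 < t * 1 := mul_lt_mul_of_pos_left h7 h0
          linarith
        have e1 : p j.succ.succ = 0 := hU h6 j hj
        simp only
        rw [e1, mul_zero]
      · obtain ⟨h6, h7, h8⟩ := h
        have h9 : t * (p 0 + p 1 - 1) = 0 := by linear_combination h7
        have h10 := (mul_eq_zero.1 h9).resolve_left h0.ne'
        refine hR ⟨fun j hj => ?_, by linarith, by linarith⟩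
        exact (mul_eq_zero.1 (h6 j hj)).resolve_left h0.ne'
    · refine hq2 fun t h0 h1 => ?_
      right; right; left
      rw [hz]
      refine ⟨fun j hj => ?_, fun j hj => ?_, by ring, by nlinarith, by nlinarith⟩
      · have e1 : p j.succ.succ = 0 := hU j hj
        simp only
        rw [e1, mul_zero]
      · have e1 : p j.succ.succ = 0 := hW j hj
        simp only
        rw [e1, mul_zero]
    · refine hg1 fun t h0 h1 => ?_
      right; right; right
      rw [hs]
      refine ⟨fun j hj => ?_, by ring, by nlinarith, by nlinarith, fun h j hj => ?_⟩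
      · have e1 : p j.succ.succ = 0 := hW j hj
        simp only
        rw [e1, hu j hj]
        ring
      · have h2 : t = 1 := by
          by_contra hc
          have h3 : t < 1 := lt_of_le_of_ne h1 hc
          nlinarith
        have h4 : p 1 = -1 := by rw [h2] at h; linarith
        have e1 : p j.succ.succ = 0 := hU h4 j hj
        simp only
        rw [h2, e1]
        ring

/-- The gallery can be guarded by two points if and only if the sentence is true. -/
theorem guardable_iff : Guardable (galSet ex ψ) 2 ↔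
    ∃ u : Fin n → ℝ, W0 ex u ∧ ∀ w, U0 ex w → ψ fun j => u j + w j := by
  constructor
  · intro h
    obtain ⟨u, h1, h2⟩ := guard_sound h
    refine ⟨fun j => u j / 2, fun j hj => by simp only; rw [h1 j hj, zero_div], fun w hw => ?_⟩
    have := h2 (fun j => 2 * w j) fun j hj => by simp only; rw [hw j hj, mul_zero]
    convert this using 2
    ring
  · rintro ⟨u, h1, h2⟩
    refine guard_complete (u := fun j => 2 * u j)
      (fun j hj => by simp only; rw [h1 j hj, mul_zero]) fun w hw => ?_
    have := h2 (fun j => w j / 2) fun j hj => by simp only; rw [hw j hj, zero_div]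
    convert this using 2
    ring

end

end Pool.Agent.NPC.H612
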