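import Pool.Agent.H612.GalGeo
import Pool.Agent.H612.ClosedHard

/-!
# The art gallery problem for semialgebraic galleries is `∃∀ℝ`-hard for two guards
-/

namespace Pool.Agent.NPC.H612

open Pool.Agent.NPC.ER

/-- The true formula. -/
def qtt : QF := QF.eqZ []

/-- Conjunction of a list. -/
def qall (l : List QF) : QF := qconj l qtt

theorem val_qall (e : PolyData → ℝ) (he : e [] = 0) (l : List QF) :
    (qall l).Val e ↔ ∀ φ ∈ l, φ.Val e := by
  unfold qall qconj
  induction l with
  | nil => simp [qtt, QF.Val, he]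
  | cons a l ih =>
    change (a.Val e ∧ (List.foldr QF.and qtt l).Val e) ↔ _
    rw [ih]
    simp

theorem wval_nil (x : ℕ → ℝ) : wval x [] = 0 := by simp [wval]

/-- Implication. -/
def qimp (a b : QF) : QF := QF.or (QF.not a) b

theorem val_qimp (e : PolyData → ℝ) (a b : QF) : (qimp a b).Val e ↔ (a.Val e → b.Val e) := by
  unfold qimp
  rw [QF.Val, QF.Val, imp_iff_not_or]

/-- The existential names of the system. -/
def isE (E : List ℕ) (w : ℕ) : Bool := decide (w % 2 = 0) && decide (w / 2 ∈ E)

/-- The polynomial of a constraint. -/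
def cw (V : List ℕ) : Con → List (ℤ × List ℕ)
  | .one i => [(1, [V.idxOf i + 2]), (-1, [])]
  | .add i j k => [(1, [V.idxOf i + 2]), (1, [V.idxOf j + 2]), (-1, [V.idxOf k + 2])]
  | .mul i j k => [(1, [V.idxOf i + 2, V.idxOf j + 2]), (-1, [V.idxOf k + 2])]

theorem wval_cw (V : List ℕ) (x : ℕ → ℝ) (c : Con) :
    wval x (cw V c) = 0 ↔ c.Holds fun w => x (V.idxOf w + 2) := by
  cases c with
  | one i =>
    simp [cw, wval, Con.Holds]
    constructor
    · intro h; linarith
    · intro h; linarith
  | add i j k =>
    simp [cw, wval, Con.Holds]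
    constructor
    · intro h; linarith
    · intro h; linarith
  | mul i j k =>
    simp [cw, wval, Con.Holds]
    constructor
    · intro h; linarith
    · intro h; linarith

/-- `q = 0` on the existential (`b = true`) or universal (`b = false`) coordinates. -/
def qU (E V : List ℕ) (b : Bool) : QF :=
  qall ((List.range V.length).map fun j =>
    if isE E (V.getD j 0) = b then QF.eqZ [(1, [j + 2])] else qtt)

/-- The wall. -/
def qPsi (V : List ℕ) (S : List Con) : QF :=
  QF.not (qall (S.map fun c => QF.eqZ (cw V c)))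

/-- The first part. -/
def qA (E V : List ℕ) (S : List Con) : QF :=
  qall [QF.eqZ [(1, [1])], QF.geZ [(1, [0])], QF.geZ [(1, []), (-1, [0])],
    qimp (QF.eqZ [(1, [0])]) (qU E V false), qimp (QF.eqZ [(1, [0]), (-1, [])]) (qU E V true),
    qimp (QF.eqZ [(2, [0]), (-1, [])]) (qPsi V S)]

/-- The second part. -/
def qB (E V : List ℕ) : QF :=
  qall [QF.gtZ [(1, [0])], QF.geZ [(1, []), (-1, [0])], QF.gtZ [(1, [1])],
    QF.geZ [(1, []), (-1, [1])], qimp (QF.eqZ [(1, [0]), (-1, [])]) (qU E V true),
    QF.not (qall [qU E V true, QF.eqZ [(1, [0]), (1, [1]), (-1, [])],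
      QF.geZ [(1, []), (-2, [1])]])]

/-- The antenna. -/
def qC (E V : List ℕ) : QF :=
  qall [qU E V true, qU E V false, QF.eqZ [(1, [1]), (-1, []), (-1, [0])],
    QF.geZ [(2, [0]), (1, [])], QF.geZ [(-1, [0])]]

/-- The first room. -/
def qD (E V : List ℕ) : QF :=
  qall [qU E V false, QF.eqZ [(1, [0])], QF.geZ [(1, [1]), (1, [])], QF.gtZ [(-1, [1])],
    qimp (QF.eqZ [(1, [1]), (1, [])]) (qU E V true)]

/-- The formula of the gallery. -/
def galQF (E : List ℕ) (S : List Con) : QF :=
  QF.or (qA E (varsOf S) S) (QF.or (qB E (varsOf S)) (QF.or (qC E (varsOf S))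
    (qD E (varsOf S))))

theorem xt_zero' {n : ℕ} (p : Fin (n + 2) → ℝ) : xt p 0 = p 0 := xt_fin p 0

theorem xt_one' {n : ℕ} (p : Fin (n + 2) → ℝ) : xt p 1 = p 1 := xt_fin p 1

theorem xt_add_two {n : ℕ} (p : Fin (n + 2) → ℝ) (j : ℕ) :
    xt p (j + 2) = xt (fun j : Fin n => p j.succ.succ) j := by
  unfold xt
  by_cases h : j < n
  · rw [dif_pos (by omega), dif_pos h]
    rfl
  · rw [dif_neg (by omega), dif_neg h]

section

variable (E V : List ℕ) (S : List Con) (p : Fin (V.length + 2) → ℝ)

theorem val_qU (b : Bool) : (qU E V b).Val (wval (xt p)) ↔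
    ∀ j : Fin V.length, isE E (V.getD j 0) = b → p j.succ.succ = 0 := by
  unfold qU
  rw [val_qall _ (wval_nil _)]
  simp only [List.mem_map, List.mem_range, forall_exists_index, and_imp,
    forall_apply_eq_imp_iff₂]
  constructor
  · intro h j hj
    have := h j j.2
    rw [if_pos hj] at this
    simp only [QF.Val, wval, List.map_cons, List.map_nil, List.prod_cons, List.prod_nil,
      List.sum_cons, List.sum_nil, xt_add_two, xt_fin] at this
    push_cast at this
    linarith
  · intro h j hj
    split_ifs with hb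
    · have := h ⟨j, hj⟩ hb
      simp only [QF.Val, wval, List.map_cons, List.map_nil, List.prod_cons, List.prod_nil,
        List.sum_cons, List.sum_nil, xt_add_two]
      have e : xt (fun j : Fin V.length => p j.succ.succ) j = p (Fin.succ (Fin.succ ⟨j, hj⟩)) :=
        xt_fin (fun j : Fin V.length => p j.succ.succ) ⟨j, hj⟩
      rw [e, this]
      simp
    · simp [qtt, QF.Val, wval_nil]

/-- The class of a coordinate. -/
def exC (j : Fin V.length) : Prop := isE E (V.getD j 0) = true

/-- The wall condition. -/
def psiC (q : Fin V.length → ℝ) : Prop := ¬ SysHolds (fun w => xt q (V.idxOf w)) S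

theorem val_qPsi : (qPsi V S).Val (wval (xt p)) ↔ psiC V S fun j => p j.succ.succ := by
  unfold qPsi psiC
  rw [QF.Val, val_qall _ (wval_nil _)]
  simp only [List.mem_map, forall_exists_index, and_imp, forall_apply_eq_imp_iff₂]
  apply not_congr
  unfold SysHolds
  refine forall₂_congr fun c _ => ?_
  rw [QF.Val, wval_cw]
  simp only [xt_add_two]

theorem val_qU_true : (qU E V true).Val (wval (xt p)) ↔
    U0 (exC E V) fun j => p j.succ.succ := val_qU E V p true

theorem val_qU_false : (qU E V false).Val (wval (xt p)) ↔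
    W0 (exC E V) fun j => p j.succ.succ := by
  rw [val_qU]
  unfold W0 exC
  simp only [Bool.not_eq_true]

end

theorem val_galQF (E : List ℕ) (S : List Con) (p : Fin ((varsOf S).length + 2) → ℝ) :
    (galQF E S).Val (wval (xt p)) ↔ InG (exC E (varsOf S)) (psiC (varsOf S) S)
      (fun j => p j.succ.succ) (p 0) (p 1) := by
  unfold galQF InG
  simp only [QF.Val]
  refine or_congr ?_ (or_congr ?_ (or_congr ?_ ?_))
  · unfold qA
    rw [val_qall _ (wval_nil _)]
    simp only [List.mem_cons, List.not_mem_nil, or_false, forall_eq_or_imp, forall_eq, val_qimp,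
      val_qU_true, val_qU_false, val_qPsi]
    refine and_congr ?_ (and_congr ?_ (and_congr ?_ (and_congr (imp_congr ?_ Iff.rfl)
      (and_congr (imp_congr ?_ Iff.rfl) (imp_congr ?_ Iff.rfl)))))
    all_goals
      simp only [QF.Val, wval, List.map_cons, List.map_nil, List.prod_cons, List.prod_nil,
        List.sum_cons, List.sum_nil, xt_zero', xt_one']
      push_cast
      constructor
      · intro h; linarith
      · intro h; linarith
  · unfold qB
    rw [val_qall _ (wval_nil _)]
    simp only [List.mem_cons, List.not_mem_nil, or_false, forall_eq_or_imp, forall_eq, val_qimp,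
      val_qU_true]
    refine and_congr ?_ (and_congr ?_ (and_congr ?_ (and_congr ?_
      (and_congr (imp_congr ?_ Iff.rfl) ?_))))
    on_goal 6 =>
      rw [QF.Val, val_qall _ (wval_nil _)]
      simp only [List.mem_cons, List.not_mem_nil, or_false, forall_eq_or_imp, forall_eq,
        val_qU_true]
      refine not_congr (and_congr Iff.rfl (and_congr ?_ ?_))
    all_goals
      simp only [QF.Val, wval, List.map_cons, List.map_nil, List.prod_cons, List.prod_nil,
        List.sum_cons, List.sum_nil, xt_zero', xt_one']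
      push_cast
      constructor
      · intro h; linarith
      · intro h; linarith
  · unfold qC
    rw [val_qall _ (wval_nil _)]
    simp only [List.mem_cons, List.not_mem_nil, or_false, forall_eq_or_imp, forall_eq,
      val_qU_true, val_qU_false]
    refine and_congr Iff.rfl (and_congr Iff.rfl (and_congr ?_ (and_congr ?_ ?_)))
    all_goals
      simp only [QF.Val, wval, List.map_cons, List.map_nil, List.prod_cons, List.prod_nil,
        List.sum_cons, List.sum_nil, xt_zero', xt_one']
      push_cast
      constructor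
      · intro h; linarith
      · intro h; linarith
  · unfold qD
    rw [val_qall _ (wval_nil _)]
    simp only [List.mem_cons, List.not_mem_nil, or_false, forall_eq_or_imp, forall_eq, val_qimp,
      val_qU_true, val_qU_false]
    refine and_congr Iff.rfl (and_congr ?_ (and_congr ?_ (and_congr ?_
      (imp_congr ?_ Iff.rfl))))
    all_goals
      simp only [QF.Val, wval, List.map_cons, List.map_nil, List.prod_cons, List.prod_nil,
        List.sum_cons, List.sum_nil, xt_zero', xt_one']
      push_cast
      constructor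
      · intro h; linarith
      · intro h; linarith

theorem gallery_galQF (E : List ℕ) (S : List Con) :
    gallery ((varsOf S).length + 2) (galQF E S) = galSet (exC E (varsOf S)) (psiC (varsOf S) S) := by
  ext p
  exact val_galQF E S p

/-- The truth of the sentence in terms of points. -/
theorem ear_iff_pts (E : List ℕ) (S : List Con) :
    (∃ x : ℕ → ℝ, ∀ v : ℕ → ℝ, (∀ i ∈ E, v (2 * i) = x i) → ¬ SysHolds v S) ↔
    ∃ u, W0 (exC E (varsOf S)) u ∧ ∀ w, U0 (exC E (varsOf S)) w →
      psiC (varsOf S) S fun j => u j + w j := by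
  set V := varsOf S with hV
  have gd : ∀ w ∈ V, V.getD (V.idxOf w) 0 = w := by
    intro w hw
    have hlt := List.idxOf_lt_length_iff.2 hw
    rw [List.getD_eq_getElem?_getD, List.getElem?_eq_getElem hlt]
    simp
  have sv : ∀ (v v' : ℕ → ℝ), (∀ w ∈ V, v w = v' w) → SysHolds v S → SysHolds v' S := by
    intro v v' h hs c hc
    refine (Con.holds_congr fun i hi => ?_).1 (hs c hc)
    exact h i (List.mem_flatMap.2 ⟨c, hc, hi⟩)
  have xf : ∀ (q : Fin V.length → ℝ) w (hw : w ∈ V), xt q (V.idxOf w) =
      q ⟨V.idxOf w, List.idxOf_lt_length_iff.2 hw⟩ := fun q w hw =>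
    xt_fin q ⟨V.idxOf w, List.idxOf_lt_length_iff.2 hw⟩
  constructor
  · rintro ⟨x, h⟩
    classical
    refine ⟨fun j => if exC E V j then x (V.getD j 0 / 2) else 0, fun j hj => if_neg hj,
      fun w hw hs => ?_⟩
    let v : ℕ → ℝ := fun a => if a ∈ V then xt (fun j => (if exC E V j then x (V.getD j 0 / 2)
      else 0) + w j) (V.idxOf a) else x (a / 2)
    refine h v (fun i hi => ?_) (sv _ v (fun a ha => ?_) hs)
    · simp only [v]
      split_ifs with h1
      · rw [xf _ _ h1]
        have h2 : exC E V ⟨V.idxOf (2 * i), List.idxOf_lt_length_iff.2 h1⟩ := by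
          unfold exC isE
          rw [gd _ h1]
          simp [hi]
        rw [if_pos h2, hw _ h2, add_zero]
        simp only
        rw [gd _ h1]
        congr 1
        omega
      · congr 1
        omega
    · simp only [v]
      rw [if_pos ha]
  · rintro ⟨u, hu, h⟩
    classical
    refine ⟨fun i => xt u (V.idxOf (2 * i)), fun v hv hs => ?_⟩
    refine h (fun j => if exC E V j then 0 else v (V.getD j 0)) (fun j hj => if_pos hj) ?_
    refine sv v _ (fun a ha => ?_) hs
    rw [xf _ _ ha]
    by_cases h2 : exC E V ⟨V.idxOf a, List.idxOf_lt_length_iff.2 ha⟩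
    · rw [if_pos h2, add_zero]
      unfold exC isE at h2
      simp only at h2
      rw [gd a ha, Bool.and_eq_true, decide_eq_true_eq, decide_eq_true_eq] at h2
      have h3 := hv _ h2.2
      have h4 : 2 * (a / 2) = a := by omega
      simp only [h4] at h3
      rw [h3, xf _ _ ha]
    · rw [if_neg h2, hu _ h2, zero_add]
      simp only
      rw [gd a ha]

/-- The reduction. -/
def galInst (p : List ℕ × Fm) : List Unit × List Unit × QF :=
  let S := sysOf (Fm.not p.2)
  (List.replicate ((varsOf S).length + 2) (), [(), ()], galQF p.1 S)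

theorem artGallery_of_length {du ku : List Unit} {φ : QF} {n k : ℕ} (h1 : du.length = n)
    (h2 : ku.length = k) : ArtGallery (du, ku, φ) ↔ Guardable (gallery n φ) k := by
  subst h1
  subst h2
  rfl

theorem galInst_iff (p : List ℕ × Fm) : EAR p ↔ ArtGallery (galInst p) := by
  rw [ear_iff_sys, ear_iff_pts, ← guardable_iff]
  unfold galInst
  simp only
  rw [artGallery_of_length List.length_replicate (k := 2) rfl, gallery_galQF]

section

variable {α : Type} [TEnc α]

theorem poly_geZ {p : α → PolyData} (hp : Poly p) : Poly (fun a => QF.geZ (p a)) :=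
  poly_qf_of_toks (Poly.cons (poly_qtok_of_code (Poly.pair (Poly.const 2) hp)) (Poly.const []))

theorem poly_qor {a b : α → QF} (ha : Poly a) (hb : Poly b) :
    Poly (fun x => QF.or (a x) (b x)) :=
  poly_qf_of_toks (Poly.append (Poly.append (poly_qtoks ha) (poly_qtoks hb)) (Poly.const _))

theorem poly_qnot {a : α → QF} (ha : Poly a) : Poly (fun x => QF.not (a x)) :=
  poly_qf_of_toks (Poly.append (poly_qtoks ha) (Poly.const _))

theorem poly_qall {l : α → List QF} (hl : Poly l) : Poly (fun a => qall (l a)) :=
  poly_qconj hl (Poly.const _)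

theorem poly_qimp {a b : α → QF} (ha : Poly a) (hb : Poly b) : Poly (fun x => qimp (a x) (b x)) :=
  poly_qor (poly_qnot ha) hb

theorem poly_isE {E : α → List ℕ} {w : α → ℕ} (hE : Poly E) (hw : Poly w) :
    Poly (fun a => isE (E a) (w a)) :=
  Poly.and (Poly.decide_eq (Poly.mod hw (Poly.const 2)) (Poly.const 0))
    (Poly.decide_mem (Poly.div hw (Poly.const 2)) hE)

theorem cw_eq (V : List ℕ) (c : Con) : cw V c =
    if c.code.1 = 0 then [(1, [V.idxOf c.code.2.1 + 2]), (-1, [])]
    else if c.code.1 = 1 then [(1, [V.idxOf c.code.2.1 + 2]), (1, [V.idxOf c.code.2.2.1 + 2]),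
      (-1, [V.idxOf c.code.2.2.2 + 2])]
    else [(1, [V.idxOf c.code.2.1 + 2, V.idxOf c.code.2.2.1 + 2]),
      (-1, [V.idxOf c.code.2.2.2 + 2])] := by
  cases c <;> rfl

theorem poly_cw {V : α → List ℕ} {c : α → Con} (hV : Poly V) (hc : Poly c) :
    Poly (fun a => cw (V a) (c a)) := by
  simp only [cw_eq]
  have h0 := poly_con_code hc
  have i1 := Poly.add (poly_idxOf hV (Poly.fst (Poly.snd h0))) (Poly.const 2)
  have i2 := Poly.add (poly_idxOf hV (Poly.fst (Poly.snd (Poly.snd h0)))) (Poly.const 2)
  have i3 := Poly.add (poly_idxOf hV (Poly.snd (Poly.snd (Poly.snd h0)))) (Poly.const 2)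
  have l1 := Poly.cons i1 (Poly.const [])
  have l2 := Poly.cons i2 (Poly.const [])
  have l3 := Poly.cons i3 (Poly.const [])
  refine Poly.ite (Poly.decide_eq (Poly.fst h0) (Poly.const 0))
    (Poly.cons (Poly.pair (Poly.const _) l1) (Poly.const _))
    (Poly.ite (Poly.decide_eq (Poly.fst h0) (Poly.const 1))
      (Poly.cons (Poly.pair (Poly.const _) l1) (Poly.cons (Poly.pair (Poly.const _) l2)
        (Poly.cons (Poly.pair (Poly.const _) l3) (Poly.const []))))
      (Poly.cons (Poly.pair (Poly.const _) (Poly.cons i1 l2))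
        (Poly.cons (Poly.pair (Poly.const _) l3) (Poly.const []))))

theorem poly_qU {E V : α → List ℕ} (hE : Poly E) (hV : Poly V) (b : Bool) :
    Poly (fun a => qU (E a) (V a) b) := by
  unfold qU
  refine poly_qall (Poly.map (F := fun a j =>
    if isE (E a) ((V a).getD j 0) = b then QF.eqZ [(1, [j + 2])] else qtt)
    (UPoly.length hV).range ?_)
  refine Poly.ite (Poly.decide_eq (poly_isE (hE.comp (Poly.fst Poly.id))
    (Poly.getD (hV.comp (Poly.fst Poly.id)) (Poly.snd Poly.id) (Poly.const 0))) (Poly.const b))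
    (poly_eqZ (Poly.cons (Poly.pair (Poly.const 1) (Poly.cons (Poly.add (Poly.snd Poly.id)
      (Poly.const 2)) (Poly.const []))) (Poly.const []))) (Poly.const _)

theorem poly_qPsi {V : α → List ℕ} {S : α → List Con} (hV : Poly V) (hS : Poly S) :
    Poly (fun a => qPsi (V a) (S a)) := by
  unfold qPsi
  exact poly_qnot (poly_qall (Poly.map (F := fun a c => QF.eqZ (cw (V a) c)) hS
    (poly_eqZ (poly_cw (hV.comp (Poly.fst Poly.id)) (Poly.snd Poly.id)))))

theorem poly_galQF {E : α → List ℕ} {S : α → List Con} (hE : Poly E) (hS : Poly S) :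
    Poly (fun a => galQF (E a) (S a)) := by
  have hV : Poly (fun a => varsOf (S a)) := poly_varsOf hS
  have hU := poly_qU hE hV
  have c := fun q : QF => Poly.const (α := α) q
  unfold galQF qA qB qC qD
  refine poly_qor (poly_qall ?_) (poly_qor (poly_qall ?_) (poly_qor (poly_qall ?_)
    (poly_qall ?_)))
  · exact Poly.cons (c _) (Poly.cons (c _) (Poly.cons (c _) (Poly.cons
      (poly_qimp (c _) (hU false)) (Poly.cons (poly_qimp (c _) (hU true))
      (Poly.cons (poly_qimp (c _) (poly_qPsi hV hS)) (Poly.const []))))))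
  · exact Poly.cons (c _) (Poly.cons (c _) (Poly.cons (c _) (Poly.cons (c _)
      (Poly.cons (poly_qimp (c _) (hU true)) (Poly.cons (poly_qnot (poly_qall
        (Poly.cons (hU true) (Poly.cons (c _) (Poly.cons (c _) (Poly.const [])))))) 
        (Poly.const []))))))
  · exact Poly.cons (hU true) (Poly.cons (hU false) (Poly.cons (c _) (Poly.cons (c _)
      (Poly.cons (c _) (Poly.const [])))))
  · exact Poly.cons (hU false) (Poly.cons (c _) (Poly.cons (c _) (Poly.cons (c _)
      (Poly.cons (poly_qimp (c _) (hU true)) (Poly.const [])))))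

end

theorem poly_galInst : Poly galInst := by
  unfold galInst
  have hS : Poly (fun p : List ℕ × Fm => sysOf (Fm.not p.2)) :=
    poly_sysOf (poly_fnot (Poly.snd Poly.id))
  have hV : Poly (fun p : List ℕ × Fm => varsOf (sysOf (Fm.not p.2))) := poly_varsOf hS
  refine Poly.pair ?_ (Poly.pair (Poly.const _) (poly_galQF (Poly.fst Poly.id) hS))
  exact UPoly.add (UPoly.length hV) (UPoly.const 2)

/-- The art gallery problem for semialgebraic galleries is `∃∀ℝ`-hard. -/
theorem artGallery_hard : EARHard (lang ArtGallery) :=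
  EARHard.of_poly poly_galInst galInst_iff

/-- The art gallery problem for semialgebraic galleries is `∃∀ℝ`-complete. -/
theorem artGallery_earComplete : EARComplete (lang ArtGallery) :=
  ⟨artGallery_inEAR, artGallery_hard⟩

theorem twoGuards_earComplete : EARComplete (lang TwoGuards) := by
  refine ⟨twoGuards_inEAR, EARHard.of_poly (F := fun p => ((galInst p).1, (galInst p).2.2))
    (Poly.pair (Poly.fst poly_galInst) (Poly.snd (Poly.snd poly_galInst))) fun p => ?_⟩
  rw [galInst_iff]
  exact Iff.rfl

end Pool.Agent.NPC.H612
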