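import Mathlib
import Pool.Agent.H612.Deg

/-! Limits of algebraic functions, penalties, coercivity. -/

namespace Pool.Agent.H612

open Finset Filter Topology

/-- Asymptotics of a polynomial divided by a power. -/
theorem tendsto_eval₂_div {R : Type} [CommRing R] (ψ : R →+* ℝ) (p : Polynomial R) (n : ℕ)
    (h : p.natDegree ≤ n) :
    Tendsto (fun a : ℝ => p.eval₂ ψ a / a ^ n) atTop (𝓝 (ψ (p.coeff n))) := by
  have h1 : ∀ a : ℝ, p.eval₂ ψ a / a ^ n =
      ∑ k ∈ range (n + 1), ψ (p.coeff k) * (a ^ k / a ^ n) := by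
    intro a
    rw [Polynomial.eval₂_eq_sum_range' ψ (Nat.lt_succ_of_le h), Finset.sum_div]
    apply Finset.sum_congr rfl
    intro k _
    rw [mul_div_assoc]
  simp_rw [h1]
  have h2 : ∀ k ∈ range (n + 1), Tendsto (fun a : ℝ => ψ (p.coeff k) * (a ^ k / a ^ n)) atTop
      (𝓝 (if k = n then ψ (p.coeff n) else 0)) := by
    intro k hk
    rw [mem_range] at hk
    by_cases hkn : k = n
    · subst hkn
      simp only [if_true]
      have : Tendsto (fun _ : ℝ => ψ (p.coeff k)) atTop (𝓝 (ψ (p.coeff k))) := tendsto_const_nhds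
      refine this.congr' ?_
      filter_upwards [eventually_gt_atTop (0:ℝ)] with a ha
      rw [div_self (by positivity), mul_one]
    · simp only [hkn, if_false]
      have hlt : k < n := by omega
      have h3 : Tendsto (fun a : ℝ => a ^ k / a ^ n) atTop (𝓝 0) := by
        have h4 : Tendsto (fun a : ℝ => (a ^ (n - k))⁻¹) atTop (𝓝 0) :=
          (tendsto_pow_atTop (by omega)).inv_tendsto_atTop
        refine h4.congr' ?_
        filter_upwards [eventually_gt_atTop (0:ℝ)] with a ha
        have : a ^ n = a ^ k * a ^ (n - k) := by rw [← pow_add]; congr 1; omega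
        rw [this]
        field_simp
      have := h3.const_mul (ψ (p.coeff k))
      rwa [mul_zero] at this
  have h5 := tendsto_finsetSum (range (n + 1)) h2
  simpa using h5

/-- Taking the limit of an algebraic function: the limit is again a root of a nonzero polynomial
whose coefficients are among the given ones. -/
theorem limit_step {R : Type} [CommRing R] (nr : RNorm R) (χ : Polynomial (Polynomial R))
    (hχ : χ ≠ 0) :
    ∃ χ' : Polynomial R, χ' ≠ 0 ∧ nr.poly.ν χ' ≤ nr.poly.poly.ν χ ∧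
      ∀ (ψ : R →+* ℝ) (f : ℝ → ℝ) (L : ℝ), Tendsto f atTop (𝓝 L) →
        (∀ᶠ a in atTop, χ.eval₂ (Polynomial.eval₂RingHom ψ a) (f a) = 0) →
        χ'.eval₂ ψ L = 0 := by
  classical
  set n : ℕ := χ.support.sup (fun j => (χ.coeff j).natDegree) with hn
  have hle : ∀ j, (χ.coeff j).natDegree ≤ n := by
    intro j
    by_cases hj : j ∈ χ.support
    · exact Finset.le_sup (f := fun j => (χ.coeff j).natDegree) hj
    · rw [Polynomial.notMem_support_iff.mp hj]; simp
  set χ' : Polynomial R := ∑ j ∈ χ.support, Polynomial.monomial j ((χ.coeff j).coeff n) with hχ'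
  have hcoeff : ∀ j, χ'.coeff j = (χ.coeff j).coeff n := by
    intro j
    rw [hχ', Polynomial.finsetSum_coeff]
    simp only [Polynomial.coeff_monomial]
    rw [Finset.sum_ite_eq']
    split_ifs with h
    · rfl
    · rw [Polynomial.notMem_support_iff.mp h]; simp
  refine ⟨χ', ?_, ?_, ?_⟩
  · intro h0
    have hne : χ.support.Nonempty := Polynomial.support_nonempty.mpr hχ
    obtain ⟨j, hj, hjn⟩ := Finset.exists_mem_eq_sup χ.support hne
      (fun j => (χ.coeff j).natDegree)
    have h1 : χ'.coeff j = 0 := by rw [h0]; simp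
    rw [hcoeff, hn, hjn] at h1
    have h2 : (χ.coeff j).leadingCoeff = 0 := h1
    rw [Polynomial.leadingCoeff_eq_zero] at h2
    exact (Polynomial.mem_support_iff.mp hj) h2
  · refine (nr.poly.sum _ _).trans ?_
    rw [RNorm.poly_ν nr.poly, RNorm.pν]
    apply Finset.sum_le_sum
    intro j _
    rw [nr.poly_ν, nr.pν_monomial]
    exact nr.ν_coeff_le _ _
  · intro ψ f L hf hev
    have h1 : Tendsto (fun a : ℝ => ∑ j ∈ χ.support, ((χ.coeff j).eval₂ ψ a / a ^ n) * (f a) ^ j)
        atTop (𝓝 (∑ j ∈ χ.support, ψ ((χ.coeff j).coeff n) * L ^ j)) := by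
      apply tendsto_finsetSum
      intro j _
      exact (tendsto_eval₂_div ψ _ n (hle j)).mul (hf.pow j)
    have h2 : Tendsto (fun a : ℝ => ∑ j ∈ χ.support, ((χ.coeff j).eval₂ ψ a / a ^ n) * (f a) ^ j)
        atTop (𝓝 0) := by
      refine (tendsto_const_nhds (x := (0:ℝ))).congr' ?_
      filter_upwards [hev] with a ha
      rw [Polynomial.eval₂_eq_sum, Polynomial.sum_def] at ha
      simp only [Polynomial.coe_eval₂RingHom] at ha
      have h3 : ∑ j ∈ χ.support, ((χ.coeff j).eval₂ ψ a / a ^ n) * (f a) ^ j =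
          (∑ j ∈ χ.support, (χ.coeff j).eval₂ ψ a * (f a) ^ j) / a ^ n := by
        rw [Finset.sum_div]
        apply Finset.sum_congr rfl
        intro j _
        ring
      rw [h3, ha, zero_div]
    have h4 := tendsto_nhds_unique h1 h2
    rw [Polynomial.eval₂_eq_sum, Polynomial.sum_def]
    rw [← h4]
    have hsub : χ'.support ⊆ χ.support := by
      intro j hj
      rw [Polynomial.mem_support_iff, hcoeff] at hj
      rw [Polynomial.mem_support_iff]
      intro h; rw [h] at hj; simp at hj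
    rw [Finset.sum_subset hsub]
    · apply Finset.sum_congr rfl
      intro j _
      rw [hcoeff]
    · intro j _ hj
      rw [Polynomial.notMem_support_iff.mp hj]; simp

section analysis

variable {N : ℕ}

/-- The sextic. -/
def S6 (z : Fin N → ℝ) : ℝ := ∑ i, z i ^ 6

theorem S6_nonneg (z : Fin N → ℝ) : 0 ≤ S6 z :=
  Finset.sum_nonneg (fun i _ => by positivity)

theorem S6_cont : Continuous (S6 : (Fin N → ℝ) → ℝ) := by
  unfold S6; fun_prop

theorem norm_pow_le_S6 (z : Fin N → ℝ) : ‖z‖ ^ 6 ≤ S6 z := by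
  have h0 : 0 ≤ S6 z := S6_nonneg z
  set r : ℝ := (S6 z) ^ ((1:ℝ) / 6) with hr
  have hr0 : 0 ≤ r := Real.rpow_nonneg h0 _
  have hr6 : r ^ 6 = S6 z := by
    rw [hr, ← Real.rpow_natCast, ← Real.rpow_mul h0]; norm_num
  have h1 : ‖z‖ ≤ r := by
    rw [pi_norm_le_iff_of_nonneg hr0]
    intro i
    have h2 : ‖z i‖ ^ 6 ≤ r ^ 6 := by
      rw [hr6]
      have h3 : ‖z i‖ ^ 6 = z i ^ 6 := by
        rw [Real.norm_eq_abs]
        exact Even.pow_abs ⟨3, rfl⟩ (z i)
      rw [h3]
      exact Finset.single_le_sum (f := fun i => z i ^ 6) (fun j _ => by positivity) (mem_univ i)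
    exact le_of_pow_le_pow_left₀ (by norm_num) hr0 h2
  calc ‖z‖ ^ 6 ≤ r ^ 6 := pow_le_pow_left₀ (norm_nonneg _) h1 6
    _ = S6 z := hr6

/-- Quartic growth of the evaluation of a polynomial of degree at most 4. -/
theorem eval₂_quartic {R : Type} [CommRing R] (φ : R →+* ℝ) (p : MvPolynomial (Fin N) R)
    (hp : DegLE p 4) : ∃ c : ℝ, 0 ≤ c ∧ ∀ z : Fin N → ℝ, |p.eval₂ φ z| ≤ c * (1 + ‖z‖) ^ 4 := by
  refine ⟨∑ d ∈ p.support, |φ (p.coeff d)|, Finset.sum_nonneg (fun _ _ => abs_nonneg _), ?_⟩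
  intro z
  rw [MvPolynomial.eval₂_eq', Finset.sum_mul]
  refine (Finset.abs_sum_le_sum_abs _ _).trans ?_
  apply Finset.sum_le_sum
  intro d hd
  rw [abs_mul]
  apply mul_le_mul_of_nonneg_left _ (abs_nonneg _)
  rw [Finset.abs_prod]
  have h1 : ∀ i, |z i ^ d i| ≤ (1 + ‖z‖) ^ d i := by
    intro i
    rw [abs_pow]
    apply pow_le_pow_left₀ (abs_nonneg _)
    have : |z i| ≤ ‖z‖ := by
      rw [← Real.norm_eq_abs]; exact norm_le_pi_norm z i
    linarith
  calc ∏ i, |z i ^ d i| ≤ ∏ i, (1 + ‖z‖) ^ d i :=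
        Finset.prod_le_prod (fun i _ => abs_nonneg _) (fun i _ => h1 i)
    _ = (1 + ‖z‖) ^ (∑ i, d i) := by rw [Finset.prod_pow_eq_pow_sum]
    _ ≤ (1 + ‖z‖) ^ 4 := pow_le_pow_right₀ (by linarith [norm_nonneg z]) (hp d hd)

theorem eval₂_cont {R : Type} [CommRing R] (φ : R →+* ℝ) (p : MvPolynomial (Fin N) R) :
    Continuous (fun z : Fin N → ℝ => p.eval₂ φ z) := by
  simp_rw [MvPolynomial.eval₂_eq']
  fun_prop

/-- Coercivity. -/
theorem coercive (w : (Fin N → ℝ) → ℝ) (c : ℝ) (hw : ∀ z, |w z| ≤ c * (1 + ‖z‖) ^ 4)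
    (hc : 0 ≤ c) (e : ℝ) (he : 0 < e) :
    Tendsto (fun z => w z + S6 z / (6 * e)) (cocompact (Fin N → ℝ)) atTop := by
  have h1 : ∀ᶠ x : ℝ in atTop, x ≤ x ^ 6 / (6 * e) - c * (1 + x) ^ 4 := by
    filter_upwards [eventually_ge_atTop (max 1 (6 * e * (16 * c + 1)))] with x hx
    have hx1 : 1 ≤ x := le_trans (le_max_left _ _) hx
    have hx2 : 6 * e * (16 * c + 1) ≤ x := le_trans (le_max_right _ _) hx
    have hx0 : 0 ≤ x := by linarith
    have h2 : (1 + x) ^ 4 ≤ 16 * x ^ 4 := by
      have : (1 + x) ^ 4 ≤ (2 * x) ^ 4 := pow_le_pow_left₀ (by linarith) (by linarith) 4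
      nlinarith [this]
    have h3 : 16 * c + 1 ≤ x ^ 2 / (6 * e) := by
      rw [le_div_iff₀ (by positivity)]
      nlinarith
    have h4 : x ^ 6 / (6 * e) = x ^ 4 * (x ^ 2 / (6 * e)) := by ring
    have h5 : x ^ 4 * (16 * c + 1) ≤ x ^ 6 / (6 * e) := by
      rw [h4]; exact mul_le_mul_of_nonneg_left h3 (by positivity)
    have h6 : c * (1 + x) ^ 4 ≤ c * (16 * x ^ 4) := mul_le_mul_of_nonneg_left h2 hc
    have h7 : x ≤ x ^ 4 := by
      calc x = x ^ 1 := (pow_one x).symm
        _ ≤ x ^ 4 := pow_le_pow_right₀ hx1 (by norm_num)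
    nlinarith
  have h2 : Tendsto (fun z : Fin N → ℝ => ‖z‖) (cocompact _) atTop := tendsto_norm_cocompact_atTop
  have h3 : ∀ᶠ z : Fin N → ℝ in cocompact _, ‖z‖ ≤ w z + S6 z / (6 * e) := by
    filter_upwards [h2.eventually h1] with z hz
    have h4 := norm_pow_le_S6 z
    have h5 : ‖z‖ ^ 6 / (6 * e) ≤ S6 z / (6 * e) := by
      apply div_le_div_of_nonneg_right h4 (by positivity)
    have h6 := (abs_le.mp (hw z)).1
    linarith
  exact tendsto_atTop_mono' _ h3 h2

/-- Penalty method: as the penalty grows the minimum tends to the constrained infimum. -/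
theorem tendsto_penalty (F0 G : (Fin N → ℝ) → ℝ) (hF0 : Continuous F0) (hGc : Continuous G)
    (hG : ∀ z, 0 ≤ G z) (hco : Tendsto F0 (cocompact _) atTop) (m : ℝ)
    (hm : IsGLB (F0 '' {z | G z = 0}) m) (ma : ℝ → ℝ)
    (hma : ∀ a > 0, IsGLB (Set.range (fun z => F0 z + a * G z)) (ma a)) :
    Tendsto ma atTop (𝓝 m) := by
  rw [tendsto_order]
  constructor
  · intro m' hm'
    set ε := (m - m') / 2 with hε
    have hε0 : 0 < ε := by rw [hε]; linarith
    have hcomp : ∃ K : Set (Fin N → ℝ), IsCompact K ∧ {z | F0 z ≤ m - ε} ⊆ K := by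
      have h1 : ∀ᶠ z in cocompact (Fin N → ℝ), m - ε < F0 z := hco.eventually_gt_atTop _
      rw [Filter.Eventually, mem_cocompact] at h1
      obtain ⟨t, ht, hts⟩ := h1
      refine ⟨t, ht, ?_⟩
      intro z hz
      by_contra hzt
      have := hts hzt
      simp only [Set.mem_ofPred_eq] at this hz
      linarith
    obtain ⟨K', hK', hsub⟩ := hcomp
    set K : Set (Fin N → ℝ) := {z | F0 z ≤ m - ε} with hK
    have hKclosed : IsClosed K := isClosed_le hF0 continuous_const
    have hKc : IsCompact K := hK'.of_isClosed_subset hKclosed hsub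
    by_cases hKne : K.Nonempty
    · obtain ⟨z0, hz0, hmin⟩ := hKc.exists_isMinOn hKne hGc.continuousOn
      obtain ⟨z1, hz1, hmin1⟩ := hKc.exists_isMinOn hKne hF0.continuousOn
      have hg0 : 0 < G z0 := by
        rcases (hG z0).lt_or_eq with h | h
        · exact h
        · exfalso
          have h2 : m ≤ F0 z0 := hm.1 ⟨z0, h.symm, rfl⟩
          have h3 : F0 z0 ≤ m - ε := hz0
          linarith
      filter_upwards [eventually_gt_atTop (max 1 ((m - F0 z1) / G z0))] with a ha
      have ha1 : 1 < a := lt_of_le_of_lt (le_max_left _ _) ha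
      have ha2 : (m - F0 z1) / G z0 < a := lt_of_le_of_lt (le_max_right _ _) ha
      have ha3 : m - F0 z1 < a * G z0 := by rwa [div_lt_iff₀ hg0] at ha2
      have hlb : m - ε ≤ ma a := by
        apply (hma a (by linarith)).2
        rintro _ ⟨z, rfl⟩
        by_cases hz : z ∈ K
        · have h4 : G z0 ≤ G z := hmin hz
          have h5 : F0 z1 ≤ F0 z := hmin1 hz
          have h6 : a * G z0 ≤ a * G z := mul_le_mul_of_nonneg_left h4 (by linarith)
          simp only
          linarith
        · have h4 : m - ε < F0 z := not_le.mp hz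
          have h5 : 0 ≤ a * G z := mul_nonneg (by linarith) (hG z)
          simp only
          linarith
      have : m' < m - ε := by rw [hε]; linarith
      linarith
    · filter_upwards [eventually_gt_atTop (1:ℝ)] with a ha1
      have hlb : m - ε ≤ ma a := by
        apply (hma a (by linarith)).2
        rintro _ ⟨z, rfl⟩
        have hz : z ∉ K := fun h => hKne ⟨z, h⟩
        have h4 : m - ε < F0 z := not_le.mp hz
        have h5 : 0 ≤ a * G z := mul_nonneg (by linarith) (hG z)
        simp only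
        linarith
      have : m' < m - ε := by rw [hε]; linarith
      linarith
  · intro m' hm'
    filter_upwards [eventually_gt_atTop (0:ℝ)] with a ha
    have : ma a ≤ m := by
      apply hm.2
      rintro _ ⟨z, hz, rfl⟩
      have := (hma a ha).1 ⟨z, rfl⟩
      simp only at this
      rw [Set.mem_ofPred_eq] at hz
      rw [hz] at this
      linarith
    linarith

/-- Vanishing regularisation. -/
theorem tendsto_reg (w S : (Fin N → ℝ) → ℝ) (hS : ∀ z, 0 ≤ S z) (Z : Set (Fin N → ℝ)) (g : ℝ)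
    (hg : IsGLB (w '' Z) g) (me : ℝ → ℝ) (hZ : Z.Nonempty)
    (hme : ∀ e > 0, IsGLB ((fun z => w z + S z / (6 * e)) '' Z) (me e)) :
    Tendsto me atTop (𝓝 g) := by
  rw [tendsto_order]
  constructor
  · intro m' hm'
    filter_upwards [eventually_gt_atTop (0:ℝ)] with e he
    have : g ≤ me e := by
      apply (hme e he).2
      rintro _ ⟨z, hz, rfl⟩
      have h1 := hg.1 ⟨z, hz, rfl⟩
      have h2 : 0 ≤ S z / (6 * e) := div_nonneg (hS z) (by positivity)
      simp only
      linarith
    linarith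
  · intro m' hm'
    set ε := (m' - g) / 2 with hε
    have hε0 : 0 < ε := by rw [hε]; linarith
    obtain ⟨y, ⟨z, hz, rfl⟩, hy⟩ : ∃ y ∈ w '' Z, y < g + ε := by
      by_contra h
      push Not at h
      have : g + ε ≤ g := hg.2 h
      linarith
    filter_upwards [eventually_gt_atTop (max 1 (S z / (6 * ε)))] with e he
    have he1 : 1 < e := lt_of_le_of_lt (le_max_left _ _) he
    have he2 : S z / (6 * ε) < e := lt_of_le_of_lt (le_max_right _ _) he
    have h1 : me e ≤ w z + S z / (6 * e) := (hme e (by linarith)).1 ⟨z, hz, rfl⟩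
    have h2 : S z / (6 * e) < ε := by
      rw [div_lt_iff₀ (by positivity)] at he2 ⊢
      nlinarith
    have : m' = g + ε + ε := by rw [hε]; ring
    linarith

end analysis

end Pool.Agent.H612
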