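import Mathlib
import Pool.Agent.H612.Limit

/-! The effective bound: infima of polynomial optimisation problems are roots of integer
polynomials of bounded norm. -/

namespace Pool.Agent.H612

open Finset Filter Topology

theorem RNorm.intCast {R : Type} [CommRing R] (nr : RNorm R) (n : ℤ) :
    nr.ν (n : R) ≤ n.natAbs := by
  rcases Int.natAbs_eq n with h | h
  · have h2 : (n : R) = ((n.natAbs : ℕ) : R) := by
      conv_lhs => rw [h]
      simp
    rw [h2]; exact nr.natCast n.natAbs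
  · have h2 : (n : R) = -((n.natAbs : ℕ) : R) := by
      conv_lhs => rw [h]
      simp
    rw [h2]
    exact (nr.neg ((n.natAbs : ℕ) : R)).trans (nr.natCast n.natAbs)

theorem RNorm.mν_map {R : Type} [CommRing R] (nr : RNorm R) {σ : Type} (p : MvPolynomial σ ℤ) :
    nr.mν (MvPolynomial.map (Int.castRingHom R) p) ≤ RNorm.int.mν p := by
  rw [nr.mν_eq_of_subset (MvPolynomial.support_map_subset (Int.castRingHom R) p), RNorm.mν]
  apply Finset.sum_le_sum
  intro d _
  rw [MvPolynomial.coeff_map]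
  exact nr.intCast _

variable {N : ℕ}

/-- real evaluation of an integer polynomial -/
noncomputable def ev (p : MvPolynomial (Fin N) ℤ) (z : Fin N → ℝ) : ℝ :=
  p.eval₂ (Int.castRingHom ℝ) z

section abstractK

variable {K : Type} [CommRing K] (nr : RNorm K) (pM pe pa : K)

/-- The objective with parameters. -/
noncomputable def objU (W0 W1 G : MvPolynomial (Fin N) ℤ) : MvPolynomial (Fin N) K :=
  MvPolynomial.map (Int.castRingHom K) W0 +
    MvPolynomial.C pM * MvPolynomial.map (Int.castRingHom K) W1 +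
    MvPolynomial.C pa * MvPolynomial.map (Int.castRingHom K) G

theorem eval_map_int (φ : K →+* ℝ) (p : MvPolynomial (Fin N) ℤ) (z : Fin N → ℝ) :
    (MvPolynomial.map (Int.castRingHom K) p).eval₂ φ z = ev p z := by
  rw [MvPolynomial.eval₂_map]
  unfold ev
  congr 1
  exact RingHom.ext_int _ _

theorem eval_objU (W0 W1 G : MvPolynomial (Fin N) ℤ) (φ : K →+* ℝ) (z : Fin N → ℝ) :
    (objU pM pa W0 W1 G).eval₂ φ z = ev W0 z + φ pM * ev W1 z + φ pa * ev G z := by
  unfold objU
  simp only [MvPolynomial.eval₂_add, MvPolynomial.eval₂_mul, MvPolynomial.eval₂_C,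
    eval_map_int]

theorem ν_objU (hM : nr.ν pM ≤ 1) (ha : nr.ν pa ≤ 1) (W0 W1 G : MvPolynomial (Fin N) ℤ) :
    nr.mν (objU pM pa W0 W1 G) ≤ RNorm.int.mν W0 + RNorm.int.mν W1 + RNorm.int.mν G := by
  unfold objU
  have h1 := nr.mν_map W0
  have h2 := nr.mν_map W1
  have h3 := nr.mν_map G
  have h4 : nr.mν (MvPolynomial.C pM * MvPolynomial.map (Int.castRingHom K) W1) ≤
      RNorm.int.mν W1 := by
    refine (nr.mν_mul _ _).trans ?_
    rw [nr.mν_C]
    calc nr.ν pM * nr.mν (MvPolynomial.map (Int.castRingHom K) W1) ≤ 1 * RNorm.int.mν W1 :=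
          Nat.mul_le_mul hM h2
      _ = _ := one_mul _
  have h5 : nr.mν (MvPolynomial.C pa * MvPolynomial.map (Int.castRingHom K) G) ≤
      RNorm.int.mν G := by
    refine (nr.mν_mul _ _).trans ?_
    rw [nr.mν_C]
    calc nr.ν pa * nr.mν (MvPolynomial.map (Int.castRingHom K) G) ≤ 1 * RNorm.int.mν G :=
          Nat.mul_le_mul ha h3
      _ = _ := one_mul _
  refine (nr.mν_add _ _).trans ?_
  refine Nat.add_le_add ?_ h5
  refine (nr.mν_add _ _).trans ?_
  exact Nat.add_le_add h1 h4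

theorem deg_objU {W0 W1 G : MvPolynomial (Fin N) ℤ} (h0 : DegLE W0 4) (h1 : DegLE W1 4)
    (h2 : DegLE G 4) : DegLE (objU pM pa W0 W1 G) 4 := by
  unfold objU
  exact ((h0.map _).add ((h1.map _).C_mul _)).add ((h2.map _).C_mul _)

/-- The critical equations' right hand sides. -/
noncomputable def objV (W0 W1 G : MvPolynomial (Fin N) ℤ) (i : Fin N) :
    MvPolynomial (Fin N) K :=
  -(MvPolynomial.C pe * MvPolynomial.pderiv i (objU pM pa W0 W1 G))

/-- Six times the objective value at critical points. -/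
noncomputable def objW (W0 W1 G : MvPolynomial (Fin N) ℤ) : MvPolynomial (Fin N) K :=
  MvPolynomial.C 6 * objU pM pa W0 W1 G -
    ∑ i, MvPolynomial.X i * MvPolynomial.pderiv i (objU pM pa W0 W1 G)

theorem deg_objV {W0 W1 G : MvPolynomial (Fin N) ℤ} (h0 : DegLE W0 4) (h1 : DegLE W1 4)
    (h2 : DegLE G 4) (i : Fin N) : DegLE (objV pM pe pa W0 W1 G i) 4 := by
  unfold objV
  exact (((deg_objU pM pa h0 h1 h2).pderiv i).C_mul _).neg.mono (by norm_num)

theorem deg_objW {W0 W1 G : MvPolynomial (Fin N) ℤ} (h0 : DegLE W0 4) (h1 : DegLE W1 4)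
    (h2 : DegLE G 4) : DegLE (objW pM pa W0 W1 G) 4 := by
  unfold objW
  apply DegLE.sub ((deg_objU pM pa h0 h1 h2).C_mul _)
  apply DegLE.sum
  intro i _
  have := (degLE_X (R := K) i).mul ((deg_objU pM pa h0 h1 h2).pderiv i)
  exact this.mono (by norm_num)

theorem ν_objV (hM : nr.ν pM ≤ 1) (he : nr.ν pe ≤ 1) (ha : nr.ν pa ≤ 1)
    {W0 W1 G : MvPolynomial (Fin N) ℤ} (h0 : DegLE W0 4) (h1 : DegLE W1 4)
    (h2 : DegLE G 4) (i : Fin N) (C : ℕ)
    (hC : RNorm.int.mν W0 + RNorm.int.mν W1 + RNorm.int.mν G ≤ C) :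
    nr.mν (objV pM pe pa W0 W1 G i) ≤ 4 * C := by
  unfold objV
  refine (nr.mν_neg _).trans ?_
  refine (nr.mν_mul _ _).trans ?_
  rw [nr.mν_C]
  have h3 := nr.mν_pderiv (objU pM pa W0 W1 G) 4 (deg_objU pM pa h0 h1 h2) i
  have h4 := ν_objU nr pM pa hM ha W0 W1 G
  calc nr.ν pe * nr.mν (MvPolynomial.pderiv i (objU pM pa W0 W1 G)) ≤ 1 * (4 * C) :=
        Nat.mul_le_mul he (h3.trans (Nat.mul_le_mul_left _ (h4.trans hC)))
    _ = 4 * C := one_mul _

theorem ν_objW (hM : nr.ν pM ≤ 1) (ha : nr.ν pa ≤ 1)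
    {W0 W1 G : MvPolynomial (Fin N) ℤ} (h0 : DegLE W0 4) (h1 : DegLE W1 4)
    (h2 : DegLE G 4) (C : ℕ)
    (hC : RNorm.int.mν W0 + RNorm.int.mν W1 + RNorm.int.mν G ≤ C) :
    nr.mν (objW pM pa W0 W1 G) ≤ (6 + 4 * N) * C := by
  unfold objW
  refine (nr.mν_sub _ _).trans ?_
  have h4 := (ν_objU nr pM pa hM ha W0 W1 G).trans hC
  have h5 : nr.mν (MvPolynomial.C 6 * objU pM pa W0 W1 G) ≤ 6 * C := by
    refine (nr.mν_mul _ _).trans ?_
    rw [nr.mν_C]
    have h6 : nr.ν 6 ≤ 6 := by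
      have := nr.natCast 6
      simpa using this
    exact Nat.mul_le_mul h6 h4
  have h7 : nr.mν (∑ i, MvPolynomial.X i * MvPolynomial.pderiv i (objU pM pa W0 W1 G)) ≤
      4 * N * C := by
    refine (nr.mν_sum _ _).trans ?_
    have h8 : ∀ i ∈ (univ : Finset (Fin N)),
        nr.mν (MvPolynomial.X i * MvPolynomial.pderiv i (objU pM pa W0 W1 G)) ≤ 4 * C := by
      intro i _
      refine (nr.mν_mul _ _).trans ?_
      have h3 := nr.mν_pderiv (objU pM pa W0 W1 G) 4 (deg_objU pM pa h0 h1 h2) i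
      calc nr.mν (MvPolynomial.X i : MvPolynomial (Fin N) K) *
            nr.mν (MvPolynomial.pderiv i (objU pM pa W0 W1 G)) ≤ 1 * (4 * C) :=
            Nat.mul_le_mul (nr.mν_X i) (h3.trans (Nat.mul_le_mul_left _ h4))
        _ = 4 * C := one_mul _
    refine (Finset.sum_le_sum h8).trans ?_
    simp only [Finset.sum_const, Finset.card_univ, Fintype.card_fin, smul_eq_mul]
    apply le_of_eq
    ring
  calc _ ≤ 6 * C + 4 * N * C := Nat.add_le_add h5 h7
    _ = (6 + 4 * N) * C := by ring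

/-- At a minimiser the critical equations hold and the value is given by `objW`. -/
theorem min_crit (W0 W1 G : MvPolynomial (Fin N) ℤ) (φ : K →+* ℝ) (e : ℝ) (hφe : φ pe = e)
    (he : 0 < e) (z : Fin N → ℝ)
    (hz : ∀ y, (objU pM pa W0 W1 G).eval₂ φ z + S6 z / (6 * e) ≤
      (objU pM pa W0 W1 G).eval₂ φ y + S6 y / (6 * e)) :
    IsCrit (objV pM pe pa W0 W1 G) φ z ∧
    (objW pM pa W0 W1 G).eval₂ φ z =
      6 * ((objU pM pa W0 W1 G).eval₂ φ z + S6 z / (6 * e)) := by
  classical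
  have key : ∀ i, z i ^ 5 =
      -(e * (MvPolynomial.pderiv i (objU pM pa W0 W1 G)).eval₂ φ z) := by
    intro i
    have hd1 := hasDerivAt_eval₂ φ z i (objU pM pa W0 W1 G)
    have hd2 : HasDerivAt (fun t : ℝ => S6 (Function.update z i t)) (6 * z i ^ 5) (z i) := by
      have h1 : ∀ t : ℝ, S6 (Function.update z i t) = t ^ 6 + ∑ j ∈ univ.erase i, z j ^ 6 := by
        intro t
        unfold S6
        rw [← Finset.add_sum_erase univ _ (mem_univ i), Function.update_self]
        congr 1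
        apply Finset.sum_congr rfl
        intro j hj
        rw [Function.update_of_ne (Finset.ne_of_mem_erase hj)]
      have h2 : (fun t : ℝ => S6 (Function.update z i t)) =
          fun t : ℝ => t ^ 6 + ∑ j ∈ univ.erase i, z j ^ 6 := funext h1
      rw [h2]
      have h3 := (hasDerivAt_pow 6 (z i)).add_const (∑ j ∈ univ.erase i, z j ^ 6)
      simpa using h3
    have hd := hd1.add (hd2.div_const (6 * e))
    have hmin : IsLocalMin ((fun t : ℝ => (objU pM pa W0 W1 G).eval₂ φ (Function.update z i t))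
        + fun t : ℝ => S6 (Function.update z i t) / (6 * e)) (z i) := by
      apply Filter.Eventually.of_forall
      intro t
      simp only [Pi.add_apply, Function.update_eq_self]
      exact hz _
    have h0 := hmin.hasDerivAt_eq_zero hd
    have he' : e ≠ 0 := ne_of_gt he
    field_simp at h0
    linarith
  refine ⟨?_, ?_⟩
  · intro i
    rw [key i]
    unfold objV
    simp only [MvPolynomial.eval₂_neg, MvPolynomial.eval₂_mul, MvPolynomial.eval₂_C, hφe]
  · unfold objW
    have h1 : (MvPolynomial.eval₂ φ z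
        (∑ i, MvPolynomial.X i * MvPolynomial.pderiv i (objU pM pa W0 W1 G))) = -(S6 z / e) := by
      rw [MvPolynomial.eval₂_sum]
      unfold S6
      rw [Finset.sum_div, ← Finset.sum_neg_distrib]
      apply Finset.sum_congr rfl
      intro i _
      rw [MvPolynomial.eval₂_mul, MvPolynomial.eval₂_X]
      have h2 : z i ^ 6 = z i * z i ^ 5 := by ring
      rw [h2, key i]
      field_simp
    rw [MvPolynomial.eval₂_sub, h1, MvPolynomial.eval₂_mul, MvPolynomial.eval₂_C]
    have h3 : φ 6 = 6 := map_ofNat _ 6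
    rw [h3]
    field_simp
    ring

/-- The bound. -/
def boundH (N C : ℕ) : ℕ := (1 + (6 + 4 * N) * C * (4 * C) ^ (4 + 4 * N)) ^ (5 ^ N)

/-- The algebraic relation satisfied by all regularised penalised minima. -/
theorem exists_relation (hM : nr.ν pM ≤ 1) (he : nr.ν pe ≤ 1) (ha : nr.ν pa ≤ 1)
    (W0 W1 G : MvPolynomial (Fin N) ℤ) (h0 : DegLE W0 4)
    (h1 : DegLE W1 4) (h2 : DegLE G 4) (C : ℕ) (hC1 : 1 ≤ C)
    (hC : RNorm.int.mν W0 + RNorm.int.mν W1 + RNorm.int.mν G ≤ C) :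
    ∃ χ : Polynomial K, χ.Monic ∧ nr.poly.ν χ ≤ boundH N C ∧
      ∀ (φ : K →+* ℝ) (z : Fin N → ℝ), 0 < φ pe →
        (∀ y, (ev W0 z + φ pM * ev W1 z + φ pa * ev G z) + S6 z / (6 * φ pe) ≤
          (ev W0 y + φ pM * ev W1 y + φ pa * ev G y) + S6 y / (6 * φ pe)) →
        χ.eval₂ φ (6 * ((ev W0 z + φ pM * ev W1 z + φ pa * ev G z) + S6 z / (6 * φ pe))) = 0 := by
  obtain ⟨χ, hmonic, hχν, hχ⟩ := value_root nr (objV pM pe pa W0 W1 G) (4 * C) (by omega)
    (deg_objV pM pe pa h0 h1 h2) (fun i => ν_objV nr pM pe pa hM he ha h0 h1 h2 i C hC)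
    (objW pM pa W0 W1 G) 4 (deg_objW pM pa h0 h1 h2)
  refine ⟨χ, hmonic, ?_, ?_⟩
  · refine hχν.trans ?_
    unfold boundH
    apply Nat.pow_le_pow_left
    apply Nat.add_le_add_left
    exact Nat.mul_le_mul_right _ (ν_objW nr pM pa hM ha h0 h1 h2 C hC)
  · intro φ z hpe hz
    have hcr := min_crit pM pe pa W0 W1 G φ (φ pe) rfl hpe z (by
      intro y
      rw [eval_objU, eval_objU]
      exact hz y)
    have h6 := hχ φ z hcr.1
    rw [hcr.2, eval_objU] at h6
    exact h6

end abstractK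

/-- The relation over the integers after the three limits. -/
theorem exists_relation3
    (W0 W1 G : MvPolynomial (Fin N) ℤ) (h0 : DegLE W0 4)
    (h1 : DegLE W1 4) (h2 : DegLE G 4) (C : ℕ) (hC1 : 1 ≤ C)
    (hC : RNorm.int.mν W0 + RNorm.int.mν W1 + RNorm.int.mν G ≤ C) :
    ∃ χ : Polynomial (Polynomial (Polynomial (Polynomial ℤ))), χ ≠ 0 ∧
      RNorm.int.poly.poly.poly.poly.ν χ ≤ boundH N C ∧
      ∀ (M e a : ℝ) (z : Fin N → ℝ), 0 < e →
        (∀ y, (ev W0 z + M * ev W1 z + a * ev G z) + S6 z / (6 * e) ≤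
          (ev W0 y + M * ev W1 y + a * ev G y) + S6 y / (6 * e)) →
        χ.eval₂ (Polynomial.eval₂RingHom (Polynomial.eval₂RingHom (Polynomial.eval₂RingHom
          (Int.castRingHom ℝ) M) e) a)
          (6 * ((ev W0 z + M * ev W1 z + a * ev G z) + S6 z / (6 * e))) = 0 := by
  have hM : RNorm.int.poly.poly.poly.ν (Polynomial.C (Polynomial.C Polynomial.X)) ≤ 1 := by
    rw [RNorm.poly_C, RNorm.poly_C]
    exact RNorm.poly_X _
  have he : RNorm.int.poly.poly.poly.ν (Polynomial.C Polynomial.X) ≤ 1 := by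
    rw [RNorm.poly_C]
    exact RNorm.poly_X _
  have ha : RNorm.int.poly.poly.poly.ν (Polynomial.X) ≤ 1 := RNorm.poly_X _
  obtain ⟨χ, hm, hν, hχ⟩ := exists_relation RNorm.int.poly.poly.poly _ _ _ hM he ha W0 W1 G
    h0 h1 h2 C hC1 hC
  refine ⟨χ, hm.ne_zero, hν, ?_⟩
  intro M e a z he hz
  have e1 : (Polynomial.eval₂RingHom (Polynomial.eval₂RingHom (Polynomial.eval₂RingHom
          (Int.castRingHom ℝ) M) e) a) (Polynomial.C (Polynomial.C Polynomial.X)) = M := by
    simp
  have e2 : (Polynomial.eval₂RingHom (Polynomial.eval₂RingHom (Polynomial.eval₂RingHom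
          (Int.castRingHom ℝ) M) e) a) (Polynomial.C Polynomial.X) = e := by
    simp
  have e3 : (Polynomial.eval₂RingHom (Polynomial.eval₂RingHom (Polynomial.eval₂RingHom
          (Int.castRingHom ℝ) M) e) a) (Polynomial.X) = a := by
    simp
  have h := hχ (Polynomial.eval₂RingHom (Polynomial.eval₂RingHom (Polynomial.eval₂RingHom
          (Int.castRingHom ℝ) M) e) a) z
  rw [e1, e2, e3] at h
  exact h he hz

/-- Main effective theorem. -/
theorem effective {N : ℕ} (W0 W1 G : MvPolynomial (Fin N) ℤ) (h0 : DegLE W0 4)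
    (h1 : DegLE W1 4) (h2 : DegLE G 4) (hG : ∀ z, 0 ≤ ev G z) (C : ℕ) (hC1 : 1 ≤ C)
    (hC : RNorm.int.mν W0 + RNorm.int.mν W1 + RNorm.int.mν G ≤ C) :
    ∃ P : Polynomial ℤ, P ≠ 0 ∧ RNorm.int.poly.ν P ≤ boundH N C ∧
      ∀ (g : ℝ → ℝ) (L : ℝ),
        (∀ᶠ M in atTop, IsGLB ((fun z => ev W0 z + M * ev W1 z) '' {z | ev G z = 0}) (g M)) →
        Tendsto g atTop (𝓝 L) → P.eval₂ (Int.castRingHom ℝ) (6 * L) = 0 := by
  classical
  obtain ⟨χ, hχ0, hχν, hχ⟩ := exists_relation3 W0 W1 G h0 h1 h2 C hC1 hC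
  obtain ⟨χ1, hχ1, hν1, hlim1⟩ := limit_step RNorm.int.poly.poly χ hχ0
  obtain ⟨χ2, hχ2, hν2, hlim2⟩ := limit_step RNorm.int.poly χ1 hχ1
  obtain ⟨χ3, hχ3, hν3, hlim3⟩ := limit_step RNorm.int χ2 hχ2
  refine ⟨χ3, hχ3, ?_, ?_⟩
  · exact hν3.trans (hν2.trans (hν1.trans hχν))
  · intro g L hg hL
    apply hlim3 (Int.castRingHom ℝ) (fun M => 6 * g M) (6 * L) (hL.const_mul 6)
    filter_upwards [hg] with M hgM
    have hZne : {z : Fin N → ℝ | ev G z = 0}.Nonempty := by
      have := hgM.nonempty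
      exact Set.image_nonempty.mp this
    -- continuity
    have hevc : ∀ p : MvPolynomial (Fin N) ℤ, Continuous (fun z : Fin N → ℝ => ev p z) := by
      intro p; exact eval₂_cont _ p
    have hwc : Continuous (fun z : Fin N → ℝ => ev W0 z + M * ev W1 z) :=
      (hevc W0).add (continuous_const.mul (hevc W1))
    have hco : ∀ e > 0, Tendsto (fun z : Fin N → ℝ => (ev W0 z + M * ev W1 z) + S6 z / (6 * e))
        (cocompact _) atTop := by
      intro e he
      obtain ⟨c0, hc0, hb0⟩ := eval₂_quartic (Int.castRingHom ℝ) W0 h0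
      obtain ⟨c1, hc1, hb1⟩ := eval₂_quartic (Int.castRingHom ℝ) W1 h1
      apply coercive _ (c0 + |M| * c1) _ (by positivity) e he
      intro z
      refine (abs_add_le _ _).trans ?_
      rw [abs_mul]
      have h3 := hb0 z
      have h4 := hb1 z
      have h5 : |M| * |ev W1 z| ≤ |M| * (c1 * (1 + ‖z‖) ^ 4) :=
        mul_le_mul_of_nonneg_left h4 (abs_nonneg _)
      calc |ev W0 z| + |M| * |ev W1 z| ≤ c0 * (1 + ‖z‖) ^ 4 + |M| * (c1 * (1 + ‖z‖) ^ 4) :=
            add_le_add h3 h5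
        _ = (c0 + |M| * c1) * (1 + ‖z‖) ^ 4 := by ring
    -- the infima for fixed e
    have hme : ∀ e : ℝ, ∃ m : ℝ, 0 < e →
        IsGLB ((fun z : Fin N → ℝ => (ev W0 z + M * ev W1 z) + S6 z / (6 * e)) ''
          {z | ev G z = 0}) m := by
      intro e
      by_cases he : 0 < e
      · have hcF : Continuous
            (fun z : Fin N → ℝ => (ev W0 z + M * ev W1 z) + S6 z / (6 * e)) :=
          hwc.add (S6_cont.div_const _)
        obtain ⟨x, hx⟩ := hcF.exists_forall_le (hco e he)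
        obtain ⟨m, hm⟩ := Real.exists_isGLB (hZne.image
          (fun z : Fin N → ℝ => (ev W0 z + M * ev W1 z) + S6 z / (6 * e)))
          ⟨_, by rintro _ ⟨z, _, rfl⟩; exact hx z⟩
        exact ⟨m, fun _ => hm⟩
      · exact ⟨0, fun h => absurd h he⟩
    choose me hme using hme
    have hreg := tendsto_reg (fun z : Fin N → ℝ => ev W0 z + M * ev W1 z) S6 S6_nonneg
      {z | ev G z = 0} (g M) hgM me hZne hme
    apply hlim2 (Polynomial.eval₂RingHom (Int.castRingHom ℝ) M) (fun e => 6 * me e) (6 * g M)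
      (hreg.const_mul 6)
    filter_upwards [eventually_gt_atTop (0:ℝ)] with e he
    -- fixed e, penalty
    have hcF : ∀ a : ℝ, Continuous
        (fun z : Fin N → ℝ => ((ev W0 z + M * ev W1 z) + S6 z / (6 * e)) + a * ev G z) := by
      intro a
      exact (hwc.add (S6_cont.div_const _)).add (continuous_const.mul (hevc G))
    have hcoa : ∀ a > 0, Tendsto
        (fun z : Fin N → ℝ => ((ev W0 z + M * ev W1 z) + S6 z / (6 * e)) + a * ev G z)
        (cocompact _) atTop := by
      intro a ha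
      apply tendsto_atTop_mono _ (hco e he)
      intro z
      have := mul_nonneg ha.le (hG z)
      linarith
    have hmin : ∀ a : ℝ, ∃ x : Fin N → ℝ, 0 < a →
        ∀ y, ((ev W0 x + M * ev W1 x) + S6 x / (6 * e)) + a * ev G x ≤
          ((ev W0 y + M * ev W1 y) + S6 y / (6 * e)) + a * ev G y := by
      intro a
      by_cases ha : 0 < a
      · obtain ⟨x, hx⟩ := (hcF a).exists_forall_le (hcoa a ha)
        exact ⟨x, fun _ => hx⟩
      · exact ⟨0, fun h => absurd h ha⟩
    choose xa hxa using hmin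
    have hpen := tendsto_penalty (fun z : Fin N → ℝ => (ev W0 z + M * ev W1 z) + S6 z / (6 * e))
      (ev G) (hwc.add (S6_cont.div_const _)) (hevc G) hG (hco e he) (me e) (hme e he)
      (fun a => ((ev W0 (xa a) + M * ev W1 (xa a)) + S6 (xa a) / (6 * e)) + a * ev G (xa a))
      (by
        intro a ha
        constructor
        · rintro _ ⟨z, rfl⟩
          exact hxa a ha z
        · intro b hb
          exact hb ⟨xa a, rfl⟩)
    apply hlim1 (Polynomial.eval₂RingHom (Polynomial.eval₂RingHom (Int.castRingHom ℝ) M) e)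
      (fun a => 6 * (((ev W0 (xa a) + M * ev W1 (xa a)) + S6 (xa a) / (6 * e)) +
        a * ev G (xa a))) (6 * me e) (hpen.const_mul 6)
    filter_upwards [eventually_gt_atTop (0:ℝ)] with a ha
    have h6 := hχ M e a (xa a) he (by
      intro y
      have := hxa a ha y
      linarith)
    have h7 : (6 * (((ev W0 (xa a) + M * ev W1 (xa a)) + S6 (xa a) / (6 * e)) +
        a * ev G (xa a))) = 6 * (ev W0 (xa a) + M * ev W1 (xa a) + a * ev G (xa a) +
          S6 (xa a) / (6 * e)) := by ring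
    rw [h7]
    exact h6

/-- Upper bound on roots. -/
theorem root_upper (P : Polynomial ℤ) (hP : P ≠ 0) (x : ℝ)
    (hx : P.eval₂ (Int.castRingHom ℝ) x = 0) : |x| ≤ RNorm.int.poly.ν P := by
  by_contra hcon
  push Not at hcon
  set B : ℝ := (RNorm.int.poly.ν P : ℝ) with hB
  set n := P.natDegree with hn
  have hlc : P.leadingCoeff ≠ 0 := Polynomial.leadingCoeff_ne_zero.mpr hP
  have hlc1 : (1:ℝ) ≤ |(P.leadingCoeff : ℝ)| := by
    have : 1 ≤ |P.leadingCoeff| := Int.one_le_abs hlc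
    exact_mod_cast this
  have hB1 : 1 ≤ B := by
    have h1 := RNorm.int.ν_coeff_le P n
    have h2 : 1 ≤ RNorm.int.ν (P.coeff n) := by
      show 1 ≤ (P.coeff n).natAbs
      exact Int.natAbs_pos.mpr hlc
    have h3 : 1 ≤ RNorm.int.poly.ν P := h2.trans h1
    rw [hB]; exact_mod_cast h3
  have hx1 : 1 < |x| := lt_of_le_of_lt hB1 hcon
  have hsumB : (∑ k ∈ range (n + 1), |((P.coeff k : ℤ) : ℝ)|) ≤ B := by
    have h1 : RNorm.int.poly.ν P = ∑ k ∈ range (n + 1), (P.coeff k).natAbs := by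
      rw [RNorm.poly_ν]
      exact RNorm.int.pν_eq_of_subset Polynomial.supp_subset_range_natDegree_succ
    rw [hB, h1]
    push_cast
    apply le_of_eq
    apply Finset.sum_congr rfl
    intro k _
    rw [Nat.cast_natAbs]; push_cast; rfl
  rw [Polynomial.eval₂_eq_sum_range, Finset.sum_range_succ] at hx
  simp only [eq_intCast] at hx
  rcases Nat.eq_zero_or_pos n with h0 | hpos
  · rw [← hn, h0] at hx
    simp at hx
    apply hlc
    rw [Polynomial.leadingCoeff, ← hn, h0]
    exact hx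
  · have h2 : |(P.coeff n : ℝ)| * |x| ^ n ≤
        ∑ k ∈ range n, |((P.coeff k : ℤ) : ℝ)| * |x| ^ k := by
      have h3 : (P.coeff n : ℝ) * x ^ n = -∑ k ∈ range n, ((P.coeff k : ℤ) : ℝ) * x ^ k := by
        linarith
      rw [← abs_pow, ← abs_mul, h3, abs_neg]
      refine (Finset.abs_sum_le_sum_abs _ _).trans ?_
      apply le_of_eq
      apply Finset.sum_congr rfl
      intro k _
      rw [abs_mul, abs_pow]
    have h4 : ∑ k ∈ range n, |((P.coeff k : ℤ) : ℝ)| * |x| ^ k ≤
        (∑ k ∈ range n, |((P.coeff k : ℤ) : ℝ)|) * |x| ^ (n - 1) := by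
      rw [Finset.sum_mul]
      apply Finset.sum_le_sum
      intro k hk
      rw [mem_range] at hk
      apply mul_le_mul_of_nonneg_left _ (abs_nonneg _)
      exact pow_le_pow_right₀ hx1.le (by omega)
    have h5 : (∑ k ∈ range n, |((P.coeff k : ℤ) : ℝ)|) ≤ B := by
      rw [Finset.sum_range_succ] at hsumB
      have := abs_nonneg ((P.coeff n : ℤ) : ℝ)
      linarith
    have h6 : |x| ^ n = |x| * |x| ^ (n - 1) := by
      rw [← pow_succ']
      congr 1
      omega
    have h7 : 0 < |x| ^ (n - 1) := by positivity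
    have h8 : |x| * |x| ^ (n - 1) ≤ B * |x| ^ (n - 1) := by
      calc |x| * |x| ^ (n - 1) = |x| ^ n := h6.symm
        _ ≤ |(P.coeff n : ℝ)| * |x| ^ n := by
            have h9 : (1:ℝ) ≤ |(P.coeff n : ℝ)| := hlc1
            have h10 : 0 ≤ |x| ^ n := by positivity
            nlinarith
        _ ≤ _ := h2
        _ ≤ _ := h4
        _ ≤ B * |x| ^ (n - 1) := mul_le_mul_of_nonneg_right h5 h7.le
    have := le_of_mul_le_mul_right h8 h7
    linarith

/-- Lower bound on nonzero roots. -/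
theorem root_lower (P : Polynomial ℤ) (hP : P ≠ 0) (x : ℝ) (hx0 : x ≠ 0)
    (hx : P.eval₂ (Int.castRingHom ℝ) x = 0) : 1 ≤ |x| * RNorm.int.poly.ν P := by
  have hrev : P.reverse.eval₂ (Int.castRingHom ℝ) x⁻¹ = 0 := by
    haveI : Invertible x := invertibleOfNonzero hx0
    have := Polynomial.eval₂_reverse_eq_zero_iff (Int.castRingHom ℝ) x P
    rw [invOf_eq_inv] at this
    exact this.mpr hx
  have hne : P.reverse ≠ 0 := by
    intro h
    exact hP (Polynomial.reverse_eq_zero.mp h)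
  have h1 := root_upper P.reverse hne x⁻¹ hrev
  have h2 : RNorm.int.poly.ν P.reverse ≤ RNorm.int.poly.ν P := by
    rw [RNorm.poly_ν, RNorm.poly_ν, RNorm.pν, RNorm.pν]
    have hs : P.reverse.support = P.support.image (Polynomial.revAt P.natDegree) := by
      rw [Polynomial.reverse]
      exact Polynomial.reflect_support _ _
    rw [hs, Finset.sum_image]
    · apply le_of_eq
      apply Finset.sum_congr rfl
      intro k _
      rw [Polynomial.reverse, Polynomial.coeff_reflect, Polynomial.revAt_invol]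
    · intro a _ b _ h
      exact (Polynomial.revAt P.natDegree).injective h
  have h3 : |x⁻¹| ≤ RNorm.int.poly.ν P := h1.trans (by exact_mod_cast h2)
  rw [abs_inv] at h3
  have hxp : 0 < |x| := abs_pos.mpr hx0
  have h4 : |x| * |x|⁻¹ ≤ |x| * RNorm.int.poly.ν P := mul_le_mul_of_nonneg_left h3 hxp.le
  rwa [mul_inv_cancel₀ hxp.ne'] at h4

end Pool.Agent.H612
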