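import Pool.Agent.H625R2.HypDefs

/-!
# Realizations in hyperbolic space

From a realization of a sign matrix by points and oriented hyperplanes of `ℝ^(k+1)` we get points
`P i`, `A j`, `B j` of `ℍ^(k+1)` such that `P i` is at Lorentz product at most `5/4` from exactly
one of `A j`, `B j`, according to the sign.
-/

namespace Pool.Agent.NPC.ER.Pat

open scoped RealInnerProductSpace Topology

open Filter

section

variable {d : ℕ}

/-- The point of the hyperboloid over `v`. -/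
noncomputable def hpt (v : EuclideanSpace ℝ (Fin d)) : Hyp d :=
  ⟨(Real.sqrt (1 + ‖v‖ ^ 2), v), Real.sqrt_pos.2 (by positivity), by
    simp only
    rw [Real.sq_sqrt (by positivity)]
    ring⟩

theorem lor_hpt (v w : EuclideanSpace ℝ (Fin d)) :
    lor (hpt v) (hpt w) = Real.sqrt (1 + ‖v‖ ^ 2) * Real.sqrt (1 + ‖w‖ ^ 2) - ⟪v, w⟫ := rfl

theorem lor_near (v w : ℝ → EuclideanSpace ℝ (Fin d)) (hv : Continuous v) (hw : Continuous w) :
    Continuous fun ε => lor (hpt (v ε)) (hpt (w ε)) := by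
  simp only [lor_hpt]
  exact (((continuous_const.add (hv.norm.pow 2)).sqrt).mul
    ((continuous_const.add (hw.norm.pow 2)).sqrt)).sub (hv.inner hw)

theorem lor_lt {v w : ℝ → EuclideanSpace ℝ (Fin d)} (hv : Continuous v) (hw : Continuous w)
    (h : lor (hpt (v 0)) (hpt (w 0)) < 5 / 4) :
    ∀ᶠ ε in 𝓝[>] (0 : ℝ), lor (hpt (v ε)) (hpt (w ε)) ≤ 5 / 4 :=
  (((lor_near v w hv hw).continuousAt.eventually (gt_mem_nhds h)).filter_mono
    nhdsWithin_le_nhds).mono fun _ h => le_of_lt h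

theorem lor_gt {v w : ℝ → EuclideanSpace ℝ (Fin d)} (hv : Continuous v) (hw : Continuous w)
    (h : 5 / 4 < lor (hpt (v 0)) (hpt (w 0))) :
    ∀ᶠ ε in 𝓝[>] (0 : ℝ), 5 / 4 < lor (hpt (v ε)) (hpt (w ε)) :=
  ((lor_near v w hv hw).continuousAt.eventually (lt_mem_nhds h)).filter_mono
    nhdsWithin_le_nhds

/-- The position of the points for the hyperplanes. -/
noncomputable def hcen (n : EuclideanSpace ℝ (Fin d)) (c σ ε : ℝ) : EuclideanSpace ℝ (Fin d) :=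
  (σ * (3 / 4) - ε * (5 / 4 * c)) • n

theorem continuous_hcen (n : EuclideanSpace ℝ (Fin d)) (c σ : ℝ) :
    Continuous (hcen n c σ) := by
  unfold hcen
  fun_prop

theorem lor_deriv (y n : EuclideanSpace ℝ (Fin d)) (c σ : ℝ) (hn : ‖n‖ = 1) (hσ : σ ^ 2 = 1) :
    HasDerivAt (fun ε : ℝ => 5 / 4 - lor (hpt (ε • y)) (hpt (hcen n c σ ε)))
      (σ * (3 / 4 * (c + ⟪y, n⟫))) 0 := by
  have e : (fun ε : ℝ => 5 / 4 - lor (hpt (ε • y)) (hpt (hcen n c σ ε))) = fun ε : ℝ =>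
      5 / 4 - (Real.sqrt (1 + ε ^ 2 * ‖y‖ ^ 2) *
        Real.sqrt (1 + (σ * (3 / 4) - ε * (5 / 4 * c)) ^ 2) -
        ε * ((σ * (3 / 4) - ε * (5 / 4 * c)) * ⟪y, n⟫)) := by
    funext ε
    rw [lor_hpt, hcen, norm_smul, norm_smul, inner_smul_left, inner_smul_right, hn,
      Real.norm_eq_abs, Real.norm_eq_abs, mul_pow, mul_pow, sq_abs, sq_abs]
    simp only [RCLike.conj_to_real, one_pow, mul_one]
  rw [e]
  have hid : HasDerivAt (fun ε : ℝ => ε) 1 0 := hasDerivAt_id 0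
  have h1 : HasDerivAt (fun ε : ℝ => 1 + ε ^ 2 * ‖y‖ ^ 2) 0 0 := by
    have := ((hid.pow 2).mul_const (‖y‖ ^ 2)).const_add 1
    simpa using this
  have h2 : HasDerivAt (fun ε : ℝ => σ * (3 / 4) - ε * (5 / 4 * c)) (-(5 / 4 * c)) 0 := by
    have := (hid.mul_const (5 / 4 * c)).const_sub (σ * (3 / 4))
    simpa using this
  have h3 : HasDerivAt (fun ε : ℝ => 1 + (σ * (3 / 4) - ε * (5 / 4 * c)) ^ 2)
      (2 * (σ * (3 / 4)) * (-(5 / 4 * c))) 0 := by
    have := (h2.pow 2).const_add 1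
    simpa using this
  have s1 : HasDerivAt (fun ε : ℝ => Real.sqrt (1 + ε ^ 2 * ‖y‖ ^ 2)) 0 0 := by
    have := h1.sqrt (by norm_num)
    simpa using this
  have v3 : 1 + (σ * (3 / 4) - 0 * (5 / 4 * c)) ^ 2 = (5 / 4 : ℝ) ^ 2 := by
    linear_combination (9 / 16) * hσ
  have s3 : HasDerivAt (fun ε : ℝ => Real.sqrt (1 + (σ * (3 / 4) - ε * (5 / 4 * c)) ^ 2))
      (-(σ * (3 / 4 * c))) 0 := by
    have := h3.sqrt (by rw [v3]; norm_num)
    rw [v3, Real.sqrt_sq (by norm_num)] at this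
    refine this.congr_deriv ?_
    ring
  have h4 : HasDerivAt (fun ε : ℝ => ε * ((σ * (3 / 4) - ε * (5 / 4 * c)) * ⟪y, n⟫))
      (σ * (3 / 4) * ⟪y, n⟫) 0 := by
    have := hid.mul (h2.mul_const ⟪y, n⟫)
    refine this.congr_deriv ?_
    ring
  have h5 := (((s1.mul s3).sub h4).const_sub (5 / 4))
  refine h5.congr_deriv ?_
  have : Real.sqrt (1 + 0 ^ 2 * ‖y‖ ^ 2) = 1 := by simp
  rw [this]
  ring

theorem lor_zero (y n : EuclideanSpace ℝ (Fin d)) (c σ : ℝ) (hn : ‖n‖ = 1) (hσ : σ ^ 2 = 1) :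
    lor (hpt ((0 : ℝ) • y)) (hpt (hcen n c σ 0)) = 5 / 4 := by
  rw [lor_hpt, hcen, zero_smul, inner_zero_left, norm_smul, hn, Real.norm_eq_abs, mul_one,
    sq_abs, norm_zero]
  have v3 : 1 + (σ * (3 / 4) - 0 * (5 / 4 * c)) ^ 2 = (5 / 4 : ℝ) ^ 2 := by
    linear_combination (9 / 16) * hσ
  rw [v3, Real.sqrt_sq (by norm_num)]
  norm_num

theorem pos_of_deriv {f : ℝ → ℝ} {a : ℝ} (hf : HasDerivAt f a 0) (h0 : f 0 = 0) (ha : 0 < a) :
    ∀ᶠ ε in 𝓝[>] (0 : ℝ), 0 < f ε := by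
  have h1 := hasDerivAt_iff_tendsto_slope.1 hf
  have h2 : Tendsto (slope f 0) (𝓝[>] 0) (𝓝 a) :=
    h1.mono_left (nhdsWithin_mono _ fun x hx => ne_of_gt hx)
  filter_upwards [h2.eventually (lt_mem_nhds ha), self_mem_nhdsWithin] with ε h3 h4
  have h4 : 0 < ε := h4
  rw [slope_def_field, h0, sub_zero, sub_zero] at h3
  have := mul_pos h3 h4
  rwa [div_mul_cancel₀ _ h4.ne'] at this

theorem lor_crit (y n : EuclideanSpace ℝ (Fin d)) (c σ : ℝ) (hn : ‖n‖ = 1) (hσ : σ ^ 2 = 1) :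
    (0 < σ * (c + ⟪y, n⟫) →
      ∀ᶠ ε in 𝓝[>] (0 : ℝ), lor (hpt (ε • y)) (hpt (hcen n c σ ε)) ≤ 5 / 4) ∧
    (σ * (c + ⟪y, n⟫) < 0 →
      ∀ᶠ ε in 𝓝[>] (0 : ℝ), 5 / 4 < lor (hpt (ε • y)) (hpt (hcen n c σ ε))) := by
  have h := lor_deriv y n c σ hn hσ
  have h0 := lor_zero y n c σ hn hσ
  constructor
  · intro hp
    have := pos_of_deriv h (by rw [h0]; ring) (by nlinarith)
    filter_upwards [this] with ε h
    linarith
  · intro hp
    have := pos_of_deriv (f := fun ε : ℝ => -(5 / 4 - lor (hpt (ε • y)) (hpt (hcen n c σ ε))))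
      h.neg (by rw [h0]; ring) (by nlinarith)
    filter_upwards [this] with ε h
    linarith

theorem lor_hcen (n n' : EuclideanSpace ℝ (Fin d)) (c c' σ σ' : ℝ) (hn : ‖n‖ = 1)
    (hn' : ‖n'‖ = 1) (hσ : σ ^ 2 = 1) (hσ' : σ' ^ 2 = 1) :
    lor (hpt (hcen n c σ 0)) (hpt (hcen n' c' σ' 0)) = 25 / 16 - 9 / 16 * (σ * σ' * ⟪n, n'⟫) := by
  have v3 : ∀ c σ : ℝ, σ ^ 2 = 1 → 1 + (σ * (3 / 4) - 0 * (5 / 4 * c)) ^ 2 = (5 / 4 : ℝ) ^ 2 := by
    intro c σ hσ
    linear_combination (9 / 16) * hσ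
  rw [lor_hpt, hcen, hcen, norm_smul, norm_smul, hn, hn', Real.norm_eq_abs, Real.norm_eq_abs,
    mul_one, mul_one, sq_abs, sq_abs, v3 c σ hσ, v3 c' σ' hσ', Real.sqrt_sq (by norm_num),
    inner_smul_left, inner_smul_right]
  simp only [RCLike.conj_to_real]
  ring

theorem inner_close (e n n' : EuclideanSpace ℝ (Fin d)) (hn : ‖n‖ = 1)
    (hn' : ‖n'‖ = 1) (h : ‖n - e‖ < 1 / 10) (h' : ‖n' - e‖ < 1 / 10) : 5 / 9 < ⟪n, n'⟫ := by
  have h1 : ‖n - n'‖ < 1 / 5 := by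
    have := norm_sub_le_norm_sub_add_norm_sub n e n'
    rw [norm_sub_rev e n'] at this
    linarith
  have h2 := norm_sub_sq_real n n'
  rw [hn, hn'] at h2
  have h3 := norm_nonneg (n - n')
  nlinarith

end

theorem hyp_points {k : ℕ} {M : List (List Bool)} (h : SRN (k + 1) M) (m : ℕ) :
    ∃ P A B : ℕ → Hyp (k + 1),
      (∀ i < M.length, ∀ i' < M.length, lor (P i) (P i') ≤ 5 / 4) ∧
      (∀ j < m, ∀ j' < m, lor (A j) (A j') ≤ 5 / 4 ∧ lor (B j) (B j') ≤ 5 / 4 ∧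
        5 / 4 < lor (A j) (B j')) ∧
      ∀ i (hi : i < M.length) j (hj : j < M[i].length),
        (M[i][j] = true → lor (P i) (A j) ≤ 5 / 4 ∧ 5 / 4 < lor (P i) (B j)) ∧
        (M[i][j] = false → 5 / 4 < lor (P i) (A j) ∧ lor (P i) (B j) ≤ 5 / 4) := by
  obtain ⟨y, n, c, hn, hy⟩ := unit_of_SRN h (δ := 1 / 10) (by norm_num)
  have ev1 : ∀ᶠ ε in 𝓝[>] (0 : ℝ), ∀ i ∈ Finset.range M.length, ∀ i' ∈ Finset.range M.length,
      lor (hpt (ε • y i)) (hpt (ε • y i')) ≤ 5 / 4 := by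
    rw [Filter.eventually_all_finset]
    intro i _
    rw [Filter.eventually_all_finset]
    intro i' _
    refine lor_lt (v := fun ε => ε • y i) (w := fun ε => ε • y i') (by fun_prop) (by fun_prop) ?_
    simp only [zero_smul]
    rw [lor_hpt]
    simp
    norm_num
  have hsq : ∀ σ ∈ ({1, -1} : Finset ℝ), σ ^ 2 = 1 := by
    intro σ h
    simp only [Finset.mem_insert, Finset.mem_singleton] at h
    rcases h with rfl | rfl <;> norm_num
  have ev2 : ∀ᶠ ε in 𝓝[>] (0 : ℝ), ∀ j ∈ Finset.range m, ∀ j' ∈ Finset.range m,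
      ∀ σ ∈ ({1, -1} : Finset ℝ),
      lor (hpt (hcen (n j) (c j) σ ε)) (hpt (hcen (n j') (c j') σ ε)) ≤ 5 / 4 := by
    rw [Filter.eventually_all_finset]
    intro j _
    rw [Filter.eventually_all_finset]
    intro j' _
    rw [Filter.eventually_all_finset]
    intro σ hσ
    refine lor_lt (continuous_hcen _ _ _) (continuous_hcen _ _ _) ?_
    rw [lor_hcen _ _ _ _ _ _ (hn j).1 (hn j').1 (hsq σ hσ) (hsq σ hσ)]
    have := inner_close _ _ _ (hn j).1 (hn j').1 (hn j).2 (hn j').2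
    have h2 := hsq σ hσ
    have h3 : σ * σ * ⟪n j, n j'⟫ = ⟪n j, n j'⟫ := by
      rw [← sq, h2, one_mul]
    rw [h3]
    linarith
  have ev3 : ∀ᶠ ε in 𝓝[>] (0 : ℝ), ∀ j ∈ Finset.range m, ∀ j' ∈ Finset.range m,
      5 / 4 < lor (hpt (hcen (n j) (c j) 1 ε)) (hpt (hcen (n j') (c j') (-1) ε)) := by
    rw [Filter.eventually_all_finset]
    intro j _
    rw [Filter.eventually_all_finset]
    intro j' _
    refine lor_gt (continuous_hcen _ _ _) (continuous_hcen _ _ _) ?_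
    rw [lor_hcen _ _ _ _ _ _ (hn j).1 (hn j').1 (by norm_num) (by norm_num)]
    have := inner_close _ _ _ (hn j).1 (hn j').1 (hn j).2 (hn j').2
    linarith
  obtain ⟨m', hm'⟩ := exists_rowBound M
  have ev4 : ∀ᶠ ε in 𝓝[>] (0 : ℝ), ∀ i ∈ Finset.range M.length, ∀ j ∈ Finset.range m',
      ∀ σ ∈ ({1, -1} : Finset ℝ),
      (0 < σ * (c j + ⟪y i, n j⟫) → lor (hpt (ε • y i)) (hpt (hcen (n j) (c j) σ ε)) ≤ 5 / 4) ∧
      (σ * (c j + ⟪y i, n j⟫) < 0 →
        5 / 4 < lor (hpt (ε • y i)) (hpt (hcen (n j) (c j) σ ε))) := by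
    rw [Filter.eventually_all_finset]
    intro i _
    rw [Filter.eventually_all_finset]
    intro j _
    rw [Filter.eventually_all_finset]
    intro σ hσ
    obtain ⟨q1, q2⟩ := lor_crit (y i) (n j) (c j) σ (hn j).1 (hsq σ hσ)
    rw [Filter.eventually_and]
    constructor
    · by_cases hp : 0 < σ * (c j + ⟪y i, n j⟫)
      · exact (q1 hp).mono fun _ h _ => h
      · exact Filter.Eventually.of_forall fun _ h => absurd h hp
    · by_cases hp : σ * (c j + ⟪y i, n j⟫) < 0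
      · exact (q2 hp).mono fun _ h _ => h
      · exact Filter.Eventually.of_forall fun _ h => absurd h hp
  obtain ⟨ε, ⟨⟨h1, h2⟩, h3⟩, h4⟩ := (((ev1.and ev2).and ev3).and ev4).exists
  refine ⟨fun i => hpt (ε • y i), fun j => hpt (hcen (n j) (c j) 1 ε),
    fun j => hpt (hcen (n j) (c j) (-1) ε), fun i hi i' hi' =>
      h1 i (Finset.mem_range.2 hi) i' (Finset.mem_range.2 hi'),
    fun j hj j' hj' => ⟨h2 j (Finset.mem_range.2 hj) j' (Finset.mem_range.2 hj') 1 (by simp),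
      h2 j (Finset.mem_range.2 hj) j' (Finset.mem_range.2 hj') (-1) (by simp),
      h3 j (Finset.mem_range.2 hj) j' (Finset.mem_range.2 hj')⟩, fun i hi j hj => ?_⟩
  have hjm : j < m' := lt_of_lt_of_le hj (hm' i hi)
  have a1 := h4 i (Finset.mem_range.2 hi) j (Finset.mem_range.2 hjm) 1 (by simp)
  have a2 := h4 i (Finset.mem_range.2 hi) j (Finset.mem_range.2 hjm) (-1) (by simp)
  have hs := hy i hi j hj
  constructor
  · intro hb
    rw [hb] at hs
    have hs' : 0 < c j + ⟪y i, n j⟫ := by simpa [sgn] using hs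
    exact ⟨a1.1 (by linarith), a2.2 (by linarith)⟩
  · intro hb
    rw [hb] at hs
    have hs' : c j + ⟪y i, n j⟫ < 0 := by
      have : 0 < (-1 : ℝ) * (c j + ⟪y i, n j⟫) := by simpa [sgn] using hs
      linarith
    exact ⟨a1.2 (by linarith), a2.1 (by linarith)⟩

end Pool.Agent.NPC.ER.Pat
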