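import Pool.Agent.ER.GapSys

/-!
# Increasing straight-line programs

A program is a list of instructions; the `k`-th instruction describes the value of index `k + 2`.
The values are `v 1 < v 2 < v 3 < …`; an instruction is either `none` (a free value) or
`some (o, l, i, j)` (the value `v k` is determined by `v k + v l = v i + v j` if `o = 0`, and by
`(v k - v o) * (v l - v o) = (v i - v o) * (v j - v o)` if `0 < o`).
The total order of the values is prescribed: it is the order of the indices.
-/

namespace Pool.Agent.NPC.ER.Oslp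

/-- Instructions. -/
abbrev Ins := Option (ℕ × ℕ × ℕ × ℕ)

/-- The relation described by an instruction for the value of index `k`. -/
def Holds (v : ℕ → ℝ) (k : ℕ) : Ins → Prop
  | none => True
  | some (o, l, i, j) =>
      (o = 0 → v k + v l = v i + v j) ∧
      (0 < o → (v k - v o) * (v l - v o) = (v i - v o) * (v j - v o))

/-- Well-formed instructions. -/
def WFI (k : ℕ) : Ins → Prop
  | none => True
  | some (o, l, i, j) => o < l ∧ l < i ∧ l < j ∧ i < k ∧ j < k

/-- The values increase and satisfy the relations; the first instruction has index `n`. -/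
def Run (v : ℕ → ℝ) : ℕ → List Ins → Prop
  | _, [] => True
  | n, ins :: p => v (n - 1) < v n ∧ Holds v n ins ∧ Run v (n + 1) p

/-- Well-formed programs; the first instruction has index `n`. -/
def WF : ℕ → List Ins → Prop
  | _, [] => True
  | n, ins :: p => WFI n ins ∧ WF (n + 1) p

/-- Satisfiability of programs. -/
def OSat (p : List Ins) : Prop := ∃ v : ℕ → ℝ, Run v 2 p

theorem run_append {v : ℕ → ℝ} : ∀ {n : ℕ} {p q : List Ins},
    Run v n (p ++ q) ↔ Run v n p ∧ Run v (n + p.length) q
  | n, [], q => by simp [Run]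
  | n, ins :: p, q => by
    rw [List.cons_append, Run, Run, run_append, List.length_cons, and_assoc, and_assoc,
      show n + (p.length + 1) = n + 1 + p.length by omega]

theorem wf_append : ∀ {n : ℕ} {p q : List Ins},
    WF n (p ++ q) ↔ WF n p ∧ WF (n + p.length) q
  | n, [], q => by simp [WF]
  | n, ins :: p, q => by
    rw [List.cons_append, WF, WF, wf_append, List.length_cons, and_assoc,
      show n + (p.length + 1) = n + 1 + p.length by omega]

theorem wf_get : ∀ {n : ℕ} {p : List Ins}, WF n p → ∀ k ins, p[k]? = some ins → WFI (n + k) ins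
  | n, [], _, k, ins, h => by simp at h
  | n, a :: p, hw, 0, ins, h => by
    simp only [List.getElem?_cons_zero, Option.some.injEq] at h
    subst h
    exact hw.1
  | n, a :: p, hw, k + 1, ins, h => by
    have := wf_get hw.2 k ins (by simpa using h)
    rwa [show n + (k + 1) = n + 1 + k by omega]

theorem run_get {v : ℕ → ℝ} : ∀ {n : ℕ} {p : List Ins}, Run v n p → ∀ k ins, p[k]? = some ins →
    v (n + k - 1) < v (n + k) ∧ Holds v (n + k) ins
  | n, [], _, k, ins, h => by simp at h
  | n, a :: p, hr, 0, ins, h => by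
    simp only [List.getElem?_cons_zero, Option.some.injEq] at h
    subst h
    exact ⟨hr.1, hr.2.1⟩
  | n, a :: p, hr, k + 1, ins, h => by
    have := run_get hr.2.2 k ins (by simpa using h)
    rwa [show n + (k + 1) = n + 1 + k by omega]

theorem holds_congr {v v' : ℕ → ℝ} {k : ℕ} {ins : Ins} (hw : WFI k ins)
    (h : ∀ i ≤ k, v' i = v i) : Holds v' k ins ↔ Holds v k ins := by
  cases ins with
  | none => rfl
  | some a =>
    obtain ⟨o, l, i, j⟩ := a
    simp only [WFI] at hw
    simp only [Holds]
    rw [h k le_rfl, h o (by omega), h l (by omega), h i (by omega), h j (by omega)]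

theorem run_congr {v v' : ℕ → ℝ} : ∀ {n : ℕ} {p : List Ins}, WF n p →
    (∀ i < n + p.length, v' i = v i) → (Run v' n p ↔ Run v n p)
  | n, [], _, _ => Iff.rfl
  | n, a :: p, hw, h => by
    rw [Run, Run, holds_congr hw.1 fun i hi => h i (by rw [List.length_cons]; omega),
      run_congr hw.2 fun i hi => h i (by rw [List.length_cons]; omega),
      h (n - 1) (by rw [List.length_cons]; omega), h n (by rw [List.length_cons]; omega)]

/-! ### Normalisation -/

theorem holds_affine {v : ℕ → ℝ} {k : ℕ} {ins : Ins} {c e : ℝ}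
    (h : Holds v k ins) : Holds (fun i => (v i - c) * e) k ins := by
  cases ins with
  | none => trivial
  | some a =>
    obtain ⟨o, l, i, j⟩ := a
    simp only [Holds] at h ⊢
    refine ⟨fun ho => ?_, fun ho => ?_⟩
    · have := h.1 ho
      linear_combination e * this
    · have := h.2 ho
      linear_combination e * e * this

theorem run_affine {v : ℕ → ℝ} {c e : ℝ} (he : 0 < e) : ∀ {n : ℕ} {p : List Ins},
    Run v n p → Run (fun i => (v i - c) * e) n p
  | n, [], _ => trivial
  | n, a :: p, h => ⟨mul_lt_mul_of_pos_right (by linarith [h.1]) he, holds_affine h.2.1,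
      run_affine he h.2.2⟩

/-! ### Extensions -/

/-- `v'` extends the values `v` (of index less than `n`) along the program `p`. -/
structure Steps (v : ℕ → ℝ) (n : ℕ) (p : List Ins) (v' : ℕ → ℝ) : Prop where
  wf : WF n p
  agree : ∀ i < n, v' i = v i
  run : Run v' n p

theorem Steps.nil (v : ℕ → ℝ) (n : ℕ) : Steps v n [] v := ⟨trivial, fun _ _ => rfl, trivial⟩

theorem Steps.trans {v v' v'' : ℕ → ℝ} {n m : ℕ} {p q : List Ins} (h : Steps v n p v')
    (hm : m = n + p.length) (h' : Steps v' m q v'') : Steps v n (p ++ q) v'' := by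
  subst hm
  refine ⟨wf_append.2 ⟨h.wf, h'.wf⟩, fun i hi => ?_, run_append.2 ⟨?_, h'.run⟩⟩
  · rw [h'.agree i (by omega), h.agree i hi]
  · exact (run_congr h.wf fun i hi => h'.agree i hi).2 h.run

/-- The relation described by an instruction, for the value `x`. -/
def HoldsX (v : ℕ → ℝ) (x : ℝ) : Ins → Prop
  | none => True
  | some (o, l, i, j) =>
      (o = 0 → x + v l = v i + v j) ∧
      (0 < o → (x - v o) * (v l - v o) = (v i - v o) * (v j - v o))

theorem Steps.one {v : ℕ → ℝ} {n : ℕ} {ins : Ins} {x : ℝ} (hw : WFI n ins) (hn : 0 < n)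
    (hx : v (n - 1) < x) (h : HoldsX v x ins) : Steps v n [ins] (Function.update v n x) := by
  refine ⟨⟨hw, trivial⟩, fun i hi => ?_, ⟨?_, ?_, trivial⟩⟩
  · rw [Function.update_of_ne (by omega)]
  · rw [Function.update_of_ne (by omega), Function.update_self]
    exact hx
  · cases ins with
    | none => trivial
    | some a =>
      obtain ⟨o, l, i, j⟩ := a
      simp only [WFI] at hw
      simp only [Holds]
      rw [Function.update_self, Function.update_of_ne (by omega), Function.update_of_ne (by omega),
        Function.update_of_ne (by omega), Function.update_of_ne (by omega)]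
      exact h

/-! ### Sums -/

/-- The sum of the differences described by a list of pairs of indices. -/
def sumv (v : ℕ → ℝ) (L : List (ℕ × ℕ)) : ℝ := (L.map fun d => v d.2 - v d.1).sum

@[simp] theorem sumv_nil (v : ℕ → ℝ) : sumv v [] = 0 := rfl

@[simp] theorem sumv_cons (v : ℕ → ℝ) (d : ℕ × ℕ) (L : List (ℕ × ℕ)) :
    sumv v (d :: L) = (v d.2 - v d.1) + sumv v L := by
  simp [sumv]

@[simp] theorem sumv_append (v : ℕ → ℝ) (L L' : List (ℕ × ℕ)) :
    sumv v (L ++ L') = sumv v L + sumv v L' := by
  simp [sumv]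

theorem sumv_congr {v v' : ℕ → ℝ} {L : List (ℕ × ℕ)} {n : ℕ} (hL : ∀ d ∈ L, d.1 < d.2 ∧ d.2 ≤ n)
    (h : ∀ i ≤ n, v' i = v i) : sumv v' L = sumv v L := by
  unfold sumv
  congr 1
  apply List.map_congr_left
  intro d hd
  have := hL d hd
  rw [h d.2 this.2, h d.1 (by omega)]

/-- The program computing partial sums, starting from the last value, of index `n`. -/
def chain : List (ℕ × ℕ) → ℕ → List Ins
  | [], _ => []
  | d :: L, n => some (0, d.1, d.2, n) :: chain L (n + 1)

@[simp] theorem chain_length : ∀ (L : List (ℕ × ℕ)) (n : ℕ), (chain L n).length = L.length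
  | [], _ => rfl
  | d :: L, n => by rw [chain, List.length_cons, chain_length, List.length_cons]

theorem chain_sound {v : ℕ → ℝ} : ∀ {L : List (ℕ × ℕ)} {n : ℕ}, Run v (n + 1) (chain L n) →
    v (n + L.length) = v n + sumv v L
  | [], n, _ => by simp
  | d :: L, n, h => by
    obtain ⟨h1, h2, h3⟩ := h
    have h4 := chain_sound h3
    simp only [Holds] at h2
    have h5 := h2.1 trivial
    rw [List.length_cons, show n + (L.length + 1) = n + 1 + L.length by omega, h4, sumv_cons]
    linarith

/-- Usable pairs. -/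
def Okp (v : ℕ → ℝ) (n : ℕ) (d : ℕ × ℕ) : Prop := 0 < d.1 ∧ d.1 < d.2 ∧ d.2 ≤ n ∧ v d.1 < v d.2

theorem Okp.mono {v v' : ℕ → ℝ} {n m : ℕ} {d : ℕ × ℕ} (h : Okp v n d) (hm : n ≤ m)
    (ha : ∀ i ≤ n, v' i = v i) : Okp v' m d := by
  obtain ⟨h1, h2, h3, h4⟩ := h
  refine ⟨h1, h2, by omega, ?_⟩
  rw [ha _ (by omega), ha _ h3]
  exact h4

theorem Okp.congr_sumv {v v' : ℕ → ℝ} {n : ℕ} {L : List (ℕ × ℕ)} (h : ∀ d ∈ L, Okp v n d)
    (ha : ∀ i ≤ n, v' i = v i) : sumv v' L = sumv v L :=
  sumv_congr (fun d hd => ⟨(h d hd).2.1, (h d hd).2.2.1⟩) ha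

theorem chain_complete : ∀ {L : List (ℕ × ℕ)} {n : ℕ} {v : ℕ → ℝ}, (∀ d ∈ L, Okp v n d) →
    ∃ v', Steps v (n + 1) (chain L n) v' ∧ v' (n + L.length) = v n + sumv v L
  | [], n, v, _ => ⟨v, Steps.nil _ _, by simp⟩
  | d :: L, n, v, h => by
    obtain ⟨h1, h2, h3, h4⟩ := h d List.mem_cons_self
    have hstep : Steps v (n + 1) [some (0, d.1, d.2, n)]
        (Function.update v (n + 1) (v n + (v d.2 - v d.1))) := by
      refine Steps.one ⟨h1, h2, by omega, by omega, by omega⟩ (by omega) ?_ ⟨fun _ => ?_,
        fun h => absurd h (by omega)⟩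
      · rw [Nat.add_sub_cancel]; linarith
      · ring
    set v1 := Function.update v (n + 1) (v n + (v d.2 - v d.1)) with hv1
    have ha : ∀ i ≤ n, v1 i = v i := fun i hi => by rw [hv1, Function.update_of_ne (by omega)]
    obtain ⟨v2, hs2, he2⟩ := chain_complete (L := L) (n := n + 1) (v := v1) fun d' hd' =>
      (h d' (List.mem_cons_of_mem _ hd')).mono (by omega) ha
    refine ⟨v2, hstep.trans (by simp) hs2, ?_⟩
    rw [List.length_cons, show n + (L.length + 1) = n + 1 + L.length by omega, he2, sumv_cons,
      Okp.congr_sumv (fun d' hd' => h d' (List.mem_cons_of_mem _ hd')) ha]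
    rw [hv1, Function.update_self]
    ring

/-- The program expressing that the sum of the pairs of `L` is less than the sum of the pairs of
`R`. -/
def ineq (L R : List (ℕ × ℕ)) (n : ℕ) : List Ins :=
  chain L n ++ (chain R (n + L.length) ++
    [some (0, n, n + L.length, n + L.length + R.length),
     some (0, n + L.length, n + L.length + R.length, n + L.length + R.length)])

theorem ineq_length (L R : List (ℕ × ℕ)) (n : ℕ) :
    (ineq L R n).length = L.length + R.length + 2 := by
  simp [ineq]; omega

theorem ineq_sound {v : ℕ → ℝ} {L R : List (ℕ × ℕ)} {n : ℕ} (h : Run v (n + 1) (ineq L R n)) :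
    sumv v L < sumv v R := by
  unfold ineq at h
  rw [run_append, run_append, chain_length, chain_length] at h
  obtain ⟨h1, h2, h3⟩ := h
  rw [show n + 1 + L.length = n + L.length + 1 by omega] at h2
  have e1 := chain_sound h1
  have e2 := chain_sound h2
  rw [show n + 1 + L.length + R.length = n + L.length + R.length + 1 by omega] at h3
  set m := n + L.length + R.length with hm
  obtain ⟨-, h4, h5, h6, -⟩ := h3
  simp only [Holds] at h4 h6
  have h7 := h4.1 trivial
  have h8 := h6.1 trivial
  rw [Nat.add_sub_cancel] at h5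
  linarith

theorem ineq_complete {L R : List (ℕ × ℕ)} {n : ℕ} {v : ℕ → ℝ} (hn : 0 < n) (hL0 : L ≠ [])
    (hR0 : R ≠ []) (hL : ∀ d ∈ L, Okp v n d) (hR : ∀ d ∈ R, Okp v n d)
    (hlt : sumv v L < sumv v R) : ∃ v', Steps v (n + 1) (ineq L R n) v' := by
  have hLl : 0 < L.length := List.length_pos_iff.2 hL0
  have hRl : 0 < R.length := List.length_pos_iff.2 hR0
  obtain ⟨v1, hs1, he1⟩ := chain_complete hL
  have ha1 : ∀ i ≤ n, v1 i = v i := fun i hi => hs1.agree i (by omega)
  obtain ⟨v2, hs2, he2⟩ := chain_complete (L := R) (n := n + L.length) (v := v1) fun d hd =>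
    (hR d hd).mono (by omega) ha1
  have hs12 := hs1.trans (by simp; omega) hs2
  set m := n + L.length + R.length with hm
  have ha2 : ∀ i ≤ n + L.length, v2 i = v1 i := fun i hi => hs2.agree i (by omega)
  have hposL : 0 < sumv v L := by
    unfold sumv
    apply List.sum_pos
    · intro x hx
      obtain ⟨d, hd, rfl⟩ := List.mem_map.1 hx
      linarith [(hL d hd).2.2.2]
    · simpa using hL0
  have e1 : v2 (n + L.length) = v n + sumv v L := by rw [ha2 _ le_rfl, he1]
  have e2 : v2 m = v n + sumv v L + sumv v R := by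
    rw [he2, ← ha2 _ le_rfl, e1, Okp.congr_sumv hR ha1]
  have e3 : v2 n = v n := by rw [ha2 _ (by omega), ha1 _ le_rfl]
  -- the first final value
  have hs3 : Steps v2 (m + 1) [some (0, n, n + L.length, m)]
      (Function.update v2 (m + 1) (v2 m + sumv v L)) := by
    refine Steps.one ⟨hn, by omega, by omega, by omega, by omega⟩ (by omega) ?_ ⟨fun _ => ?_,
      fun h => absurd h (by omega)⟩
    · rw [Nat.add_sub_cancel]; linarith
    · rw [e1, e3]; ring
  set v3 := Function.update v2 (m + 1) (v2 m + sumv v L) with hv3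
  have hs4 : Steps v3 (m + 2) [some (0, n + L.length, m, m)]
      (Function.update v3 (m + 2) (v2 m + sumv v R)) := by
    refine Steps.one ⟨by omega, by omega, by omega, by omega, by omega⟩ (by omega) ?_ ⟨fun _ => ?_,
      fun h => absurd h (by omega)⟩
    · rw [show m + 2 - 1 = m + 1 by omega, hv3, Function.update_self]
      linarith
    · rw [hv3, Function.update_of_ne (by omega), Function.update_of_ne (by omega), e1, e2]
      ring
  refine ⟨Function.update v3 (m + 2) (v2 m + sumv v R), ?_⟩
  have h5 := (hs12.trans (m := m + 1) (by simp; omega) hs3).trans (m := m + 2)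
    (by simp; omega) hs4
  have : ineq L R n = chain L n ++ chain R (n + L.length) ++ [some (0, n, n + L.length, m)] ++
      [some (0, n + L.length, m, m)] := by
    simp [ineq, hm]
  rw [this]
  exact h5

end Pool.Agent.NPC.ER.Oslp
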