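import Pool.Agent.H612.OslpProg

/-!
# Every system of constraints is equivalent to an increasing straight-line program
-/

namespace Pool.Agent.NPC.ER.Oslp

/-! ### Variables -/

/-- The program of one variable. -/
def vblk (s : ℕ) : List Ins := [some (0, 1, 5, s), none, some (0, 1, 4, s + 1)]

/-- The program of `m` variables. -/
def vblks : ℕ → ℕ → List Ins
  | 0, _ => []
  | m + 1, s => vblk s ++ vblks m (s + 3)

theorem vblks_length : ∀ (m s : ℕ), (vblks m s).length = 3 * m
  | 0, _ => rfl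
  | m + 1, s => by rw [vblks, List.length_append, vblks_length]; simp [vblk]; omega

theorem vblk_sound {v : ℕ → ℝ} {s : ℕ} (h1 : v 1 = 0) (h4 : v 4 = 2) (h5 : v 5 = 4)
    (h : Run v (s + 1) (vblk s)) : v s + 4 < v (s + 2) ∧ v (s + 2) < v s + 6 := by
  obtain ⟨-, k1, k2, -, k3, k4, -⟩ := h
  simp only [Holds] at k1 k4
  have e1 := k1.1 trivial
  have e2 := k4.1 trivial
  have r1 : s + 1 + 1 = s + 2 := rfl
  have r2 : s + 1 + 1 - 1 = s + 1 := rfl
  have r3 : s + 1 + 1 + 1 = s + 3 := rfl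
  have r4 : s + 1 + 1 + 1 - 1 = s + 2 := rfl
  rw [r2, r1] at k2
  rw [r4, r3] at k3
  rw [r3] at e2
  constructor <;> linarith

theorem vblk_complete {v : ℕ → ℝ} {s : ℕ} (hs : 6 ≤ s) (h1 : v 1 = 0) (h4 : v 4 = 2) (h5 : v 5 = 4)
    {x : ℝ} (hx1 : 4 < x) (hx2 : x < 6) :
    ∃ v', Steps v (s + 1) (vblk s) v' ∧ v' (s + 2) - v' s = x := by
  let v' : ℕ → ℝ := fun i => if i ≤ s then v i else if i = s + 1 then v s + 4 else
    if i = s + 2 then v s + x else v s + 6
  have w0 : ∀ i ≤ s, v' i = v i := fun i hi => by simp only [v']; rw [if_pos hi]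
  have w1 : v' (s + 1) = v s + 4 := by simp [v']
  have w2 : v' (s + 2) = v s + x := by simp [v']
  have w3 : v' (s + 3) = v s + 6 := by simp [v']
  have r0 : s + 1 - 1 = s := rfl
  have r1 : s + 1 + 1 = s + 2 := rfl
  have r3 : s + 1 + 1 + 1 = s + 3 := rfl
  have s1 : s + 2 - 1 = s + 1 := rfl
  have s2 : s + 3 - 1 = s + 2 := rfl
  refine ⟨v', ⟨⟨?_, trivial, ?_, trivial⟩, fun i hi => w0 i (by omega),
    ⟨?_, ?_, ?_, trivial, ?_, ?_, trivial⟩⟩, ?_⟩
  · exact ⟨by omega, by omega, by omega, by omega, by omega⟩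
  · exact ⟨by omega, by omega, by omega, by omega, by omega⟩
  · rw [r0, w0 s le_rfl, w1]; linarith
  · refine ⟨fun _ => ?_, fun h => absurd h (by omega)⟩
    rw [w1, w0 1 (by omega), w0 5 (by omega), w0 s le_rfl, h1, h5]; ring
  · rw [r1, s1, w1, w2]; linarith
  · rw [r3, s2, w2, w3]; linarith
  · refine ⟨fun _ => ?_, fun h => absurd h (by omega)⟩
    rw [r3, w3, w0 1 (by omega), w0 4 (by omega), w1, h1, h4]; ring
  · rw [w2, w0 s le_rfl]; ring

theorem vblks_sound {v : ℕ → ℝ} (h1 : v 1 = 0) (h4 : v 4 = 2) (h5 : v 5 = 4) :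
    ∀ {m s : ℕ}, Run v (s + 1) (vblks m s) → ∀ t < m,
      4 < v (s + 3 * t + 2) - v (s + 3 * t) ∧ v (s + 3 * t + 2) - v (s + 3 * t) < 6
  | 0, s, _, t, ht => by omega
  | m + 1, s, h, t, ht => by
    rw [vblks, run_append] at h
    have e1 := vblk_sound h1 h4 h5 h.1
    have h2 : Run v (s + 3 + 1) (vblks m (s + 3)) := h.2
    cases t with
    | zero =>
      simp only [Nat.mul_zero, Nat.add_zero]
      constructor <;> linarith [e1.1, e1.2]
    | succ t =>
      have := vblks_sound h1 h4 h5 h2 t (by omega)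
      rw [show s + 3 * (t + 1) = s + 3 + 3 * t by omega]
      exact this

theorem vblks_complete {x : ℕ → ℝ} (hx1 : ∀ i, 4 < x i) (hx2 : ∀ i, x i < 6) :
    ∀ {m s t₀ : ℕ} {v : ℕ → ℝ}, 6 ≤ s → v 1 = 0 → v 4 = 2 → v 5 = 4 →
      ∃ v', Steps v (s + 1) (vblks m s) v' ∧
        ∀ t < m, v' (s + 3 * t + 2) - v' (s + 3 * t) = x (t₀ + t)
  | 0, s, t₀, v, _, _, _, _ => ⟨v, Steps.nil _ _, fun t ht => by omega⟩
  | m + 1, s, t₀, v, hs, h1, h4, h5 => by
    obtain ⟨v1, hs1, he1⟩ := vblk_complete (s := s) (v := v) hs h1 h4 h5 (hx1 t₀) (hx2 t₀)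
    have ha1 : ∀ i ≤ s, v1 i = v i := fun i hi => hs1.agree i (by omega)
    obtain ⟨v2, hs2, he2⟩ := vblks_complete hx1 hx2 (m := m) (s := s + 3) (t₀ := t₀ + 1) (v := v1)
      (by omega) (by rw [ha1 _ (by omega), h1]) (by rw [ha1 _ (by omega), h4])
      (by rw [ha1 _ (by omega), h5])
    refine ⟨v2, hs1.trans (m := s + 3 + 1) rfl hs2, fun t ht => ?_⟩
    cases t with
    | zero =>
      simp only [Nat.mul_zero, Nat.add_zero]
      rw [hs2.agree _ (by omega), hs2.agree _ (by omega), he1]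
    | succ t =>
      have := he2 t (by omega)
      rw [show s + 3 * (t + 1) = s + 3 + 3 * t by omega, this]
      congr 1
      omega

/-! ### Constants -/

/-- Repeated squaring. -/
def sqs : ℕ → ℕ → List Ins
  | 0, _ => []
  | k + 1, n => some (1, 2, n, n) :: sqs k (n + 1)

theorem sqs_length : ∀ (k n : ℕ), (sqs k n).length = k
  | 0, _ => rfl
  | k + 1, n => by rw [sqs, List.length_cons, sqs_length]

theorem sqs_sound {v : ℕ → ℝ} (h1 : v 1 = 0) (h2 : v 2 = 1) : ∀ {k n : ℕ},
    Run v (n + 1) (sqs k n) → ∀ j ≤ k, v (n + j) = v n ^ 2 ^ j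
  | 0, n, _, j, hj => by
    have : j = 0 := by omega
    subst this; simp
  | k + 1, n, h, j, hj => by
    obtain ⟨-, k1, k2⟩ := h
    simp only [Holds] at k1
    have e1 := k1.2 (by norm_num)
    rw [h1, h2] at e1
    cases j with
    | zero => simp
    | succ j =>
      have := sqs_sound h1 h2 k2 j (by omega)
      rw [show n + (j + 1) = n + 1 + j by omega, this, pow_succ' 2 j, pow_mul]
      congr 1
      linear_combination e1

theorem sqs_complete : ∀ {k n : ℕ} {v : ℕ → ℝ}, 3 ≤ n → v 1 = 0 → v 2 = 1 → 1 < v n →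
    ∃ v', Steps v (n + 1) (sqs k n) v' ∧ ∀ j ≤ k, v' (n + j) = v n ^ 2 ^ j
  | 0, n, v, _, _, _, _ => ⟨v, Steps.nil _ _, fun j hj => by
      have : j = 0 := by omega
      subst this; simp⟩
  | k + 1, n, v, hn, h1, h2, h => by
    have hstep : Steps v (n + 1) [some (1, 2, n, n)] (Function.update v (n + 1) (v n * v n)) := by
      refine Steps.one ⟨by omega, by omega, by omega, by omega, by omega⟩ (by omega) ?_
        ⟨fun h => absurd h (by omega), fun _ => ?_⟩
      · rw [Nat.add_sub_cancel]; nlinarith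
      · rw [h1, h2]; ring
    set v1 := Function.update v (n + 1) (v n * v n) with hv1
    have ha : ∀ i ≤ n, v1 i = v i := fun i hi => by rw [hv1, Function.update_of_ne (by omega)]
    have hn1 : v1 (n + 1) = v n * v n := by rw [hv1, Function.update_self]
    obtain ⟨v2, hs2, he2⟩ := sqs_complete (k := k) (n := n + 1) (v := v1) (by omega)
      (by rw [ha _ (by omega), h1]) (by rw [ha _ (by omega), h2]) (by rw [hn1]; nlinarith)
    refine ⟨v2, hstep.trans (by simp) hs2, fun j hj => ?_⟩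
    cases j with
    | zero =>
      simp only [Nat.add_zero, pow_zero, pow_one]
      rw [hs2.agree _ (by omega), ha _ le_rfl]
    | succ j =>
      rw [show n + (j + 1) = n + 1 + j by omega, he2 j (by omega), hn1, pow_succ' 2 j, pow_mul]
      congr 1
      ring

/-- The constants. -/
def pre (κ : ℕ) : List Ins :=
  [none, none, some (0, 1, 2, 2)] ++ (sqs κ 4 ++ [some (1, 2, 3, 4 + κ), some (0, 1, 2, 4 + κ)])

theorem pre_length (κ : ℕ) : (pre κ).length = κ + 5 := by
  simp [pre, sqs_length]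

theorem pre_sound {v : ℕ → ℝ} {κ : ℕ} (hκ : 2 ≤ κ) (h1 : v 1 = 0) (h2 : v 2 = 1)
    (h : Run v 2 (pre κ)) :
    0 < v 3 - 1 ∧ Cst v (v 3 - 1) ∧ (v 3 - 1) * 2 ^ 2 ^ κ < 1 := by
  unfold pre at h
  rw [run_append, run_append, sqs_length] at h
  obtain ⟨⟨-, -, k1, -, -, k2, -⟩, k3, k4⟩ := h
  simp only [Holds] at k2
  have r1 : 2 + 1 - 1 = 2 := rfl
  have r2 : 2 + 1 = 3 := rfl
  have r3 : 2 + 1 + 1 = 4 := rfl
  rw [r1, r2] at k1
  have e4 := k2.1 trivial
  rw [r3] at e4
  have h4 : v 4 = 2 := by linarith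
  have k3' : Run v (4 + 1) (sqs κ 4) := k3
  have hs := sqs_sound h1 h2 k3'
  rw [h4] at hs
  have h5 : v 5 = 4 := by
    have := hs 1 (by omega)
    norm_num at this
    exact this
  have h6 : v 6 = 16 := by
    have := hs 2 (by omega)
    norm_num at this
    exact this
  have hW := hs κ le_rfl
  rw [show 2 + [none, none, some (0, 1, 2, 2)].length + κ = 5 + κ by rfl] at k4
  obtain ⟨-, k5, k6, k7, -⟩ := k4
  simp only [Holds] at k5 k7
  have e5 := k5.2 (by norm_num)
  have e7 := k7.1 trivial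
  rw [h1, h2, hW] at e5
  rw [h1, h2, hW] at e7
  rw [show 5 + κ + 1 - 1 = 5 + κ by omega] at k6
  refine ⟨by linarith, ⟨h1, h2, by ring, h4, h5, h6⟩, ?_⟩
  linarith

theorem pre_complete {κ : ℕ} (hκ : 2 ≤ κ) : ∃ δ : ℝ, 0 < δ ∧ ∃ v', Run v' 2 (pre κ) ∧
    WF 2 (pre κ) ∧ Cst v' δ := by
  set W : ℝ := 2 ^ 2 ^ κ with hW
  have hW2 : 2 < W := by
    rw [hW]
    calc (2 : ℝ) < 2 ^ 2 ^ 1 := by norm_num
      _ ≤ 2 ^ 2 ^ κ := by
        apply pow_le_pow_right₀ (by norm_num)
        exact Nat.pow_le_pow_right (by norm_num) (by omega)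
  set δ : ℝ := 1 / (2 * W) with hδ
  have hδ0 : 0 < δ := by positivity
  have hδW : δ * W = 1 / 2 := by rw [hδ]; field_simp
  have hδ1 : δ < 1 := by nlinarith
  let v0 : ℕ → ℝ := fun i => if i = 2 then 1 else if i = 3 then 1 + δ else if i = 4 then 2 else 0
  have a1 : v0 1 = 0 := by simp [v0]
  have a2 : v0 2 = 1 := by simp [v0]
  have a3 : v0 3 = 1 + δ := by simp [v0]
  have a4 : v0 4 = 2 := by simp [v0]
  have hs0 : Steps v0 2 [none, none, some (0, 1, 2, 2)] v0 := by
    refine ⟨⟨trivial, trivial, ⟨by omega, by omega, by omega, by omega, by omega⟩, trivial⟩,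
      fun _ _ => rfl, ⟨?_, trivial, ?_, trivial, ?_, ⟨fun _ => ?_, fun h => absurd h (by omega)⟩,
        trivial⟩⟩
    · show v0 1 < v0 2; rw [a1, a2]; norm_num
    · show v0 2 < v0 3; rw [a2, a3]; linarith
    · show v0 3 < v0 4; rw [a3, a4]; linarith
    · show v0 4 + v0 1 = v0 2 + v0 2; rw [a4, a1, a2]; norm_num
  obtain ⟨v1, hs1, he1⟩ := sqs_complete (k := κ) (n := 4) (v := v0) (by norm_num) a1 a2
    (by rw [a4]; norm_num)
  have hs01 := hs0.trans (m := 4 + 1) rfl hs1
  have ha1 : ∀ i ≤ 4, v1 i = v0 i := fun i hi => hs1.agree i (by omega)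
  have hv1W : v1 (4 + κ) = W := by rw [he1 κ le_rfl, a4]
  -- last two constants
  have hs2 : Steps v1 (5 + κ) [some (1, 2, 3, 4 + κ)]
      (Function.update v1 (5 + κ) ((1 + δ) * W)) := by
    refine Steps.one ⟨by omega, by omega, by omega, by omega, by omega⟩ (by omega) ?_
      ⟨fun h => absurd h (by omega), fun _ => ?_⟩
    · rw [show 5 + κ - 1 = 4 + κ by omega, hv1W]; nlinarith
    · rw [ha1 1 (by omega), ha1 2 (by omega), ha1 3 (by omega), hv1W, a1, a2, a3]; ring
  set v2 := Function.update v1 (5 + κ) ((1 + δ) * W) with hv2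
  have hs3 : Steps v2 (6 + κ) [some (0, 1, 2, 4 + κ)] (Function.update v2 (6 + κ) (W + 1)) := by
    refine Steps.one ⟨by omega, by omega, by omega, by omega, by omega⟩ (by omega) ?_
      ⟨fun _ => ?_, fun h => absurd h (by omega)⟩
    · rw [show 6 + κ - 1 = 5 + κ by omega, hv2, Function.update_self]; linarith
    · rw [hv2, Function.update_of_ne (by omega), Function.update_of_ne (by omega),
        Function.update_of_ne (by omega), ha1 1 (by omega), ha1 2 (by omega), hv1W, a1, a2]; ring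
  have hall := (hs01.trans (m := 5 + κ) (by simp [sqs_length]; omega) hs2).trans (m := 6 + κ)
    (by simp [sqs_length]; omega) hs3
  have hpre : pre κ = [none, none, some (0, 1, 2, 2)] ++ sqs κ 4 ++ [some (1, 2, 3, 4 + κ)] ++
      [some (0, 1, 2, 4 + κ)] := by simp [pre]
  rw [← hpre] at hall
  refine ⟨δ, hδ0, _, hall.run, hall.wf, ?_⟩
  have hval : ∀ i < 5 + κ, Function.update v2 (6 + κ) (W + 1) i = v1 i := by
    intro i hi
    rw [Function.update_of_ne (by omega), hv2, Function.update_of_ne (by omega)]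
  refine ⟨?_, ?_, ?_, ?_, ?_, ?_⟩
  · rw [hval _ (by omega), ha1 _ (by omega), a1]
  · rw [hval _ (by omega), ha1 _ (by omega), a2]
  · rw [hval _ (by omega), ha1 _ (by omega), a3]
  · rw [hval _ (by omega), ha1 _ (by omega), a4]
  · rw [hval _ (by omega), show 5 = 4 + 1 from rfl, he1 1 (by omega), a4]; norm_num
  · rw [hval _ (by omega), show 6 = 4 + 2 from rfl, he1 2 (by omega), a4]; norm_num

/-! ### The program of a system -/

/-- The indices of a variable. -/
def xvar (s : ℕ) (vs : List ℕ) (i : ℕ) : ℕ × ℕ := (s + 3 * vs.idxOf i, s + 3 * vs.idxOf i + 2)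

/-- The program of a system, given `κ` and the list of variables. -/
def prog0 (κ : ℕ) (vs : List ℕ) (S : List Con) : List Ins :=
  pre κ ++ (vblks vs.length (6 + κ) ++ cblks (xvar (6 + κ) vs) S (6 + κ + 3 * vs.length))

/-- The program of a system. -/
def prog (S : List Con) : List Ins :=
  prog0 (gapK (bsys S).length) (svars (bsys S)) (bsys S)

theorem err_congr {c : Con} {w w' : ℕ → ℝ} (h : ∀ i ∈ c.vars, w i = w' i) : c.err w = c.err w' := by
  cases c with
  | one i => simp only [Con.err]; rw [h i (by simp [Con.vars])]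
  | add i j k =>
    simp only [Con.err]
    rw [h i (by simp [Con.vars]), h j (by simp [Con.vars]), h k (by simp [Con.vars])]
  | mul i j k =>
    simp only [Con.err]
    rw [h i (by simp [Con.vars]), h j (by simp [Con.vars]), h k (by simp [Con.vars])]

theorem prog_sound {S : List Con} (h : OSat (prog S)) : Sat S := by
  obtain ⟨v0, h0⟩ := h
  -- normalisation
  have hpos : v0 1 < v0 2 := by
    have : prog S = none :: (prog S).tail := rfl
    rw [this] at h0
    exact h0.1
  set e := (v0 2 - v0 1)⁻¹ with he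
  have he0 : 0 < e := inv_pos.2 (by linarith)
  have hrun := run_affine (c := v0 1) he0 h0
  set v : ℕ → ℝ := fun i => (v0 i - v0 1) * e with hv
  have h1 : v 1 = 0 := by simp [hv]
  have h2 : v 2 = 1 := by
    simp only [hv, he]
    exact mul_inv_cancel₀ (by linarith)
  clear_value v
  unfold prog prog0 at hrun
  set S' := bsys S with hS'
  set κ := gapK S'.length with hκ
  rw [run_append, run_append, pre_length, vblks_length] at hrun
  obtain ⟨k1, k2, k3⟩ := hrun
  have hκ2 : 2 ≤ κ := by rw [hκ]; unfold gapK; omega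
  obtain ⟨hδ, hc, hsmall⟩ := pre_sound hκ2 h1 h2 k1
  rw [show 2 + (κ + 5) = 6 + κ + 1 by omega] at k2
  have hx := vblks_sound h1 hc.h4 hc.h5 k2
  have herr := cblks_sound (X := xvar (6 + κ) (svars S')) hc (by omega)
    (S := S') (n := 6 + κ + 3 * (svars S').length) (by convert k3 using 1; omega)
  set w : ℕ → ℝ := fun i => v (xvar (6 + κ) (svars S') i).2 -
    v (xvar (6 + κ) (svars S') i).1 - 5 with hw
  obtain ⟨w', hw'⟩ := holds_of_approx (S := S') (w := w) (fun i hi => by
    have hi' : (svars S').idxOf i < (svars S').length := List.idxOf_lt_length_of_mem hi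
    have := hx _ hi'
    rw [abs_le]
    simp only [hw, xvar]
    constructor <;> linarith [this.1, this.2]) (fun c hc' => by
    have hB : (0 : ℝ) < 2 ^ 2 ^ κ := by positivity
    have h3 := herr c hc'
    have h4 : |c.err w| * 2 ^ 2 ^ κ < (v 3 - 1) * 2 ^ 2 ^ κ := mul_lt_mul_of_pos_right h3 hB
    linarith)
  exact sat_of_bsys hw'

theorem prog_complete {S : List Con} (h : Sat S) : OSat (prog S) := by
  obtain ⟨w, hw, hwc⟩ := bsys_of_sat h
  unfold prog prog0
  set S' := bsys S with hS'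
  set κ := gapK S'.length with hκ
  have hκ2 : 2 ≤ κ := by rw [hκ]; unfold gapK; omega
  obtain ⟨δ, hδ, v1, hr1, hwf1, hc1⟩ := pre_complete hκ2
  have hs1 : Steps v1 2 (pre κ) v1 := ⟨hwf1, fun _ _ => rfl, hr1⟩
  set vs := svars S' with hvs
  obtain ⟨v2, hs2, he2⟩ := vblks_complete (x := fun t => w (vs.getD t 0) + 5)
    (fun i => by have := abs_le.1 (hw (vs.getD i 0)); linarith [this.1])
    (fun i => by have := abs_le.1 (hw (vs.getD i 0)); linarith [this.2])
    (m := vs.length) (s := 6 + κ) (t₀ := 0) (v := v1) (by omega) hc1.h1 hc1.h4 hc1.h5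
  have ha2 : ∀ i ≤ 6 + κ, v2 i = v1 i := fun i hi => hs2.agree i (by omega)
  have hc2 : Cst v2 δ := hc1.congr fun i hi => ha2 i (by omega)
  have hX : ∀ i ∈ vs, v2 (xvar (6 + κ) vs i).2 - v2 (xvar (6 + κ) vs i).1 = w i + 5 := by
    intro i hi
    have hi' : vs.idxOf i < vs.length := List.idxOf_lt_length_of_mem hi
    have := he2 _ hi'
    simp only [xvar]
    rw [this]
    simp only [Nat.zero_add]
    rw [List.getD_eq_getElem?_getD, List.getElem?_eq_getElem hi', List.getElem_idxOf hi']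
    rfl
  have hmem : ∀ c ∈ S', ∀ i ∈ c.vars, i ∈ vs := fun c hc i hi => mem_svars hc hi
  have hwb : ∀ i, -1 < w i ∧ w i < 1 := fun i => by
    have := abs_le.1 (hw i)
    constructor <;> linarith [this.1, this.2]
  obtain ⟨v3, hs3⟩ := cblks_complete (X := xvar (6 + κ) vs) hδ (S := S')
    (n := 6 + κ + 3 * vs.length) (v := v2) (by omega) hc2
    (fun c hc i hi => by
      have hi' : vs.idxOf i < vs.length := List.idxOf_lt_length_of_mem (hmem c hc i hi)
      refine ⟨by simp only [xvar]; omega, by simp only [xvar]; omega, by simp only [xvar]; omega, ?_⟩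
      have := hX i (hmem c hc i hi)
      linarith [(hwb i).1])
    (fun c hc i hi => by rw [hX i (hmem c hc i hi)]; linarith [(hwb i).1])
    (fun c hc i hi => by rw [hX i (hmem c hc i hi)]; linarith [(hwb i).2])
    (fun c hc => by
      rw [err_congr (w' := w) fun i hi => by rw [hX i (hmem c hc i hi)]; ring]
      exact Con.err_eq_zero.2 (hwc c hc))
  exact ⟨v3, (hs1.trans (m := 6 + κ + 1) (by rw [pre_length]; omega)
    (hs2.trans (by rw [vblks_length]; omega) hs3)).run⟩

theorem prog_iff (S : List Con) : Sat S ↔ OSat (prog S) := ⟨prog_complete, prog_sound⟩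

end Pool.Agent.NPC.ER.Oslp
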