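import Pool.Agent.H612.Oslp

/-!
# Systems of constraints as increasing straight-line programs
-/

namespace Pool.Agent.NPC.ER.Oslp

/-! ### Products -/

/-- The product of two differences. -/
def prod (a b : ℕ × ℕ) (n : ℕ) : List Ins :=
  [some (0, 1, 2, n), some (0, a.1, a.2, n), some (0, b.1, b.2, n + 2),
    some (n, n + 1, n + 2, n + 2), some (n, n + 1, n + 2, n + 3)]

theorem prod_sound {v : ℕ → ℝ} {a b : ℕ × ℕ} {n : ℕ} (hn : 0 < n) (h1 : v 1 = 0) (h2 : v 2 = 1)
    (h : Run v (n + 1) (prod a b n)) :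
    v (n + 5) - v (n + 4) = (v a.2 - v a.1) * (v b.2 - v b.1) := by
  obtain ⟨-, k1, -, k2, -, k3, -, k4, -, k5, -⟩ := h
  simp only [Holds] at k1 k2 k3 k4 k5
  have e1 := k1.1 trivial
  have e2 := k2.1 trivial
  have e3 := k3.1 trivial
  have e4 := k4.2 hn
  have e5 := k5.2 hn
  have f1 : v (n + 1) - v n = 1 := by linarith
  have f2 : v (n + 2) = v n + (v a.2 - v a.1) := by
    have : n + 1 + 1 = n + 2 := rfl
    rw [this] at e2; linarith
  have f3 : v (n + 3) = v n + (v a.2 - v a.1) + (v b.2 - v b.1) := by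
    have : n + 1 + 1 + 1 = n + 3 := rfl
    rw [this] at e3; linarith
  have g4 : n + 1 + 1 + 1 + 1 = n + 4 := rfl
  have g5 : n + 1 + 1 + 1 + 1 + 1 = n + 5 := rfl
  rw [g4, f1, f2] at e4
  rw [g5, f1, f2, f3] at e5
  linear_combination e5 - e4

theorem prod_complete {v : ℕ → ℝ} {a b : ℕ × ℕ} {n : ℕ} (hn : 1 < n) (h1 : v 1 = 0) (h2 : v 2 = 1)
    (ha : Okp v n a) (hb : Okp v n b) (ha1 : 4 < v a.2 - v a.1) 
    (hb1 : 4 < v b.2 - v b.1) (hb2 : v b.2 - v b.1 < 6) :
    ∃ v', Steps v (n + 1) (prod a b n) v' ∧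
      v' (n + 5) - v' (n + 4) = (v a.2 - v a.1) * (v b.2 - v b.1) := by
  obtain ⟨a0, a1, a2, a3⟩ := ha
  obtain ⟨b0, b1, b2, b3⟩ := hb
  set A := v a.2 - v a.1 with hA
  set B := v b.2 - v b.1 with hB
  let v' : ℕ → ℝ := fun i => if i ≤ n then v i else if i = n + 1 then v n + 1 else
    if i = n + 2 then v n + A else if i = n + 3 then v n + A + B else
    if i = n + 4 then v n + A * A else v n + A * A + A * B
  have w0 : ∀ i ≤ n, v' i = v i := fun i hi => by simp only [v']; rw [if_pos hi]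
  have w1 : v' (n + 1) = v n + 1 := by simp [v']
  have w2 : v' (n + 2) = v n + A := by simp [v']
  have w3 : v' (n + 3) = v n + A + B := by simp [v']
  have w4 : v' (n + 4) = v n + A * A := by simp [v']
  have w5 : v' (n + 5) = v n + A * A + A * B := by simp [v']
  have r0 : n + 1 - 1 = n := rfl
  have r1 : n + 1 + 1 = n + 2 := rfl
  have r2 : n + 1 + 1 + 1 = n + 3 := rfl
  have r3 : n + 1 + 1 + 1 + 1 = n + 4 := rfl
  have r4 : n + 1 + 1 + 1 + 1 + 1 = n + 5 := rfl
  have s1 : n + 2 - 1 = n + 1 := rfl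
  have s2 : n + 3 - 1 = n + 2 := rfl
  have s3 : n + 4 - 1 = n + 3 := rfl
  have s4 : n + 5 - 1 = n + 4 := rfl
  refine ⟨v', ⟨⟨?_, ?_, ?_, ?_, ?_, trivial⟩, fun i hi => w0 i (by omega),
    ⟨?_, ?_, ?_, ?_, ?_, ?_, ?_, ?_, ?_, ?_, trivial⟩⟩, ?_⟩
  · exact ⟨by omega, by omega, by omega, by omega, by omega⟩
  · exact ⟨by omega, by omega, by omega, by omega, by omega⟩
  · exact ⟨by omega, by omega, by omega, by omega, by omega⟩
  · exact ⟨by omega, by omega, by omega, by omega, by omega⟩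
  · exact ⟨by omega, by omega, by omega, by omega, by omega⟩
  · rw [r0, w0 n le_rfl, w1]; linarith
  · refine ⟨fun _ => ?_, fun h => absurd h (by omega)⟩
    rw [w1, w0 1 (by omega), w0 2 (by omega), w0 n le_rfl, h1, h2]; ring
  · rw [r1, s1, w1, w2]; linarith
  · refine ⟨fun _ => ?_, fun h => absurd h (by omega)⟩
    rw [r1, w2, w0 _ (by omega), w0 _ a2, w0 n le_rfl]; ring
  · rw [r2, s2, w2, w3]; linarith
  · refine ⟨fun _ => ?_, fun h => absurd h (by omega)⟩
    rw [r2, w3, w0 _ (by omega), w0 _ b2, w2]; ring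
  · rw [r3, s3, w3, w4]; nlinarith
  · refine ⟨fun h => absurd h (by omega), fun _ => ?_⟩
    rw [r3, w4, w0 n le_rfl, w1, w2]; ring
  · rw [r4, s4, w4, w5]; nlinarith
  · refine ⟨fun h => absurd h (by omega), fun _ => ?_⟩
    rw [r4, w5, w0 n le_rfl, w1, w2, w3]; ring
  · rw [w5, w4]; ring

/-! ### Constraints -/

/-- The sides of the equation expressed by a constraint; `X i` is the pair of indices of the
variable `xᵢ = wᵢ + 5`, and `P` the pair of indices of the product. -/
def LR (X : ℕ → ℕ × ℕ) (P : ℕ × ℕ) : Con → List (ℕ × ℕ) × List (ℕ × ℕ)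
  | Con.one i => ([(1, 6), (1, 6), (1, 5), (1, 5), (1, 2), (1, 5)],
      [X i, X i, X i, X i, X i, X i, X i, X i, (1, 4), (1, 2), (1, 2)])
  | Con.add i j k => ([X i, X j, (1, 2), (1, 2), (1, 4), (1, 5)],
      [X k, (1, 5), (1, 2), (1, 2), (1, 2), (1, 2), (1, 2), (1, 2), (1, 2), (1, 2), (1, 2)])
  | Con.mul i j k => ([P, (1, 6), (1, 5), (1, 5), (1, 5), (1, 4)],
      [X i, X i, X i, X i, X i, X j, X j, X j, X j, X j, X k])

/-- The factors. -/
def fac : Con → ℕ × ℕ
  | Con.one i => (i, i)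
  | Con.add i j _ => (i, j)
  | Con.mul i j _ => (i, j)

theorem LR_length1 (X : ℕ → ℕ × ℕ) (P : ℕ × ℕ) (c : Con) : (LR X P c).1.length = 6 := by
  cases c <;> rfl

theorem LR_length2 (X : ℕ → ℕ × ℕ) (P : ℕ × ℕ) (c : Con) : (LR X P c).2.length = 11 := by
  cases c <;> rfl

/-- The program of a constraint. -/
def cblk (X : ℕ → ℕ × ℕ) (c : Con) (n : ℕ) : List Ins :=
  prod (X (fac c).1) (X (fac c).2) n ++
    (ineq (LR X (n + 4, n + 5) c).1 ((LR X (n + 4, n + 5) c).2 ++ [(2, 3)]) (n + 5) ++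
      ineq (LR X (n + 4, n + 5) c).2 ((LR X (n + 4, n + 5) c).1 ++ [(2, 3)]) (n + 25))

theorem cblk_length (X : ℕ → ℕ × ℕ) (c : Con) (n : ℕ) : (cblk X c n).length = 45 := by
  simp [cblk, ineq_length, LR_length1, LR_length2, prod]

/-- The values of the constants. -/
structure Cst (v : ℕ → ℝ) (δ : ℝ) : Prop where
  h1 : v 1 = 0
  h2 : v 2 = 1
  h3 : v 3 = 1 + δ
  h4 : v 4 = 2
  h5 : v 5 = 4
  h6 : v 6 = 16

theorem Cst.congr {v v' : ℕ → ℝ} {δ : ℝ} (h : Cst v δ) (ha : ∀ i ≤ 6, v' i = v i) : Cst v' δ :=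
  ⟨by rw [ha _ (by norm_num), h.h1], by rw [ha _ (by norm_num), h.h2],
    by rw [ha _ (by norm_num), h.h3], by rw [ha _ (by norm_num), h.h4],
    by rw [ha _ (by norm_num), h.h5], by rw [ha _ (by norm_num), h.h6]⟩

theorem LR_diff {v : ℕ → ℝ} {δ : ℝ} (hc : Cst v δ) (X : ℕ → ℕ × ℕ) (P : ℕ × ℕ) (c : Con)
    (hP : v P.2 - v P.1 = (v (X (fac c).1).2 - v (X (fac c).1).1) *
      (v (X (fac c).2).2 - v (X (fac c).2).1)) :
    |sumv v (LR X P c).1 - sumv v (LR X P c).2| =
      |c.err (fun i => v (X i).2 - v (X i).1 - 5)| := by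
  obtain ⟨h1, h2, h3, h4, h5, h6⟩ := hc
  cases c with
  | one i =>
    rw [abs_sub_comm]
    congr 1
    simp only [LR, sumv_cons, sumv_nil, Con.err, h1, h2, h4, h5, h6]
    ring
  | add i j k =>
    congr 1
    simp only [LR, sumv_cons, sumv_nil, Con.err, h1, h2, h4, h5, h6]
    ring
  | mul i j k =>
    congr 1
    simp only [LR, sumv_cons, sumv_nil, Con.err, h1, h2, h4, h5, h6, hP, fac]
    ring

theorem cblk_sound {v : ℕ → ℝ} {δ : ℝ} {n : ℕ} {X : ℕ → ℕ × ℕ} {c : Con} (hn : 0 < n)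
    (hc : Cst v δ) (h : Run v (n + 1) (cblk X c n)) :
    |c.err (fun i => v (X i).2 - v (X i).1 - 5)| < δ := by
  unfold cblk at h
  rw [run_append, run_append] at h
  obtain ⟨h1, h2, h3⟩ := h
  have e1 : (prod (X (fac c).1) (X (fac c).2) n).length = 5 := rfl
  rw [ineq_length, e1, List.length_append, LR_length1, LR_length2] at h3
  rw [e1] at h2
  have hP := prod_sound hn hc.h1 hc.h2 h1
  have k2 := ineq_sound (n := n + 5) (by convert h2 using 1)
  have k3 := ineq_sound (n := n + 25) (by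
    convert h3 using 1
    simp only [List.length_cons, List.length_nil])
  rw [← LR_diff hc X (n + 4, n + 5) c hP]
  rw [sumv_append, sumv_cons, sumv_nil, hc.h3, hc.h2] at k2 k3
  rw [abs_lt]
  constructor <;> linarith

theorem cblk_complete {v : ℕ → ℝ} {δ : ℝ} {n : ℕ} {X : ℕ → ℕ × ℕ} {c : Con} (hn : 6 ≤ n)
    (hδ : 0 < δ) (hc : Cst v δ) (hX : ∀ i ∈ c.vars, Okp v n (X i))
    (hX1 : ∀ i ∈ c.vars, 4 < v (X i).2 - v (X i).1)
    (hX2 : ∀ i ∈ c.vars, v (X i).2 - v (X i).1 < 6)
    (herr : c.err (fun i => v (X i).2 - v (X i).1 - 5) = 0) :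
    ∃ v', Steps v (n + 1) (cblk X c n) v' := by
  have hf1 : (fac c).1 ∈ c.vars := by cases c <;> simp [fac, Con.vars]
  have hf2 : (fac c).2 ∈ c.vars := by cases c <;> simp [fac, Con.vars]
  obtain ⟨v1, hs1, he1⟩ := prod_complete (by omega) hc.h1 hc.h2 (hX _ hf1) (hX _ hf2)
    (hX1 _ hf1) (hX1 _ hf2) (hX2 _ hf2)
  have ha1 : ∀ i ≤ n, v1 i = v i := fun i hi => hs1.agree i (by omega)
  have hc1 : Cst v1 δ := hc.congr fun i hi => ha1 i (by omega)
  have hXv : ∀ i ∈ c.vars, v1 (X i).2 - v1 (X i).1 = v (X i).2 - v (X i).1 := by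
    intro i hi
    obtain ⟨g1, g2, g3, -⟩ := hX i hi
    rw [ha1 _ g3, ha1 _ (by omega)]
  have hprodpos : v1 (n + 4) < v1 (n + 5) := by
    have := mul_pos (show 0 < v (X (fac c).1).2 - v (X (fac c).1).1 by linarith [hX1 _ hf1])
      (show 0 < v (X (fac c).2).2 - v (X (fac c).2).1 by linarith [hX1 _ hf2])
    linarith
  have hcok : ∀ k ∈ [2, 3, 4, 5, 6], Okp v1 (n + 5) (1, k) := by
    intro k hk
    simp only [List.mem_cons, List.not_mem_nil, or_false] at hk
    refine ⟨by norm_num, by simp only; omega, by simp only; omega, ?_⟩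
    simp only
    rw [hc1.h1]
    rcases hk with rfl | rfl | rfl | rfl | rfl
    · rw [hc1.h2]; norm_num
    · rw [hc1.h3]; linarith
    · rw [hc1.h4]; norm_num
    · rw [hc1.h5]; norm_num
    · rw [hc1.h6]; norm_num
  have hδok : Okp v1 (n + 5) (2, 3) := by
    refine ⟨by norm_num, by norm_num, by simp only; omega, ?_⟩
    simp only
    rw [hc1.h2, hc1.h3]; linarith
  have hXok : ∀ i ∈ c.vars, Okp v1 (n + 5) (X i) := fun i hi => (hX i hi).mono (by omega) ha1
  have hPok : Okp v1 (n + 5) (n + 4, n + 5) :=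
    ⟨by simp only; omega, by simp only; omega, le_rfl, hprodpos⟩
  have hL : ∀ d ∈ (LR X (n + 4, n + 5) c).1, Okp v1 (n + 5) d := by
    intro d hd
    cases c with
    | one i =>
      simp only [LR, List.mem_cons, List.not_mem_nil, or_false] at hd
      rcases hd with rfl | rfl | rfl | rfl | rfl | rfl <;> exact hcok _ (by simp)
    | add i j k =>
      simp only [LR, List.mem_cons, List.not_mem_nil, or_false] at hd
      rcases hd with rfl | rfl | rfl | rfl | rfl | rfl
      · exact hXok _ (by simp [Con.vars])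
      · exact hXok _ (by simp [Con.vars])
      all_goals exact hcok _ (by simp)
    | mul i j k =>
      simp only [LR, List.mem_cons, List.not_mem_nil, or_false] at hd
      rcases hd with rfl | rfl | rfl | rfl | rfl | rfl
      · exact hPok
      all_goals exact hcok _ (by simp)
  have hR : ∀ d ∈ (LR X (n + 4, n + 5) c).2, Okp v1 (n + 5) d := by
    intro d hd
    cases c with
    | one i =>
      simp only [LR, List.mem_cons, List.not_mem_nil, or_false] at hd
      rcases hd with rfl | rfl | rfl | rfl | rfl | rfl | rfl | rfl | rfl | rfl | rfl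
      all_goals first
        | exact hXok _ (by simp [Con.vars])
        | exact hcok _ (by simp)
    | add i j k =>
      simp only [LR, List.mem_cons, List.not_mem_nil, or_false] at hd
      rcases hd with rfl | rfl | rfl | rfl | rfl | rfl | rfl | rfl | rfl | rfl | rfl
      all_goals first
        | exact hXok _ (by simp [Con.vars])
        | exact hcok _ (by simp)
    | mul i j k =>
      simp only [LR, List.mem_cons, List.not_mem_nil, or_false] at hd
      rcases hd with rfl | rfl | rfl | rfl | rfl | rfl | rfl | rfl | rfl | rfl | rfl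
      all_goals exact hXok _ (by simp [Con.vars])
  have hdiff := LR_diff hc1 X (n + 4, n + 5) c (by
    simp only
    rw [he1, hXv _ hf1, hXv _ hf2])
  have herr1 : c.err (fun i => v1 (X i).2 - v1 (X i).1 - 5) = 0 := by
    rw [← herr]
    cases c with
    | one i => simp only [Con.err]; rw [hXv i (by simp [Con.vars])]
    | add i j k =>
      simp only [Con.err]
      rw [hXv i (by simp [Con.vars]), hXv j (by simp [Con.vars]), hXv k (by simp [Con.vars])]
    | mul i j k =>
      simp only [Con.err]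
      rw [hXv i (by simp [Con.vars]), hXv j (by simp [Con.vars]), hXv k (by simp [Con.vars])]
  rw [herr1, abs_zero, abs_eq_zero, sub_eq_zero] at hdiff
  have hδv : v1 3 - v1 2 = δ := by rw [hc1.h3, hc1.h2]; ring
  obtain ⟨v2, hs2⟩ := ineq_complete (n := n + 5) (v := v1) (by omega)
    (L := (LR X (n + 4, n + 5) c).1) (R := (LR X (n + 4, n + 5) c).2 ++ [(2, 3)])
    (by rw [← List.length_pos_iff, LR_length1]; norm_num) (by simp) hL
    (by
      intro d hd
      rcases List.mem_append.1 hd with hd | hd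
      · exact hR d hd
      · simp only [List.mem_cons, List.not_mem_nil, or_false] at hd
        rw [hd]; exact hδok)
    (by rw [sumv_append, sumv_cons, sumv_nil, hdiff, hδv]; linarith)
  have ha2 : ∀ i ≤ n + 5, v2 i = v1 i := fun i hi => hs2.agree i (by omega)
  obtain ⟨v3, hs3⟩ := ineq_complete (n := n + 25) (v := v2) (by omega)
    (L := (LR X (n + 4, n + 5) c).2) (R := (LR X (n + 4, n + 5) c).1 ++ [(2, 3)])
    (by rw [← List.length_pos_iff, LR_length2]; norm_num) (by simp)
    (fun d hd => (hR d hd).mono (by omega) ha2)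
    (by
      intro d hd
      rcases List.mem_append.1 hd with hd | hd
      · exact (hL d hd).mono (by omega) ha2
      · simp only [List.mem_cons, List.not_mem_nil, or_false] at hd
        rw [hd]; exact hδok.mono (by omega) ha2)
    (by
      rw [sumv_append, sumv_cons, sumv_nil, Okp.congr_sumv hL ha2, Okp.congr_sumv hR ha2, hdiff,
        ha2 _ (by omega), ha2 _ (by omega), hδv]
      linarith)
  refine ⟨v3, hs1.trans rfl (hs2.trans ?_ hs3)⟩
  rw [ineq_length, List.length_append, LR_length1, LR_length2]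
  rfl

/-- The program of a system of constraints. -/
def cblks (X : ℕ → ℕ × ℕ) : List Con → ℕ → List Ins
  | [], _ => []
  | c :: S, n => cblk X c n ++ cblks X S (n + 45)

theorem cblks_sound {v : ℕ → ℝ} {δ : ℝ} {X : ℕ → ℕ × ℕ} (hc : Cst v δ) :
    ∀ {S : List Con} {n : ℕ}, 0 < n → Run v (n + 1) (cblks X S n) →
      ∀ c ∈ S, |c.err (fun i => v (X i).2 - v (X i).1 - 5)| < δ
  | [], n, _, _ => by simp
  | a :: S, n, hn, h => by
    rw [cblks, run_append, cblk_length] at h
    rw [List.forall_mem_cons]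
    exact ⟨cblk_sound hn hc h.1, cblks_sound hc (n := n + 45) (by omega)
      (by rw [show n + 45 + 1 = n + 1 + 45 by omega]; exact h.2)⟩

theorem cblks_complete {δ : ℝ} {X : ℕ → ℕ × ℕ} (hδ : 0 < δ) :
    ∀ {S : List Con} {n : ℕ} {v : ℕ → ℝ}, 6 ≤ n → Cst v δ →
      (∀ c ∈ S, ∀ i ∈ c.vars, Okp v n (X i)) →
      (∀ c ∈ S, ∀ i ∈ c.vars, 4 < v (X i).2 - v (X i).1) →
      (∀ c ∈ S, ∀ i ∈ c.vars, v (X i).2 - v (X i).1 < 6) →
      (∀ c ∈ S, c.err (fun i => v (X i).2 - v (X i).1 - 5) = 0) →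
      ∃ v', Steps v (n + 1) (cblks X S n) v'
  | [], n, v, _, _, _, _, _, _ => ⟨v, Steps.nil _ _⟩
  | a :: S, n, v, hn, hc, hX, hX1, hX2, herr => by
    rw [List.forall_mem_cons] at hX hX1 hX2 herr
    obtain ⟨v1, hs1⟩ := cblk_complete hn hδ hc hX.1 hX1.1 hX2.1 herr.1
    have ha1 : ∀ i ≤ n, v1 i = v i := fun i hi => hs1.agree i (by omega)
    have hXv : ∀ c ∈ S, ∀ i ∈ c.vars, v1 (X i).2 - v1 (X i).1 = v (X i).2 - v (X i).1 := by
      intro c hc i hi
      obtain ⟨g1, g2, g3, -⟩ := hX.2 c hc i hi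
      rw [ha1 _ g3, ha1 _ (by omega)]
    obtain ⟨v2, hs2⟩ := cblks_complete hδ (S := S) (n := n + 45) (v := v1) (by omega)
      (hc.congr fun i hi => ha1 i (by omega))
      (fun c hc i hi => (hX.2 c hc i hi).mono (by omega) ha1)
      (fun c hc i hi => by rw [hXv c hc i hi]; exact hX1.2 c hc i hi)
      (fun c hc i hi => by rw [hXv c hc i hi]; exact hX2.2 c hc i hi)
      (fun c hc => by
        rw [← herr.2 c hc]
        have hv := hXv c hc
        cases c with
        | one i => simp only [Con.err]; rw [hv i (by simp [Con.vars])]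
        | add i j k =>
          simp only [Con.err]
          rw [hv i (by simp [Con.vars]), hv j (by simp [Con.vars]), hv k (by simp [Con.vars])]
        | mul i j k =>
          simp only [Con.err]
          rw [hv i (by simp [Con.vars]), hv j (by simp [Con.vars]), hv k (by simp [Con.vars])])
    exact ⟨v2, hs1.trans (m := n + 45 + 1) (by rw [cblk_length]) hs2⟩

end Pool.Agent.NPC.ER.Oslp
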