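import Mathlib

/-!
# Incidence patterns of points and hyperplanes

A pattern is a list of names of vectors of two kinds (points and hyperplanes), in an order of
construction. Every name has a list of parents, earlier names of the other kind, with which it is
incident; all the other pairs (point, hyperplane) have a prescribed sign.
-/

namespace Pool.Agent.NPC.ER.Sgn

open Matrix

/-- The real number `x` is nonzero, and it is positive if and only if `b` is true. -/
def SS (b : Bool) (x : ℝ) : Prop := if b = true then 0 < x else x < 0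

@[simp] theorem SS_true {x : ℝ} : SS true x ↔ 0 < x := by simp [SS]

@[simp] theorem SS_false {x : ℝ} : SS false x ↔ x < 0 := by simp [SS]

theorem SS.ne {b : Bool} {x : ℝ} (h : SS b x) : x ≠ 0 := by
  cases b
  · exact (SS_false.1 h).ne
  · exact (SS_true.1 h).ne'

/-- Patterns. -/
structure Pat (ι : Type) where
  /-- the names, in the order of construction -/
  ns : List ι
  /-- `true` for points, `false` for hyperplanes -/
  kd : ι → Bool
  /-- the parents -/
  par : ι → List ι
  /-- the signs of the pairs (point, hyperplane) -/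
  sg : ι → ι → Bool

variable {ι : Type}

/-- Exact realisations of a pattern. -/
def Pat.Exact (P : Pat ι) {d : ℕ} (X : ι → Fin d → ℝ) : Prop :=
  ∀ a ∈ P.ns, ∀ b ∈ P.ns, P.kd a = true → P.kd b = false →
    ((a ∈ P.par b ∨ b ∈ P.par a) → X a ⬝ᵥ X b = 0) ∧
    (¬ (a ∈ P.par b ∨ b ∈ P.par a) → SS (P.sg a b) (X a ⬝ᵥ X b))

/-- Well-formed patterns. -/
structure Pat.WF (P : Pat ι) : Prop where
  nodup : P.ns.Nodup
  par_kd : ∀ a ∈ P.ns, ∀ b ∈ P.par a, P.kd b = !(P.kd a)
  par_len : ∀ a ∈ P.ns, (P.par a).length ≤ 2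
  par_nodup : ∀ a ∈ P.ns, (P.par a).Nodup
  par_lt : ∀ p a q, P.ns = p ++ a :: q → ∀ b ∈ P.par a, b ∈ p

/-- The parents of every name can be separated. -/
def Pat.Indep (P : Pat ι) {d : ℕ} (X : ι → Fin d → ℝ) : Prop :=
  ∀ a ∈ P.ns, ∀ c : ι → ℝ, ∃ z : Fin d → ℝ, ∀ m ∈ P.par a, z ⬝ᵥ X m = c m

end Pool.Agent.NPC.ER.Sgn
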