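import Pool.Agent.H612.PatQuad

/-!
# Solutions of a program give exact realisations of its pattern
-/

namespace Pool.Agent.NPC.ER.Sgn

open Matrix Oslp

/-! ### Separating parents -/

theorem sep1 {Y : Fin 3 → ℝ} (h : Y ≠ 0) (c : ℝ) : ∃ z : Fin 3 → ℝ, z ⬝ᵥ Y = c := by
  have h2 : Y ⬝ᵥ Y ≠ 0 := by
    intro h0
    apply h
    exact dotProduct_self_eq_zero.1 h0
  refine ⟨(c / (Y ⬝ᵥ Y)) • Y, ?_⟩
  rw [smul_dotProduct, smul_eq_mul]
  field_simp

theorem frac2 {a b c d x y e : ℝ} (h : e ≠ 0) (hc : a * x + b * y = c * e) (hd : d = c) :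
    a / e * x + b / e * y = d := by
  rw [div_mul_eq_mul_div, div_mul_eq_mul_div, ← add_div, div_eq_iff h, hc, hd]

theorem sep2 {Y Z : Fin 3 → ℝ} (h : Y 0 * Z 1 - Y 1 * Z 0 ≠ 0 ∨ Y 0 * Z 2 - Y 2 * Z 0 ≠ 0 ∨
    Y 1 * Z 2 - Y 2 * Z 1 ≠ 0) (c d : ℝ) : ∃ z : Fin 3 → ℝ, z ⬝ᵥ Y = c ∧ z ⬝ᵥ Z = d := by
  rcases h with h | h | h
  · refine ⟨![(c * Z 1 - d * Y 1) / (Y 0 * Z 1 - Y 1 * Z 0),
      (d * Y 0 - c * Z 0) / (Y 0 * Z 1 - Y 1 * Z 0), 0], ?_, ?_⟩
    · rw [dp3]; simp only [Matrix.cons_val_zero, Matrix.cons_val_one, Matrix.cons_val, zero_mul,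
        add_zero]
      exact frac2 h (by ring) rfl
    · rw [dp3]; simp only [Matrix.cons_val_zero, Matrix.cons_val_one, Matrix.cons_val, zero_mul,
        add_zero]
      exact frac2 h (by ring) rfl
  · refine ⟨![(c * Z 2 - d * Y 2) / (Y 0 * Z 2 - Y 2 * Z 0), 0,
      (d * Y 0 - c * Z 0) / (Y 0 * Z 2 - Y 2 * Z 0)], ?_, ?_⟩
    · rw [dp3]; simp only [Matrix.cons_val_zero, Matrix.cons_val_one, Matrix.cons_val, zero_mul,
        add_zero]
      exact frac2 h (by ring) rfl
    · rw [dp3]; simp only [Matrix.cons_val_zero, Matrix.cons_val_one, Matrix.cons_val, zero_mul,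
        add_zero]
      exact frac2 h (by ring) rfl
  · refine ⟨![0, (c * Z 2 - d * Y 2) / (Y 1 * Z 2 - Y 2 * Z 1),
      (d * Y 1 - c * Z 1) / (Y 1 * Z 2 - Y 2 * Z 1)], ?_, ?_⟩
    · rw [dp3]; simp only [Matrix.cons_val_zero, Matrix.cons_val_one, Matrix.cons_val, zero_mul,
        zero_add]
      exact frac2 h (by ring) rfl
    · rw [dp3]; simp only [Matrix.cons_val_zero, Matrix.cons_val_one, Matrix.cons_val, zero_mul,
        zero_add]
      exact frac2 h (by ring) rfl

theorem bd {e x B : ℝ} (he : 0 < e) (he1 : e ≤ 1 / 4) (hx : |x| ≤ B) :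
    -(B / 4) ≤ e * x ∧ e * x ≤ B / 4 := by
  have h1 : |e * x| ≤ B / 4 := by
    rw [abs_mul, abs_of_pos he]
    calc e * |x| ≤ 1 / 4 * B := mul_le_mul he1 hx (abs_nonneg _) (by norm_num)
      _ = B / 4 := by ring
  exact abs_le.1 h1

/-! ### The realisation -/

/-- A line through the point `S a`. -/
def lineV (v : ℕ → ℝ) (a : ℕ) (h : ℝ) : Fin 3 → ℝ := if a = 0 then ![-1, 0, h] else ![v a, -1, h]

/-- The point `S a`. -/
def ptS (v : ℕ → ℝ) (a : ℕ) : Fin 3 → ℝ := if a = 0 then ![0, -1, 0] else ![1, v a, 0]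

/-- A point of an operation. -/
def ptP (ξ e u t : ℝ) : Fin 3 → ℝ := ![1 + e * u, ξ + e * t, e]

/-- The value at the limit point of the operations. -/
def bs (v : ℕ → ℝ) (ξ : ℝ) (a : ℕ) : ℝ := if a = 0 then -1 else v a - ξ

theorem ptP_line (v U T : ℕ → ℝ) (ξ e h : ℝ) (a s : ℕ) :
    ptP ξ e (U s) (T s) ⬝ᵥ lineV v a h = bs v ξ a + e * DD v U T a s + e * h := by
  unfold ptP lineV bs DD
  by_cases ha : a = 0
  · simp only [ha, if_true, dp3]; simp; ring
  · simp only [ha, if_false, dp3]; simp; ring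

theorem ptS_line (v : ℕ → ℝ) (a b : ℕ) (h : ℝ) : ptS v b ⬝ᵥ lineV v a h =
    if a = b then 0 else if a = 0 then -1 else if b = 0 then 1 else v a - v b := by
  unfold ptS lineV
  by_cases ha : a = 0
  · by_cases hb : b = 0
    · simp [ha, hb]
    · simp only [ha, hb, if_true, if_false, dp3]
      have : ¬ (0 = b) := fun h => hb h.symm
      simp [this]
  · by_cases hb : b = 0
    · simp only [ha, hb, if_true, if_false, dp3]
      simp
    · simp only [ha, hb, if_false, dp3]
      by_cases hab : a = b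
      · subst hab; simp
      · simp [hab]; ring

/-- The data of the construction. -/
structure Dat where
  /-- the values -/
  v : ℕ → ℝ
  /-- the abscissa of the operations -/
  ξ : ℝ
  /-- the ratio of the heights -/
  ρ : ℝ
  /-- the dual coordinates -/
  U : ℕ → ℕ → ℝ
  /-- the dual coordinates -/
  T : ℕ → ℕ → ℝ

/-- The height of an operation. -/
def Dat.e (D : Dat) (k : ℕ) : ℝ := D.ρ ^ (k + 1)

/-- The last coordinate of a line of an operation. -/
noncomputable def Dat.h (D : Dat) (k a t : ℕ) : ℝ :=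
  -(bs D.v D.ξ a) / D.e k - DD D.v (D.U k) (D.T k) a (rf t)

/-- The realisation. -/
noncomputable def Dat.X (D : Dat) (p : List Ins) (a : ℕ × ℕ) : Fin 3 → ℝ :=
  if a.2 = 12 then ![0, 0, 1] else
  if a.2 = 0 then ptS D.v a.1 else
  if a.2 = 1 then lineV D.v a.1 (1 / 4) else
  if a.2 ≤ 5 then ptP D.ξ (D.e a.1) (D.U a.1 a.2) (D.T a.1 a.2) else
  lineV D.v (aidx p a) (D.h a.1 (aidx p a) a.2)

/-- The properties of the data. -/
structure Dat.Good (D : Dat) (p : List Ins) (B : ℝ) : Prop where
  run : Oslp.Run D.v 2 p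
  quad : ∀ k o l i j, opd p k = some (o, l, i, j) → ∀ s t, 2 ≤ s → s ≤ 5 → 6 ≤ t → t ≤ 11 →
      (inc s t = true → DD D.v (D.U k) (D.T k) (aidx p (k, t)) s =
        DD D.v (D.U k) (D.T k) (aidx p (k, t)) (rf t)) ∧
      (inc s t = false → SS (tb s t) (DD D.v (D.U k) (D.T k) (aidx p (k, t)) s -
        DD D.v (D.U k) (D.T k) (aidx p (k, t)) (rf t)))
  B1 : 1 ≤ B
  ρ0 : 0 < D.ρ
  ρB : D.ρ * (4 * B) ≤ 1
  ξ0 : 0 ≤ D.ξ
  bs_le : ∀ a, a < p.length + 2 → bs D.v D.ξ a ≤ -1
  bs_ge : ∀ a, a < p.length + 2 → -B ≤ bs D.v D.ξ a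
  DD_le : ∀ k, k < p.length + 2 → ∀ a, a < p.length + 2 → ∀ s, s ≤ 5 →
    |DD D.v (D.U k) (D.T k) a s| ≤ B
  F_le : ∀ k, k < p.length + 2 → ∀ s, s ≤ 5 → |(D.ξ + 2) * D.U k s - D.T k s| ≤ B

namespace Dat.Good

variable {D : Dat} {p : List Ins} {B : ℝ}

theorem ρ1 (G : D.Good p B) : D.ρ ≤ 1 / 4 := by
  have := G.B1
  have := G.ρB
  have := G.ρ0
  nlinarith

theorem e0 (G : D.Good p B) (k : ℕ) : 0 < D.e k := pow_pos G.ρ0 _

theorem e_le (G : D.Good p B) (k : ℕ) : D.e k ≤ D.ρ := by
  unfold Dat.e
  calc D.ρ ^ (k + 1) ≤ D.ρ ^ 1 := pow_le_pow_of_le_one G.ρ0.le (by linarith [G.ρ1]) (by omega)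
    _ = D.ρ := pow_one _

theorem e_lt (G : D.Good p B) {k k' : ℕ} (h : k' < k) : D.e k ≤ D.ρ * D.e k' := by
  unfold Dat.e
  calc D.ρ ^ (k + 1) ≤ D.ρ ^ (k' + 2) :=
        pow_le_pow_of_le_one G.ρ0.le (by linarith [G.ρ1]) (by omega)
    _ = D.ρ * D.ρ ^ (k' + 1) := by ring

theorem v_lt (G : D.Good p B) {a b : ℕ} (ha : 0 < a) (hab : a < b) (hb : b < p.length + 2) :
    D.v a < D.v b := by
  induction b, hab using Nat.le_induction with
  | base =>
    have := (run_iff.1 G.run (a + 1) (by omega) hb).1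
    simpa using this
  | succ b hab ih =>
    have h1 := ih (by omega)
    have h2 := (run_iff.1 G.run (b + 1) (by omega) hb).1
    rw [Nat.add_sub_cancel] at h2
    linarith

theorem hpos (G : D.Good p B) {k a : ℕ} (hk : k < p.length + 2) (ha : a < p.length + 2) (t : ℕ) :
    0 < D.h k a t := by
  have h1 := G.bs_le a ha
  have h2 := abs_le.1 (G.DD_le k hk a ha (rf t) (by unfold rf; split_ifs <;> omega))
  have h3 := G.e0 k
  have h4 := G.e_le k
  have h5 : B < -(bs D.v D.ξ a) / D.e k := by
    rw [lt_div_iff₀ h3]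
    have := G.ρB
    have := G.B1
    nlinarith
  unfold Dat.h
  linarith

/-- A point of an operation and a line of the same operation. -/
theorem same (G : D.Good p B) {k a : ℕ} (s t : ℕ) :
    ptP D.ξ (D.e k) (D.U k s) (D.T k s) ⬝ᵥ lineV D.v a (D.h k a t) =
      D.e k * (DD D.v (D.U k) (D.T k) a s - DD D.v (D.U k) (D.T k) a (rf t)) := by
  have h3 := (G.e0 k).ne'
  rw [ptP_line]
  unfold Dat.h
  field_simp
  ring

/-- An earlier point and a later line. -/
theorem later (G : D.Good p B) {k k' a s : ℕ} (t : ℕ) (hkk : k' < k) (hk : k < p.length + 2)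
    (ha : a < p.length + 2) (hs : s ≤ 5) :
    0 < ptP D.ξ (D.e k') (D.U k' s) (D.T k' s) ⬝ᵥ lineV D.v a (D.h k a t) := by
  rw [ptP_line]
  have h1 := G.bs_le a ha
  have h1' := G.bs_ge a ha
  have h3 := G.e0 k
  have h3' := G.e0 k'
  have h4 := G.e_lt hkk
  have h5 := G.e_le k'
  have h6 := G.ρ1
  have h7 := G.ρB
  have h8 := G.B1
  have h2 := bd h3' (by linarith) (G.DD_le k hk a ha (rf t) (by unfold rf; split_ifs <;> omega))
  have h2' := bd h3' (by linarith) (G.DD_le k' (by omega) a ha s hs)
  have h9 : 4 * B ≤ D.e k' * (-(bs D.v D.ξ a) / D.e k) := by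
    rw [mul_div_assoc', le_div_iff₀ h3]
    have : D.e k * (4 * B) ≤ D.ρ * D.e k' * (4 * B) :=
      mul_le_mul_of_nonneg_right h4 (by positivity)
    nlinarith
  unfold Dat.h
  rw [mul_sub]
  linarith

/-- A later point and an earlier line. -/
theorem earlier (G : D.Good p B) {k k' a s : ℕ} (t : ℕ) (hkk : k < k') (hk : k' < p.length + 2)
    (ha : a < p.length + 2) (hs : s ≤ 5) :
    ptP D.ξ (D.e k') (D.U k' s) (D.T k' s) ⬝ᵥ lineV D.v a (D.h k a t) < 0 := by
  rw [ptP_line]
  have h1 := G.bs_le a ha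
  have h1' := G.bs_ge a ha
  have h3 := G.e0 k
  have h3' := G.e0 k'
  have h4 := G.e_lt hkk
  have h5 := G.e_le k'
  have h5' := G.e_le k
  have h6 := G.ρ1
  have h7 := G.ρB
  have h8 := G.B1
  have h10 : D.ρ * B ≤ 1 / 4 := by linarith
  have k2 : D.e k' * |DD D.v (D.U k) (D.T k) a (rf t)| ≤ D.ρ * B := by
    apply mul_le_mul h5 _ (abs_nonneg _) G.ρ0.le
    exact G.DD_le k (by omega) a ha (rf t) (by unfold rf; split_ifs <;> omega)
  have k2' : D.e k' * |DD D.v (D.U k') (D.T k') a s| ≤ D.ρ * D.e k * B := by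
    apply mul_le_mul h4 _ (abs_nonneg _) (by have := G.ρ0; positivity)
    exact G.DD_le k' hk a ha s hs
  have k3' : D.ρ * D.e k * B ≤ 1 / 16 := by
    have : D.ρ * D.e k * B = D.ρ * B * D.e k := by ring
    rw [this]
    have h11 : 0 ≤ D.ρ * B := by have := G.ρ0; positivity
    nlinarith
  have k4 : -(D.e k' * |DD D.v (D.U k) (D.T k) a (rf t)|) ≤
      D.e k' * DD D.v (D.U k) (D.T k) a (rf t) := by
    rw [← mul_neg]
    exact mul_le_mul_of_nonneg_left (neg_abs_le _) h3'.le
  have k4' : D.e k' * DD D.v (D.U k') (D.T k') a s ≤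
      D.e k' * |DD D.v (D.U k') (D.T k') a s| :=
    mul_le_mul_of_nonneg_left (le_abs_self _) h3'.le
  have h9 : D.e k' * (-(bs D.v D.ξ a) / D.e k) ≤ 1 / 4 := by
    rw [mul_div_assoc', div_le_iff₀ h3]
    have : D.e k' * -(bs D.v D.ξ a) ≤ D.ρ * D.e k * B :=
      mul_le_mul h4 (by linarith) (by linarith) (by have := G.ρ0; positivity)
    nlinarith
  unfold Dat.h
  rw [mul_sub]
  linarith

/-- A point of an operation and a line `R a`. -/
theorem onR (G : D.Good p B) {k a s : ℕ} (hk : k < p.length + 2)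
    (ha : a < p.length + 2) (hs : s ≤ 5) :
    ptP D.ξ (D.e k) (D.U k s) (D.T k s) ⬝ᵥ lineV D.v a (1 / 4) < 0 := by
  rw [ptP_line]
  have h1 := G.bs_le a ha
  have h3 := G.e0 k
  have h5 := G.e_le k
  have h6 := G.ρ1
  have h7 := G.ρB
  have h8 := G.B1
  have k2 : D.e k * |DD D.v (D.U k) (D.T k) a s| ≤ D.ρ * B := by
    apply mul_le_mul h5 _ (abs_nonneg _) G.ρ0.le
    exact G.DD_le k hk a ha s hs
  have k4 : D.e k * DD D.v (D.U k) (D.T k) a s ≤ D.e k * |DD D.v (D.U k) (D.T k) a s| :=
    mul_le_mul_of_nonneg_left (le_abs_self _) h3.le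
  linarith

/-- The points are on one side of a line. -/
theorem onF (G : D.Good p B) {k s : ℕ} (hk : k < p.length + 2) (hs : s ≤ 5) :
    0 < (D.ξ + 2) * ptP D.ξ (D.e k) (D.U k s) (D.T k s) 0 -
      ptP D.ξ (D.e k) (D.U k s) (D.T k s) 1 := by
  have h3 := G.e0 k
  have h5 := G.e_le k
  have h6 := G.ρ1
  have h7 := G.ρB
  have k2 : D.e k * |(D.ξ + 2) * D.U k s - D.T k s| ≤ D.ρ * B := by
    apply mul_le_mul h5 _ (abs_nonneg _) G.ρ0.le
    exact G.F_le k hk s hs
  have k4 : -(D.e k * |(D.ξ + 2) * D.U k s - D.T k s|) ≤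
      D.e k * ((D.ξ + 2) * D.U k s - D.T k s) := by
    rw [← mul_neg]
    exact mul_le_mul_of_nonneg_left (neg_abs_le _) h3.le
  simp only [ptP, Matrix.cons_val_zero, Matrix.cons_val_one]
  linarith

end Dat.Good

/-! ### Parents -/

section

variable {p : List Ins}

theorem par_SR {a b : ℕ} : ((a, 0) ∈ par p (b, 1) ∨ (b, 1) ∈ par p (a, 0)) ↔ a = b := by
  rw [par_R]
  constructor
  · rintro (h | h)
    · simpa using h
    · exfalso
      unfold par at h
      rcases h' : opd p a with _ | ⟨o, l, i, j⟩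
      · simp [h'] at h
      · simp [h'] at h
  · rintro rfl
    simp

theorem par_PL {k s : ℕ} (hs : 2 ≤ s) (hs' : s ≤ 5) :
    ¬ ((k, s) ∈ par p (0, 12) ∨ (0, 12) ∈ par p (k, s)) := by
  rintro (h | h)
  · have : par p (0, 12) = [] := by simp [par, opd]
    rw [this] at h
    simp at h
  · unfold par at h
    rcases h' : opd p k with _ | ⟨o, l, i, j⟩
    · rw [h'] at h
      interval_cases s <;> simp at h
    · rw [h'] at h
      interval_cases s <;> simp at h

theorem par_PR {k s k' : ℕ} (hs : 2 ≤ s) (hs' : s ≤ 5) :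
    ¬ ((k, s) ∈ par p (k', 1) ∨ (k', 1) ∈ par p (k, s)) := by
  rw [par_R]
  rintro (h | h)
  · simp at h; omega
  · unfold par at h
    rcases h' : opd p k with _ | ⟨o, l, i, j⟩
    · rw [h'] at h
      interval_cases s <;> simp at h
    · rw [h'] at h
      interval_cases s <;> simp at h

theorem par_PH {k s k' t o l i j o' l' i' j' : ℕ} (hop : opd p k = some (o, l, i, j))
    (hop' : opd p k' = some (o', l', i', j')) (hs : 2 ≤ s) (hs' : s ≤ 5) (ht : 6 ≤ t)
    (ht' : t ≤ 11) :
    ((k, s) ∈ par p (k', t) ∨ (k', t) ∈ par p (k, s)) ↔ (k = k' ∧ inc s t = true) := by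
  unfold par
  rw [hop, hop']
  interval_cases s <;> interval_cases t <;> simp [inc] <;> try omega

end

namespace Dat.Good

variable {D : Dat} {p : List Ins} {B : ℝ}

theorem exact (G : D.Good p B) (hp : WF 2 p) : (pat p).Exact (D.X p) := by
  rintro ⟨k, s⟩ ha ⟨k', t⟩ hb hka hkb
  have ha' : (k, s) ∈ nsl p := ha
  have hb' : (k', t) ∈ nsl p := hb
  rw [mem_nsl] at ha' hb'
  have hka' : s = 0 ∨ (2 ≤ s ∧ s ≤ 5) := by
    simpa [pat, kd] using hka
  have hkb' : ¬ (t = 0 ∨ (2 ≤ t ∧ t ≤ 5)) := by
    intro h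
    have : kd (k', t) = true := by simpa [kd] using h
    have hkb2 : kd (k', t) = false := hkb
    rw [this] at hkb2
    exact absurd hkb2 (by simp)
  have ha2 : k < p.length + 2 ∧ (s = 0 ∨ s = 1 ∨ ((opd p k).isSome = true ∧ 2 ≤ s ∧ s ≤ 11)) := by
    rcases ha' with h | h
    · rw [Prod.mk.injEq] at h; omega
    · exact h
  have hP : s ≠ 0 → (D.X p (k, s) = ptP D.ξ (D.e k) (D.U k s) (D.T k s)) := by
    intro h0
    simp only [Dat.X]
    rw [if_neg (by omega), if_neg h0, if_neg (by omega), if_pos (by omega)]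
  have hS : s = 0 → (D.X p (k, s) = ptS D.v k) := by
    rintro rfl
    simp [Dat.X]
  rcases hb' with hb' | ⟨hk', ht⟩
  · -- the line ℓ
    rw [Prod.mk.injEq] at hb'
    obtain ⟨rfl, rfl⟩ := hb'
    have hX : D.X p (0, 12) = ![0, 0, 1] := by simp [Dat.X]
    rw [hX]
    rcases Nat.eq_zero_or_pos s with h0 | h0
    · rw [hS h0]
      subst h0
      refine ⟨fun _ => ?_, fun h => absurd (Or.inr par_S) h⟩
      rw [dp3]
      unfold ptS
      by_cases hk : k = 0
      · simp [hk]
      · simp [hk]
    · rw [hP (by omega)]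
      refine ⟨fun h => absurd h (par_PL (by omega) (by omega)), fun _ => ?_⟩
      have : (pat p).sg (k, s) (0, 12) = true := by simp [pat, sg]
      rw [this, SS_true, dp3]
      simp only [ptP]
      simp
      exact G.e0 k
  · simp only at ht
    rcases ht with ht | ht | ⟨hsome', ht, ht'⟩
    · omega
    · -- the lines R
      subst ht
      have hX : D.X p (k', 1) = lineV D.v k' (1 / 4) := by simp [Dat.X]
      rw [hX]
      have haidx : aidx p (k', 1) = k' := by
        unfold aidx
        rcases h : opd p k' with _ | ⟨o, l, i, j⟩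
        · simp
        · simp
      rcases Nat.eq_zero_or_pos s with h0 | h0
      · rw [hS h0]
        subst h0
        have hpar : ((k, 0) ∈ (pat p).par (k', 1) ∨ (k', 1) ∈ (pat p).par (k, 0)) ↔ k = k' :=
          par_SR
        rw [hpar, ptS_line]
        refine ⟨fun h => by rw [if_pos h.symm], fun h => ?_⟩
        have e1 : (pat p).sg (k, 0) (k', 1) = decide (k < k') := by simp [pat, sg, haidx]
        rw [e1, if_neg (fun h' => h h'.symm)]
        by_cases hk0' : k' = 0
        · rw [if_pos hk0']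
          have : ¬ k < k' := by omega
          simp [this]
        · rw [if_neg hk0']
          by_cases hk0 : k = 0
          · rw [if_pos hk0]
            have : k < k' := by omega
            simp [this]
          · rw [if_neg hk0]
            by_cases hlt : k < k'
            · have := G.v_lt (by omega) hlt hk'
              simp only [hlt, decide_true, SS_true]
              linarith
            · have := G.v_lt (a := k') (b := k) (by omega) (by omega) ha2.1
              simp only [hlt, decide_false, SS_false]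
              linarith
      · rw [hP (by omega)]
        refine ⟨fun h => absurd h (par_PR (by omega) (by omega)), fun _ => ?_⟩
        have : (pat p).sg (k, s) (k', 1) = false := by
          simp only [pat, sg]
          rw [if_neg (by norm_num), if_neg (by omega), if_pos trivial]
        rw [this, SS_false]
        exact G.onR ha2.1 hk' (by omega)
    · -- the lines of the operations
      obtain ⟨⟨o', l', i', j'⟩, hop'⟩ := Option.isSome_iff_exists.1 hsome'
      have ht6 : 6 ≤ t := by omega
      have hX : D.X p (k', t) = lineV D.v (aidx p (k', t)) (D.h k' (aidx p (k', t)) t) := by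
        simp only [Dat.X]
        rw [if_neg (by omega), if_neg (by omega), if_neg (by omega), if_neg (by omega)]
      have hai := aidx_lt (t := t) hp hop'
      rw [hX]
      rcases Nat.eq_zero_or_pos s with h0 | h0
      · rw [hS h0]
        subst h0
        have hpar : ((k, 0) ∈ (pat p).par (k', t) ∨ (k', t) ∈ (pat p).par (k, 0)) ↔
          k = aidx p (k', t) := par_line hop' ht6 ht' k
        rw [hpar, ptS_line]
        refine ⟨fun h => by rw [if_pos h.symm], fun h => ?_⟩
        have e1 : (pat p).sg (k, 0) (k', t) = decide (k < aidx p (k', t)) := by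
          simp only [pat, sg]
          rw [if_neg (by omega), if_pos trivial]
        rw [e1, if_neg (fun h' => h h'.symm)]
        generalize aidx p (k', t) = a at *
        by_cases hk0' : a = 0
        · rw [if_pos hk0']
          have : ¬ k < a := by omega
          simp [this]
        · rw [if_neg hk0']
          by_cases hk0 : k = 0
          · rw [if_pos hk0]
            have : k < a := by omega
            simp [this]
          · rw [if_neg hk0]
            by_cases hlt : k < a
            · have := G.v_lt (by omega) hlt hai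
              simp only [hlt, decide_true, SS_true]
              linarith
            · have := G.v_lt (a := a) (b := k) (by omega) (by omega) ha2.1
              simp only [hlt, decide_false, SS_false]
              linarith
      · rw [hP (by omega)]
        have hsome : (opd p k).isSome = true := by
          rcases ha2.2 with h | h | h
          · omega
          · omega
          · exact h.1
        obtain ⟨⟨o, l, i, j⟩, hop⟩ := Option.isSome_iff_exists.1 hsome
        have hpar : ((k, s) ∈ (pat p).par (k', t) ∨ (k', t) ∈ (pat p).par (k, s)) ↔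
          (k = k' ∧ inc s t = true) := par_PH hop hop' (by omega) (by omega) ht6 ht'
        rw [hpar]
        by_cases hkk : k = k'
        · subst hkk
          rw [G.same]
          obtain ⟨q1, q2⟩ := G.quad k o l i j hop s t (by omega) (by omega) ht6 ht'
          refine ⟨fun h => by rw [q1 h.2, sub_self, mul_zero], fun h => ?_⟩
          have hinc : inc s t = false := by
            rcases hh : inc s t with _ | _
            · rfl
            · exact absurd ⟨rfl, hh⟩ h
          have q3 := q2 hinc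
          have e1 : (pat p).sg (k, s) (k, t) = tb s t := by
            simp only [pat, sg]
            rw [if_neg (by omega), if_neg (by omega), if_neg (by omega), if_pos trivial]
          rw [e1]
          have he := G.e0 k
          rcases hb : tb s t with _ | _
          · rw [hb, SS_false] at q3
            rw [SS_false]
            exact mul_neg_of_pos_of_neg he q3
          · rw [hb, SS_true] at q3
            rw [SS_true]
            exact mul_pos he q3
        · refine ⟨fun h => absurd h.1 hkk, fun _ => ?_⟩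
          have e1 : (pat p).sg (k, s) (k', t) = decide (k < k') := by
            simp only [pat, sg]
            rw [if_neg (by omega), if_neg (by omega), if_neg (by omega), if_neg hkk]
          rw [e1]
          by_cases hlt : k < k'
          · simp only [hlt, decide_true, SS_true]
            exact G.later t hlt hk' hai (by omega)
          · simp only [hlt, decide_false, SS_false]
            exact G.earlier t (by omega) ha2.1 hai (by omega)

/-! ### Separation -/

theorem lineV_ne (v : ℕ → ℝ) (a : ℕ) (h : ℝ) : lineV v a h ≠ 0 := by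
  intro h0
  unfold lineV at h0
  by_cases ha : a = 0
  · rw [if_pos ha] at h0
    have := congrFun h0 0
    simp at this
  · rw [if_neg ha] at h0
    have := congrFun h0 1
    simp at this

theorem ptS_ne (v : ℕ → ℝ) (a : ℕ) : ptS v a ≠ 0 := by
  intro h0
  unfold ptS at h0
  by_cases ha : a = 0
  · rw [if_pos ha] at h0
    have := congrFun h0 1
    simp at this
  · rw [if_neg ha] at h0
    have := congrFun h0 0
    simp at this

theorem sepPS {v : ℕ → ℝ} {ξ e u t : ℝ} (he : 0 < e) (a : ℕ) (c d : ℝ) :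
    ∃ z : Fin 3 → ℝ, z ⬝ᵥ ptP ξ e u t = c ∧ z ⬝ᵥ ptS v a = d := by
  apply sep2
  unfold ptP ptS
  by_cases ha : a = 0
  · right; right
    rw [if_pos ha]
    simp
    exact he.ne'
  · right; left
    rw [if_neg ha]
    simp
    exact he.ne'

theorem indep (G : D.Good p B) (hp : WF 2 p) : (pat p).Indep (D.X p) := by
  rintro ⟨k, s⟩ ha c
  have ha' : (k, s) ∈ nsl p := ha
  have hparE : (pat p).par (k, s) = par p (k, s) := rfl
  rw [hparE]
  rw [mem_nsl] at ha'
  have hSX : ∀ b, D.X p (b, 0) = ptS D.v b := fun b => by simp [Dat.X]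
  have hPX : ∀ s, 2 ≤ s → s ≤ 5 → D.X p (k, s) = ptP D.ξ (D.e k) (D.U k s) (D.T k s) := by
    intro s h2 h5
    simp only [Dat.X]
    rw [if_neg (by omega), if_neg (by omega), if_neg (by omega), if_pos (by omega)]
  have hHX : ∀ t, 6 ≤ t → t ≤ 11 → D.X p (k, t) =
      lineV D.v (aidx p (k, t)) (D.h k (aidx p (k, t)) t) := by
    intro t h2 h5
    simp only [Dat.X]
    rw [if_neg (by omega), if_neg (by omega), if_neg (by omega), if_neg (by omega)]
  have hLX : D.X p (0, 12) = ![0, 0, 1] := by simp [Dat.X]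
  rcases ha' with h | ⟨hk, hs⟩
  · rw [Prod.mk.injEq] at h
    obtain ⟨rfl, rfl⟩ := h
    refine ⟨0, fun m hm => ?_⟩
    have : par p (0, 12) = [] := by simp [par, opd]
    rw [this] at hm
    simp at hm
  · simp only at hk hs
    rcases hop : opd p k with _ | ⟨o, l, i, j⟩
    · rw [hop] at hs
      have hs' : s = 0 ∨ s = 1 := by simpa using hs
      rcases hs' with rfl | rfl
      · have : par p (k, 0) = [(0, 12)] := by simp [par, hop]
        rw [this]
        obtain ⟨z, hz⟩ := sep1 (Y := D.X p (0, 12)) (by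
          rw [hLX]; intro h; have := congrFun h 2; simp at this) (c (0, 12))
        exact ⟨z, by simpa using hz⟩
      · rw [par_R]
        obtain ⟨z, hz⟩ := sep1 (Y := D.X p (k, 0)) (by rw [hSX]; exact ptS_ne _ _) (c (k, 0))
        exact ⟨z, by simpa using hz⟩
    · obtain ⟨g1, g2, g3, g4, g5, g6, g7⟩ := opd_wf hp hop
      have hs' : s ≤ 11 := by omega
      have he := G.e0 k
      have a6 : aidx p (k, 6) = i := by simp [aidx, hop]
      have a7 : aidx p (k, 7) = l := by simp [aidx, hop]
      have a8 : aidx p (k, 8) = o := by simp [aidx, hop]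
      have a9 : aidx p (k, 9) = 0 := by simp [aidx, hop]
      have a10 : aidx p (k, 10) = j := by simp [aidx, hop]
      have a11 : aidx p (k, 11) = k := by simp [aidx, hop]
      interval_cases s
      · have : par p (k, 0) = [(k, 11), (0, 12)] := by simp [par, hop]
        rw [this]
        obtain ⟨z, hz, hz'⟩ := sep2 (Y := D.X p (k, 11)) (Z := D.X p (0, 12)) (by
          right; right
          rw [hLX, hHX 11 (by norm_num) (by norm_num), a11]
          unfold lineV
          rw [if_neg (by omega)]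
          simp) (c (k, 11)) (c (0, 12))
        exact ⟨z, by simpa using ⟨hz, hz'⟩⟩
      · rw [par_R]
        obtain ⟨z, hz⟩ := sep1 (Y := D.X p (k, 0)) (by rw [hSX]; exact ptS_ne _ _) (c (k, 0))
        exact ⟨z, by simpa using hz⟩
      · have : par p (k, 2) = [] := by simp [par, hop]
        rw [this]
        exact ⟨0, by simp⟩
      · have : par p (k, 3) = [(k, 6)] := by simp [par, hop]
        rw [this]
        obtain ⟨z, hz⟩ := sep1 (Y := D.X p (k, 6)) (by
          rw [hHX 6 (by norm_num) (by norm_num)]; exact lineV_ne _ _ _) (c (k, 6))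
        exact ⟨z, by simpa using hz⟩
      · have : par p (k, 4) = [(k, 10), (k, 8)] := by simp [par, hop]
        rw [this]
        obtain ⟨z, hz, hz'⟩ := sep2 (Y := D.X p (k, 10)) (Z := D.X p (k, 8)) (by
          left
          rw [hHX 10 (by norm_num) (by norm_num), a10, hHX 8 (by norm_num) (by norm_num), a8]
          unfold lineV
          rw [if_neg (by omega)]
          by_cases ho : o = 0
          · rw [if_pos ho]; simp
          · rw [if_neg ho]
            have h1 := G.v_lt (a := o) (b := l) (by omega) g3 (by omega)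
            have h2 := G.v_lt (a := l) (b := j) (by omega) g5 (by omega)
            simp
            intro h3
            linarith) (c (k, 10)) (c (k, 8))
        exact ⟨z, by simpa using ⟨hz, hz'⟩⟩
      · have : par p (k, 5) = [(k, 7), (k, 9)] := by simp [par, hop]
        rw [this]
        obtain ⟨z, hz, hz'⟩ := sep2 (Y := D.X p (k, 7)) (Z := D.X p (k, 9)) (by
          left
          rw [hHX 7 (by norm_num) (by norm_num), a7, hHX 9 (by norm_num) (by norm_num), a9]
          unfold lineV
          rw [if_neg (by omega), if_pos rfl]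
          simp) (c (k, 7)) (c (k, 9))
        exact ⟨z, by simpa using ⟨hz, hz'⟩⟩
      · have : par p (k, 6) = [(k, 2), (i, 0)] := by simp [par, hop]
        rw [this]
        obtain ⟨z, hz, hz'⟩ := sepPS (v := D.v) (ξ := D.ξ) (u := D.U k 2) (t := D.T k 2) he i
          (c (k, 2)) (c (i, 0))
        rw [← hPX 2 (by norm_num) (by norm_num)] at hz
        rw [← hSX] at hz'
        exact ⟨z, by simpa using ⟨hz, hz'⟩⟩
      · have : par p (k, 7) = [(k, 3), (l, 0)] := by simp [par, hop]
        rw [this]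
        obtain ⟨z, hz, hz'⟩ := sepPS (v := D.v) (ξ := D.ξ) (u := D.U k 3) (t := D.T k 3) he l
          (c (k, 3)) (c (l, 0))
        rw [← hPX 3 (by norm_num) (by norm_num)] at hz
        rw [← hSX] at hz'
        exact ⟨z, by simpa using ⟨hz, hz'⟩⟩
      · have : par p (k, 8) = [(k, 3), (o, 0)] := by simp [par, hop]
        rw [this]
        obtain ⟨z, hz, hz'⟩ := sepPS (v := D.v) (ξ := D.ξ) (u := D.U k 3) (t := D.T k 3) he o
          (c (k, 3)) (c (o, 0))
        rw [← hPX 3 (by norm_num) (by norm_num)] at hz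
        rw [← hSX] at hz'
        exact ⟨z, by simpa using ⟨hz, hz'⟩⟩
      · have : par p (k, 9) = [(k, 2), (0, 0)] := by simp [par, hop]
        rw [this]
        obtain ⟨z, hz, hz'⟩ := sepPS (v := D.v) (ξ := D.ξ) (u := D.U k 2) (t := D.T k 2) he 0
          (c (k, 2)) (c (0, 0))
        rw [← hPX 2 (by norm_num) (by norm_num)] at hz
        rw [← hSX] at hz'
        exact ⟨z, by simpa using ⟨hz, hz'⟩⟩
      · have : par p (k, 10) = [(k, 5), (j, 0)] := by simp [par, hop]
        rw [this]
        obtain ⟨z, hz, hz'⟩ := sepPS (v := D.v) (ξ := D.ξ) (u := D.U k 5) (t := D.T k 5) he j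
          (c (k, 5)) (c (j, 0))
        rw [← hPX 5 (by norm_num) (by norm_num)] at hz
        rw [← hSX] at hz'
        exact ⟨z, by simpa using ⟨hz, hz'⟩⟩
      · have : par p (k, 11) = [(k, 2), (k, 4)] := by simp [par, hop]
        rw [this]
        have hU : D.U k 2 < D.U k 4 := by
          have h := (G.quad k o l i j hop 4 9 (by norm_num) (by norm_num) (by norm_num)
            (by norm_num)).2 (by simp [inc])
          rw [a9] at h
          have : tb 4 9 = false := by simp [tb]
          rw [this, SS_false] at h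
          simp only [DD, if_true, rf] at h
          norm_num at h
          linarith
        obtain ⟨z, hz, hz'⟩ := sep2 (Y := D.X p (k, 2)) (Z := D.X p (k, 4)) (by
          right; left
          rw [hPX 2 (by norm_num) (by norm_num), hPX 4 (by norm_num) (by norm_num)]
          simp only [ptP, Matrix.cons_val_zero, Matrix.cons_val]
          have : (1 + D.e k * D.U k 2) * D.e k - D.e k * (1 + D.e k * D.U k 4) =
            D.e k * D.e k * (D.U k 2 - D.U k 4) := by ring
          rw [this]
          exact mul_ne_zero (mul_ne_zero he.ne' he.ne') (by linarith)) (c (k, 2)) (c (k, 4))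
        exact ⟨z, by simpa using ⟨hz, hz'⟩⟩

/-! ### Positions -/

theorem posP (G : D.Good p B) {a : ℕ × ℕ} (ha : a ∈ (pat p).ns) (hk : kd a = true) :
    0 < (D.ξ + 2) * D.X p a 0 - D.X p a 1 := by
  obtain ⟨k, s⟩ := a
  have ha' : (k, s) ∈ nsl p := ha
  rw [mem_nsl] at ha'
  have hka' : s = 0 ∨ (2 ≤ s ∧ s ≤ 5) := by
    simpa [kd] using hk
  have hk2 : k < p.length + 2 := by
    rcases ha' with h | h
    · rw [Prod.mk.injEq] at h; omega
    · exact h.1
  rcases hka' with rfl | ⟨h2, h5⟩
  · have : D.X p (k, 0) = ptS D.v k := by simp [Dat.X]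
    rw [this]
    unfold ptS
    by_cases hk0 : k = 0
    · rw [if_pos hk0]; simp
    · rw [if_neg hk0]
      simp
      have := G.bs_le k hk2
      unfold bs at this
      rw [if_neg hk0] at this
      linarith
  · have : D.X p (k, s) = ptP D.ξ (D.e k) (D.U k s) (D.T k s) := by
      simp only [Dat.X]
      rw [if_neg (by omega), if_neg (by omega), if_neg (by omega), if_pos (by omega)]
    rw [this]
    exact G.onF hk2 h5

theorem posL (G : D.Good p B) (hp : WF 2 p) {a : ℕ × ℕ} (ha : a ∈ (pat p).ns)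
    (hk : kd a = false) : 0 < D.X p a 2 := by
  obtain ⟨k, s⟩ := a
  have ha' : (k, s) ∈ nsl p := ha
  rw [mem_nsl] at ha'
  have hka' : ¬ (s = 0 ∨ (2 ≤ s ∧ s ≤ 5)) := by
    intro h
    have : kd (k, s) = true := by simpa [kd] using h
    rw [this] at hk
    exact absurd hk (by simp)
  have hl : ∀ a h, lineV D.v a h 2 = h := by
    intro a h
    unfold lineV
    by_cases ha : a = 0
    · rw [if_pos ha]; simp
    · rw [if_neg ha]; simp
  rcases ha' with h | ⟨h1, h2⟩
  · rw [h]; simp [Dat.X]
  · simp only at h1 h2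
    rcases h2 with h2 | h2 | ⟨h2, h3, h4⟩
    · omega
    · subst h2
      have : D.X p (k, 1) = lineV D.v k (1 / 4) := by simp [Dat.X]
      rw [this, hl]; norm_num
    · obtain ⟨⟨o', l', i', j'⟩, hop'⟩ := Option.isSome_iff_exists.1 h2
      have hX : D.X p (k, s) = lineV D.v (aidx p (k, s)) (D.h k (aidx p (k, s)) s) := by
        simp only [Dat.X]
        rw [if_neg (by omega), if_neg (by omega), if_neg (by omega), if_neg (by omega)]
      rw [hX, hl]
      exact G.hpos h1 (aidx_lt hp hop') s

end Dat.Good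

/-- The data exist. -/
theorem exists_dat {p : List Ins} (hp : WF 2 p) {v : ℕ → ℝ} (hv : Oslp.Run v 2 p) :
    ∃ (D : Dat) (B : ℝ), D.Good p B := by
  have hvlt : ∀ {a b : ℕ}, 0 < a → a < b → b < p.length + 2 → v a < v b := by
    intro a b ha hab hb
    induction b, hab using Nat.le_induction with
    | base =>
      have := (run_iff.1 hv (a + 1) (by omega) hb).1
      simpa using this
    | succ b hab ih =>
      have h1 := ih (by omega)
      have h2 := (run_iff.1 hv (b + 1) (by omega) hb).1
      rw [Nat.add_sub_cancel] at h2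
      linarith
  have hUT : ∀ k, ∃ U T : ℕ → ℝ, ∀ o l i j, opd p k = some (o, l, i, j) →
      ∀ s t, 2 ≤ s → s ≤ 5 → 6 ≤ t → t ≤ 11 →
      (inc s t = true → DD v U T (aidx p (k, t)) s = DD v U T (aidx p (k, t)) (rf t)) ∧
      (inc s t = false → SS (tb s t)
        (DD v U T (aidx p (k, t)) s - DD v U T (aidx p (k, t)) (rf t))) := by
    intro k
    rcases hop : opd p k with _ | ⟨o, l, i, j⟩
    · exact ⟨0, 0, fun o l i j h => by simp at h⟩
    · obtain ⟨g1, g2, g3, g4, g5, g6, g7⟩ := opd_wf hp hop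
      have hh := (run_iff.1 hv k g1 g2).2
      rw [hop] at hh
      obtain ⟨U, T, h⟩ := quad_exists g3 g4 g5 g6 g7 (hvlt (by omega) g4 (by omega))
        (hvlt (by omega) g5 (by omega)) (fun h => hvlt h g3 (by omega))
        (hvlt (by omega) g7 (by omega)) (hvlt (by omega) g6 (by omega)) hh
      refine ⟨U, T, fun o' l' i' j' he => ?_⟩
      have hai : ∀ t, aidx p (k, t) = ai k o l i j t := by
        intro t
        simp only [aidx, hop, ai]
      intro s t
      rw [hai]
      exact h s t
  choose U T hUT using hUT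
  set N := p.length + 2 with hN
  set ξ : ℝ := |v (N - 1)| + 1 with hξ
  set B1 : ℝ := ∑ k ∈ Finset.range N, ∑ a ∈ Finset.range N, ∑ s ∈ Finset.range 6,
    |DD v (U k) (T k) a s| with hB1
  set B2 : ℝ := ∑ k ∈ Finset.range N, ∑ s ∈ Finset.range 6, |(ξ + 2) * U k s - T k s| with hB2
  set B3 : ℝ := ∑ a ∈ Finset.range N, |bs v ξ a| with hB3
  have h10 : 0 ≤ B1 := by positivity
  have h20 : 0 ≤ B2 := by positivity
  have h30 : 0 ≤ B3 := by positivity
  set B : ℝ := 1 + B1 + B2 + B3 with hB
  have hBpos : 0 < B := by linarith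
  have hξ0 : 0 ≤ ξ := by rw [hξ]; have := abs_nonneg (v (N - 1)); linarith
  have hBB1 : B1 ≤ B := by linarith
  have hBB2 : B2 ≤ B := by linarith
  have hBB3 : B3 ≤ B := by linarith
  have hB1' : 1 ≤ B := by linarith
  clear_value B
  have hρ0 : 0 < 1 / (4 * B) := by positivity
  have hρB : 1 / (4 * B) * (4 * B) ≤ 1 := by
    rw [one_div, inv_mul_cancel₀ (by positivity)]
  refine ⟨⟨v, ξ, 1 / (4 * B), U, T⟩, B, ⟨hv, fun k o l i j hop => hUT k o l i j hop, hB1',
    hρ0, hρB, hξ0, ?_, ?_, ?_, ?_⟩⟩
  · intro a ha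
    simp only
    unfold bs
    by_cases ha0 : a = 0
    · rw [if_pos ha0]
    · rw [if_neg ha0]
      have : v a ≤ v (N - 1) := by
        rcases Nat.lt_or_ge a (N - 1) with h | h
        · exact (hvlt (by omega) h (by omega)).le
        · have : a = N - 1 := by omega
          rw [this]
      have := le_abs_self (v (N - 1))
      linarith
  · intro a ha
    simp only
    have h1 : |bs v ξ a| ≤ B3 := by
      rw [hB3]
      exact Finset.single_le_sum (f := fun a => |bs v ξ a|) (fun i _ => abs_nonneg _)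
        (Finset.mem_range.2 ha)
    have := neg_abs_le (bs v ξ a)
    linarith
  · intro k hk a ha s hs
    simp only
    have h1 : |DD v (U k) (T k) a s| ≤ ∑ s ∈ Finset.range 6, |DD v (U k) (T k) a s| :=
      Finset.single_le_sum (f := fun s => |DD v (U k) (T k) a s|) (fun i _ => abs_nonneg _)
        (Finset.mem_range.2 (by omega))
    have h2 : ∑ s ∈ Finset.range 6, |DD v (U k) (T k) a s| ≤
        ∑ a ∈ Finset.range N, ∑ s ∈ Finset.range 6, |DD v (U k) (T k) a s| :=
      Finset.single_le_sum (f := fun a => ∑ s ∈ Finset.range 6, |DD v (U k) (T k) a s|)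
        (fun i _ => by positivity) (Finset.mem_range.2 ha)
    have h3 : ∑ a ∈ Finset.range N, ∑ s ∈ Finset.range 6, |DD v (U k) (T k) a s| ≤ B1 :=
      Finset.single_le_sum (f := fun k => ∑ a ∈ Finset.range N, ∑ s ∈ Finset.range 6,
        |DD v (U k) (T k) a s|) (fun i _ => by positivity) (Finset.mem_range.2 hk)
    linarith
  · intro k hk s hs
    simp only
    have h1 : |(ξ + 2) * U k s - T k s| ≤ ∑ s ∈ Finset.range 6, |(ξ + 2) * U k s - T k s| :=
      Finset.single_le_sum (f := fun s => |(ξ + 2) * U k s - T k s|) (fun i _ => abs_nonneg _)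
        (Finset.mem_range.2 (by omega))
    have h2 : ∑ s ∈ Finset.range 6, |(ξ + 2) * U k s - T k s| ≤ B2 :=
      Finset.single_le_sum (f := fun k => ∑ s ∈ Finset.range 6, |(ξ + 2) * U k s - T k s|)
        (fun i _ => by positivity) (Finset.mem_range.2 hk)
    linarith

/-- Change of coordinates. -/
noncomputable def chg (K : ℝ) (pt : Bool) (x : Fin 3 → ℝ) : Fin 3 → ℝ :=
  if pt = true then ![K * x 0 - x 1, x 1, x 2] else ![x 0 / K, x 1 + x 0 / K, x 2]

theorem chg_dot {K : ℝ} (hK : K ≠ 0) (b : Bool) (x y : Fin 3 → ℝ) :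
    chg K b x ⬝ᵥ chg K (!b) y = x ⬝ᵥ y := by
  cases b
  · rw [dp3, dp3]; simp [chg]; field_simp; ring
  · rw [dp3, dp3]; simp [chg]; field_simp; ring

/-- **Completeness of the pattern.** -/
theorem exact_complete {p : List Ins} (hp : WF 2 p) (h : OSat p) :
    ∃ X : ℕ × ℕ → Fin 3 → ℝ, (pat p).Exact X ∧ (pat p).Indep X ∧
      (∀ a ∈ (pat p).ns, kd a = true → 0 < X a 0) ∧
      (∀ a ∈ (pat p).ns, kd a = false → 0 < X a 2) := by
  obtain ⟨v, hv⟩ := h
  obtain ⟨D, B, G⟩ := exists_dat hp hv
  have hK : D.ξ + 2 ≠ 0 := by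
    have := G.ξ0
    positivity
  refine ⟨fun a => chg (D.ξ + 2) (kd a) (D.X p a), ?_, ?_, ?_, ?_⟩
  · intro a ha b hb hka hkb
    have h1 := G.exact hp a ha b hb hka hkb
    have hka' : kd a = true := hka
    have hkb' : kd b = !(kd a) := by rw [hka']; exact hkb
    have h2 : chg (D.ξ + 2) (kd a) (D.X p a) ⬝ᵥ chg (D.ξ + 2) (kd b) (D.X p b) =
        D.X p a ⬝ᵥ D.X p b := by
      rw [hkb']; exact chg_dot hK _ _ _
    simp only
    rw [h2]
    exact h1
  · intro a ha c
    obtain ⟨z, hz⟩ := G.indep hp a ha c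
    refine ⟨chg (D.ξ + 2) (kd a) z, fun m hm => ?_⟩
    have h1 : kd m = !(kd a) := (pat_wf hp).par_kd a ha m hm
    rw [← hz m hm]
    simp only
    rw [h1]
    exact chg_dot hK _ _ _
  · intro a ha hk
    have := G.posP ha hk
    simp only [chg, hk, if_true]
    simpa using this
  · intro a ha hk
    have := G.posL hp ha hk
    simp only [chg, hk]
    simpa using this

end Pool.Agent.NPC.ER.Sgn
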