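import Pool.Agent.H612.PatComplete
import Pool.Agent.H612.OslpPoly
import Pool.Agent.H625R2.Pat

/-!
# The pattern of a system of constraints
-/

namespace Pool.Agent.NPC.ER.Sgn

open Matrix Oslp

/-- The entry of a name. -/
def entry (p : List Ins) (ns : List (ℕ × ℕ)) (a : ℕ × ℕ) : Bool × List ℕ × List Bool :=
  (kd a, (par p a).map (fun b => ns.idxOf b),
    ns.map (fun b => if kd a = true then sg p a b else sg p b a))

/-- The pattern of a program, as a list. -/
def patList (p : List Ins) : ER.Pat.Pat := (nsl p).map (entry p (nsl p))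

/-- The pattern of a system. -/
def patOf (S : List Con) : ER.Pat.Pat := patList (prog S)

section

variable {p : List Ins}

theorem patList_length : (patList p).length = (nsl p).length := by
  unfold patList
  rw [List.length_map]

theorem patList_get {n : ℕ} (hn : n < (nsl p).length) (d : Bool × List ℕ × List Bool) :
    (patList p).getD n d = entry p (nsl p) (nsl p)[n] := by
  unfold patList
  rw [List.getD_eq_getElem?_getD, List.getElem?_map, List.getElem?_eq_getElem hn]
  rfl

theorem kind_eq {n : ℕ} (hn : n < (nsl p).length) : ER.Pat.kind (patList p) n = kd (nsl p)[n] := by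
  unfold ER.Pat.kind
  rw [patList_get hn]
  rfl

theorem par_eq {n : ℕ} (hn : n < (nsl p).length) :
    ER.Pat.par (patList p) n = (par p (nsl p)[n]).map (fun b => (nsl p).idxOf b) := by
  unfold ER.Pat.par
  rw [patList_get hn]
  rfl

theorem sg_eq {n m : ℕ} (hn : n < (nsl p).length) (hm : m < (nsl p).length) :
    ER.Pat.sg (patList p) n m = if kd (nsl p)[n] = true then sg p (nsl p)[n] (nsl p)[m]
      else sg p (nsl p)[m] (nsl p)[n] := by
  unfold ER.Pat.sg
  rw [patList_get hn]
  simp only [entry]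
  rw [List.getD_eq_getElem?_getD, List.getElem?_map, List.getElem?_eq_getElem hm]
  rfl

theorem rk_lt_iff {n m : ℕ} (hn : n < (nsl p).length) (hm : m < (nsl p).length) :
    rk (nsl p)[n] < rk (nsl p)[m] ↔ n < m := by
  have h := List.pairwise_iff_getElem.1 (nsl_sorted p)
  constructor
  · intro h1
    by_contra h2
    rcases Nat.lt_or_ge m n with h3 | h3
    · have := h m n hm hn h3
      omega
    · have : n = m := by omega
      subst this
      omega
  · exact h n m hn hm

theorem idx_mem {b : ℕ × ℕ} (hb : b ∈ nsl p) : (nsl p).idxOf b < (nsl p).length :=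
  List.idxOf_lt_length_of_mem hb

theorem idx_get {b : ℕ × ℕ} (hb : b ∈ nsl p) : (nsl p)[(nsl p).idxOf b]'(idx_mem hb) = b :=
  List.getElem_idxOf (idx_mem hb)

theorem get_idx (hp : WF 2 p) {n : ℕ} (hn : n < (nsl p).length) :
    (nsl p).idxOf (nsl p)[n] = n :=
  (pat_wf hp).nodup.idxOf_getElem n hn

theorem mem_par_iff (hp : WF 2 p) {n m : ℕ} (hn : n < (nsl p).length) (hm : m < (nsl p).length) :
    m ∈ ER.Pat.par (patList p) n ↔ (nsl p)[m] ∈ par p (nsl p)[n] := by
  rw [par_eq hn, List.mem_map]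
  constructor
  · rintro ⟨b, hb, rfl⟩
    have hb' := ((par_spec hp (List.getElem_mem hn)).2.2 b hb).1
    rw [idx_get hb']
    exact hb
  · intro h
    exact ⟨_, h, get_idx hp hm⟩

theorem patList_wf (hp : WF 2 p) : ER.Pat.WF (patList p) := by
  refine ⟨?_, ?_, ?_, ?_⟩
  · intro n hn
    rw [patList_length] at hn
    rw [par_eq hn, List.length_map]
    exact (par_spec hp (List.getElem_mem hn)).1
  · intro n hn
    rw [patList_length] at hn
    rw [par_eq hn]
    have h := par_spec hp (List.getElem_mem hn)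
    refine List.Nodup.map_on ?_ h.2.1
    intro x hx y hy hxy
    have hx' := (h.2.2 x hx).1
    have hy' := (h.2.2 y hy).1
    rw [← idx_get hx', ← idx_get hy']
    congr 1
  · intro n hn m hm
    rw [patList_length] at hn
    rw [par_eq hn, List.mem_map] at hm
    obtain ⟨b, hb, rfl⟩ := hm
    have h := (par_spec hp (List.getElem_mem hn)).2.2 b hb
    rw [← rk_lt_iff (idx_mem h.1) hn, idx_get h.1]
    exact h.2.1
  · intro n hn m hm
    rw [patList_length] at hn
    rw [par_eq hn, List.mem_map] at hm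
    obtain ⟨b, hb, rfl⟩ := hm
    have h := (par_spec hp (List.getElem_mem hn)).2.2 b hb
    rw [kind_eq hn, kind_eq (idx_mem h.1), idx_get h.1, h.2.2]
    cases kd (nsl p)[n] <;> simp

theorem pairs (hp : WF 2 p) {n m : ℕ} (hn : n < (nsl p).length) (hm : m < n) :
    (nsl p)[n] ∉ par p ((nsl p)[m]'(by omega)) := by
  intro h
  have h1 := ((par_spec hp (List.getElem_mem (show m < (nsl p).length by omega))).2.2 _ h).2.1
  rw [rk_lt_iff hn (by omega)] at h1
  omega

theorem sgn_SS (b : Bool) (x : ℝ) : 0 < ER.Pat.sgn b * x ↔ SS b x := by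
  cases b
  · rw [SS_false]; simp [ER.Pat.sgn]
  · rw [SS_true]; simp [ER.Pat.sgn]

/-- Exact realisations of the two forms of the pattern. -/
theorem exact_of_list (hp : WF 2 p) {X : ℕ → Fin 3 → ℝ} (h : ER.Pat.Exact (patList p) X) :
    (pat p).Exact (fun a => X ((nsl p).idxOf a)) := by
  intro a ha b hb hka hkb
  have ha' : a ∈ nsl p := ha
  have hb' : b ∈ nsl p := hb
  have hka' : kd a = true := hka
  have hkb' : kd b = false := hkb
  have ia := idx_mem ha'
  have ib := idx_mem hb'
  have ga := idx_get ha'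
  have gb := idx_get hb'
  simp only
  have hpp : ((a ∈ (pat p).par b ∨ b ∈ (pat p).par a) ↔ (a ∈ par p b ∨ b ∈ par p a)) := Iff.rfl
  rw [hpp]
  have hsg : (pat p).sg a b = sg p a b := rfl
  rw [hsg]
  rcases Nat.lt_trichotomy ((nsl p).idxOf a) ((nsl p).idxOf b) with hlt | heq | hlt
  · have h1 := h _ (by rw [patList_length]; exact ib) _ hlt (by
      rw [kind_eq ib, kind_eq ia, ga, gb, hka', hkb']; simp)
    rw [mem_par_iff hp ib ia, ga, gb, sg_eq ib ia, ga, gb, if_neg (by rw [hkb']; simp),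
      sgn_SS, dotProduct_comm] at h1
    have h2 := pairs hp ib hlt
    rw [ga, gb] at h2
    constructor
    · rintro (h3 | h3)
      · exact h1.1 h3
      · exact absurd h3 h2
    · intro h3
      exact h1.2 fun h4 => h3 (Or.inl h4)
  · exfalso
    have : a = b := by rw [← ga, ← gb]; congr 1
    rw [this, hkb'] at hka'
    exact absurd hka' (by simp)
  · have h1 := h _ (by rw [patList_length]; exact ia) _ hlt (by
      rw [kind_eq ib, kind_eq ia, ga, gb, hka', hkb']; simp)
    rw [mem_par_iff hp ia ib, ga, gb, sg_eq ia ib, ga, gb, if_pos hka', sgn_SS] at h1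
    have h2 := pairs hp ia hlt
    rw [ga, gb] at h2
    constructor
    · rintro (h3 | h3)
      · exact absurd h3 h2
      · exact h1.1 h3
    · intro h3
      exact h1.2 fun h4 => h3 (Or.inr h4)

theorem list_of_exact (hp : WF 2 p) {X : ℕ × ℕ → Fin 3 → ℝ} (h : (pat p).Exact X)
    (hi : (pat p).Indep X) (h0 : ∀ a ∈ (pat p).ns, kd a = true → 0 < X a 0)
    (h2 : ∀ a ∈ (pat p).ns, kd a = false → 0 < X a 2) :
    ER.Pat.Exact (patList p) (fun n => X ((nsl p).getD n (0, 12))) ∧
      ER.Pat.Nice (patList p) (fun n => X ((nsl p).getD n (0, 12))) := by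
  have hget : ∀ n (hn : n < (nsl p).length), (nsl p).getD n (0, 12) = (nsl p)[n] := by
    intro n hn
    rw [List.getD_eq_getElem?_getD, List.getElem?_eq_getElem hn]
    rfl
  refine ⟨?_, ?_, ?_, ?_⟩
  · intro n hn m hm hk
    rw [patList_length] at hn
    have hm' : m < (nsl p).length := by omega
    rw [kind_eq hn, kind_eq hm'] at hk
    rw [mem_par_iff hp hn hm', sg_eq hn hm', sgn_SS]
    simp only [hget n hn, hget m hm']
    have hpr := pairs hp hn hm
    rcases hkn : kd (nsl p)[n] with _ | _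
    · rw [hkn] at hk
      have hkm : kd (nsl p)[m] = true := by
        cases hh : kd (nsl p)[m]
        · rw [hh] at hk; exact absurd rfl hk
        · rfl
      have h3 := h (nsl p)[m] (List.getElem_mem hm') (nsl p)[n] (List.getElem_mem hn) hkm hkn
      rw [if_neg (by simp), dotProduct_comm]
      refine ⟨fun h4 => h3.1 (Or.inl h4), fun h4 => h3.2 ?_⟩
      rintro (h5 | h5)
      · exact h4 h5
      · exact hpr h5
    · rw [hkn] at hk
      have hkm : kd (nsl p)[m] = false := by
        cases hh : kd (nsl p)[m]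
        · rfl
        · rw [hh] at hk; exact absurd rfl hk
      have h3 := h (nsl p)[n] (List.getElem_mem hn) (nsl p)[m] (List.getElem_mem hm') hkn hkm
      rw [if_pos rfl]
      refine ⟨fun h4 => h3.1 (Or.inr h4), fun h4 => h3.2 ?_⟩
      rintro (h5 | h5)
      · exact hpr h5
      · exact h4 h5
  · intro n hn hk
    rw [patList_length] at hn
    rw [kind_eq hn] at hk
    simp only [hget n hn]
    exact h0 _ (List.getElem_mem hn) hk
  · intro n hn hk
    rw [patList_length] at hn
    rw [kind_eq hn] at hk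
    simp only [hget n hn]
    exact h2 _ (List.getElem_mem hn) hk
  · intro n hn s
    rw [patList_length] at hn
    obtain ⟨z, hz⟩ := hi (nsl p)[n] (List.getElem_mem hn)
      (fun b => s ((par p (nsl p)[n]).idxOf b))
    refine ⟨z, fun q hq => ?_⟩
    have hq' : q < (par p (nsl p)[n]).length := by
      rw [par_eq hn, List.length_map] at hq
      exact hq
    have hpar : ∀ (L : List ℕ) (hL : L = (par p (nsl p)[n]).map (fun b => (nsl p).idxOf b))
        (hq : q < L.length), L[q] = (nsl p).idxOf (par p (nsl p)[n])[q] := by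
      intro L hL hq
      subst hL
      rw [List.getElem_map]
    rw [hpar _ (par_eq hn) hq]
    have hmem : (par p (nsl p)[n])[q] ∈ par p (nsl p)[n] := List.getElem_mem hq'
    have hns := ((par_spec hp (List.getElem_mem hn)).2.2 _ hmem).1
    rw [hget _ (idx_mem hns), idx_get hns, hz _ hmem,
      (par_spec hp (List.getElem_mem hn)).2.1.idxOf_getElem q hq']

end

/-! ### Polynomial time -/

section

variable {α : Type} [TEnc α]

theorem poly_opd {p : α → List Ins} {k : α → ℕ} (hp : Poly p) (hk : Poly k) :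
    Poly (fun a => opd (p a) (k a)) := by
  refine (Poly.ite (Poly.decide_lt hk (Poly.const 2)) (Poly.const none)
    (Poly.getD hp (Poly.sub hk (Poly.const 2)) (Poly.const none))).congr fun a => ?_
  unfold opd
  rw [List.getD_eq_getElem?_getD]

/-- The parents, without an operation. -/
def parNone (a : ℕ × ℕ) : List (ℕ × ℕ) :=
  if a.2 = 0 then [(0, 12)] else if a.2 = 1 then [(a.1, 0)] else []

/-- The parents, with an operation. -/
def parSome (a : ℕ × ℕ) (c : ℕ × ℕ × ℕ × ℕ) : List (ℕ × ℕ) :=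
  if a.2 = 0 then [(a.1, 11), (0, 12)] else
  if a.2 = 1 then [(a.1, 0)] else
  if a.2 = 3 then [(a.1, 6)] else
  if a.2 = 4 then [(a.1, 10), (a.1, 8)] else
  if a.2 = 5 then [(a.1, 7), (a.1, 9)] else
  if a.2 = 6 then [(a.1, 2), (c.2.2.1, 0)] else
  if a.2 = 7 then [(a.1, 3), (c.2.1, 0)] else
  if a.2 = 8 then [(a.1, 3), (c.1, 0)] else
  if a.2 = 9 then [(a.1, 2), (0, 0)] else
  if a.2 = 10 then [(a.1, 5), (c.2.2.2, 0)] else
  if a.2 = 11 then [(a.1, 2), (a.1, 4)] else []

/-- The index of a line, with an operation. -/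
def aidxSome (a : ℕ × ℕ) (c : ℕ × ℕ × ℕ × ℕ) : ℕ :=
  if a.2 = 6 then c.2.2.1 else
  if a.2 = 7 then c.2.1 else
  if a.2 = 8 then c.1 else
  if a.2 = 9 then 0 else
  if a.2 = 10 then c.2.2.2 else a.1

theorem poly_dec {s : α → ℕ} (hs : Poly s) (n : ℕ) : Poly (fun x => decide (s x = n)) :=
  Poly.decide_eq hs (Poly.const n)

theorem poly_pr {f : α → ℕ} (hf : Poly f) (n : ℕ) : Poly (fun x => (f x, n)) :=
  hf.pair (Poly.const n)

theorem poly_parNone {a : α → ℕ × ℕ} (ha : Poly a) : Poly (fun x => parNone (a x)) :=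
  Poly.ite (poly_dec (Poly.snd ha) 0) (Poly.const _)
    (Poly.ite (poly_dec (Poly.snd ha) 1) (Poly.cons (poly_pr (Poly.fst ha) 0) (Poly.const []))
      (Poly.const []))

theorem poly_parSome {a : α → ℕ × ℕ} {c : α → ℕ × ℕ × ℕ × ℕ} (ha : Poly a) (hc : Poly c) :
    Poly (fun x => parSome (a x) (c x)) := by
  have g1 := Poly.fst ha
  have g2 := Poly.snd ha
  have o1 := Poly.fst hc
  have o2 := Poly.fst (Poly.snd hc)
  have o3 := Poly.fst (Poly.snd (Poly.snd hc))
  have o4 := Poly.snd (Poly.snd (Poly.snd hc))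
  have nl : Poly (fun _ : α => ([] : List (ℕ × ℕ))) := Poly.const []
  have l0 : Poly (fun _ : α => ((0, 12) : ℕ × ℕ)) := Poly.const _
  have z0 : Poly (fun _ : α => ((0, 0) : ℕ × ℕ)) := Poly.const _
  exact
    Poly.ite (poly_dec g2 0) (Poly.cons (poly_pr g1 11) (Poly.cons l0 nl)) <|
    Poly.ite (poly_dec g2 1) (Poly.cons (poly_pr g1 0) nl) <|
    Poly.ite (poly_dec g2 3) (Poly.cons (poly_pr g1 6) nl) <|
    Poly.ite (poly_dec g2 4) (Poly.cons (poly_pr g1 10) (Poly.cons (poly_pr g1 8) nl)) <|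
    Poly.ite (poly_dec g2 5) (Poly.cons (poly_pr g1 7) (Poly.cons (poly_pr g1 9) nl)) <|
    Poly.ite (poly_dec g2 6) (Poly.cons (poly_pr g1 2) (Poly.cons (poly_pr o3 0) nl)) <|
    Poly.ite (poly_dec g2 7) (Poly.cons (poly_pr g1 3) (Poly.cons (poly_pr o2 0) nl)) <|
    Poly.ite (poly_dec g2 8) (Poly.cons (poly_pr g1 3) (Poly.cons (poly_pr o1 0) nl)) <|
    Poly.ite (poly_dec g2 9) (Poly.cons (poly_pr g1 2) (Poly.cons z0 nl)) <|
    Poly.ite (poly_dec g2 10) (Poly.cons (poly_pr g1 5) (Poly.cons (poly_pr o4 0) nl)) <|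
    Poly.ite (poly_dec g2 11) (Poly.cons (poly_pr g1 2) (Poly.cons (poly_pr g1 4) nl)) nl

theorem poly_aidxSome {a : α → ℕ × ℕ} {c : α → ℕ × ℕ × ℕ × ℕ} (ha : Poly a) (hc : Poly c) :
    Poly (fun x => aidxSome (a x) (c x)) := by
  have g1 := Poly.fst ha
  have g2 := Poly.snd ha
  have o1 := Poly.fst hc
  have o2 := Poly.fst (Poly.snd hc)
  have o3 := Poly.fst (Poly.snd (Poly.snd hc))
  have o4 := Poly.snd (Poly.snd (Poly.snd hc))
  exact
    Poly.ite (poly_dec g2 6) o3 <| Poly.ite (poly_dec g2 7) o2 <| Poly.ite (poly_dec g2 8) o1 <|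
    Poly.ite (poly_dec g2 9) (Poly.const 0) <| Poly.ite (poly_dec g2 10) o4 g1

theorem poly_par {p : α → List Ins} {a : α → ℕ × ℕ} (hp : Poly p) (ha : Poly a) :
    Poly (fun x => par (p x) (a x)) := by
  refine (Poly.optCases (g := fun x => parNone (a x)) (h := fun x c => parSome (a x) c)
    (poly_opd hp (Poly.fst ha)) (poly_parNone ha)
    (poly_parSome (ha.comp (Poly.fst Poly.id)) (Poly.snd Poly.id))).congr fun x => ?_
  unfold par
  rcases opd (p x) (a x).1 with _ | ⟨o, l, i, j⟩ <;> rfl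

theorem poly_aidx {p : α → List Ins} {a : α → ℕ × ℕ} (hp : Poly p) (ha : Poly a) :
    Poly (fun x => aidx (p x) (a x)) := by
  refine (Poly.optCases (g := fun x => (a x).1) (h := fun x c => aidxSome (a x) c)
    (poly_opd hp (Poly.fst ha)) (Poly.fst ha)
    (poly_aidxSome (ha.comp (Poly.fst Poly.id)) (Poly.snd Poly.id))).congr fun x => ?_
  unfold aidx
  rcases opd (p x) (a x).1 with _ | ⟨o, l, i, j⟩ <;> rfl

theorem poly_kd {a : α → ℕ × ℕ} (ha : Poly a) : Poly (fun x => kd (a x)) :=
  Poly.or (Poly.decide_eq (Poly.snd ha) (Poly.const 0))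
    (Poly.and (Poly.decide_le (Poly.const 2) (Poly.snd ha))
      (Poly.decide_le (Poly.snd ha) (Poly.const 5)))

theorem poly_tb {s t : α → ℕ} (hs : Poly s) (ht : Poly t) : Poly (fun x => tb (s x) (t x)) := by
  have e : ∀ {s : α → ℕ}, Poly s → ∀ (n : ℕ), Poly (fun x => decide (s x = n)) :=
    fun hs n => Poly.decide_eq hs (Poly.const n)
  exact Poly.or (Poly.or (e hs 2) (Poly.and (e hs 3) (Poly.or (e ht 10) (e ht 11))))
    (Poly.and (e hs 5) (e ht 8))

theorem poly_sg {p : α → List Ins} {a b : α → ℕ × ℕ} (hp : Poly p) (ha : Poly a) (hb : Poly b) :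
    Poly (fun x => sg (p x) (a x) (b x)) := by
  have e : ∀ {s : α → ℕ}, Poly s → ∀ (n : ℕ), Poly (fun x => decide (s x = n)) :=
    fun hs n => Poly.decide_eq hs (Poly.const n)
  exact Poly.ite (e (Poly.snd hb) 12) (Poly.const true) <|
    Poly.ite (e (Poly.snd ha) 0) (Poly.decide_lt (Poly.fst ha) (poly_aidx hp hb)) <|
    Poly.ite (e (Poly.snd hb) 1) (Poly.const false) <|
    Poly.ite (Poly.decide_eq (Poly.fst ha) (Poly.fst hb)) (poly_tb (Poly.snd ha) (Poly.snd hb))
      (Poly.decide_lt (Poly.fst ha) (Poly.fst hb))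

theorem poly_nsl {p : α → List Ins} (hp : Poly p) : Poly (fun x => nsl (p x)) := by
  refine Poly.cons (Poly.const _) (Poly.flatMap (F := fun x k => scal (p x) k)
    (UPoly.range (UPoly.add (UPoly.length hp) (UPoly.const 2))) ?_)
  have hk : Poly (fun y : α × ℕ => y.2) := Poly.snd Poly.id
  have hop : Poly (fun y : α × ℕ => opd (p y.1) y.2) := poly_opd (hp.comp (Poly.fst Poly.id)) hk
  have pr : ∀ n : ℕ, Poly (fun y : α × ℕ => (y.2, n)) := fun n => hk.pair (Poly.const n)
  have hs : Poly (fun y : α × ℕ => (opd (p y.1) y.2).isSome) := by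
    refine (Poly.optCases (g := fun _ => false) (h := fun _ _ => true) hop (Poly.const _)
      (Poly.const _)).congr fun x => ?_
    rcases opd (p x.1) x.2 with _ | _ <;> rfl
  refine Poly.append (Poly.ite (Poly.decide_bool hs) ?_ (Poly.const [])) ?_
  · exact Poly.cons (pr 2) (Poly.cons (pr 6) (Poly.cons (pr 3) (Poly.cons (pr 7)
      (Poly.cons (pr 8) (Poly.cons (pr 9) (Poly.cons (pr 5) (Poly.cons (pr 10)
      (Poly.cons (pr 4) (Poly.cons (pr 11) (Poly.const []))))))))))
  · exact Poly.cons (pr 0) (Poly.cons (pr 1) (Poly.const []))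

theorem poly_idxOfP {l : α → List (ℕ × ℕ)} {b : α → ℕ × ℕ} (hl : Poly l) (hb : Poly b) :
    Poly (fun a => (l a).idxOf (b a)) := by
  have h := H612.poly_idxOf hl hb
  have e : (instBEqProd : BEq (ℕ × ℕ)) = instBEqOfDecidableEq := lawful_beq_subsingleton _ _
  rw [← e] at h
  exact h

theorem poly_entry {p : α → List Ins} {ns : α → List (ℕ × ℕ)} {a : α → ℕ × ℕ} (hp : Poly p)
    (hns : Poly ns) (ha : Poly a) : Poly (fun x => entry (p x) (ns x) (a x)) := by
  have h1 : Poly (fun y : α × (ℕ × ℕ) => p y.1) := hp.comp (Poly.fst Poly.id)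
  have h2 : Poly (fun y : α × (ℕ × ℕ) => a y.1) := ha.comp (Poly.fst Poly.id)
  have h3 : Poly (fun y : α × (ℕ × ℕ) => ns y.1) := hns.comp (Poly.fst Poly.id)
  have h4 : Poly (fun y : α × (ℕ × ℕ) => y.2) := Poly.snd Poly.id
  have e1 : Poly (fun x => (par (p x) (a x)).map (fun b => (ns x).idxOf b)) :=
    Poly.map (F := fun x b => (ns x).idxOf b) (poly_par hp ha) (poly_idxOfP h3 h4)
  have e3 : Poly (fun y : α × (ℕ × ℕ) =>
      if kd (a y.1) = true then sg (p y.1) (a y.1) y.2 else sg (p y.1) y.2 (a y.1)) :=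
    Poly.ite (Poly.decide_bool (poly_kd h2)) (poly_sg h1 h2 h4) (poly_sg h1 h4 h2)
  have e2 : Poly (fun x => (ns x).map
      (fun b => if kd (a x) = true then sg (p x) (a x) b else sg (p x) b (a x))) :=
    Poly.map (F := fun x b => if kd (a x) = true then sg (p x) (a x) b else sg (p x) b (a x)) hns
      e3
  have e0 : Poly (fun x => kd (a x)) := poly_kd ha
  exact e0.pair (e1.pair e2)

theorem poly_patList {p : α → List Ins} (hp : Poly p) : Poly (fun x => patList (p x)) :=
  Poly.map (F := fun x a => entry (p x) (nsl (p x)) a) (poly_nsl hp)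
    (poly_entry (hp.comp (Poly.fst Poly.id)) ((poly_nsl hp).comp (Poly.fst Poly.id))
      (Poly.snd Poly.id))

end

/-! ### The pattern of a system -/

theorem patOf_wf (S : List Con) : ER.Pat.WF (patOf S) := patList_wf (wf_prog S)

theorem poly_patOf {α : Type} [TEnc α] {S : α → List Con} (hS : Poly S) :
    Poly (fun a => patOf (S a)) := poly_patList (poly_prog hS)

theorem patOf_complete {S : List Con} (h : Sat S) :
    ∃ X, ER.Pat.Exact (patOf S) X ∧ ER.Pat.Nice (patOf S) X := by
  obtain ⟨X, h1, h2, h3, h4⟩ := exact_complete (wf_prog S) (prog_complete h)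
  exact ⟨_, list_of_exact (wf_prog S) h1 h2 h3 h4⟩

theorem patOf_sound {S : List Con} (h : ∃ X, ER.Pat.Exact (patOf S) X) : Sat S := by
  obtain ⟨X, hX⟩ := h
  have h1 := exact_of_list (wf_prog S) hX
  refine prog_sound (exact_sound (wf_prog S) h1 ⟨4, ?_⟩)
  rfl

end Pool.Agent.NPC.ER.Sgn
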