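import Pool.Agent.H612.Pat
import Pool.Agent.H612.Oslp

/-!
# The incidence pattern of an increasing straight-line program

The values of the program are points `S k` of a line `ℓ`, in the order of their indices; the index
`0` is the point at infinity. Every operation is a complete quadrilateral with four points `P₁`,
`P₂`, `P₃`, `P₄` and six lines, which meet `ℓ` in the points of indices
`i`, `l`, `o`, `0`, `j`, `k`.
-/

namespace Pool.Agent.NPC.ER.Sgn

open Matrix Oslp

/-- The instruction of index `k`. -/
def opd (p : List Ins) (k : ℕ) : Ins := if k < 2 then none else (p[k - 2]?).getD none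

/-- The parents of a name. The names `(k, s)` are: the point `S k` (`s = 0`), a line `R k` through
it (`s = 1`), the points `P₁`, `P₂`, `P₃`, `P₄` (`s = 2, 3, 4, 5`) and the lines `P₁P₂`, `P₂P₄`,
`P₂P₃`, `P₁P₄`, `P₃P₄`, `P₁P₃` (`s = 6, 7, 8, 9, 10, 11`) of the operation of index `k`, and the
line `ℓ` (`(0, 12)`). -/
def par (p : List Ins) (a : ℕ × ℕ) : List (ℕ × ℕ) :=
  match opd p a.1 with
  | none => if a.2 = 0 then [(0, 12)] else if a.2 = 1 then [(a.1, 0)] else []
  | some (o, l, i, j) =>
    if a.2 = 0 then [(a.1, 11), (0, 12)] else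
    if a.2 = 1 then [(a.1, 0)] else
    if a.2 = 3 then [(a.1, 6)] else
    if a.2 = 4 then [(a.1, 10), (a.1, 8)] else
    if a.2 = 5 then [(a.1, 7), (a.1, 9)] else
    if a.2 = 6 then [(a.1, 2), (i, 0)] else
    if a.2 = 7 then [(a.1, 3), (l, 0)] else
    if a.2 = 8 then [(a.1, 3), (o, 0)] else
    if a.2 = 9 then [(a.1, 2), (0, 0)] else
    if a.2 = 10 then [(a.1, 5), (j, 0)] else
    if a.2 = 11 then [(a.1, 2), (a.1, 4)] else []

/-- The index of the point of `ℓ` on a line. -/
def aidx (p : List Ins) (a : ℕ × ℕ) : ℕ :=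
  match opd p a.1 with
  | none => a.1
  | some (o, l, i, j) =>
    if a.2 = 6 then i else
    if a.2 = 7 then l else
    if a.2 = 8 then o else
    if a.2 = 9 then 0 else
    if a.2 = 10 then j else a.1

/-- Points and lines. -/
def kd (a : ℕ × ℕ) : Bool := decide (a.2 = 0) || (decide (2 ≤ a.2) && decide (a.2 ≤ 5))

/-- The signs inside an operation. -/
def tb (s t : ℕ) : Bool :=
  decide (s = 2) || (decide (s = 3) && (decide (t = 10) || decide (t = 11))) ||
    (decide (s = 5) && decide (t = 8))

/-- The signs. -/
def sg (p : List Ins) (a b : ℕ × ℕ) : Bool :=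
  if b.2 = 12 then true else
  if a.2 = 0 then decide (a.1 < aidx p b) else
  if b.2 = 1 then false else
  if a.1 = b.1 then tb a.2 b.2 else decide (a.1 < b.1)

/-- The names of an operation. -/
def gadget (k : ℕ) : List (ℕ × ℕ) :=
  [(k, 2), (k, 6), (k, 3), (k, 7), (k, 8), (k, 9), (k, 5), (k, 10), (k, 4), (k, 11)]

/-- The names of the index `k`. -/
def scal (p : List Ins) (k : ℕ) : List (ℕ × ℕ) :=
  (if (opd p k).isSome = true then gadget k else []) ++ [(k, 0), (k, 1)]

/-- The names. -/
def nsl (p : List Ins) : List (ℕ × ℕ) := (0, 12) :: (List.range (p.length + 2)).flatMap (scal p)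

/-- The pattern of a program. -/
def pat (p : List Ins) : Pat (ℕ × ℕ) := ⟨nsl p, kd, par p, sg p⟩

theorem run_of_get {v : ℕ → ℝ} : ∀ {n : ℕ} {p : List Ins},
    (∀ t, t < p.length → v (n + t - 1) < v (n + t) ∧ Holds v (n + t) ((p[t]?).getD none)) →
      Oslp.Run v n p
  | n, [], _ => trivial
  | n, a :: p, h => by
    have h0 := h 0 (by simp)
    refine ⟨h0.1, h0.2, run_of_get fun t ht => ?_⟩
    have := h (t + 1) (by simpa using ht)
    rw [show n + (t + 1) = n + 1 + t by omega] at this
    simpa using this

theorem run_iff {v : ℕ → ℝ} {p : List Ins} : Oslp.Run v 2 p ↔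
    ∀ k, 2 ≤ k → k < p.length + 2 → v (k - 1) < v k ∧ Holds v k (opd p k) := by
  constructor
  · intro h k h2 hk
    have hlt : k - 2 < p.length := by omega
    have := run_get h (k - 2) (p[k - 2]) (by rw [List.getElem?_eq_getElem hlt])
    rw [show 2 + (k - 2) = k by omega] at this
    unfold opd
    rw [if_neg (by omega), List.getElem?_eq_getElem hlt]
    exact this
  · intro h
    refine run_of_get fun t ht => ?_
    have := h (2 + t) (by omega) (by omega)
    unfold opd at this
    rw [if_neg (by omega), show 2 + t - 2 = t by omega] at this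
    exact this

theorem opd_wf {p : List Ins} (hp : WF 2 p) {k o l i j : ℕ} (h : opd p k = some (o, l, i, j)) :
    2 ≤ k ∧ k < p.length + 2 ∧ o < l ∧ l < i ∧ l < j ∧ i < k ∧ j < k := by
  unfold opd at h
  by_cases hk : k < 2
  · rw [if_pos hk] at h; simp at h
  · rw [if_neg hk] at h
    by_cases hlt : k - 2 < p.length
    · rw [List.getElem?_eq_getElem hlt, Option.getD_some] at h
      have := wf_get hp (k - 2) _ (by rw [List.getElem?_eq_getElem hlt, h])
      rw [show 2 + (k - 2) = k by omega] at this
      obtain ⟨h1, h2, h3, h4, h5⟩ := this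
      exact ⟨by omega, by omega, h1, h2, h3, h4, h5⟩
    · rw [List.getElem?_eq_none (by omega)] at h
      simp at h

theorem mem_scal {p : List Ins} {k : ℕ} {a : ℕ × ℕ} : a ∈ scal p k ↔
    a.1 = k ∧ (a.2 = 0 ∨ a.2 = 1 ∨ ((opd p k).isSome = true ∧ 2 ≤ a.2 ∧ a.2 ≤ 11)) := by
  obtain ⟨x, s⟩ := a
  unfold scal gadget
  by_cases h : (opd p k).isSome = true
  · simp only [h, if_true, List.mem_append, List.mem_cons, List.not_mem_nil, or_false,
      Prod.mk.injEq, true_and]
    constructor
    · intro h1
      refine ⟨by omega, by omega⟩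
    · rintro ⟨rfl, h1⟩
      have : s ≤ 11 := by omega
      interval_cases s <;> simp
  · simp only [h, Bool.false_eq_true, if_false, List.nil_append, List.mem_cons,
      List.not_mem_nil, or_false, Prod.mk.injEq, false_and]
    constructor
    · intro h1
      refine ⟨by omega, by omega⟩
    · rintro ⟨rfl, h1⟩
      rcases h1 with rfl | rfl <;> simp

theorem mem_nsl {p : List Ins} {a : ℕ × ℕ} : a ∈ nsl p ↔ a = (0, 12) ∨ (a.1 < p.length + 2 ∧
    (a.2 = 0 ∨ a.2 = 1 ∨ ((opd p a.1).isSome = true ∧ 2 ≤ a.2 ∧ a.2 ≤ 11))) := by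
  unfold nsl
  rw [List.mem_cons, List.mem_flatMap]
  constructor
  · rintro (h | ⟨k, hk, h⟩)
    · exact Or.inl h
    · rw [mem_scal] at h
      obtain ⟨rfl, h⟩ := h
      exact Or.inr ⟨List.mem_range.1 hk, h⟩
  · rintro (h | ⟨hk, h⟩)
    · exact Or.inl h
    · exact Or.inr ⟨a.1, List.mem_range.2 hk, mem_scal.2 ⟨rfl, h⟩⟩

/-! ### The order of construction -/

/-- The position of a name among the names of the same index. -/
def pos (s : ℕ) : ℕ :=
  if s = 2 then 0 else if s = 6 then 1 else if s = 3 then 2 else if s = 7 then 3 else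
  if s = 8 then 4 else if s = 9 then 5 else if s = 5 then 6 else if s = 10 then 7 else
  if s = 4 then 8 else if s = 11 then 9 else if s = 0 then 10 else 11

/-- The order of construction. -/
def rk (a : ℕ × ℕ) : ℕ := if a = (0, 12) then 0 else 1 + 12 * a.1 + pos a.2

theorem pos_le (s : ℕ) : pos s ≤ 11 := by
  unfold pos
  split_ifs <;> omega

theorem nsl_sorted (p : List Ins) : (nsl p).Pairwise fun a b => rk a < rk b := by
  unfold nsl
  rw [List.pairwise_cons, List.pairwise_flatMap]
  refine ⟨?_, ?_, ?_⟩
  · intro b hb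
    rw [List.mem_flatMap] at hb
    obtain ⟨k, _, hb⟩ := hb
    rw [mem_scal] at hb
    have hb1 : b ≠ (0, 12) := by
      rintro rfl
      simp only at hb
      omega
    unfold rk
    rw [if_pos rfl, if_neg hb1]
    omega
  · intro k _
    unfold scal gadget
    by_cases h : (opd p k).isSome = true
    · simp [h, rk, pos]
    · simp [h, rk, pos]
  · refine List.Pairwise.imp ?_ List.pairwise_lt_range
    intro k k' hkk a ha b hb
    rw [mem_scal] at ha hb
    have ha1 : a ≠ (0, 12) := by
      rintro rfl
      simp only at ha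
      omega
    have hb1 : b ≠ (0, 12) := by
      rintro rfl
      simp only at hb
      omega
    unfold rk
    rw [if_neg ha1, if_neg hb1]
    have := pos_le a.2
    omega

theorem par_spec {p : List Ins} (hp : WF 2 p) {a : ℕ × ℕ} (ha : a ∈ nsl p) :
    (par p a).length ≤ 2 ∧ (par p a).Nodup ∧
      ∀ b ∈ par p a, b ∈ nsl p ∧ rk b < rk a ∧ kd b = !(kd a) := by
  obtain ⟨k, s⟩ := a
  rw [mem_nsl] at ha
  rcases ha with ha | ⟨hk, hs⟩
  · rw [Prod.mk.injEq] at ha
    obtain ⟨rfl, rfl⟩ := ha
    have : par p (0, 12) = [] := by simp [par, opd]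
    rw [this]
    simp
  · simp only at hk hs
    rcases hop : opd p k with _ | ⟨o, l, i, j⟩
    · rw [hop] at hs
      have hs' : s = 0 ∨ s = 1 := by simpa using hs
      rcases hs' with rfl | rfl
      · have : par p (k, 0) = [(0, 12)] := by simp [par, hop]
        rw [this]
        simp [mem_nsl, rk, kd]
      · have : par p (k, 1) = [(k, 0)] := by simp [par, hop]
        rw [this]
        simp [mem_nsl, rk, kd, hk, pos]
    · obtain ⟨g1, g2, g3, g4, g5, g6, g7⟩ := opd_wf hp hop
      have hs' : s ≤ 11 := by omega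
      have hsome : (opd p k).isSome = true := by rw [hop]; rfl
      interval_cases s
      · have : par p (k, 0) = [(k, 11), (0, 12)] := by simp [par, hop]
        rw [this]
        simp [mem_nsl, rk, kd, hk, hsome, pos]
      · have : par p (k, 1) = [(k, 0)] := by simp [par, hop]
        rw [this]
        simp [mem_nsl, rk, kd, hk, pos]
      · have : par p (k, 2) = [] := by simp [par, hop]
        rw [this]
        simp
      · have : par p (k, 3) = [(k, 6)] := by simp [par, hop]
        rw [this]
        simp [mem_nsl, rk, kd, hk, hsome, pos]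
      · have : par p (k, 4) = [(k, 10), (k, 8)] := by simp [par, hop]
        rw [this]
        simp [mem_nsl, rk, kd, hk, hsome, pos]
      · have : par p (k, 5) = [(k, 7), (k, 9)] := by simp [par, hop]
        rw [this]
        simp [mem_nsl, rk, kd, hk, hsome, pos]
      · have : par p (k, 6) = [(k, 2), (i, 0)] := by simp [par, hop]
        rw [this]
        simp [mem_nsl, rk, kd, hk, hsome, pos]
        omega
      · have : par p (k, 7) = [(k, 3), (l, 0)] := by simp [par, hop]
        rw [this]
        simp [mem_nsl, rk, kd, hk, hsome, pos]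
        omega
      · have : par p (k, 8) = [(k, 3), (o, 0)] := by simp [par, hop]
        rw [this]
        simp [mem_nsl, rk, kd, hk, hsome, pos]
        omega
      · have : par p (k, 9) = [(k, 2), (0, 0)] := by simp [par, hop]
        rw [this]
        simp [mem_nsl, rk, kd, hk, hsome, pos]
        omega
      · have : par p (k, 10) = [(k, 5), (j, 0)] := by simp [par, hop]
        rw [this]
        simp [mem_nsl, rk, kd, hk, hsome, pos]
        omega
      · have : par p (k, 11) = [(k, 2), (k, 4)] := by simp [par, hop]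
        rw [this]
        simp [mem_nsl, rk, kd, hk, hsome, pos]

theorem pat_wf {p : List Ins} (hp : WF 2 p) : (pat p).WF := by
  have hs := nsl_sorted p
  refine ⟨?_, fun a ha b hb => ((par_spec hp ha).2.2 b hb).2.2, fun a ha => (par_spec hp ha).1,
    fun a ha => (par_spec hp ha).2.1, ?_⟩
  · refine hs.imp ?_
    rintro a b h rfl
    omega
  · intro pr a po hns b hb
    have ha : a ∈ nsl p := by
      have : (pat p).ns = nsl p := rfl
      rw [← this, hns]
      simp
    obtain ⟨h1, h2, -⟩ := (par_spec hp ha).2.2 b hb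
    have h1' : b ∈ (pat p).ns := h1
    rw [hns, List.mem_append, List.mem_cons] at h1'
    have hs' : (pr ++ a :: po).Pairwise fun a b => rk a < rk b := by
      rw [← hns]; exact hs
    rw [List.pairwise_append, List.pairwise_cons] at hs'
    rcases h1' with h | rfl | h
    · exact h
    · omega
    · have := hs'.2.1.1 b h
      omega

end Pool.Agent.NPC.ER.Sgn
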