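import Pool.Agent.H612.PatSound

/-!
# Complete quadrilaterals
-/

namespace Pool.Agent.NPC.ER.Sgn

open Matrix Oslp

/-- The functional of slope `v a` in dual coordinates. -/
def DD (v U T : ℕ → ℝ) (a s : ℕ) : ℝ := if a = 0 then -U s else v a * U s - T s

/-- The reference point of a line. -/
def rf (t : ℕ) : ℕ := if t = 7 ∨ t = 8 then 3 else if t = 10 then 5 else 2

/-- Incidences inside an operation. -/
def inc (s t : ℕ) : Bool :=
  (s, t) ∈ [(2, 6), (3, 6), (3, 7), (5, 7), (3, 8), (4, 8), (2, 9), (5, 9), (4, 10), (5, 10),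
    (2, 11), (4, 11)]

/-- The index of a line. -/
def ai (k o l i j t : ℕ) : ℕ :=
  if t = 6 then i else
  if t = 7 then l else
  if t = 8 then o else
  if t = 9 then 0 else
  if t = 10 then j else k

theorem quad_exists {v : ℕ → ℝ} {k o l i j : ℕ} (hol : o < l) (hli : l < i) (hlj : l < j)
    (hik : i < k) (hjk : j < k) (vli : v l < v i) (vlj : v l < v j)
    (vol : 0 < o → v o < v l) (vjk : v j < v k) (vik : v i < v k)
    (h : Holds v k (some (o, l, i, j))) :
    ∃ U T : ℕ → ℝ, ∀ s t, 2 ≤ s → s ≤ 5 → 6 ≤ t → t ≤ 11 →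
      (inc s t = true → DD v U T (ai k o l i j t) s = DD v U T (ai k o l i j t) (rf t)) ∧
      (inc s t = false → SS (tb s t)
        (DD v U T (ai k o l i j t) s - DD v U T (ai k o l i j t) (rf t))) := by
  have hl0 : l ≠ 0 := by omega
  have hi0 : i ≠ 0 := by omega
  have hj0 : j ≠ 0 := by omega
  have hk0 : k ≠ 0 := by omega
  rcases Nat.eq_zero_or_pos o with ho | ho
  · have h1 := h.1 ho
    subst ho
    refine ⟨fun s => if s = 3 ∨ s = 4 then 1 else 0, fun s => if s = 3 then v i else
      if s = 4 then v k else if s = 5 then v i - v l else 0, ?_⟩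
    intro s t hs hs' ht ht'
    interval_cases s <;> interval_cases t <;>
      simp [inc, tb, DD, ai, rf, hl0, hi0, hj0, hk0] <;> linarith
  · have h1 := h.2 ho
    have vol' := vol ho
    have hJ : 0 < v j - v o := by linarith
    have hL : 0 < v l - v o := by linarith
    have hI : 0 < v i - v o := by linarith
    have ho0 : o ≠ 0 := by omega
    set q := (v l - v o) / (v j - v o) with hq
    have hqJ : q * (v j - v o) = v l - v o := by rw [hq]; field_simp
    have hq0 : 0 < q := by positivity
    have hq1 : q < 1 := by rw [hq, div_lt_one hJ]; linarith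
    have hqK : q * (v k - v o) = v i - v o := by
      rw [hq]
      field_simp
      linear_combination h1
    clear_value q
    refine ⟨fun s => if s = 3 then 1 else if s = 4 then q else 0, fun s => if s = 3 then v o else
      if s = 4 then v o * q else if s = 5 then -(v l - v o) else -(v i - v o), ?_⟩
    intro s t hs hs' ht ht'
    interval_cases s <;> interval_cases t <;>
      simp [inc, tb, DD, ai, rf, hl0, hi0, hj0, hk0, ho0] <;> nlinarith

end Pool.Agent.NPC.ER.Sgn
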