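import Pool.Agent.H612.PatOslp

/-!
# Exact realisations of the pattern of a program give solutions of the program
-/

namespace Pool.Agent.NPC.ER.Sgn

open Matrix Oslp

theorem dp3 (x y : Fin 3 → ℝ) : x ⬝ᵥ y = x 0 * y 0 + x 1 * y 1 + x 2 * y 2 := by
  simp [dotProduct, Fin.sum_univ_three]

/-- The determinant of the matrix of the pairings of three points with three lines. -/
def D3 (x y z A B C : Fin 3 → ℝ) : ℝ :=
  (x ⬝ᵥ A) * ((y ⬝ᵥ B) * (z ⬝ᵥ C) - (z ⬝ᵥ B) * (y ⬝ᵥ C)) -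
    (y ⬝ᵥ A) * ((x ⬝ᵥ B) * (z ⬝ᵥ C) - (z ⬝ᵥ B) * (x ⬝ᵥ C)) +
    (z ⬝ᵥ A) * ((x ⬝ᵥ B) * (y ⬝ᵥ C) - (y ⬝ᵥ B) * (x ⬝ᵥ C))

/-- The determinant of three vectors. -/
def E3 (x y z : Fin 3 → ℝ) : ℝ :=
  x 0 * (y 1 * z 2 - y 2 * z 1) - x 1 * (y 0 * z 2 - y 2 * z 0) + x 2 * (y 0 * z 1 - y 1 * z 0)

theorem D3_eq (x y z A B C : Fin 3 → ℝ) : D3 x y z A B C = E3 x y z * E3 A B C := by
  simp only [D3, E3, dp3]
  ring

theorem E3_zero {x y z h : Fin 3 → ℝ} (h0 : h ≠ 0) (hx : x ⬝ᵥ h = 0) (hy : y ⬝ᵥ h = 0)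
    (hz : z ⬝ᵥ h = 0) : E3 x y z = 0 := by
  rw [dp3] at hx hy hz
  have e0 : E3 x y z * h 0 = 0 := by
    simp only [E3]
    linear_combination (y 1 * z 2 - y 2 * z 1) * hx - (x 1 * z 2 - x 2 * z 1) * hy +
      (x 1 * y 2 - x 2 * y 1) * hz
  have e1 : E3 x y z * h 1 = 0 := by
    simp only [E3]
    linear_combination (y 2 * z 0 - y 0 * z 2) * hx - (x 2 * z 0 - x 0 * z 2) * hy +
      (x 2 * y 0 - x 0 * y 2) * hz
  have e2 : E3 x y z * h 2 = 0 := by
    simp only [E3]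
    linear_combination (y 0 * z 1 - y 1 * z 0) * hx - (x 0 * z 1 - x 1 * z 0) * hy +
      (x 0 * y 1 - x 1 * y 0) * hz
  by_contra hne
  apply h0
  ext i
  fin_cases i
  · exact (mul_eq_zero.1 e0).resolve_left hne
  · exact (mul_eq_zero.1 e1).resolve_left hne
  · exact (mul_eq_zero.1 e2).resolve_left hne

theorem D3_zero {x y z A B C h : Fin 3 → ℝ} (h0 : h ≠ 0) (hx : x ⬝ᵥ h = 0) (hy : y ⬝ᵥ h = 0)
    (hz : z ⬝ᵥ h = 0) : D3 x y z A B C = 0 := by
  rw [D3_eq, E3_zero h0 hx hy hz, zero_mul]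

theorem D3_zero' {x y z A B C s : Fin 3 → ℝ} (h0 : s ≠ 0) (hA : s ⬝ᵥ A = 0) (hB : s ⬝ᵥ B = 0)
    (hC : s ⬝ᵥ C = 0) : D3 x y z A B C = 0 := by
  rw [dotProduct_comm] at hA hB hC
  rw [D3_eq, E3_zero h0 hA hB hC, mul_zero]

section

variable {p : List Ins} {X : ℕ × ℕ → Fin 3 → ℝ}

theorem mem_S {k : ℕ} (hk : k < p.length + 2) : (k, 0) ∈ (pat p).ns :=
  mem_nsl.2 (Or.inr ⟨hk, Or.inl rfl⟩)

theorem mem_R {k : ℕ} (hk : k < p.length + 2) : (k, 1) ∈ (pat p).ns :=
  mem_nsl.2 (Or.inr ⟨hk, Or.inr (Or.inl rfl)⟩)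

theorem mem_L : (0, 12) ∈ (pat p).ns := mem_nsl.2 (Or.inl rfl)

theorem mem_G {k s : ℕ} (hk : k < p.length + 2) (h : (opd p k).isSome = true) (h2 : 2 ≤ s)
    (h11 : s ≤ 11) : (k, s) ∈ (pat p).ns :=
  mem_nsl.2 (Or.inr ⟨hk, Or.inr (Or.inr ⟨h, h2, h11⟩)⟩)

theorem par_S {k : ℕ} : (0, 12) ∈ par p (k, 0) := by
  unfold par
  rcases h : opd p k with _ | ⟨o, l, i, j⟩
  · simp
  · simp

theorem par_R {k : ℕ} : par p (k, 1) = [(k, 0)] := by
  unfold par
  rcases h : opd p k with _ | ⟨o, l, i, j⟩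
  · simp
  · simp

/-- The basic facts about the points `S k` and the lines `R k`. -/
theorem sr_facts (hX : (pat p).Exact X) {a b : ℕ} (ha : a < p.length + 2) (hb : b < p.length + 2) :
    X (a, 0) ⬝ᵥ X (0, 12) = 0 ∧ (a = b → X (a, 0) ⬝ᵥ X (b, 1) = 0) ∧
      (a < b → 0 < X (a, 0) ⬝ᵥ X (b, 1)) ∧ (b < a → X (a, 0) ⬝ᵥ X (b, 1) < 0) := by
  have h1 := hX (a, 0) (mem_S ha) (0, 12) mem_L (by simp [pat, kd]) (by simp [pat, kd])
  have h2 := hX (a, 0) (mem_S ha) (b, 1) (mem_R hb) (by simp [pat, kd]) (by simp [pat, kd])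
  have haidx : aidx p (b, 1) = b := by
    unfold aidx
    rcases h : opd p b with _ | ⟨o, l, i, j⟩
    · simp
    · simp
  have hpar : ((a, 0) ∈ par p (b, 1) ∨ (b, 1) ∈ par p (a, 0)) ↔ a = b := by
    rw [par_R]
    constructor
    · rintro (h | h)
      · simpa using h
      · exfalso
        unfold par at h
        rcases h' : opd p a with _ | ⟨o, l, i, j⟩
        · simp [h'] at h
        · simp [h'] at h
    · rintro rfl
      simp
  refine ⟨h1.1 (Or.inr par_S), fun hab => h2.1 (hpar.2 hab), fun hab => ?_, fun hab => ?_⟩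
  · have := h2.2 (fun h => by have := hpar.1 h; omega)
    simpa [pat, sg, haidx, hab] using this
  · have := h2.2 (fun h => by have := hpar.1 h; omega)
    have hab' : ¬ a < b := by omega
    simpa [pat, sg, haidx, hab'] using this

theorem par_line {k t o l i j : ℕ} (hop : opd p k = some (o, l, i, j)) (ht : 6 ≤ t) (ht' : t ≤ 11)
    (b : ℕ) : ((b, 0) ∈ par p (k, t) ∨ (k, t) ∈ par p (b, 0)) ↔ b = aidx p (k, t) := by
  have hS : (k, t) ∈ par p (b, 0) ↔ (t = 11 ∧ k = b) := by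
    unfold par
    rcases h : opd p b with _ | ⟨o', l', i', j'⟩
    · simp only [if_true, List.mem_singleton, Prod.mk.injEq]
      constructor
      · rintro ⟨-, h⟩; omega
      · rintro ⟨-, rfl⟩
        rw [hop] at h
        simp at h
    · simp only [if_true, List.mem_cons, List.not_mem_nil, or_false, Prod.mk.injEq]
      omega
  rw [hS]
  interval_cases t
  · have h1 : par p (k, 6) = [(k, 2), (i, 0)] := by simp [par, hop]
    have h2 : aidx p (k, 6) = i := by simp [aidx, hop]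
    rw [h1, h2]; simp
  · have h1 : par p (k, 7) = [(k, 3), (l, 0)] := by simp [par, hop]
    have h2 : aidx p (k, 7) = l := by simp [aidx, hop]
    rw [h1, h2]; simp
  · have h1 : par p (k, 8) = [(k, 3), (o, 0)] := by simp [par, hop]
    have h2 : aidx p (k, 8) = o := by simp [aidx, hop]
    rw [h1, h2]; simp
  · have h1 : par p (k, 9) = [(k, 2), (0, 0)] := by simp [par, hop]
    have h2 : aidx p (k, 9) = 0 := by simp [aidx, hop]
    rw [h1, h2]; simp
  · have h1 : par p (k, 10) = [(k, 5), (j, 0)] := by simp [par, hop]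
    have h2 : aidx p (k, 10) = j := by simp [aidx, hop]
    rw [h1, h2]; simp
  · have h1 : par p (k, 11) = [(k, 2), (k, 4)] := by simp [par, hop]
    have h2 : aidx p (k, 11) = k := by simp [aidx, hop]
    rw [h1, h2]; simp [eq_comm]

theorem aidx_lt (hp : WF 2 p) {k t o l i j : ℕ} (hop : opd p k = some (o, l, i, j)) :
    aidx p (k, t) < p.length + 2 := by
  obtain ⟨g1, g2, g3, g4, g5, g6, g7⟩ := opd_wf hp hop
  unfold aidx
  rw [hop]
  simp only
  split_ifs <;> omega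

/-- The facts about the line `(k, t)` of an operation and the points of `ℓ`. -/
theorem line_facts (hX : (pat p).Exact X) {k t o l i j : ℕ}
    (hk : k < p.length + 2) (hop : opd p k = some (o, l, i, j)) (ht : 6 ≤ t) (ht' : t ≤ 11)
    {b : ℕ} (hb : b < p.length + 2) :
    (b = aidx p (k, t) → X (b, 0) ⬝ᵥ X (k, t) = 0) ∧
    (b < aidx p (k, t) → 0 < X (b, 0) ⬝ᵥ X (k, t)) ∧
      (aidx p (k, t) < b → X (b, 0) ⬝ᵥ X (k, t) < 0) := by
  have h2 := hX (b, 0) (mem_S hb) (k, t) (mem_G hk (by rw [hop]; rfl) (by omega) ht')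
    (by simp [pat, kd]) (by simp [pat, kd]; omega)
  have h3 : ((b, 0) ∈ (pat p).par (k, t) ∨ (k, t) ∈ (pat p).par (b, 0)) ↔ b = aidx p (k, t) :=
    par_line hop ht ht' b
  rw [h3] at h2
  have e1 : (t = 12) = False := by simp; omega
  refine ⟨h2.1, fun hlt => ?_, fun hge => ?_⟩
  · have := h2.2 (by omega)
    simpa [pat, sg, e1, hlt] using this
  · have := h2.2 (by omega)
    have hge' : ¬ b < aidx p (k, t) := by omega
    simpa [pat, sg, e1, hge'] using this

theorem line_ne (hX : (pat p).Exact X) (hlen : 0 < p.length) {k t o l i j : ℕ}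
    (hk : k < p.length + 2) (hop : opd p k = some (o, l, i, j)) (ht : 6 ≤ t) (ht' : t ≤ 11) :
    X (k, t) ≠ 0 := by
  intro h0
  rcases Nat.eq_zero_or_pos (aidx p (k, t)) with h | h
  · have := (line_facts hX hk hop ht ht' (b := 1) (by omega)).2.2 (by omega)
    rw [h0] at this
    simp at this
  · have := (line_facts hX hk hop ht ht' (b := 0) (by omega)).2.1 (by omega)
    rw [h0] at this
    simp at this

/-- The coordinates of the points. -/
noncomputable def vv (X : ℕ × ℕ → Fin 3 → ℝ) (a : ℕ) : ℝ :=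
  (X (a, 0) ⬝ᵥ X (1, 1)) / (X (a, 0) ⬝ᵥ X (0, 1))

/-- The first dual coordinate. -/
noncomputable def uu (X : ℕ × ℕ → Fin 3 → ℝ) (x : Fin 3 → ℝ) : ℝ :=
  -(x ⬝ᵥ X (0, 1)) / (x ⬝ᵥ X (0, 12))

/-- The second dual coordinate. -/
noncomputable def tt (X : ℕ × ℕ → Fin 3 → ℝ) (x : Fin 3 → ℝ) : ℝ :=
  -(x ⬝ᵥ X (1, 1)) / (x ⬝ᵥ X (0, 12))

theorem line_rel (hX : (pat p).Exact X) {x y h : Fin 3 → ℝ} {a : ℕ}
    (ha : a < p.length + 2) (h0 : h ≠ 0) (hx : x ⬝ᵥ h = 0) (hy : y ⬝ᵥ h = 0)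
    (hS : X (a, 0) ⬝ᵥ h = 0) (hxL : 0 < x ⬝ᵥ X (0, 12)) (hyL : 0 < y ⬝ᵥ X (0, 12)) :
    (a = 0 → uu X x = uu X y) ∧
    (0 < a → tt X x - tt X y = vv X a * (uu X x - uu X y)) := by
  have hD := D3_zero (A := X (0, 1)) (B := X (1, 1)) (C := X (0, 12)) h0 hx hy hS
  unfold D3 at hD
  obtain ⟨f1, f2, f3, f4⟩ := sr_facts hX ha (show 0 < p.length + 2 by omega)
  obtain ⟨-, g2, g3, g4⟩ := sr_facts hX ha (show 1 < p.length + 2 by omega)
  rw [f1] at hD
  constructor
  · intro h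
    subst h
    have e2 := f2 rfl
    have e3 := g3 (by omega)
    rw [e2] at hD
    unfold uu
    rw [div_eq_div_iff hxL.ne' hyL.ne']
    have : (X (0, 0) ⬝ᵥ X (1, 1)) * ((y ⬝ᵥ X (0, 1)) * (x ⬝ᵥ X (0, 12)) -
        (x ⬝ᵥ X (0, 1)) * (y ⬝ᵥ X (0, 12))) = 0 := by
      linear_combination hD
    rcases mul_eq_zero.1 this with h | h
    · exact absurd h e3.ne'
    · linear_combination h
  · intro h
    have e4 := f4 h
    unfold tt vv uu
    rw [div_sub_div _ _ hxL.ne' hyL.ne', div_sub_div _ _ hxL.ne' hyL.ne', div_mul_div_comm,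
      div_eq_div_iff (mul_ne_zero hxL.ne' hyL.ne')
        (mul_ne_zero e4.ne (mul_ne_zero hxL.ne' hyL.ne'))]
    linear_combination -(x ⬝ᵥ X (0, 12)) * (y ⬝ᵥ X (0, 12)) * hD

/-- The values increase. -/
theorem vv_lt (hX : (pat p).Exact X) (hL : X (0, 12) ≠ 0) {a b : ℕ} (ha : 0 < a) (hab : a < b)
    (hb : b < p.length + 2) : vv X a < vv X b := by
  obtain ⟨f1, -, -, f4⟩ := sr_facts hX (a := a) (b := 0) (by omega) (by omega)
  obtain ⟨k1, -, -, k4⟩ := sr_facts hX (a := b) (b := 0) (by omega) (by omega)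
  obtain ⟨m1, m2, -, -⟩ := sr_facts hX (a := 0) (b := 0) (by omega) (by omega)
  have ra := f4 ha
  have rb := k4 (by omega)
  have r0 := m2 rfl
  have q1 := (sr_facts hX (a := 0) (b := 1) (by omega) (by omega)).2.2.1 (by omega)
  have qa := (sr_facts hX (a := 0) (b := a) (by omega) (by omega)).2.2.1 (by omega)
  have qaa := (sr_facts hX (a := a) (b := a) (by omega) (by omega)).2.1 rfl
  have qb := (sr_facts hX (a := b) (b := a) (by omega) (by omega)).2.2.2 hab
  have hD := D3_zero (A := X (0, 1)) (B := X (1, 1)) (C := X (a, 1)) hL m1 f1 k1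
  unfold D3 at hD
  rw [r0, qaa] at hD
  have key : ((X (a, 0) ⬝ᵥ X (0, 1)) * (X (b, 0) ⬝ᵥ X (1, 1)) -
      (X (b, 0) ⬝ᵥ X (0, 1)) * (X (a, 0) ⬝ᵥ X (1, 1))) * (X (0, 0) ⬝ᵥ X (a, 1)) =
      (X (a, 0) ⬝ᵥ X (0, 1)) * (X (0, 0) ⬝ᵥ X (1, 1)) * (X (b, 0) ⬝ᵥ X (a, 1)) := by
    linear_combination hD
  have hpos : 0 < (X (a, 0) ⬝ᵥ X (0, 1)) * (X (0, 0) ⬝ᵥ X (1, 1)) * (X (b, 0) ⬝ᵥ X (a, 1)) :=
    mul_pos_of_neg_of_neg (mul_neg_of_neg_of_pos ra q1) qb
  rw [← key] at hpos
  have h2 := pos_of_mul_pos_left hpos qa.le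
  have h3 : 0 < (X (a, 0) ⬝ᵥ X (0, 1)) * (X (b, 0) ⬝ᵥ X (0, 1)) := mul_pos_of_neg_of_neg ra rb
  have h4 : vv X b - vv X a = ((X (a, 0) ⬝ᵥ X (0, 1)) * (X (b, 0) ⬝ᵥ X (1, 1)) -
      (X (b, 0) ⬝ᵥ X (0, 1)) * (X (a, 0) ⬝ᵥ X (1, 1))) /
      ((X (a, 0) ⬝ᵥ X (0, 1)) * (X (b, 0) ⬝ᵥ X (0, 1))) := by
    unfold vv
    rw [div_sub_div _ _ rb.ne ra.ne]
    congr 1 <;> ring
  have h5 := div_pos h2 h3
  linarith

/-- The signs of the points of an operation. -/
theorem P_facts (hX : (pat p).Exact X) (hp : WF 2 p) {k s o l i j : ℕ}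
    (hop : opd p k = some (o, l, i, j)) (hs : 2 ≤ s) (hs' : s ≤ 5) :
    0 < X (k, s) ⬝ᵥ X (0, 12) := by
  obtain ⟨g1, g2, g3, g4, g5, g6, g7⟩ := opd_wf hp hop
  have h := (hX (k, s) (mem_G g2 (by rw [hop]; rfl) (by omega) (by omega)) (0, 12) mem_L
    (by simp [pat, kd, hs, hs']) (by simp [pat, kd])).2 (by
      rintro (h | h)
      · have h' : (k, s) ∈ par p (0, 12) := h
        have : par p (0, 12) = [] := by simp [par, opd]
        rw [this] at h'
        simp at h'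
      · have h' : (0, 12) ∈ par p (k, s) := h
        unfold par at h'
        rw [hop] at h'
        interval_cases s <;> simp at h')
  simpa [pat, sg] using h

/-- The incidences of an operation. -/
theorem inc_facts (hX : (pat p).Exact X) (hp : WF 2 p) {k o l i j : ℕ}
    (hop : opd p k = some (o, l, i, j)) {s t : ℕ} (hs : 2 ≤ s) (hs' : s ≤ 5) (ht : 6 ≤ t)
    (ht' : t ≤ 11) (h : (k, s) ∈ par p (k, t) ∨ (k, t) ∈ par p (k, s)) :
    X (k, s) ⬝ᵥ X (k, t) = 0 := by
  obtain ⟨g1, g2, g3, g4, g5, g6, g7⟩ := opd_wf hp hop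
  exact (hX (k, s) (mem_G g2 (by rw [hop]; rfl) (by omega) (by omega)) (k, t)
    (mem_G g2 (by rw [hop]; rfl) (by omega) (by omega))
    (by simp [pat, kd, hs, hs']) (by simp [pat, kd]; omega)).1 h

theorem op_holds (hX : (pat p).Exact X) (hp : WF 2 p) {k o l i j : ℕ}
    (hop : opd p k = some (o, l, i, j)) : Holds (vv X) k (some (o, l, i, j)) := by
  obtain ⟨g1, g2, g3, g4, g5, g6, g7⟩ := opd_wf hp hop
  have hlen : 0 < p.length := by omega
  have hsome : (opd p k).isSome = true := by rw [hop]; rfl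
  have L2 := P_facts hX hp hop (s := 2) (by norm_num) (by norm_num)
  have L3 := P_facts hX hp hop (s := 3) (by norm_num) (by norm_num)
  have L4 := P_facts hX hp hop (s := 4) (by norm_num) (by norm_num)
  have L5 := P_facts hX hp hop (s := 5) (by norm_num) (by norm_num)
  have hrel : ∀ t, 6 ≤ t → t ≤ 11 → ∀ x y : Fin 3 → ℝ, x ⬝ᵥ X (k, t) = 0 → y ⬝ᵥ X (k, t) = 0 →
      0 < x ⬝ᵥ X (0, 12) → 0 < y ⬝ᵥ X (0, 12) →
      (aidx p (k, t) = 0 → uu X x = uu X y) ∧
      (0 < aidx p (k, t) → tt X x - tt X y = vv X (aidx p (k, t)) * (uu X x - uu X y)) := by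
    intro t ht ht' x y hx hy hxL hyL
    have ha := aidx_lt (t := t) hp hop
    exact line_rel hX ha (line_ne hX hlen g2 hop ht ht') hx hy
      ((line_facts hX g2 hop ht ht' ha).1 rfl) hxL hyL
  have a6 : aidx p (k, 6) = i := by simp [aidx, hop]
  have a7 : aidx p (k, 7) = l := by simp [aidx, hop]
  have a8 : aidx p (k, 8) = o := by simp [aidx, hop]
  have a9 : aidx p (k, 9) = 0 := by simp [aidx, hop]
  have a10 : aidx p (k, 10) = j := by simp [aidx, hop]
  have a11 : aidx p (k, 11) = k := by simp [aidx, hop]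
  have i26 := inc_facts hX hp hop (s := 2) (t := 6) (by norm_num) (by norm_num) (by norm_num)
    (by norm_num) (by simp [par, hop])
  have i36 := inc_facts hX hp hop (s := 3) (t := 6) (by norm_num) (by norm_num) (by norm_num)
    (by norm_num) (by simp [par, hop])
  have i37 := inc_facts hX hp hop (s := 3) (t := 7) (by norm_num) (by norm_num) (by norm_num)
    (by norm_num) (by simp [par, hop])
  have i57 := inc_facts hX hp hop (s := 5) (t := 7) (by norm_num) (by norm_num) (by norm_num)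
    (by norm_num) (by simp [par, hop])
  have i38 := inc_facts hX hp hop (s := 3) (t := 8) (by norm_num) (by norm_num) (by norm_num)
    (by norm_num) (by simp [par, hop])
  have i48 := inc_facts hX hp hop (s := 4) (t := 8) (by norm_num) (by norm_num) (by norm_num)
    (by norm_num) (by simp [par, hop])
  have i29 := inc_facts hX hp hop (s := 2) (t := 9) (by norm_num) (by norm_num) (by norm_num)
    (by norm_num) (by simp [par, hop])
  have i59 := inc_facts hX hp hop (s := 5) (t := 9) (by norm_num) (by norm_num) (by norm_num)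
    (by norm_num) (by simp [par, hop])
  have i410 := inc_facts hX hp hop (s := 4) (t := 10) (by norm_num) (by norm_num) (by norm_num)
    (by norm_num) (by simp [par, hop])
  have i510 := inc_facts hX hp hop (s := 5) (t := 10) (by norm_num) (by norm_num) (by norm_num)
    (by norm_num) (by simp [par, hop])
  have i211 := inc_facts hX hp hop (s := 2) (t := 11) (by norm_num) (by norm_num) (by norm_num)
    (by norm_num) (by simp [par, hop])
  have i411 := inc_facts hX hp hop (s := 4) (t := 11) (by norm_num) (by norm_num) (by norm_num)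
    (by norm_num) (by simp [par, hop])
  -- the relations
  have r6 := (hrel 6 (by norm_num) (by norm_num) _ _ i26 i36 L2 L3).2 (by rw [a6]; omega)
  have r7 := (hrel 7 (by norm_num) (by norm_num) _ _ i37 i57 L3 L5).2 (by rw [a7]; omega)
  have r8 := hrel 8 (by norm_num) (by norm_num) _ _ i38 i48 L3 L4
  have r9 := (hrel 9 (by norm_num) (by norm_num) _ _ i29 i59 L2 L5).1 a9
  have r10 := (hrel 10 (by norm_num) (by norm_num) _ _ i410 i510 L4 L5).2 (by rw [a10]; omega)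
  have r11 := (hrel 11 (by norm_num) (by norm_num) _ _ i211 i411 L2 L4).2 (by rw [a11]; omega)
  rw [a6] at r6
  rw [a7] at r7
  rw [a8] at r8
  rw [a10] at r10
  rw [a11] at r11
  -- nondegeneracy
  have hne : uu X (X (k, 3)) ≠ uu X (X (k, 2)) := by
    intro heq
    have n39 : X (k, 3) ⬝ᵥ X (k, 9) < 0 := by
      have := (hX (k, 3) (mem_G g2 hsome (by omega) (by omega)) (k, 9)
        (mem_G g2 hsome (by omega) (by omega))
        (by simp [pat, kd]) (by simp [pat, kd])).2 (by simp [pat, par, hop])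
      simpa [pat, sg, tb] using this
    obtain ⟨m1, m2, -, -⟩ := sr_facts hX (a := 0) (b := 0) (by omega) (by omega)
    obtain ⟨e1, -, -, e4⟩ := sr_facts hX (a := 1) (b := 0) (by omega) (by omega)
    have q1 := (sr_facts hX (a := 0) (b := 1) (by omega) (by omega)).2.2.1 (by omega)
    have hS0 : X (0, 0) ≠ 0 := by
      intro h
      rw [h] at q1
      simp at q1
    have z9 := (line_facts hX g2 hop (t := 9) (by norm_num) (by norm_num) (b := 0) (by omega)).1
      a9.symm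
    have hD := D3_zero' (x := X (k, 2)) (y := X (k, 3)) (z := X (1, 0)) hS0 (m2 rfl) m1 z9
    unfold D3 at hD
    rw [e1, i29] at hD
    unfold uu at heq
    rw [div_eq_div_iff L3.ne' L2.ne'] at heq
    have h1 := e4 (by norm_num)
    have : (X (1, 0) ⬝ᵥ X (0, 1)) * (X (k, 2) ⬝ᵥ X (0, 12)) * (X (k, 3) ⬝ᵥ X (k, 9)) = 0 := by
      linear_combination hD - (X (1, 0) ⬝ᵥ X (k, 9)) * heq
    have h2 : 0 < (X (1, 0) ⬝ᵥ X (0, 1)) * (X (k, 2) ⬝ᵥ X (0, 12)) * (X (k, 3) ⬝ᵥ X (k, 9)) :=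
      mul_pos_of_neg_of_neg (mul_neg_of_neg_of_pos h1 L2) n39
    linarith
  show (o = 0 → vv X k + vv X l = vv X i + vv X j) ∧
    (0 < o → (vv X k - vv X o) * (vv X l - vv X o) = (vv X i - vv X o) * (vv X j - vv X o))
  generalize uu X (X (k, 2)) = u1 at *
  generalize uu X (X (k, 3)) = u2 at *
  generalize uu X (X (k, 4)) = u3 at *
  generalize uu X (X (k, 5)) = u4 at *
  generalize tt X (X (k, 2)) = t1 at *
  generalize tt X (X (k, 3)) = t2 at *
  generalize tt X (X (k, 4)) = t3 at *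
  generalize tt X (X (k, 5)) = t4 at *
  generalize vv X i = vi at *
  generalize vv X j = vj at *
  generalize vv X l = vl at *
  generalize vv X k = vk at *
  generalize vv X o = vo at *
  have hx : u2 - u1 ≠ 0 := sub_ne_zero.2 hne
  subst r9
  have E1 : (vi - vl) * (u2 - u1) = (vk - vj) * (u3 - u1) := by
    linear_combination r6 + r7 - r10 - r11
  refine ⟨fun ho => ?_, fun ho => ?_⟩
  · have r8' := r8.1 ho
    subst r8'
    have : (vi - vl - (vk - vj)) * (u2 - u1) = 0 := by linear_combination E1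
    rcases mul_eq_zero.1 this with h | h
    · linarith
    · exact absurd h hx
  · have r8' := r8.2 ho
    have E2 : (vi - vo) * (u2 - u1) = (vk - vo) * (u3 - u1) := by
      linear_combination r6 + r8' - r11
    have : ((vk - vo) * (vl - vo) - (vi - vo) * (vj - vo)) * (u2 - u1) = 0 := by
      linear_combination (vk - vj) * E2 - (vk - vo) * E1
    rcases mul_eq_zero.1 this with h | h
    · linarith
    · exact absurd h hx

/-- **Soundness of the pattern.** -/
theorem exact_sound (hp : WF 2 p) (hX : (pat p).Exact X) (hop : ∃ k, (opd p k).isSome = true) :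
    OSat p := by
  have hL : X (0, 12) ≠ 0 := by
    obtain ⟨k, hk⟩ := hop
    obtain ⟨⟨o, l, i, j⟩, hk⟩ := Option.isSome_iff_exists.1 hk
    have := P_facts hX hp hk (s := 2) (by norm_num) (by norm_num)
    intro h
    rw [h] at this
    simp at this
  refine ⟨vv X, run_iff.2 fun k hk hk' => ⟨vv_lt hX hL (by omega) (by omega) hk', ?_⟩⟩
  rcases h : opd p k with _ | ⟨o, l, i, j⟩
  · trivial
  · exact op_holds hX hp h

end

end Pool.Agent.NPC.ER.Sgn
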